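import Pool.Agent.Helper19.BD.ELocal

/-!
MP_bd232a_nt, part E, block E19 (partition of unity in the cone). The compact set `tsupport Ψ` is covered by finitely many cones `cone ps d(ps)` (`ps = (x₁/x₀, x₂/x₀) ∈ U` because
`λ_i(x) = x₀ ω_i(x'/x₀) > 0`); `SmoothPartitionOfUnity` or `exists_contDiff...`: `Ψ = Σ Ψ_l` with `Ψ_l` smooth, compactly supported in one of the (open) cones; `ES` is additive in `Ψ`.
-/

open scoped ContDiff Manifold

namespace Pool.Agent.Helper19.BD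

private theorem cone_open (ps : ℝ × ℝ) (d : ℝ) : IsOpen (cone ps d) := by
  have e : cone ps d = {x : Fin 3 → ℝ | 0 < x 0} ∩ ({x | |x 1 - ps.1 * x 0| < d * x 0} ∩
      {x | |x 2 - ps.2 * x 0| < d * x 0}) := by
    ext x
    simp only [cone, Set.mem_ofPred_eq, Set.mem_inter_iff]
    constructor
    · rintro ⟨h0, h1, h2⟩
      refine ⟨h0, ?_, ?_⟩
      · have e1 : x 1 - ps.1 * x 0 = (x 1 / x 0 - ps.1) * x 0 := by field_simp
        rw [e1, abs_mul, abs_of_pos h0]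
        exact mul_lt_mul_of_pos_right h1 h0
      · have e1 : x 2 - ps.2 * x 0 = (x 2 / x 0 - ps.2) * x 0 := by field_simp
        rw [e1, abs_mul, abs_of_pos h0]
        exact mul_lt_mul_of_pos_right h2 h0
    · rintro ⟨h0, h1, h2⟩
      refine ⟨h0, ?_, ?_⟩
      · have e1 : x 1 - ps.1 * x 0 = (x 1 / x 0 - ps.1) * x 0 := by field_simp
        rw [e1, abs_mul, abs_of_pos h0] at h1
        exact lt_of_mul_lt_mul_right h1 h0.le
      · have e1 : x 2 - ps.2 * x 0 = (x 2 / x 0 - ps.2) * x 0 := by field_simp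
        rw [e1, abs_mul, abs_of_pos h0] at h2
        exact lt_of_mul_lt_mul_right h2 h0.le
  rw [e]
  refine (isOpen_lt (by fun_prop) (by fun_prop)).inter ((isOpen_lt (by fun_prop) (by fun_prop)).inter
    (isOpen_lt (by fun_prop) (by fun_prop)))

private theorem finite_lattice {Φ : (Fin 3 → ℝ) → ℂ} (hc : HasCompactSupport Φ) {X : ℝ} (hX : 1 ≤ X)
    (κ : ℝ) (g : Geo) : Summable fun y : Fin 3 → ℤ =>
      Φ (fun i => (y i : ℝ) / X) * ex (κ * g.phi (fun i => (y i : ℝ))) := by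
  have hX0 : 0 < X := by linarith
  obtain ⟨R, hR⟩ := hc.isBounded.exists_norm_le
  apply summable_of_hasFiniteSupport
  have hfin : (Set.Icc (fun _ : Fin 3 => -⌈R * X⌉) (fun _ : Fin 3 => ⌈R * X⌉)).Finite :=
    Set.finite_Icc _ _
  refine hfin.subset fun y hy => ?_
  have h1 : Φ (fun i => (y i : ℝ) / X) ≠ 0 := by
    intro h0
    rw [Function.mem_support] at hy
    exact hy (by rw [h0, zero_mul])
  have h2 : ‖(fun i => (y i : ℝ) / X : Fin 3 → ℝ)‖ ≤ R := hR _ (subset_tsupport _ h1)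
  have h3 : ∀ i, |(y i : ℝ)| ≤ R * X := by
    intro i
    have h4 := (norm_le_pi_norm (fun i => (y i : ℝ) / X : Fin 3 → ℝ) i).trans h2
    rw [Real.norm_eq_abs, abs_div, abs_of_pos hX0, div_le_iff₀ hX0] at h4
    exact h4
  constructor
  · intro i
    have h4 := (abs_le.1 (h3 i)).1
    have h5 : -(⌈R * X⌉ : ℝ) ≤ (y i : ℝ) := by linarith [Int.le_ceil (R * X)]
    exact_mod_cast h5
  · intro i
    have h4 := (abs_le.1 (h3 i)).2
    have h5 : (y i : ℝ) ≤ (⌈R * X⌉ : ℝ) := by linarith [Int.le_ceil (R * X)]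
    exact_mod_cast h5

theorem es_global (g : Geo) (κ₁ κ₂ : ℝ) (hκ : 0 < κ₁) (hκ₂ : κ₁ ≤ κ₂) (Ψ : (Fin 3 → ℝ) → ℂ) (hΨ : ContDiff ℝ ∞ Ψ)
    (hc : HasCompactSupport Ψ) (hs : tsupport Ψ ⊆ {x | 0 < x 0 ∧ ∀ i, 0 < g.lam i x}) :
    ∃ C : ℝ, ∀ X κ : ℝ, 1 ≤ X → κ₁ ≤ κ → κ ≤ κ₂ → ‖ES g Ψ κ X‖ ≤ C * X ^ (249 / 100 : ℝ) := by
  classical
  -- the cones
  have hU : ∀ x : (Fin 3 → ℝ), x ∈ tsupport Ψ → (x 1 / x 0, x 2 / x 0) ∈ g.U := by
    intro x hx i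
    obtain ⟨h0, h1⟩ := hs hx
    have h2 := h1 i
    have e : g.om i (x 1 / x 0, x 2 / x 0) = g.lam i x / x 0 := by
      simp only [Geo.om, Geo.lam]
      field_simp
    rw [e]
    exact div_pos h2 h0
  have hd : ∀ x : tsupport Ψ, ∃ d : ℝ, 0 < d ∧
      ∀ (κ₁ κ₂ : ℝ) (Φ : (Fin 3 → ℝ) → ℂ), 0 < κ₁ → κ₁ ≤ κ₂ → ContDiff ℝ ∞ Φ → HasCompactSupport Φ →
      tsupport Φ ⊆ cone ((x : Fin 3 → ℝ) 1 / (x : Fin 3 → ℝ) 0, (x : Fin 3 → ℝ) 2 / (x : Fin 3 → ℝ) 0) d →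
      ∃ C : ℝ, ∀ X κ : ℝ, 1 ≤ X → κ₁ ≤ κ → κ ≤ κ₂ →
      ‖ES g Φ κ X‖ ≤ C * X ^ (249 / 100 : ℝ) := fun x => es_local g _ (hU x x.2)
  choose d hd0 hd1 using hd
  set V : tsupport Ψ → Set (Fin 3 → ℝ) := fun x =>
    cone ((x : Fin 3 → ℝ) 1 / (x : Fin 3 → ℝ) 0, (x : Fin 3 → ℝ) 2 / (x : Fin 3 → ℝ) 0) (d x) with hV
  have hmem : ∀ x : tsupport Ψ, (x : Fin 3 → ℝ) ∈ V x := by
    intro x
    refine ⟨(hs x.2).1, ?_, ?_⟩
    · rw [sub_self, abs_zero]; exact hd0 x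
    · rw [sub_self, abs_zero]; exact hd0 x
  obtain ⟨t, ht⟩ := hc.isCompact.elim_finite_subcover V (fun x => cone_open _ _)
    (fun x hx => Set.mem_iUnion.2 ⟨⟨x, hx⟩, hmem ⟨x, hx⟩⟩)
  -- the partition of unity
  obtain ⟨f, hf⟩ := SmoothPartitionOfUnity.exists_isSubordinate (M := Fin 3 → ℝ)
    (modelWithCornersSelf ℝ (Fin 3 → ℝ)) (isClosed_tsupport Ψ) (fun l : t => V l)
    (fun l => cone_open _ _) (by
      intro x hx
      obtain ⟨y, hy, hxy⟩ := Set.mem_iUnion₂.1 (ht hx)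
      exact Set.mem_iUnion.2 ⟨⟨y, hy⟩, hxy⟩)
  set Φ : t → (Fin 3 → ℝ) → ℂ := fun l x => ((f l x : ℝ) : ℂ) * Ψ x with hΦ
  have hΦs : ∀ l, ContDiff ℝ ∞ (Φ l) := by
    intro l
    have h1 : ContDiff ℝ ∞ (f l) := (f l).contMDiff.contDiff
    exact (Complex.ofRealCLM.contDiff.comp h1).mul hΨ
  have hΦc : ∀ l, HasCompactSupport (Φ l) := fun l => hc.mul_left
  have hΦt : ∀ l, tsupport (Φ l) ⊆ V l := by
    intro l
    refine Set.Subset.trans ?_ (hf l)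
    apply closure_mono
    intro x hx
    rw [Function.mem_support] at hx ⊢
    intro h0
    exact hx (by simp only [hΦ, h0, Complex.ofReal_zero, zero_mul])
  have hsum : ∀ x, Ψ x = ∑ l : t, Φ l x := by
    intro x
    simp only [hΦ]
    rw [← Finset.sum_mul]
    by_cases hx : x ∈ tsupport Ψ
    · have h1 := f.sum_eq_one hx
      rw [finsum_eq_sum_of_fintype] at h1
      have h2 : ∑ l : t, ((f l x : ℝ) : ℂ) = 1 := by exact_mod_cast h1
      rw [h2, one_mul]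
    · rw [image_eq_zero_of_notMem_tsupport hx, mul_zero]
  choose C hC using fun l : t => hd1 l κ₁ κ₂ (Φ l) hκ hκ₂ (hΦs l) (hΦc l) (hΦt l)
  refine ⟨∑ l, C l, fun X κ hX h1 h2 => ?_⟩
  have e : ES g Ψ κ X = ∑ l : t, ES g (Φ l) κ X := by
    unfold ES
    rw [← Summable.tsum_finsetSum (fun l _ => finite_lattice (hΦc l) hX κ g)]
    congr 1
    ext y
    rw [hsum, Finset.sum_mul]
  rw [e, Finset.sum_mul]
  exact (norm_sum_le _ _).trans (Finset.sum_le_sum fun l _ => hC l X κ hX h1 h2)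

end Pool.Agent.Helper19.BD
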