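import Pool.Agent.Helper88.BD.HeckeF
import Pool.Agent.Helper97.BD.PartB
import Pool.Agent.Helper25.BC.Final
import Pool.Agent.Helper83.BDF.PartF

/-!
MP_bd232a_nt: assembly of the parts A (helper88), B (helper97), C (helper25), E, F (helper83).
-/

open Complex

namespace Pool.Agent.Helper19.BD

theorem feNu_deg (nu : Fin 3 → ℝ) (om : ℂ) (hom : ‖om‖ = 1) : (feNu nu om hom).deg = 3 := by
  change 2 * ∑ _j : Fin 3, (1 / 2 : ℝ) = 3
  norm_num [Finset.sum_const]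

theorem HeckeF.isSelbergDeg (H : HeckeF) : IsSelbergDeg H.F 3 := ⟨H.a, _, H.selberg, feNu_deg _ _ _⟩

theorem HeckeF.not_one (H : HeckeF) : ¬ EqOff H.F (fun _ => 1) := by
  intro h
  obtain ⟨s, hs1, hs2⟩ := (Pool.Agent.Helper83.BDF.infinite_zeros H).nonempty
  have hs : s ≠ 1 := by
    rintro rfl
    norm_num at hs1
  have := h s hs
  rw [hs2] at this
  norm_num at this

theorem HeckeF.primitive (H : HeckeF) : IsPrimitive H.F := by
  refine ⟨⟨H.a, _, H.selberg⟩, H.not_one, fun F₁ F₂ h₁ h₂ heq => ?_⟩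
  by_contra hcon
  rw [not_or] at hcon
  rcases partB H.isSelbergDeg h₁ h₂ heq hcon.1 hcon.2 with ⟨hd, q, hq, c, η, C₂, hf⟩ | ⟨hd, q, hq, c, η, C₂, hf⟩
  · obtain ⟨a, D, hs, hdeg, -⟩ := hf.coeff
    exact Pool.Agent.Helper25.BC.no_deg_one H ⟨a, D, hs, hdeg⟩ h₂ heq
  · obtain ⟨a, D, hs, hdeg, -⟩ := hf.coeff
    refine Pool.Agent.Helper25.BC.no_deg_one H ⟨a, D, hs, hdeg⟩ h₁ (fun s hs => ?_)
    rw [heq s hs]
    exact mul_comm _ _

/-- The final statement. -/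
theorem final : Final := by
  obtain ⟨H⟩ := Pool.Agent.Helper88.BD.hecke
  exact ⟨H.F, H.isSelbergDeg, H.primitive, Pool.Agent.Helper83.BDF.infinite_zeros H⟩

end Pool.Agent.Helper19.BD
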