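import Mathlib

/-!
MP_bd232a_nt: definitions of the Selberg class (points 1-5 of the problem file), degree, primitivity.
An element of the class is represented by a function `F : ℂ → ℂ`; its value at `s = 1` is irrelevant
(the function may have a pole there), so all identities are stated away from `s = 1`.
-/

open Complex

namespace Pool.Agent.Helper19.BD

/-- Data `(Q, k, λ, μ, ω)` of a functional equation (point 3 of the problem file). -/
structure FE where
  Q : ℝ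
  k : ℕ
  lam : Fin k → ℝ
  mu : Fin k → ℂ
  om : ℂ
  hQ : 0 < Q
  hlam : ∀ j, 0 < lam j
  hmu : ∀ j, 0 ≤ (mu j).re
  hom : ‖om‖ = 1

/-- The degree `2 ∑ λ_j`. -/
noncomputable def FE.deg (D : FE) : ℝ := 2 * ∑ j, D.lam j

/-- The completed function `Φ(s) = Q^s ∏ Γ(λ_j s + μ_j) F(s)`. -/
noncomputable def FE.Phi (D : FE) (F : ℂ → ℂ) (s : ℂ) : ℂ :=
  (D.Q : ℂ) ^ s * (∏ j, Gamma (D.lam j * s + D.mu j)) * F s

/-- The functional equation `Φ(s) = ω conj Φ(1 - conj s)`. It is stated in the strip `0 < Re s < 1`, where no Gamma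
factor has a pole; by analytic continuation this is the identity of meromorphic functions on the whole plane. -/
def FE.Holds (D : FE) (F : ℂ → ℂ) : Prop :=
  ∀ s : ℂ, 0 < s.re → s.re < 1 →
    D.Phi F s = D.om * (starRingEnd ℂ) (D.Phi F (1 - (starRingEnd ℂ) s))

/-- `F` is an element of the Selberg class with Dirichlet coefficients `a`, and it satisfies the functional equation
with data `D`. -/
structure IsSelbergWith (F : ℂ → ℂ) (a : ℕ → ℂ) (D : FE) : Prop where
  /-- point 1: absolute convergence for `Re s > 1` -/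
  summable : ∀ s : ℂ, 1 < s.re → LSeriesSummable a s
  eq : ∀ s : ℂ, 1 < s.re → F s = LSeries a s
  /-- point 2: `(s-1)^m F(s)` extends to an entire function of finite order -/
  entire : ∃ (m : ℕ) (G : ℂ → ℂ), Differentiable ℂ G ∧ (∀ s, s ≠ 1 → G s = (s - 1) ^ m * F s) ∧
    ∃ A B : ℝ, ∀ s, ‖G s‖ ≤ Real.exp (A * (1 + ‖s‖) ^ B)
  /-- point 3: functional equation -/
  fe : D.Holds F
  /-- point 4: Ramanujan bound -/
  ramanujan : ∀ ε : ℝ, 0 < ε → ∃ C : ℝ, ∀ n : ℕ, 1 ≤ n → ‖a n‖ ≤ C * (n : ℝ) ^ ε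
  /-- point 5: Euler product: `log F(s) = ∑ b_n n^{-s}`, `b_n = 0` unless `n` is a prime power, `b_n ≪ n^θ`, `θ < 1/2` -/
  euler : ∃ (b : ℕ → ℂ) (θ C : ℝ), θ < 1 / 2 ∧ (∀ n, ¬ IsPrimePow n → b n = 0) ∧
    (∀ n : ℕ, 1 ≤ n → ‖b n‖ ≤ C * (n : ℝ) ^ θ) ∧
    ∀ s : ℂ, 1 < s.re → LSeriesSummable b s ∧ F s = exp (LSeries b s)

/-- `F` belongs to the Selberg class. -/
def IsSelberg (F : ℂ → ℂ) : Prop := ∃ (a : ℕ → ℂ) (D : FE), IsSelbergWith F a D

/-- `F` belongs to the Selberg class and has degree `d`. -/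
def IsSelbergDeg (F : ℂ → ℂ) (d : ℝ) : Prop := ∃ (a : ℕ → ℂ) (D : FE), IsSelbergWith F a D ∧ D.deg = d

/-- Equality of meromorphic functions whose only possible pole is `s = 1`. -/
def EqOff (F G : ℂ → ℂ) : Prop := ∀ s : ℂ, s ≠ 1 → F s = G s

/-- `F` is a primitive element of the Selberg class. -/
def IsPrimitive (F : ℂ → ℂ) : Prop :=
  IsSelberg F ∧ ¬ EqOff F (fun _ => 1) ∧
    ∀ F₁ F₂ : ℂ → ℂ, IsSelberg F₁ → IsSelberg F₂ → EqOff F (fun s => F₁ s * F₂ s) →
      EqOff F₁ (fun _ => 1) ∨ EqOff F₂ (fun _ => 1)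

/-- The final statement: a primitive element of degree 3 with infinitely many zeros on the critical line. -/
def Final : Prop :=
  ∃ F : ℂ → ℂ, IsSelbergDeg F 3 ∧ IsPrimitive F ∧ {s : ℂ | s.re = 1 / 2 ∧ F s = 0}.Infinite

end Pool.Agent.Helper19.BD
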