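import Pool.Agent.Helper19.BD.EDefs

/-!
MP_bd232a_nt, part E: definitions for the box decomposition (Poisson part).
-/

open scoped ContDiff

namespace Pool.Agent.Helper19.BD

/-- a smooth partition of unity on `ℝ` -/
structure IsPU (η : ℝ → ℝ) : Prop where
  smooth : ContDiff ℝ ∞ η
  supp : ∀ t, η t ≠ 0 → |t| < 1
  sum : ∀ t, HasSum (fun i : ℤ => η (t - i)) 1

/-- the box map `v ↦ (m, u)`, `m = r + L_r v₀`, `u = m p + L_t v'` -/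
noncomputable def xb (c₀ X h r : ℝ) (p : ℝ × ℝ) (v : Fin 3 → ℝ) : Fin 3 → ℝ :=
  ![r + Lr c₀ X h * v 0, (r + Lr c₀ X h * v 0) * p.1 + Lt X h * v 1, (r + Lr c₀ X h * v 0) * p.2 + Lt X h * v 2]

/-- `κ(φ(x+k) - φ(x))` minus its first order Taylor polynomial at `v = 0`, in the box coordinates -/
noncomputable def Rem (g : Geo) (κ c₀ X h : ℝ) (k : ℝ × ℝ) (r : ℝ) (p : ℝ × ℝ) (v : Fin 3 → ℝ) : ℝ :=
  κ * (g.phi (xb c₀ X h r p v + shr k) - g.phi (xb c₀ X h r p v))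
    - κ * (g.phi (xb c₀ X h r p 0 + shr k) - g.phi (xb c₀ X h r p 0))
    - κ * (Lr c₀ X h * g.Ev k (1 / r) p * v 0
        + Lt X h * (g.Hp k (1 / r) p (1, 0) * v 1 + g.Hp k (1 / r) p (0, 1) * v 2))

/-- the box function -/
noncomputable def Bx (g : Geo) (Ψ : (Fin 3 → ℝ) → ℂ) (η : ℝ → ℝ) (κ c₀ X h : ℝ) (k : ℝ × ℝ) (r : ℝ) (p : ℝ × ℝ)
    (v : Fin 3 → ℝ) : ℂ :=
  Ψ (fun i => (xb c₀ X h r p v + shr k) i / X) * (starRingEnd ℂ) (Ψ (fun i => xb c₀ X h r p v i / X)) *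
    ((η (v 0) * η (v 1 * X / xb c₀ X h r p v 0) * η (v 2 * X / xb c₀ X h r p v 0) : ℝ) : ℂ) *
    ex (Rem g κ c₀ X h k r p v)

/-- the part of `ET` in the box with indices `i, j` -/
noncomputable def Tij (g : Geo) (Ψ : (Fin 3 → ℝ) → ℂ) (η : ℝ → ℝ) (κ c₀ X h : ℝ) (k : ℤ × ℤ) (i : ℤ) (j : ℤ × ℤ) : ℂ :=
  ∑' y : Fin 3 → ℤ, (Ψ (fun l => ((y + shz k) l : ℝ) / X) * ex (κ * g.phi (fun l => ((y + shz k) l : ℝ)))) *
    (starRingEnd ℂ) (Ψ (fun l => (y l : ℝ) / X) * ex (κ * g.phi (fun l => (y l : ℝ)))) *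
    ((η (y 0 / Lr c₀ X h - i) * η (y 1 / (y 0 * ta X h) - j.1) * η (y 2 / (y 0 * ta X h) - j.2) : ℝ) : ℂ)

end Pool.Agent.Helper19.BD
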