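import Pool.Agent.Helper19.BD.ERem

/-!
MP_bd232a_nt, part E, block E13 (the box function is smooth, supported in a fixed ball, with bounded derivatives in each variable).
`tsupport Ψ ⊆ cone ps d`, compact: on the support `c₁ ≤ x₀ ≤ c₂` for some `0 < c₁ < c₂`. If `Bx v ≠ 0` then `|v₀| < 1`, `|v_l X| < xb₀ ≤ c₂X`. Smoothness: all factors are smooth
near the support (there `xb₀ > 0`, all `λ_i > 0` because `Ψ`'s arguments are in the cone, `d` small), and `Bx = 0` elsewhere.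
Derivatives in the variable `v_i` of order `≤ N`, at points with `|v| ≤ V`: product of (a) `Ψ∘affine` (slopes `≤ C`: `L_r/X, L_t/X ≤ C`), (b) `η(v₀)`, (c) `η(v_l X/xb₀)`:
in the variables `v_1, v_2` affine with slope `X/xb₀ ≤ C`; in `v₀` it is `t ↦ η(a/(1+σt))` with `|a| ≤ C`, `0 ≤ σ ≤ c₀/c₁ ≤ 1/(2V+2)`: the function `(a,σ,t) ↦ η(a/(1+σt))` is smooth near
this compact set, so its `t`-derivatives of order `≤ N` are bounded; (d) `ex(Rem)`: `remBound`. Leibniz rule.
-/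

open scoped ContDiff

namespace Pool.Agent.Helper19.BD

namespace BoxAux

/-- derivatives along a line -/
theorem line_bound {E : Type*} [NormedAddCommGroup E] [NormedSpace ℝ E] (Φ : E → ℂ)
    (hΦ : ContDiff ℝ ∞ Φ) (a b : E) (j : ℕ) (t : ℝ) :
    ‖iteratedFDeriv ℝ j (fun t : ℝ => Φ (a + t • b)) t‖ ≤ ‖iteratedFDeriv ℝ j Φ (a + t • b)‖ * ‖b‖ ^ j := by
  set L : ℝ →L[ℝ] E := ContinuousLinearMap.toSpanSingleton ℝ b with hL
  have e : (fun t : ℝ => Φ (a + t • b)) = (fun z => Φ (a + z)) ∘ L := by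
    funext t; simp [hL]
  have hs : ContDiff ℝ ∞ (fun z => Φ (a + z)) := hΦ.comp (contDiff_const.add contDiff_id)
  rw [e, L.iteratedFDeriv_comp_right hs t (i := j) (by exact_mod_cast le_top),
    iteratedFDeriv_comp_add_left]
  refine (ContinuousMultilinearMap.norm_compContinuousLinearMap_le _ _).trans ?_
  have e2 : L t = t • b := by simp [hL]
  have e3 : ‖L‖ = ‖b‖ := by rw [hL, ContinuousLinearMap.norm_toSpanSingleton]
  rw [Finset.prod_const, Finset.card_univ, Fintype.card_fin, e2, e3]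

abbrev E9 := (Fin 3 → ℝ) × (Fin 3 → ℝ) × (Fin 3 → ℝ)

/-- the amplitude -/
noncomputable def PhiF (Ψ : (Fin 3 → ℝ) → ℂ) (η : ℝ → ℝ) (z : E9) : ℂ :=
  Ψ z.1 * (starRingEnd ℂ) (Ψ z.2.1) *
    ((η (z.2.2 0) * η (z.2.2 1 / z.2.1 0) * η (z.2.2 2 / z.2.1 0) : ℝ) : ℂ)

theorem contDiff_PhiF (Ψ : (Fin 3 → ℝ) → ℂ) (η : ℝ → ℝ) (hΨ : ContDiff ℝ ∞ Ψ)
    (hs : ∀ y ∈ tsupport Ψ, 0 < y 0) (hη : ContDiff ℝ ∞ η) : ContDiff ℝ ∞ (PhiF Ψ η) := by
  rw [contDiff_iff_contDiffAt]
  intro z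
  by_cases hz : z.2.1 ∈ tsupport Ψ
  · have h0 : z.2.1 0 ≠ 0 := (hs _ hz).ne'
    have c1 : ContDiffAt ℝ ∞ (fun z : E9 => Ψ z.1) z := hΨ.contDiffAt.comp z contDiffAt_fst
    have c2 : ContDiffAt ℝ ∞ (fun z : E9 => (starRingEnd ℂ) (Ψ z.2.1)) z := by
      have : ContDiffAt ℝ ∞ (fun z : E9 => Ψ z.2.1) z :=
        hΨ.contDiffAt.comp z (contDiffAt_fst.comp z contDiffAt_snd)
      exact (Complex.conjCLE.contDiff.contDiffAt).comp z this
    have cy : ContDiffAt ℝ ∞ (fun z : E9 => z.2.1 0) z := by fun_prop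
    have cv : ∀ l, ContDiffAt ℝ ∞ (fun z : E9 => z.2.2 l) z := by intro l; fun_prop
    have c3 : ContDiffAt ℝ ∞ (fun z : E9 => η (z.2.2 0)) z := hη.contDiffAt.comp z (cv 0)
    have c4 : ∀ l, ContDiffAt ℝ ∞ (fun z : E9 => η (z.2.2 l / z.2.1 0)) z := by
      intro l
      have : ContDiffAt ℝ ∞ (fun z : E9 => z.2.2 l / z.2.1 0) z := (cv l).div cy h0
      exact hη.contDiffAt.comp z this
    have c5 : ContDiffAt ℝ ∞ (fun z : E9 => ((η (z.2.2 0) * η (z.2.2 1 / z.2.1 0) * η (z.2.2 2 / z.2.1 0) : ℝ) : ℂ)) z :=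
      (Complex.ofRealCLM.contDiff.contDiffAt).comp z ((c3.mul (c4 1)).mul (c4 2))
    exact (c1.mul c2).mul c5
  · have : ∀ᶠ w : E9 in nhds z, w.2.1 ∉ tsupport Ψ := by
      have hc : Continuous (fun w : E9 => w.2.1) := by fun_prop
      exact hc.continuousAt.eventually ((isClosed_tsupport Ψ).isOpen_compl.mem_nhds hz)
    have h0 : PhiF Ψ η =ᶠ[nhds z] fun _ => 0 := by
      filter_upwards [this] with w hw
      unfold PhiF
      rw [image_eq_zero_of_notMem_tsupport hw]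
      simp
    exact contDiffAt_const.congr_of_eventuallyEq h0

theorem compact_PhiF (Ψ : (Fin 3 → ℝ) → ℂ) (η : ℝ → ℝ) (hc : HasCompactSupport Ψ)
    (hs : ∀ y ∈ tsupport Ψ, 0 < y 0) (hη : ∀ t, η t ≠ 0 → |t| < 1) : HasCompactSupport (PhiF Ψ η) := by
  obtain ⟨R, hR⟩ := hc.isCompact.isBounded.exists_norm_le
  set R' := max R 1
  have hK : IsCompact (tsupport Ψ ×ˢ (tsupport Ψ ×ˢ Metric.closedBall (0 : Fin 3 → ℝ) R')) :=
    hc.isCompact.prod (hc.isCompact.prod (isCompact_closedBall _ _))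
  refine HasCompactSupport.intro hK ?_
  intro z hz
  by_contra hne
  apply hz
  unfold PhiF at hne
  have h1 : Ψ z.1 ≠ 0 := by intro h; apply hne; rw [h]; simp
  have h2 : Ψ z.2.1 ≠ 0 := by intro h; apply hne; rw [h]; simp
  have h3 : η (z.2.2 0) ≠ 0 := by intro h; apply hne; rw [h]; simp
  have h4 : η (z.2.2 1 / z.2.1 0) ≠ 0 := by intro h; apply hne; rw [h]; simp
  have h5 : η (z.2.2 2 / z.2.1 0) ≠ 0 := by intro h; apply hne; rw [h]; simp
  have m1 : z.1 ∈ tsupport Ψ := subset_tsupport _ h1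
  have m2 : z.2.1 ∈ tsupport Ψ := subset_tsupport _ h2
  have hy0 := hs _ m2
  have hyR : z.2.1 0 ≤ R := (le_abs_self _).trans ((norm_le_pi_norm z.2.1 0).trans (hR _ m2))
  have b0 := hη _ h3
  have b1 := hη _ h4
  have b2 := hη _ h5
  rw [abs_div, abs_of_pos hy0, div_lt_one hy0] at b1 b2
  refine ⟨m1, m2, ?_⟩
  rw [Metric.mem_closedBall, dist_zero_right, pi_norm_le_iff_of_nonneg (by positivity)]
  intro i
  rw [Real.norm_eq_abs]
  fin_cases i
  · exact b0.le.trans (le_max_right _ _)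
  · exact (b1.le.trans hyR).trans (le_max_left _ _)
  · exact (b2.le.trans hyR).trans (le_max_left _ _)

theorem bounds_PhiF (Φ : E9 → ℂ) (h1 : ContDiff ℝ ∞ Φ) (h2 : HasCompactSupport Φ) (N : ℕ) :
    ∃ C : ℝ, 0 ≤ C ∧ ∀ j ≤ N, ∀ z, ‖iteratedFDeriv ℝ j Φ z‖ ≤ C := by
  have : ∀ j, ∃ C : ℝ, ∀ z, ‖iteratedFDeriv ℝ j Φ z‖ ≤ C := by
    intro j
    exact Continuous.bounded_above_of_compact_support
      (h1.continuous_iteratedFDeriv (by exact_mod_cast le_top)) (h2.iteratedFDeriv j)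
  choose C hC using this
  refine ⟨∑ j ∈ Finset.range (N + 1), |C j|, Finset.sum_nonneg (fun _ _ => abs_nonneg _), ?_⟩
  intro j hj z
  refine ((hC j z).trans (le_abs_self _)).trans ?_
  exact Finset.single_le_sum (f := fun j => |C j|) (fun _ _ => abs_nonneg _)
    (Finset.mem_range.mpr (by omega))

theorem contDiffAt_lam (g : Geo) (i : Fin 3) (x : Fin 3 → ℝ) : ContDiffAt ℝ ∞ (g.lam i) x := by
  unfold Geo.lam
  fun_prop

theorem contDiffAt_phi (g : Geo) (x : Fin 3 → ℝ) (hx : ∀ i, 0 < g.lam i x) :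
    ContDiffAt ℝ ∞ g.phi x := by
  have h1 : ContDiffAt ℝ ∞ (fun x => ∏ i, g.lam i x) x := by
    simp only [Fin.prod_univ_three]
    exact ((contDiffAt_lam g 0 x).mul (contDiffAt_lam g 1 x)).mul (contDiffAt_lam g 2 x)
  have h2 : (∏ i, g.lam i x) ≠ 0 := (Finset.prod_pos (fun i _ => hx i)).ne'
  exact h1.rpow_const_of_ne h2

theorem contDiff_xb (c₀ X h r : ℝ) (p : ℝ × ℝ) : ContDiff ℝ ∞ (xb c₀ X h r p) := by
  rw [contDiff_pi]
  intro i
  fin_cases i
  · simp only [xb, Fin.zero_eta, Matrix.cons_val_zero]; fun_prop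
  · simp only [xb, Fin.mk_one, Matrix.cons_val_one, Matrix.cons_val_zero]; fun_prop
  · simp only [xb, Fin.reduceFinMk, Matrix.cons_val]; fun_prop

theorem contDiff_ex : ContDiff ℝ ∞ ex := by
  unfold ex
  have : ContDiff ℝ ∞ (fun t : ℝ => (2 * Real.pi * Complex.I * t : ℂ)) :=
    contDiff_const.mul Complex.ofRealCLM.contDiff
  exact this.cexp

theorem contDiffAt_Rem (g : Geo) (κ c₀ X h : ℝ) (k : ℝ × ℝ) (r : ℝ) (p : ℝ × ℝ) (v : Fin 3 → ℝ)
    (h1 : ∀ i, 0 < g.lam i (xb c₀ X h r p v)) (h2 : ∀ i, 0 < g.lam i (xb c₀ X h r p v + shr k)) :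
    ContDiffAt ℝ ∞ (Rem g κ c₀ X h k r p) v := by
  have a1 : ContDiffAt ℝ ∞ (fun v => g.phi (xb c₀ X h r p v)) v :=
    (contDiffAt_phi g _ h1).comp v (contDiff_xb c₀ X h r p).contDiffAt
  have a2' : ContDiffAt ℝ ∞ (fun v => xb c₀ X h r p v + shr k) v :=
    ((contDiff_xb c₀ X h r p).add contDiff_const).contDiffAt
  have a2 : ContDiffAt ℝ ∞ (fun v => g.phi (xb c₀ X h r p v + shr k)) v :=
    ContDiffAt.comp (g := g.phi) v (contDiffAt_phi g _ h2) a2'
  unfold Rem
  have a3 : ContDiffAt ℝ ∞ (fun v : Fin 3 → ℝ => κ * (Lr c₀ X h * g.Ev k (1 / r) p * v 0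
        + Lt X h * (g.Hp k (1 / r) p (1, 0) * v 1 + g.Hp k (1 / r) p (0, 1) * v 2))) v := by
    fun_prop
  exact ((contDiffAt_const.mul (a2.sub a1)).sub contDiffAt_const).sub a3

/-- the affine map into the argument of `PhiF` -/
noncomputable def aff (c₀ X h r : ℝ) (p k : ℝ × ℝ) (v : Fin 3 → ℝ) : E9 :=
  (fun i => (xb c₀ X h r p v + shr k) i / X, fun i => xb c₀ X h r p v i / X, v)

noncomputable def slp (c₀ X h : ℝ) (p : ℝ × ℝ) (i : Fin 3) : Fin 3 → ℝ :=
  fun l => (![Lr c₀ X h * (Pi.single i (1 : ℝ) : Fin 3 → ℝ) 0,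
    Lr c₀ X h * (Pi.single i (1 : ℝ) : Fin 3 → ℝ) 0 * p.1 + Lt X h * (Pi.single i (1 : ℝ) : Fin 3 → ℝ) 1,
    Lr c₀ X h * (Pi.single i (1 : ℝ) : Fin 3 → ℝ) 0 * p.2 + Lt X h * (Pi.single i (1 : ℝ) : Fin 3 → ℝ) 2] : Fin 3 → ℝ) l / X

theorem upd_eq (v : Fin 3 → ℝ) (i : Fin 3) (t : ℝ) :
    Function.update v i t = Function.update v i 0 + t • (Pi.single i (1 : ℝ) : Fin 3 → ℝ) := by
  funext l
  by_cases hl : l = i
  · subst hl; simp
  · simp [Function.update_of_ne hl, Pi.single_eq_of_ne hl]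

theorem aff_upd (c₀ X h r : ℝ) (p k : ℝ × ℝ) (v : Fin 3 → ℝ) (i : Fin 3) (t : ℝ) :
    aff c₀ X h r p k (Function.update v i t) = aff c₀ X h r p k (Function.update v i 0)
      + t • ((slp c₀ X h p i, slp c₀ X h p i, Pi.single i (1 : ℝ)) : E9) := by
  have hx : ∀ l, xb c₀ X h r p (Function.update v i t) l / X =
      xb c₀ X h r p (Function.update v i 0) l / X + t * slp c₀ X h p i l := by
    intro l
    rw [upd_eq v i t]
    simp only [slp, xb]
    fin_cases l
    · simp only [Fin.zero_eta, Matrix.cons_val_zero, Pi.add_apply, Pi.smul_apply, smul_eq_mul]; ring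
    · simp only [Fin.mk_one, Matrix.cons_val_one, Matrix.cons_val_zero, Pi.add_apply, Pi.smul_apply, smul_eq_mul]; ring
    · simp only [Fin.reduceFinMk, Matrix.cons_val, Pi.add_apply, Pi.smul_apply, smul_eq_mul]; ring
  unfold aff
  refine Prod.ext ?_ (Prod.ext ?_ ?_)
  · funext l
    simp only [Prod.fst_add, Prod.smul_fst, Pi.add_apply, Pi.smul_apply, smul_eq_mul, add_div]
    rw [hx l]; ring
  · funext l
    simp only [Prod.snd_add, Prod.fst_add, Prod.smul_snd, Prod.smul_fst, Pi.add_apply, Pi.smul_apply, smul_eq_mul]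
    rw [hx l]
  · exact upd_eq v i t

theorem single_abs (i l : Fin 3) : |(Pi.single i (1 : ℝ) : Fin 3 → ℝ) l| ≤ 1 := by
  by_cases hl : l = i
  · subst hl; simp
  · simp [Pi.single_eq_of_ne hl]

theorem slp_norm (c₀ X h : ℝ) (p : ℝ × ℝ) (i : Fin 3) (hX : 1 ≤ X) (hh : 1 ≤ h) (hc₀ : 0 < c₀) :
    ‖slp c₀ X h p i‖ ≤ c₀ * (1 + ‖p‖) + 1 := by
  obtain ⟨h1, h2, h3, -, -⟩ := RemAux.scale_facts c₀ X h (by linarith) (by linarith) hc₀
  have hX0 : 0 < X := by linarith
  have h4 : Lt X h ≤ X := by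
    unfold Lt
    rw [Real.sqrt_le_left hX0.le]
    have : X / h ≤ X := div_le_self hX0.le hh
    nlinarith
  have hp1 : |p.1| ≤ ‖p‖ := norm_fst_le p
  have hp2 : |p.2| ≤ ‖p‖ := norm_snd_le p
  have hp0 := norm_nonneg p
  set s := (Pi.single i (1 : ℝ) : Fin 3 → ℝ) with hs
  have hs0 := single_abs i 0
  have hs1 := single_abs i 1
  have hs2 := single_abs i 2
  rw [← hs] at hs0 hs1 hs2
  have b0 : |Lr c₀ X h * s 0| ≤ c₀ * X := by
    rw [abs_mul, abs_of_nonneg h1]
    calc _ ≤ Lr c₀ X h * 1 := by gcongr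
      _ ≤ _ := by rw [mul_one]; exact h2
  have bt : ∀ q, |s q| ≤ 1 → |Lt X h * s q| ≤ X := by
    intro q hq
    rw [abs_mul, abs_of_nonneg h3]
    calc _ ≤ Lt X h * 1 := by gcongr
      _ ≤ _ := by rw [mul_one]; exact h4
  have bp : ∀ q, |q| ≤ ‖p‖ → |Lr c₀ X h * s 0 * q| ≤ c₀ * X * ‖p‖ := by
    intro q hq
    rw [abs_mul]
    gcongr
  rw [pi_norm_le_iff_of_nonneg (by positivity)]
  intro l
  rw [Real.norm_eq_abs]
  unfold slp
  rw [abs_div, abs_of_pos hX0, div_le_iff₀ hX0, ← hs]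
  have e : (c₀ * (1 + ‖p‖) + 1) * X = c₀ * X + c₀ * X * ‖p‖ + X := by ring
  rw [e]
  have q0 : 0 ≤ c₀ * X := by positivity
  have q1 : 0 ≤ c₀ * X * ‖p‖ := by positivity
  fin_cases l
  · simp only [Fin.zero_eta, Matrix.cons_val_zero]
    linarith
  · simp only [Fin.mk_one, Matrix.cons_val_one, Matrix.cons_val_zero]
    have := abs_add_le (Lr c₀ X h * s 0 * p.1) (Lt X h * s 1)
    have := bp _ hp1
    have := bt 1 hs1
    linarith
  · simp only [Fin.reduceFinMk, Matrix.cons_val]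
    have := abs_add_le (Lr c₀ X h * s 0 * p.2) (Lt X h * s 2)
    have := bp _ hp2
    have := bt 2 hs2
    linarith

theorem Bx_eq (g : Geo) (Ψ : (Fin 3 → ℝ) → ℂ) (η : ℝ → ℝ) (κ c₀ X h : ℝ) (k : ℝ × ℝ) (r : ℝ) (p : ℝ × ℝ)
    (v : Fin 3 → ℝ) : Bx g Ψ η κ c₀ X h k r p v =
      PhiF Ψ η (aff c₀ X h r p k v) * ex (Rem g κ c₀ X h k r p v) := by
  unfold Bx PhiF aff
  simp only [div_div_eq_mul_div]

theorem supp_V (Ψ : (Fin 3 → ℝ) → ℂ) (η : ℝ → ℝ) (c₀ c₁ c₂ X h r : ℝ) (k p : ℝ × ℝ) (v : Fin 3 → ℝ)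
    (hη : ∀ t, η t ≠ 0 → |t| < 1) (hX : 1 ≤ X) (hh : 1 ≤ h) (hc₀ : 0 < c₀) (hc₀1 : c₀ ≤ 1)
    (hc₀2 : c₀ ≤ c₁ / 2) (hc₁ : 0 < c₁) (hc₂ : c₁ ≤ c₂) (hr1 : c₁ * X ≤ r) (hr2 : r ≤ c₂ * X)
    (hne : PhiF Ψ η (aff c₀ X h r p k v) ≠ 0) (i : Fin 3) : |v i| ≤ c₂ + 2 := by
  obtain ⟨h1, h2, h3, -, -⟩ := RemAux.scale_facts c₀ X h (by linarith) (by linarith) hc₀
  have hX0 : 0 < X := by linarith
  unfold PhiF aff at hne
  have e3 : η (v 0) ≠ 0 := by intro h; apply hne; simp only; rw [h]; simp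
  have e4 : η (v 1 / (xb c₀ X h r p v 0 / X)) ≠ 0 := by intro h; apply hne; simp only; rw [h]; simp
  have e5 : η (v 2 / (xb c₀ X h r p v 0 / X)) ≠ 0 := by intro h; apply hne; simp only; rw [h]; simp
  have b0 := hη _ e3
  have b1 := hη _ e4
  have b2 := hη _ e5
  have hv0 := abs_lt.mp b0
  have hxe : xb c₀ X h r p v 0 = r + Lr c₀ X h * v 0 := by simp [xb]
  have hl : |Lr c₀ X h * v 0| ≤ c₀ * X := by
    rw [abs_mul, abs_of_nonneg h1]
    calc _ ≤ Lr c₀ X h * 1 := by gcongr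
      _ ≤ _ := by rw [mul_one]; exact h2
  have hl' := abs_le.mp hl
  have hcX : c₀ * X ≤ c₁ / 2 * X := by gcongr
  have hcX1 : c₀ * X ≤ 1 * X := by gcongr
  have hc1X : 0 < c₁ * X := by positivity
  have hx0 : 0 < xb c₀ X h r p v 0 := by
    rw [hxe]; linarith
  have hx1 : xb c₀ X h r p v 0 / X ≤ c₂ + 1 := by
    rw [div_le_iff₀ hX0, hxe]; linarith
  have hq : 0 < xb c₀ X h r p v 0 / X := by positivity
  rw [abs_div, abs_of_pos hq, div_lt_one hq] at b1 b2
  fin_cases i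
  · simp only [Fin.zero_eta]; linarith
  · simp only [Fin.mk_one]; linarith
  · simp only [Fin.reduceFinMk]; linarith

end BoxAux

open BoxAux

theorem boxBd (g : Geo) (ps : ℝ × ℝ) (hps : ps ∈ g.U) : ∃ d : ℝ, 0 < d ∧
    ∀ (κ₁ κ₂ : ℝ) (Ψ : (Fin 3 → ℝ) → ℂ) (η : ℝ → ℝ) (N : ℕ), 0 < κ₁ → κ₁ ≤ κ₂ → ContDiff ℝ ∞ Ψ → HasCompactSupport Ψ →
    tsupport Ψ ⊆ cone ps d → IsPU η → ∀ c₁ c₂ : ℝ, 0 < c₁ → c₁ ≤ c₂ → ∃ cs : ℝ, 0 < cs ∧ ∀ c₀, 0 < c₀ → c₀ ≤ cs →
    ∃ C V X₀ : ℝ, ∀ X h κ : ℝ, Reg X₀ X h → κ₁ ≤ κ → κ ≤ κ₂ → ∀ k : ℝ × ℝ, ‖k‖ ≤ 2 * h → ∀ r, c₁ * X ≤ r → r ≤ c₂ * X →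
    ∀ p, ‖p - ps‖ ≤ 2 * d →
      ContDiff ℝ ∞ (Bx g Ψ η κ c₀ X h k r p) ∧ (∀ v, Bx g Ψ η κ c₀ X h k r p v ≠ 0 → ∀ i, |v i| ≤ V) ∧
      ∀ (v : Fin 3 → ℝ) (i : Fin 3), ∀ j ≤ N,
        ‖iteratedDeriv j (fun t => Bx g Ψ η κ c₀ X h k r p (Function.update v i t)) (v i)‖ ≤ C := by
  obtain ⟨d', hd', hrem⟩ := remBound g ps hps
  refine ⟨d' / 2, by positivity, ?_⟩
  intro κ₁ κ₂ Ψ η N hκ₁ hκ₁₂ hΨ hcΨ hsupp hη c₁ c₂ hc₁ hc₂
  have hc2 : 0 < c₂ := hc₁.trans_le hc₂
  obtain ⟨cs, hcs, hrem'⟩ := hrem κ₁ κ₂ c₁ c₂ (c₂ + 3) N hκ₁ hκ₁₂ hc₁ hc₂ (by positivity)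
  refine ⟨min cs (min 1 (c₁ / 2)), lt_min hcs (lt_min one_pos (by positivity)), ?_⟩
  intro c₀ hc₀ hc₀'
  obtain ⟨Ce, X₀, hR⟩ := hrem' c₀ hc₀ (hc₀'.trans (min_le_left _ _))
  have hc₀1 : c₀ ≤ 1 := hc₀'.trans ((min_le_right _ _).trans (min_le_left _ _))
  have hc₀2 : c₀ ≤ c₁ / 2 := hc₀'.trans ((min_le_right _ _).trans (min_le_right _ _))
  have hs : ∀ y ∈ tsupport Ψ, 0 < y 0 := fun y hy => (hsupp hy).1
  have hΦ := contDiff_PhiF Ψ η hΨ hs hη.smooth
  obtain ⟨CΦ, hCΦ0, hCΦ⟩ := bounds_PhiF (PhiF Ψ η) hΦ (compact_PhiF Ψ η hcΨ hs hη.supp) N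
  set S := c₀ * (1 + (‖ps‖ + d')) + 1 with hS
  have hS1 : 1 ≤ S := by
    have : 0 ≤ c₀ * (1 + (‖ps‖ + d')) := by positivity
    linarith
  set Ce' := max Ce 0 with hCe'
  have hCe0 : 0 ≤ Ce' := le_max_right _ _
  refine ⟨2 ^ N * (CΦ * S ^ N * Ce'), c₂ + 2, X₀, ?_⟩
  intro X h κ hReg hκ1 hκ2 k hk r hr1 hr2 p hp
  have hp' : ‖p - ps‖ ≤ d' := by linarith
  have hX1 : 1 ≤ X := hReg.1
  have hh1 : 1 ≤ h := hReg.2.2.1
  have hRR := hR X h κ hReg hκ1 hκ2 k hk r hr1 hr2 p hp'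
  have hsV : ∀ v, Bx g Ψ η κ c₀ X h k r p v ≠ 0 → ∀ i, |v i| ≤ c₂ + 2 := by
    intro v hv i
    rw [Bx_eq] at hv
    exact supp_V Ψ η c₀ c₁ c₂ X h r k p v hη.supp hX1 hh1 hc₀ hc₀1 hc₀2 hc₁ hc₂ hr1 hr2
      (left_ne_zero_of_mul hv) i
  have hpn : ‖p‖ ≤ ‖ps‖ + d' := by
    have : ‖p‖ ≤ ‖p - ps‖ + ‖ps‖ := by
      have := norm_add_le (p - ps) ps
      simpa using this
    linarith
  have haff : ∀ v i, ContDiff ℝ ∞ (fun t : ℝ => PhiF Ψ η (aff c₀ X h r p k (Function.update v i t))) := by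
    intro v i
    have : (fun t : ℝ => PhiF Ψ η (aff c₀ X h r p k (Function.update v i t))) = fun t : ℝ =>
        PhiF Ψ η (aff c₀ X h r p k (Function.update v i 0)
          + t • ((slp c₀ X h p i, slp c₀ X h p i, Pi.single i (1 : ℝ)) : E9)) := by
      funext t; rw [aff_upd]
    rw [this]
    exact hΦ.comp (contDiff_const.add (contDiff_id.smul contDiff_const))
  refine ⟨?_, hsV, ?_⟩
  · rw [contDiff_iff_contDiffAt]
    intro v
    by_cases hv : ∀ i, |v i| ≤ c₂ + 3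
    · have hpos := (hRR v hv).1.2
      have h1 := contDiffAt_Rem g κ c₀ X h k r p v (fun i => (hpos i).1) (fun i => (hpos i).2)
      have h2 : ContDiffAt ℝ ∞ (fun v => ex (Rem g κ c₀ X h k r p v)) v :=
        ContDiffAt.comp (g := ex) v contDiff_ex.contDiffAt h1
      have h3 : ContDiffAt ℝ ∞ (fun v => PhiF Ψ η (aff c₀ X h r p k v)) v := by
        have hx := contDiff_xb c₀ X h r p
        have hxi : ∀ l, ContDiff ℝ ∞ (fun v => xb c₀ X h r p v l) := fun l => (contDiff_pi.mp hx) l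
        have : ContDiff ℝ ∞ (fun v => aff c₀ X h r p k v) := by
          unfold aff
          refine ContDiff.prodMk ?_ (ContDiff.prodMk ?_ contDiff_id)
          · rw [contDiff_pi]
            intro l
            simp only [Pi.add_apply]
            exact ((hxi l).add contDiff_const).div_const _
          · rw [contDiff_pi]
            intro l
            exact (hxi l).div_const _
        exact (hΦ.comp this).contDiffAt
      have h4 := h3.mul h2
      refine h4.congr_of_eventuallyEq ?_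
      filter_upwards with w
      exact Bx_eq g Ψ η κ c₀ X h k r p w
    · push Not at hv
      obtain ⟨i, hi⟩ := hv
      have h0 : Bx g Ψ η κ c₀ X h k r p =ᶠ[nhds v] fun _ => 0 := by
        have : ∀ᶠ w : Fin 3 → ℝ in nhds v, c₂ + 2 < |w i| := by
          have hc : Continuous (fun w : Fin 3 → ℝ => |w i|) := by fun_prop
          exact hc.continuousAt.eventually (lt_mem_nhds (by linarith))
        filter_upwards [this] with w hw
        by_contra hne
        have := hsV w hne i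
        linarith
      exact contDiffAt_const.congr_of_eventuallyEq h0
  · intro v i j hj
    by_cases hv : ∀ l, |v l| ≤ c₂ + 2
    · have hv3 : ∀ t ∈ Metric.ball (v i) 1, ∀ l, |Function.update v i t l| ≤ c₂ + 3 := by
        intro t ht l
        rw [Metric.mem_ball, Real.dist_eq] at ht
        by_cases hl : l = i
        · subst hl
          rw [Function.update_self]
          have := abs_add_le (t - v l) (v l)
          simp only [sub_add_cancel] at this
          linarith [hv l]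
        · rw [Function.update_of_ne hl]; linarith [hv l]
      have hE : ContDiffOn ℝ ∞ (fun t => ex (Rem g κ c₀ X h k r p (Function.update v i t)))
          (Metric.ball (v i) 1) := by
        intro t ht
        have hpos := (hRR _ (hv3 t ht)).1.2
        have h1 := contDiffAt_Rem g κ c₀ X h k r p _ (fun i => (hpos i).1) (fun i => (hpos i).2)
        have h2 : ContDiffAt ℝ ∞ (fun t : ℝ => Function.update v i t) t := by
          have : (fun t : ℝ => Function.update v i t) = fun t : ℝ =>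
              Function.update v i 0 + t • (Pi.single i (1 : ℝ) : Fin 3 → ℝ) := by
            funext t; exact upd_eq v i t
          rw [this]
          exact (contDiff_const.add (contDiff_id.smul contDiff_const)).contDiffAt
        have h3 : ContDiffAt ℝ ∞ (fun t => Rem g κ c₀ X h k r p (Function.update v i t)) t :=
          ContDiffAt.comp (g := Rem g κ c₀ X h k r p) t h1 h2
        exact (ContDiffAt.comp (g := ex) t contDiff_ex.contDiffAt h3).contDiffWithinAt
      have hmem : v i ∈ Metric.ball (v i) 1 := Metric.mem_ball_self one_pos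
      have hmul := norm_iteratedFDerivWithin_mul_le (A := ℂ) (haff v i).contDiffOn hE
        (Metric.isOpen_ball.uniqueDiffOn) hmem (n := j) (by exact_mod_cast le_top)
      have hfun : (fun t => Bx g Ψ η κ c₀ X h k r p (Function.update v i t)) = fun t =>
          PhiF Ψ η (aff c₀ X h r p k (Function.update v i t)) *
            ex (Rem g κ c₀ X h k r p (Function.update v i t)) := by
        funext t; exact Bx_eq g Ψ η κ c₀ X h k r p _
      rw [hfun, ← norm_iteratedFDeriv_eq_norm_iteratedDeriv,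
        ← iteratedFDerivWithin_of_isOpen j Metric.isOpen_ball hmem]
      refine hmul.trans ?_
      have term : ∀ l ∈ Finset.range (j + 1), (j.choose l : ℝ) *
          ‖iteratedFDerivWithin ℝ l (fun t : ℝ => PhiF Ψ η (aff c₀ X h r p k (Function.update v i t)))
            (Metric.ball (v i) 1) (v i)‖ *
          ‖iteratedFDerivWithin ℝ (j - l) (fun t => ex (Rem g κ c₀ X h k r p (Function.update v i t)))
            (Metric.ball (v i) 1) (v i)‖ ≤ (j.choose l : ℝ) * (CΦ * S ^ N * Ce') := by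
        intro l hl
        have hlj : l ≤ j := by
          have := Finset.mem_range.mp hl; omega
        rw [iteratedFDerivWithin_of_isOpen l Metric.isOpen_ball hmem,
          iteratedFDerivWithin_of_isOpen (j - l) Metric.isOpen_ball hmem, mul_assoc]
        refine mul_le_mul_of_nonneg_left ?_ (by positivity)
        have q1 : ‖iteratedFDeriv ℝ l (fun t : ℝ => PhiF Ψ η (aff c₀ X h r p k (Function.update v i t)))
            (v i)‖ ≤ CΦ * S ^ N := by
          have : (fun t : ℝ => PhiF Ψ η (aff c₀ X h r p k (Function.update v i t))) = fun t : ℝ =>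
              PhiF Ψ η (aff c₀ X h r p k (Function.update v i 0)
                + t • ((slp c₀ X h p i, slp c₀ X h p i, Pi.single i (1 : ℝ)) : E9)) := by
            funext t; rw [aff_upd]
          rw [this]
          refine (line_bound _ hΦ _ _ l (v i)).trans ?_
          have hb : ‖((slp c₀ X h p i, slp c₀ X h p i, Pi.single i (1 : ℝ)) : E9)‖ ≤ S := by
            have h1 : ‖slp c₀ X h p i‖ ≤ S := by
              refine (slp_norm c₀ X h p i hX1 hh1 hc₀).trans ?_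
              rw [hS]
              have := mul_le_mul_of_nonneg_left hpn hc₀.le
              linarith
            have h2 : ‖(Pi.single i (1 : ℝ) : Fin 3 → ℝ)‖ ≤ S := by
              refine le_trans ?_ hS1
              rw [pi_norm_le_iff_of_nonneg zero_le_one]
              intro l
              exact single_abs i l
            exact norm_prod_le_iff.mpr ⟨h1, norm_prod_le_iff.mpr ⟨h1, h2⟩⟩
          calc _ ≤ CΦ * S ^ l := by
                refine mul_le_mul (hCΦ l (hlj.trans hj) _) ?_ (by positivity) hCΦ0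
                gcongr
            _ ≤ CΦ * S ^ N := by
                refine mul_le_mul_of_nonneg_left ?_ hCΦ0
                exact pow_le_pow_right₀ hS1 (hlj.trans hj)
        have q2 : ‖iteratedFDeriv ℝ (j - l) (fun t => ex (Rem g κ c₀ X h k r p (Function.update v i t)))
            (v i)‖ ≤ Ce' := by
          rw [norm_iteratedFDeriv_eq_norm_iteratedDeriv]
          refine ((hRR v (fun l => (hv l).trans (by linarith))).2 i (j - l) (by omega)).trans ?_
          exact le_max_left _ _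
        exact mul_le_mul q1 q2 (norm_nonneg _) (by positivity)
      refine (Finset.sum_le_sum term).trans ?_
      rw [← Finset.sum_mul]
      refine mul_le_mul_of_nonneg_right ?_ (by positivity)
      have h1 : (∑ l ∈ Finset.range (j + 1), (j.choose l : ℝ)) = 2 ^ j := by
        exact_mod_cast Nat.sum_range_choose j
      rw [h1]
      exact pow_le_pow_right₀ (by norm_num) hj
    · push Not at hv
      obtain ⟨l, hl⟩ := hv
      have h0 : (fun t => Bx g Ψ η κ c₀ X h k r p (Function.update v i t)) =ᶠ[nhds (v i)] fun _ => 0 := by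
        have : ∀ᶠ t : ℝ in nhds (v i), c₂ + 2 < |Function.update v i t l| := by
          have hc : Continuous (fun t : ℝ => |Function.update v i t l|) := by
            have : Continuous (fun t : ℝ => Function.update v i t) := continuous_const.update i continuous_id
            exact ((continuous_apply l).comp this).abs
          refine hc.continuousAt.eventually (lt_mem_nhds ?_)
          simpa using hl
        filter_upwards [this] with t ht
        by_contra hne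
        have := hsV _ hne l
        linarith
      rw [h0.iteratedDeriv_eq]
      have hz : ‖iteratedDeriv j (fun _ : ℝ => (0 : ℂ)) (v i)‖ = 0 := by
        rw [norm_eq_zero]
        have : (fun _ : ℝ => (0 : ℂ)) = (0 : ℝ → ℂ) := rfl
        rw [this]
        induction j with
        | zero => simp
        | succ n ih =>
          rw [iteratedDeriv_succ']
          simp
      rw [hz]
      positivity

end Pool.Agent.Helper19.BD
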