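import Pool.Agent.Helper19.BD.EInj

/-!
MP_bd232a_nt, part E, block E05 (lattice points attached to a cell).
Let `n` occur for the box `(i,j)` (`s = 1/(i L_r) ≍ 1/X`, `p = pj j` in the cell `c`, so `‖p - p_c‖ ≤ η`). With (T3) of `taylor` (q = p_c, times `κ`):
`n₀ + n'·p_c = κ f1(p_c;k) + O(ρ/L_r + ρ η/L_t + h(η + h/X)²) = κ f1(p_c;k) + O(ρ h^{-1/2})`
(`h^{7/4} ≤ X`), and by the upper bound in `inj`: two such `n` differ in `n'` by `O(ρ/L_t + h η + h²/X) = O(ρ h^{1/4})` (`|s-s'| ≤ C/X`).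
So all `n ∈ S` lie in a translate of `{|v₁|,|v₂| ≤ Cρh^{1/4}, |v₀+v'·p_c| ≤ Cρh^{-1/2}}`; cut it into `≤ Cρ³` boxes in which the differences
of two points lie in `VV C₁ h p_c ∪ {0}`; each contains at most `1 + ncard VV` points of `S` (fix one point, map the others by subtraction).
`VV` is finite (block E06 gives the finiteness as well: prove it here directly, `v₁,v₂` bounded, then `v₀` bounded).
-/

namespace Pool.Agent.Helper19.BD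

theorem VV_finite (C₁ h : ℝ) (p : ℝ × ℝ) : (VV C₁ h p).Finite := by
  set B : ℝ := C₁ * h ^ (1 / 4 : ℝ) with hB
  set B' : ℝ := C₁ * h ^ (-(1 / 2) : ℝ) + |B| * |p.1| + |B| * |p.2| with hB'
  set N : ℤ := ⌈max |B| |B'|⌉ with hN
  apply Set.Finite.subset (Set.finite_Icc (fun _ : Fin 3 => -N) (fun _ => N))
  intro v hv
  obtain ⟨_, h1, h2, h0⟩ := hv
  have hNr : max |B| |B'| ≤ (N : ℝ) := Int.le_ceil _
  have hb1 : |(v 1 : ℝ)| ≤ |B| := h1.trans (le_abs_self _)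
  have hb2 : |(v 2 : ℝ)| ≤ |B| := h2.trans (le_abs_self _)
  have hb0 : |(v 0 : ℝ)| ≤ |B'| := by
    refine le_trans ?_ (le_abs_self _)
    have e : (v 0 : ℝ) = ((v 0 : ℝ) + v 1 * p.1 + v 2 * p.2) - v 1 * p.1 - v 2 * p.2 := by ring
    rw [e]
    calc |((v 0 : ℝ) + v 1 * p.1 + v 2 * p.2) - v 1 * p.1 - v 2 * p.2|
        ≤ |(v 0 : ℝ) + v 1 * p.1 + v 2 * p.2| + |(v 1 : ℝ) * p.1| + |(v 2 : ℝ) * p.2| := by
          refine (abs_sub _ _).trans ?_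
          gcongr
          exact abs_sub _ _
      _ ≤ B' := by
          rw [abs_mul, abs_mul, hB']
          gcongr
  have hall : ∀ i : Fin 3, |(v i : ℝ)| ≤ (N : ℝ) := by
    intro i
    fin_cases i
    · exact hb0.trans ((le_max_right _ _).trans hNr)
    · exact hb1.trans ((le_max_left _ _).trans hNr)
    · exact hb2.trans ((le_max_left _ _).trans hNr)
  constructor
  · intro i
    have := (abs_le.mp (hall i)).1
    exact_mod_cast this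
  · intro i
    have := (abs_le.mp (hall i)).2
    exact_mod_cast this

theorem card_Icc_floor (a r : ℝ) (hr : 0 ≤ r) :
    ((Finset.Icc ⌊a - r⌋ ⌊a + r⌋).card : ℝ) ≤ 2 * r + 2 := by
  rw [Int.card_Icc]
  have h1 : (⌊a - r⌋ : ℝ) > a - r - 1 := Int.sub_one_lt_floor _
  have h2 : (⌊a + r⌋ : ℝ) ≤ a + r := Int.floor_le _
  have h3 : 0 ≤ ⌊a + r⌋ + 1 - ⌊a - r⌋ := by
    have := Int.floor_le_floor (show a - r ≤ a + r by linarith)
    omega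
  have h4 : (((⌊a + r⌋ + 1 - ⌊a - r⌋).toNat : ℤ) : ℝ) = ((⌊a + r⌋ + 1 - ⌊a - r⌋ : ℤ) : ℝ) := by
    rw [Int.toNat_of_nonneg h3]
  rw [Int.cast_natCast] at h4
  rw [h4]
  push_cast
  linarith

/-- Pigeonhole: a finite set of lattice points whose differences lie in a slab. -/
theorem slab_count (h ρ A B : ℝ) (hh : 1 ≤ h) (hρ : 1 ≤ ρ) (hA : 0 ≤ A) (hB : 0 ≤ B) (q : ℝ × ℝ)
    (S : Finset (Fin 3 → ℤ))
    (hS1 : ∀ n ∈ S, ∀ m ∈ S, |(n 1 : ℝ) - m 1| ≤ B * ρ * h ^ (1 / 4 : ℝ))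
    (hS2 : ∀ n ∈ S, ∀ m ∈ S, |(n 2 : ℝ) - m 2| ≤ B * ρ * h ^ (1 / 4 : ℝ))
    (hS0 : ∀ n ∈ S, ∀ m ∈ S, |((n 0 : ℝ) + n 1 * q.1 + n 2 * q.2) - (m 0 + m 1 * q.1 + m 2 * q.2)|
      ≤ A * ρ * h ^ (-(1 / 2) : ℝ)) :
    (S.card : ℝ) ≤ ((2 * B + 2) ^ 2 * (2 * A + 2)) * ρ ^ 3 * (1 + (VV 1 h q).ncard) := by
  classical
  rcases S.eq_empty_or_nonempty with hSe | ⟨m, hm⟩
  · subst hSe
    simp only [Finset.card_empty, Nat.cast_zero]
    positivity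
  have hh0 : (0 : ℝ) < h := by linarith
  set a : ℝ := h ^ (1 / 4 : ℝ) with ha
  set b : ℝ := h ^ (-(1 / 2) : ℝ) with hb
  have ha0 : 0 < a := Real.rpow_pos_of_pos hh0 _
  have hb0 : 0 < b := Real.rpow_pos_of_pos hh0 _
  let lin : (Fin 3 → ℤ) → ℝ := fun n => (n 0 : ℝ) + n 1 * q.1 + n 2 * q.2
  let Φ : (Fin 3 → ℤ) → ℤ × ℤ × ℤ := fun n => (⌊(n 1 : ℝ) / a⌋, ⌊(n 2 : ℝ) / a⌋, ⌊lin n / b⌋)
  -- image
  have himg : S.image Φ ⊆ Finset.Icc ⌊(m 1 : ℝ) / a - B * ρ⌋ ⌊(m 1 : ℝ) / a + B * ρ⌋ ×ˢ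
      (Finset.Icc ⌊(m 2 : ℝ) / a - B * ρ⌋ ⌊(m 2 : ℝ) / a + B * ρ⌋ ×ˢ
        Finset.Icc ⌊lin m / b - A * ρ⌋ ⌊lin m / b + A * ρ⌋) := by
    intro x hx
    obtain ⟨n, hn, rfl⟩ := Finset.mem_image.mp hx
    simp only [Φ, Finset.mem_product, Finset.mem_Icc]
    have key : ∀ u w t R : ℝ, 0 < t → |u - w| ≤ R * t →
        ⌊w / t - R⌋ ≤ ⌊u / t⌋ ∧ ⌊u / t⌋ ≤ ⌊w / t + R⌋ := by
      intro u w t R ht huw
      have h1 := abs_le.mp huw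
      constructor
      · apply Int.floor_le_floor
        rw [sub_le_iff_le_add, ← sub_le_iff_le_add', ← sub_div, div_le_iff₀ ht]
        linarith
      · apply Int.floor_le_floor
        rw [← sub_le_iff_le_add', ← sub_div, div_le_iff₀ ht]
        linarith
    exact ⟨key _ _ _ _ ha0 (hS1 n hn m hm), key _ _ _ _ ha0 (hS2 n hn m hm),
      key _ _ _ _ hb0 (hS0 n hn m hm)⟩
  have hcardimg : ((S.image Φ).card : ℝ) ≤ ((2 * B + 2) ^ 2 * (2 * A + 2)) * ρ ^ 3 := by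
    have h1 := Finset.card_le_card himg
    rw [Finset.card_product, Finset.card_product] at h1
    have h1' : ((S.image Φ).card : ℝ) ≤ ((Finset.Icc ⌊(m 1 : ℝ) / a - B * ρ⌋ ⌊(m 1 : ℝ) / a + B * ρ⌋).card : ℝ)
        * (((Finset.Icc ⌊(m 2 : ℝ) / a - B * ρ⌋ ⌊(m 2 : ℝ) / a + B * ρ⌋).card : ℝ) *
        ((Finset.Icc ⌊lin m / b - A * ρ⌋ ⌊lin m / b + A * ρ⌋).card : ℝ)) := by exact_mod_cast h1
    refine h1'.trans ?_
    have hBρ : 0 ≤ B * ρ := by positivity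
    have hAρ : 0 ≤ A * ρ := by positivity
    have g1 := card_Icc_floor ((m 1 : ℝ) / a) (B * ρ) hBρ
    have g2 := card_Icc_floor ((m 2 : ℝ) / a) (B * ρ) hBρ
    have g3 := card_Icc_floor (lin m / b) (A * ρ) hAρ
    have k1 : 2 * (B * ρ) + 2 ≤ (2 * B + 2) * ρ := by nlinarith
    have k2 : 2 * (A * ρ) + 2 ≤ (2 * A + 2) * ρ := by nlinarith
    calc _ ≤ ((2 * B + 2) * ρ) * (((2 * B + 2) * ρ) * ((2 * A + 2) * ρ)) := by
          gcongr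
          · exact g1.trans k1
          · exact g2.trans k1
          · exact g3.trans k2
      _ = ((2 * B + 2) ^ 2 * (2 * A + 2)) * ρ ^ 3 := by ring
  -- fibres
  have hfib : ∀ x ∈ S.image Φ, (S.filter fun n => Φ n = x).card ≤ 1 + (VV 1 h q).ncard := by
    intro x hx
    obtain ⟨n₀, hn₀, rfl⟩ := Finset.mem_image.mp hx
    have hsub : (S.filter fun n => Φ n = Φ n₀).image (fun n => n - n₀) ⊆
        insert 0 (VV_finite 1 h q).toFinset := by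
      intro v hv
      obtain ⟨n, hn, rfl⟩ := Finset.mem_image.mp hv
      obtain ⟨hnS, hnΦ⟩ := Finset.mem_filter.mp hn
      rw [Finset.mem_insert]
      by_cases hz : n - n₀ = 0
      · left; exact hz
      right
      rw [Set.Finite.mem_toFinset]
      have hΦ1 : ⌊(n 1 : ℝ) / a⌋ = ⌊(n₀ 1 : ℝ) / a⌋ := congrArg Prod.fst hnΦ
      have hΦ2 : ⌊(n 2 : ℝ) / a⌋ = ⌊(n₀ 2 : ℝ) / a⌋ := congrArg (fun y => y.2.1) hnΦ
      have hΦ0 : ⌊lin n / b⌋ = ⌊lin n₀ / b⌋ := congrArg (fun y => y.2.2) hnΦ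
      have key : ∀ u w t : ℝ, 0 < t → ⌊u / t⌋ = ⌊w / t⌋ → |u - w| ≤ 1 * t := by
        intro u w t ht huw
        have h1 := Int.abs_sub_lt_one_of_floor_eq_floor huw
        rw [← sub_div, abs_div, abs_of_pos ht, div_lt_iff₀ ht] at h1
        exact h1.le
      refine ⟨hz, ?_, ?_, ?_⟩
      · have := key _ _ _ ha0 hΦ1
        simpa [ha] using this
      · have := key _ _ _ ha0 hΦ2
        simpa [ha] using this
      · have := key _ _ _ hb0 hΦ0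
        simp only [lin] at this
        refine le_trans (le_of_eq ?_) this
        congr 1
        simp only [Pi.sub_apply]
        push_cast
        ring
    have h1 := Finset.card_le_card hsub
    rw [Finset.card_image_of_injective _ (sub_left_injective)] at h1
    refine h1.trans ((Finset.card_insert_le _ _).trans ?_)
    rw [Set.ncard_eq_toFinset_card _ (VV_finite 1 h q)]
    omega
  have hfin := Finset.card_le_mul_card_image S (1 + (VV 1 h q).ncard) hfib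
  have hfin' : (S.card : ℝ) ≤ (1 + (VV 1 h q).ncard : ℝ) * ((S.image Φ).card : ℝ) := by
    exact_mod_cast hfin
  refine hfin'.trans ?_
  rw [mul_comm]
  gcongr

theorem Hp_lin (g : Geo) (k : ℝ × ℝ) (s : ℝ) (p w : ℝ × ℝ) :
    g.Hp k s p w = w.1 * g.Hp k s p (1, 0) + w.2 * g.Hp k s p (0, 1) := by
  simp only [Geo.Hp, Geo.f1, Geo.TT, Geo.tt, Fin.sum_univ_three]
  ring

theorem Reg_facts {X₀ X h : ℝ} (hR : Reg X₀ X h) :
    0 < X ∧ 0 < h ∧ h ≤ X ∧ h / X ≤ h ^ (-(3 / 4) : ℝ) ∧ h / X ≤ X ^ (-(3 / 7) : ℝ) ∧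
      h ^ (3 / 4 : ℝ) ≤ X / h := by
  obtain ⟨hX1, _, hh1, hhX⟩ := hR
  have hX : 0 < X := by linarith
  have hh : 0 < h := by linarith
  have k1 : h * h ^ (3 / 4 : ℝ) ≤ X := by
    have e1 : h * h ^ (3 / 4 : ℝ) = h ^ (7 / 4 : ℝ) := by
      conv_lhs => rw [← Real.rpow_one h, ← Real.rpow_mul hh.le, ← Real.rpow_add hh]
      norm_num
    rw [e1]
    calc h ^ (7 / 4 : ℝ) ≤ (X ^ (4 / 7 : ℝ)) ^ (7 / 4 : ℝ) := by gcongr
      _ = X := by rw [← Real.rpow_mul hX.le]; norm_num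
  have k2 : h ≤ X := by
    calc h ≤ X ^ (4 / 7 : ℝ) := hhX
      _ ≤ X ^ (1 : ℝ) := Real.rpow_le_rpow_of_exponent_le hX1 (by norm_num)
      _ = X := Real.rpow_one X
  refine ⟨hX, hh, k2, ?_, ?_, ?_⟩
  · rw [div_le_iff₀ hX]
    calc h = h ^ (-(3 / 4) : ℝ) * (h * h ^ (3 / 4 : ℝ)) := by
          have : h ^ (-(3 / 4) : ℝ) * h ^ (3 / 4 : ℝ) = 1 := by
            rw [← Real.rpow_add hh]; norm_num
          calc h = h * (h ^ (-(3 / 4) : ℝ) * h ^ (3 / 4 : ℝ)) := by rw [this, mul_one]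
            _ = _ := by ring
      _ ≤ h ^ (-(3 / 4) : ℝ) * X := by
          have : 0 ≤ h ^ (-(3 / 4) : ℝ) := (Real.rpow_pos_of_pos hh _).le
          gcongr
  · rw [div_le_iff₀ hX]
    calc h ≤ X ^ (4 / 7 : ℝ) := hhX
      _ = X ^ (-(3 / 7) : ℝ) * X := by
        conv_rhs => rw [← Real.rpow_one X, ← Real.rpow_mul hX.le, ← Real.rpow_add hX]
        norm_num
  · rw [le_div_iff₀ hh, mul_comm]
    exact k1

theorem Lr_ge {X₀ X h c₀ : ℝ} (hR : Reg X₀ X h) (hc₀ : 0 < c₀) : c₀ * h ^ (1 / 2 : ℝ) ≤ Lr c₀ X h := by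
  obtain ⟨hX, hh, h1, _, _, h4⟩ := Reg_facts hR
  obtain ⟨hX1, _, hh1, _⟩ := hR
  unfold Lr
  gcongr
  apply le_min
  · calc h ^ (1 / 2 : ℝ) ≤ h ^ (1 : ℝ) := Real.rpow_le_rpow_of_exponent_le hh1 (by norm_num)
      _ = h := Real.rpow_one h
      _ ≤ X := h1
  · calc h ^ (1 / 2 : ℝ) ≤ h ^ (3 / 4 * (3 / 2) : ℝ) := Real.rpow_le_rpow_of_exponent_le hh1 (by norm_num)
      _ = (h ^ (3 / 4 : ℝ)) ^ (3 / 2 : ℝ) := Real.rpow_mul hh.le _ _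
      _ ≤ (X / h) ^ (3 / 2 : ℝ) := by gcongr

theorem Lt_ge {X₀ X h : ℝ} (hR : Reg X₀ X h) : 1 ≤ Lt X h := by
  obtain ⟨hX, hh, h1, _, _, h4⟩ := Reg_facts hR
  unfold Lt
  rw [Real.one_le_sqrt, one_le_div hh]
  exact h1

theorem II_mem {X₀ X h c₀ c₁ c₂ : ℝ} (hR : Reg X₀ X h) (hc₀ : 0 < c₀) {i : ℤ} (hi : i ∈ II c₀ c₁ c₂ X h) :
    c₁ * X ≤ i * Lr c₀ X h ∧ i * Lr c₀ X h ≤ c₂ * X := by
  have hL : 0 < Lr c₀ X h := by
    have := Lr_ge hR hc₀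
    have hh : 0 < h := (Reg_facts hR).2.1
    have : 0 < c₀ * h ^ (1 / 2 : ℝ) := mul_pos hc₀ (Real.rpow_pos_of_pos hh _)
    linarith
  unfold II at hi
  rw [Finset.mem_Icc, Int.ceil_le, Int.le_floor] at hi
  rw [div_le_iff₀ hL, le_div_iff₀ hL] at hi
  exact hi

theorem JJ_mem {X₀ X h d : ℝ} {ps : ℝ × ℝ} (hR : Reg X₀ X h) {j : ℤ × ℤ} (hj : j ∈ JJ ps d X h) :
    ‖pj X h j - ps‖ ≤ d := by
  obtain ⟨hX, hh, _⟩ := Reg_facts hR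
  have ht : 0 < ta X h := by unfold ta; positivity
  unfold JJ at hj
  rw [Finset.mem_product, Finset.mem_Icc, Finset.mem_Icc, Int.ceil_le, Int.le_floor, Int.ceil_le,
    Int.le_floor, div_le_iff₀ ht, div_le_iff₀ ht, le_div_iff₀ ht, le_div_iff₀ ht] at hj
  obtain ⟨⟨a1, a2⟩, ⟨a3, a4⟩⟩ := hj
  rw [Prod.norm_def]
  unfold pj
  simp only [Prod.fst_sub, Prod.snd_sub, Real.norm_eq_abs]
  apply max_le
  · rw [abs_le]; constructor <;> linarith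
  · rw [abs_le]; constructor <;> linarith

theorem cell_dist {h e₀ : ℝ} (hη : 0 < eta e₀ h) {p : ℝ × ℝ} {c : ℤ × ℤ} (hc : cellOf e₀ h p = c) :
    |p.1 - (pc e₀ h c).1| ≤ eta e₀ h ∧ |p.2 - (pc e₀ h c).2| ≤ eta e₀ h := by
  have key : ∀ x : ℝ, |x - eta e₀ h * (⌊x / eta e₀ h⌋ : ℤ)| ≤ eta e₀ h := by
    intro x
    have h1 : (⌊x / eta e₀ h⌋ : ℝ) ≤ x / eta e₀ h := Int.floor_le _
    have h2 : x / eta e₀ h < ⌊x / eta e₀ h⌋ + 1 := Int.lt_floor_add_one _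
    rw [le_div_iff₀ hη] at h1
    rw [div_lt_iff₀ hη] at h2
    rw [abs_le]; constructor <;> linarith
  subst hc
  exact ⟨key p.1, key p.2⟩

theorem cellA (g : Geo) (ps : ℝ × ℝ) (hps : ps ∈ g.U) : ∃ d e₁ : ℝ, 0 < d ∧ 0 < e₁ ∧
    ∀ κ₁ κ₂ c₀ c₁ c₂ e₀ : ℝ, 0 < κ₁ → κ₁ ≤ κ₂ → 0 < c₀ → 0 < c₁ → c₁ ≤ c₂ → 0 < e₀ → e₀ ≤ e₁ →
    ∃ C₁ C X₀ : ℝ, 0 < C₁ ∧ 0 < C ∧ ∀ X h κ ρ : ℝ, Reg X₀ X h → κ₁ ≤ κ → κ ≤ κ₂ → 1 ≤ ρ →
    ∀ k ∈ KK h, ∀ c : ℤ × ℤ, ∀ S : Finset (Fin 3 → ℤ),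
    (∀ n ∈ S, ∃ i ∈ II c₀ c₁ c₂ X h, ∃ j ∈ JJ ps d X h, cellOf e₀ h (pj X h j) = c ∧
      Wt g κ c₀ X h (cst k) (i * Lr c₀ X h) (pj X h j) n ≤ ρ) →
    (S.card : ℝ) ≤ C * ρ ^ 3 * (1 + (VV C₁ h (pc e₀ h c)).ncard) := by
  obtain ⟨dT, CT, hdT, hCT, _, _, _, T3⟩ := taylor g ps hps
  obtain ⟨dI, cI, CI, hdI, hcI, hCI, _, _, hup⟩ := inj g ps hps
  set D : ℝ := min dT dI with hD
  have hD0 : 0 < D := lt_min hdT hdI
  have hDT : D ≤ dT := min_le_left _ _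
  have hDI : D ≤ dI := min_le_right _ _
  refine ⟨D / 2, D / 2, by positivity, by positivity, ?_⟩
  intro κ₁ κ₂ c₀ c₁ c₂ e₀ hκ₁ hκ₁₂ hc₀ hc₁ hc₁₂ he₀ he₀₁
  have hκ₂ : 0 < κ₂ := by linarith
  set A' : ℝ := 1 / c₀ + 2 * e₀ + 2 * κ₂ * CT * (e₀ + 2 / c₁) ^ 2 with hA'
  set B : ℝ := 2 + 4 * κ₂ * CI * (e₀ + 1 / c₁) with hB
  have hA'0 : 0 < A' := by positivity
  have hB0 : 0 < B := by positivity
  refine ⟨1, (2 * B + 2) ^ 2 * (2 * (2 * A') + 2), (2 / (c₁ * D)) ^ (7 / 3 : ℝ), one_pos, by positivity, ?_⟩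
  intro X h κ ρ hR hκ hκ' hρ k hk c S hS
  obtain ⟨hX, hh, hhX, hhX2, hhX3, hhX4⟩ := Reg_facts hR
  have hh1 : 1 ≤ h := hR.2.2.1
  have hX₀ : (2 / (c₁ * D)) ^ (7 / 3 : ℝ) ≤ X := hR.2.1
  have hLr := Lr_ge hR hc₀
  have hLt := Lt_ge hR
  have hLr0 : 0 < Lr c₀ X h := lt_of_lt_of_le (mul_pos hc₀ (Real.rpow_pos_of_pos hh _)) hLr
  have hLt0 : 0 < Lt X h := by linarith
  have hκ0 : 0 < κ := by linarith
  have hkn : ‖cst k‖ ≤ 2 * h := by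
    unfold KK at hk
    exact (Finset.mem_filter.mp hk).2.2
  have hkn0 : 0 ≤ ‖cst k‖ := norm_nonneg _
  have hη0 : 0 < eta e₀ h := by
    unfold eta; exact mul_pos he₀ (Real.rpow_pos_of_pos hh _)
  have hm34 : 0 < h ^ (-(3 / 4) : ℝ) := Real.rpow_pos_of_pos hh _
  have hm34' : h ^ (-(3 / 4) : ℝ) ≤ 1 := Real.rpow_le_one_of_one_le_of_nonpos hh1 (by norm_num)
  have hηe : eta e₀ h ≤ e₀ := by
    unfold eta; nlinarith
  set q : ℝ × ℝ := pc e₀ h c with hq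
  have hsk : ∀ s : ℝ, 0 < s → s ≤ 1 / (c₁ * X) → s * ‖cst k‖ ≤ D ∧ s * ‖cst k‖ ≤ 2 / c₁ * h ^ (-(3 / 4) : ℝ) := by
    intro s hs hs'
    have h1 : s * ‖cst k‖ ≤ 2 / c₁ * (h / X) := by
      calc s * ‖cst k‖ ≤ 1 / (c₁ * X) * (2 * h) := by gcongr
        _ = 2 / c₁ * (h / X) := by field_simp
    constructor
    · refine h1.trans ?_
      have h2 : X ^ (-(3 / 7) : ℝ) ≤ c₁ * D / 2 := by
        have h3 : 2 / (c₁ * D) ≤ X ^ (3 / 7 : ℝ) := by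
          calc 2 / (c₁ * D) = ((2 / (c₁ * D)) ^ (7 / 3 : ℝ)) ^ (3 / 7 : ℝ) := by
                rw [← Real.rpow_mul (by positivity)]; norm_num
            _ ≤ X ^ (3 / 7 : ℝ) := by gcongr
        rw [Real.rpow_neg hX.le]
        rw [inv_le_comm₀ (Real.rpow_pos_of_pos hX _) (by positivity)]
        calc (c₁ * D / 2)⁻¹ = 2 / (c₁ * D) := by rw [inv_div]
          _ ≤ _ := h3
      calc 2 / c₁ * (h / X) ≤ 2 / c₁ * (c₁ * D / 2) := by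
            have := hhX3.trans h2
            gcongr
        _ = D := by field_simp
    · refine h1.trans ?_
      gcongr
  -- data for a point
  have hdata : ∀ n ∈ S, ∃ (p : ℝ × ℝ) (s : ℝ), 0 < s ∧ s ≤ 1 / (c₁ * X) ∧ ‖p - ps‖ ≤ D / 2 ∧
      |p.1 - q.1| ≤ eta e₀ h ∧ |p.2 - q.2| ≤ eta e₀ h ∧
      |κ * g.Ev (cst k) s p - (n 0 + n 1 * p.1 + n 2 * p.2)| ≤ ρ / Lr c₀ X h ∧
      |κ * g.Hp (cst k) s p (1, 0) - n 1| ≤ ρ ∧ |κ * g.Hp (cst k) s p (0, 1) - n 2| ≤ ρ := by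
    intro n hn
    obtain ⟨i, hi, j, hj, hc, hW⟩ := hS n hn
    obtain ⟨i1, i2⟩ := II_mem hR hc₀ hi
    have hp := JJ_mem hR hj
    obtain ⟨p1, p2⟩ := cell_dist hη0 hc
    have hr : 0 < c₁ * X := mul_pos hc₁ hX
    refine ⟨pj X h j, 1 / (i * Lr c₀ X h), by apply one_div_pos.mpr; linarith,
      one_div_le_one_div_of_le hr i1, hp, p1, p2, ?_, ?_, ?_⟩
    all_goals unfold Wt at hW
    all_goals
      have w1 : 0 ≤ Lr c₀ X h * |κ * g.Ev (cst k) (1 / (i * Lr c₀ X h)) (pj X h j)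
        - (n 0 + n 1 * (pj X h j).1 + n 2 * (pj X h j).2)| := by positivity
    all_goals
      have w2 : 0 ≤ Lt X h * |κ * g.Hp (cst k) (1 / (i * Lr c₀ X h)) (pj X h j) (1, 0) - n 1| := by positivity
    all_goals
      have w3 : 0 ≤ Lt X h * |κ * g.Hp (cst k) (1 / (i * Lr c₀ X h)) (pj X h j) (0, 1) - n 2| := by positivity
    · rw [le_div_iff₀ hLr0]; linarith
    · have w4 : |κ * g.Hp (cst k) (1 / (i * Lr c₀ X h)) (pj X h j) (1, 0) - n 1|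
          ≤ Lt X h * |κ * g.Hp (cst k) (1 / (i * Lr c₀ X h)) (pj X h j) (1, 0) - n 1| :=
        le_mul_of_one_le_left (abs_nonneg _) hLt
      linarith
    · have w4 : |κ * g.Hp (cst k) (1 / (i * Lr c₀ X h)) (pj X h j) (0, 1) - n 2|
          ≤ Lt X h * |κ * g.Hp (cst k) (1 / (i * Lr c₀ X h)) (pj X h j) (0, 1) - n 2| :=
        le_mul_of_one_le_left (abs_nonneg _) hLt
      linarith
  have hnorm : ∀ p : ℝ × ℝ, |p.1 - q.1| ≤ eta e₀ h → |p.2 - q.2| ≤ eta e₀ h → ‖q - p‖ ≤ eta e₀ h := by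
    intro p h1 h2
    rw [Prod.norm_def]
    simp only [Prod.fst_sub, Prod.snd_sub, Real.norm_eq_abs]
    apply max_le
    · rw [abs_sub_comm]; exact h1
    · rw [abs_sub_comm]; exact h2
  -- first coordinate estimate
  have hQ0 : ∀ n ∈ S, |((n 0 : ℝ) + n 1 * q.1 + n 2 * q.2) - κ * g.f1 q (cst k)|
      ≤ A' * ρ * h ^ (-(1 / 2) : ℝ) := by
    intro n hn
    obtain ⟨p, s, hs, hs', hpps, p1, p2, w0, w1, w2⟩ := hdata n hn
    have hqp := hnorm p p1 p2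
    have hqps : ‖q - ps‖ ≤ dT := by
      calc ‖q - ps‖ = ‖(q - p) + (p - ps)‖ := by congr 1; abel
        _ ≤ ‖q - p‖ + ‖p - ps‖ := norm_add_le _ _
        _ ≤ eta e₀ h + D / 2 := add_le_add hqp hpps
        _ ≤ dT := by linarith
    obtain ⟨sk1, sk2⟩ := hsk s hs hs'
    have t3 := T3 (cst k) p q s hs (by linarith) hqps (sk1.trans hDT)
    rw [Hp_lin] at t3
    simp only [Prod.fst_sub, Prod.snd_sub] at t3
    have e : ((n 0 : ℝ) + n 1 * q.1 + n 2 * q.2) - κ * g.f1 q (cst k)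
        = κ * (g.Ev (cst k) s p + ((q.1 - p.1) * g.Hp (cst k) s p (1, 0) + (q.2 - p.2) * g.Hp (cst k) s p (0, 1))
            - g.f1 q (cst k))
          - (κ * g.Ev (cst k) s p - (n 0 + n 1 * p.1 + n 2 * p.2))
          + (κ * g.Hp (cst k) s p (1, 0) - n 1) * (p.1 - q.1)
          + (κ * g.Hp (cst k) s p (0, 1) - n 2) * (p.2 - q.2) := by ring
    rw [e]
    have b1 : |κ * (g.Ev (cst k) s p + ((q.1 - p.1) * g.Hp (cst k) s p (1, 0) + (q.2 - p.2) * g.Hp (cst k) s p (0, 1))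
            - g.f1 q (cst k))| ≤ 2 * κ₂ * CT * (e₀ + 2 / c₁) ^ 2 * h ^ (-(1 / 2) : ℝ) := by
      rw [abs_mul, abs_of_pos hκ0]
      have e1 : h * (h ^ (-(3 / 4) : ℝ)) ^ 2 = h ^ (-(1 / 2) : ℝ) := by
        rw [← Real.rpow_natCast, ← Real.rpow_mul hh.le]
        conv_lhs => rw [← Real.rpow_one h]
        rw [← Real.rpow_mul hh.le, ← Real.rpow_add hh]
        norm_num
      calc κ * _ ≤ κ₂ * (CT * ‖cst k‖ * (‖q - p‖ + s * ‖cst k‖) ^ 2) := by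
            gcongr
        _ ≤ κ₂ * (CT * (2 * h) * (e₀ * h ^ (-(3 / 4) : ℝ) + 2 / c₁ * h ^ (-(3 / 4) : ℝ)) ^ 2) := by
            have : 0 ≤ ‖q - p‖ + s * ‖cst k‖ := by positivity
            gcongr
            exact hqp
        _ = 2 * κ₂ * CT * (e₀ + 2 / c₁) ^ 2 * (h * (h ^ (-(3 / 4) : ℝ)) ^ 2) := by ring
        _ = _ := by rw [e1]
    have b2 : |κ * g.Ev (cst k) s p - (n 0 + n 1 * p.1 + n 2 * p.2)| ≤ 1 / c₀ * ρ * h ^ (-(1 / 2) : ℝ) := by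
      refine w0.trans ?_
      rw [div_le_iff₀ hLr0]
      have e1 : h ^ (-(1 / 2) : ℝ) * h ^ (1 / 2 : ℝ) = 1 := by
        rw [← Real.rpow_add hh]; norm_num
      calc ρ = 1 / c₀ * ρ * (h ^ (-(1 / 2) : ℝ) * (c₀ * h ^ (1 / 2 : ℝ))) := by
            rw [show h ^ (-(1 / 2) : ℝ) * (c₀ * h ^ (1 / 2 : ℝ)) = c₀ * (h ^ (-(1 / 2) : ℝ) * h ^ (1 / 2 : ℝ)) by ring, e1]
            field_simp
        _ ≤ 1 / c₀ * ρ * (h ^ (-(1 / 2) : ℝ) * Lr c₀ X h) := by gcongr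
        _ = _ := by ring
    have hm : h ^ (-(3 / 4) : ℝ) ≤ h ^ (-(1 / 2) : ℝ) := Real.rpow_le_rpow_of_exponent_le hh1 (by norm_num)
    have b3 : |(κ * g.Hp (cst k) s p (1, 0) - n 1) * (p.1 - q.1)| ≤ ρ * (e₀ * h ^ (-(1 / 2) : ℝ)) := by
      rw [abs_mul]
      have : |p.1 - q.1| ≤ e₀ * h ^ (-(1 / 2) : ℝ) := by
        refine p1.trans ?_
        unfold eta; gcongr
      gcongr
    have b4 : |(κ * g.Hp (cst k) s p (0, 1) - n 2) * (p.2 - q.2)| ≤ ρ * (e₀ * h ^ (-(1 / 2) : ℝ)) := by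
      rw [abs_mul]
      have : |p.2 - q.2| ≤ e₀ * h ^ (-(1 / 2) : ℝ) := by
        refine p2.trans ?_
        unfold eta; gcongr
      gcongr
    have hmp : 0 < h ^ (-(1 / 2) : ℝ) := Real.rpow_pos_of_pos hh _
    calc _ ≤ |κ * (g.Ev (cst k) s p + ((q.1 - p.1) * g.Hp (cst k) s p (1, 0) + (q.2 - p.2) * g.Hp (cst k) s p (0, 1))
            - g.f1 q (cst k))|
          + |κ * g.Ev (cst k) s p - (n 0 + n 1 * p.1 + n 2 * p.2)|
          + |(κ * g.Hp (cst k) s p (1, 0) - n 1) * (p.1 - q.1)|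
          + |(κ * g.Hp (cst k) s p (0, 1) - n 2) * (p.2 - q.2)| := by
          refine (abs_add_le _ _).trans ?_
          gcongr
          refine (abs_add_le _ _).trans ?_
          gcongr
          exact abs_sub _ _
      _ ≤ 2 * κ₂ * CT * (e₀ + 2 / c₁) ^ 2 * h ^ (-(1 / 2) : ℝ) + 1 / c₀ * ρ * h ^ (-(1 / 2) : ℝ)
          + ρ * (e₀ * h ^ (-(1 / 2) : ℝ)) + ρ * (e₀ * h ^ (-(1 / 2) : ℝ)) := by
          gcongr
      _ ≤ 2 * κ₂ * CT * (e₀ + 2 / c₁) ^ 2 * h ^ (-(1 / 2) : ℝ) * ρ + 1 / c₀ * ρ * h ^ (-(1 / 2) : ℝ)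
          + ρ * (e₀ * h ^ (-(1 / 2) : ℝ)) + ρ * (e₀ * h ^ (-(1 / 2) : ℝ)) := by
          have h7 : 2 * κ₂ * CT * (e₀ + 2 / c₁) ^ 2 * h ^ (-(1 / 2) : ℝ) ≤
              2 * κ₂ * CT * (e₀ + 2 / c₁) ^ 2 * h ^ (-(1 / 2) : ℝ) * ρ :=
            le_mul_of_one_le_right (by positivity) hρ
          linarith
      _ = A' * ρ * h ^ (-(1 / 2) : ℝ) := by rw [hA']; ring
  -- the difference of Hp
  have hHd : ∀ (w : ℝ × ℝ), ‖w‖ ≤ 1 → ∀ (p p' : ℝ × ℝ) (s s' : ℝ), 0 < s → s ≤ 1 / (c₁ * X) → ‖p - ps‖ ≤ D / 2 →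
      |p.1 - q.1| ≤ eta e₀ h → |p.2 - q.2| ≤ eta e₀ h → 0 < s' → s' ≤ 1 / (c₁ * X) → ‖p' - ps‖ ≤ D / 2 →
      |p'.1 - q.1| ≤ eta e₀ h → |p'.2 - q.2| ≤ eta e₀ h →
      |κ * g.Hp (cst k) s' p' w - κ * g.Hp (cst k) s p w| ≤ 4 * κ₂ * CI * (e₀ + 1 / c₁) * h ^ (1 / 4 : ℝ) := by
    intro w hw p p' s s' hs hs2 hp hp1 hp2 hs' hs2' hp' hp1' hp2'
    have u := hup (cst k) w p p' s s' hs hs' (by linarith) (by linarith) ((hsk s hs hs2).1.trans hDI)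
      ((hsk s' hs' hs2').1.trans hDI)
    have hpp : ‖p' - p‖ ≤ 2 * (e₀ * h ^ (-(3 / 4) : ℝ)) := by
      calc ‖p' - p‖ = ‖(q - p) - (q - p')‖ := by congr 1; abel
        _ ≤ ‖q - p‖ + ‖q - p'‖ := norm_sub_le _ _
        _ ≤ eta e₀ h + eta e₀ h := add_le_add (hnorm p hp1 hp2) (hnorm p' hp1' hp2')
        _ = 2 * (e₀ * h ^ (-(3 / 4) : ℝ)) := by unfold eta; ring
    have hss : ‖cst k‖ * |s' - s| ≤ 2 / c₁ * h ^ (-(3 / 4) : ℝ) := by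
      have a1 : |s' - s| ≤ 1 / (c₁ * X) := by
        rw [abs_le]; constructor <;> linarith
      calc ‖cst k‖ * |s' - s| ≤ (2 * h) * (1 / (c₁ * X)) := by gcongr
        _ = 2 / c₁ * (h / X) := by field_simp
        _ ≤ _ := by gcongr
    have e1 : h * h ^ (-(3 / 4) : ℝ) = h ^ (1 / 4 : ℝ) := by
      conv_lhs => rw [← Real.rpow_one h, ← Real.rpow_mul hh.le, ← Real.rpow_add hh]
      norm_num
    rw [← mul_sub, abs_mul, abs_of_pos hκ0]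
    calc κ * |g.Hp (cst k) s' p' w - g.Hp (cst k) s p w|
        ≤ κ₂ * (CI * ‖w‖ * ‖cst k‖ * (‖p' - p‖ + ‖cst k‖ * |s' - s|)) := by gcongr
      _ ≤ κ₂ * (CI * 1 * (2 * h) * (2 * (e₀ * h ^ (-(3 / 4) : ℝ)) + 2 / c₁ * h ^ (-(3 / 4) : ℝ))) := by
          gcongr
      _ = 4 * κ₂ * CI * (e₀ + 1 / c₁) * (h * h ^ (-(3 / 4) : ℝ)) := by ring
      _ = _ := by rw [e1]
  have hh14 : 1 ≤ h ^ (1 / 4 : ℝ) := Real.one_le_rpow hh1 (by norm_num)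
  have hQd : ∀ (a b x y : ℝ), |x - a| ≤ ρ → |y - b| ≤ ρ → |x - y| ≤ 4 * κ₂ * CI * (e₀ + 1 / c₁) * h ^ (1 / 4 : ℝ) →
      |a - b| ≤ B * ρ * h ^ (1 / 4 : ℝ) := by
    intro a b x y h1 h2 h3
    have h4 : |a - b| ≤ |x - a| + |y - b| + |x - y| := by
      have : a - b = -(x - a) + (y - b) + (x - y) := by ring
      rw [this]
      refine (abs_add_le _ _).trans ?_
      gcongr
      refine (abs_add_le _ _).trans ?_
      rw [abs_neg]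
    have h5 : ρ ≤ ρ * h ^ (1 / 4 : ℝ) := le_mul_of_one_le_right (by linarith) hh14
    have h6 : 4 * κ₂ * CI * (e₀ + 1 / c₁) * h ^ (1 / 4 : ℝ) ≤ 4 * κ₂ * CI * (e₀ + 1 / c₁) * h ^ (1 / 4 : ℝ) * ρ :=
      le_mul_of_one_le_right (by positivity) hρ
    rw [hB]
    nlinarith
  apply slab_count h ρ (2 * A') B hh1 hρ (by positivity) hB0.le q S
  · intro n hn m hm
    obtain ⟨p, s, hs, hs2, hp, hp1, hp2, w0, w1, w2⟩ := hdata n hn
    obtain ⟨p', s', hs', hs2', hp', hp1', hp2', w0', w1', w2'⟩ := hdata m hm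
    exact hQd _ _ _ _ w1 w1' (by
      rw [abs_sub_comm]
      exact hHd (1, 0) (by simp [Prod.norm_def]) p p' s s' hs hs2 hp hp1 hp2 hs' hs2' hp' hp1' hp2')
  · intro n hn m hm
    obtain ⟨p, s, hs, hs2, hp, hp1, hp2, w0, w1, w2⟩ := hdata n hn
    obtain ⟨p', s', hs', hs2', hp', hp1', hp2', w0', w1', w2'⟩ := hdata m hm
    exact hQd _ _ _ _ w2 w2' (by
      rw [abs_sub_comm]
      exact hHd (0, 1) (by simp [Prod.norm_def]) p p' s s' hs hs2 hp hp1 hp2 hs' hs2' hp' hp1' hp2')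
  · intro n hn m hm
    have a1 := hQ0 n hn
    have a2 := hQ0 m hm
    calc _ = |(((n 0 : ℝ) + n 1 * q.1 + n 2 * q.2) - κ * g.f1 q (cst k))
          - (((m 0 : ℝ) + m 1 * q.1 + m 2 * q.2) - κ * g.f1 q (cst k))| := by congr 1; ring
      _ ≤ _ := (abs_sub _ _).trans (add_le_add a1 a2)
      _ = 2 * A' * ρ * h ^ (-(1 / 2) : ℝ) := by ring

end Pool.Agent.Helper19.BD
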