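import Pool.Agent.Helper19.BD.EInj

/-!
MP_bd232a_nt, part E, block E08 (number of radial boxes `i` for given `k, n` and cell `c`): the curvature lemma.
Trivial bound: `S.card ≤ C X/L_r`. So we may assume `θ := th ≥ L_r/X`, and also `θ ≥ A (η + h/X)` for any constant `A` we like: if
`θ < A(η + h/X)` then `θ ≤ C L_r/X` (in the regime `1 ≤ h ≤ X^{4/7}`: `η = e₀h^{-3/4} ≤ C L_r/X`, `h/X ≤ C L_r/X`), trivial bound again.
Two elements `i, i'` with points `(s,p), (s',p')` (`p,p'` in the cell), `D = s'-s`, `δ = p'-p`, `q = p_c`, `R = C(η + h/X)`, `ε₁ = ρ/L_r`, `ε₂ = ρ/L_t`: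
 (i) `|κHp(s',p')w - κHp(s,p)w| ≤ 2ε₂‖w‖` for `w = e₁,e₂` hence (linearity of Hp in w) for `w = k` with `‖k‖ ≤ 2h`, `w = δ`:  by (T1) with `w = k`:
     `|κ f3(q;k,k,δ) + (κ/2) D f3(q;k,k,k)| ≤ C(h ε₂ + R h² (‖δ‖ + h|D|))`;  by `inj` `‖δ‖ ≤ C(h|D| + ε₂/h)`.
 (ii) `|κEv(s',p') - κEv(s,p) - n'·δ| ≤ 2ε₁`, `|κHp(·)δ - n'·δ| ≤ ε₂‖δ‖·2`, so (T2) gives
     `(s+s')/2 |(κ/3) D f3(q;k,k,k) + (κ/2) f3(q;k,k,δ)| ≤ C(ε₁ + ε₂‖δ‖ + R h(‖δ‖+h|D|)(‖δ‖ + h/X))`.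
 (iii) combine: `(κ/3 - κ/4) |D| |f3(q;k,k,k)| /X ≤ C(ε₁ + ε₂‖δ‖ + hε₂/X + R h(‖δ‖+h|D|)(‖δ‖+h/X))`; insert `‖δ‖ ≤ C(h|D|+ε₂/h)`, `|D| ≤ C/X`:
     the right side is `≤ C ρ²(1/L_r) + C R h³|D|/X` (use `ε₂ h/X = ρ(h/X)^{3/2} ≤ Cρ/L_r`, `ε₂²/h = ρ²/X ≤ Cρ²/L_r`), and `R h³|D|/X` is absorbed as `θ ≥ A(η+h/X)`.
     `|f3(q;k,k,k)| = h³θ`. So `|D| ≤ C ρ² X/(h³ θ L_r)`, `|i-i'| L_r = |r-r'| ≤ C X²|D|`, `|i-i'| ≤ C ρ² X³/(h³L_r²θ) ≤ Cρ²/θ` if `L_r = c₀(X/h)^{3/2}`;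
     if `L_r = c₀X` (`h ≤ X^{1/3}`) the trivial bound `C` is enough (`max(θ, L_r/X) ≤ C`).
-/

namespace Pool.Agent.Helper19.BD

namespace CI

/-- linearity of `Hp` in `w` -/
theorem Hp_lin (g : Geo) (k : ℝ × ℝ) (s : ℝ) (p w : ℝ × ℝ) :
    g.Hp k s p w = w.1 * g.Hp k s p (1, 0) + w.2 * g.Hp k s p (0, 1) := by
  simp only [Geo.Hp, Geo.f1, Geo.TT, Geo.tt, Fin.sum_univ_three]
  ring

theorem f3_symm (g : Geo) (q k z : ℝ × ℝ) : g.f3 q k z k = g.f3 q k k z := by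
  simp only [Geo.f3, Geo.TT, Geo.tt, Fin.sum_univ_three]
  ring

/-- pure inequality behind the curvature lemma -/
theorem core (K₁ K₂ c₁ : ℝ) (hK₁ : 0 < K₁) (hK₂ : 0 < K₂) (hc₁ : 0 < c₁) :
    ∃ K₄ K₅ : ℝ, 0 < K₄ ∧ 0 < K₅ ∧ ∀ h u e1 e2 M R a Δ σ κ B DG : ℝ,
      0 < h → 0 ≤ u → 0 ≤ e2 → 0 ≤ M → 0 ≤ R → R ≤ 1 → 0 ≤ a → 0 ≤ Δ → 0 ≤ κ → 0 ≤ σ →
      σ * h ≤ u / c₁ → Δ ≤ u / c₁ → e1 ≤ M → e2 * u ≤ M → e2 ^ 2 / h ≤ M →
      a ≤ K₁ * (e2 / h + Δ) →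
      κ * |B + 1 / 2 * DG| ≤ K₂ * (h * e2 + R * h ^ 2 * (a + Δ)) →
      κ * σ * |1 / 3 * DG + 1 / 2 * B| ≤ K₂ * (e1 + e2 * a + R * h * (a + Δ) * (a + u)) →
      κ * σ * |DG| ≤ K₄ * M + K₅ * (R * (h * Δ * u)) := by
  set L := 1 / c₁ with hL
  have hL0 : 0 < L := by positivity
  set K₃ := K₁ + K₁ * L + 1 with hK₃
  have hK₃0 : 0 < K₃ := by positivity
  refine ⟨12 * (K₂ * (1 + K₁ * (1 + L) + (K₁ + 1) * K₃ * (2 + L)) + K₂ * L * (1 + (K₁ + 1))),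
    12 * (K₂ * ((K₁ + 1) * K₃) + K₂ * L * (K₁ + 1)), by positivity, by positivity, ?_⟩
  intro h u e1 e2 M R a Δ σ κ B DG hh hu he2 hM hR hR1 ha hΔ hκ hσ hσh hΔu he1 he2u he2h haK hII hIII
  have hdiv : u / c₁ = L * u := by rw [hL]; ring
  rw [hdiv] at hσh hΔu
  -- combination
  have h1 : κ * σ * |DG| ≤ 12 * (κ * σ * |1 / 3 * DG + 1 / 2 * B|) + 6 * σ * (κ * |B + 1 / 2 * DG|) := by
    have h2 : DG = 12 * (1 / 3 * DG + 1 / 2 * B) - 6 * (B + 1 / 2 * DG) := by ring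
    have h3 : |DG| ≤ 12 * |1 / 3 * DG + 1 / 2 * B| + 6 * |B + 1 / 2 * DG| := by
      calc |DG| = |12 * (1 / 3 * DG + 1 / 2 * B) - 6 * (B + 1 / 2 * DG)| := by rw [← h2]
        _ ≤ |12 * (1 / 3 * DG + 1 / 2 * B)| + |6 * (B + 1 / 2 * DG)| := abs_sub _ _
        _ = 12 * |1 / 3 * DG + 1 / 2 * B| + 6 * |B + 1 / 2 * DG| := by
            rw [abs_mul, abs_mul]; norm_num
    calc κ * σ * |DG| ≤ κ * σ * (12 * |1 / 3 * DG + 1 / 2 * B| + 6 * |B + 1 / 2 * DG|) :=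
          mul_le_mul_of_nonneg_left h3 (by positivity)
      _ = _ := by ring
  -- auxiliary bounds
  set b := e2 / h + Δ with hb
  have hb0 : 0 ≤ b := by rw [hb]; positivity
  have hhe : h * (e2 / h) = e2 := by field_simp
  have haD : a + Δ ≤ (K₁ + 1) * b := by
    have : Δ ≤ b := by rw [hb]; have : 0 ≤ e2 / h := by positivity
                       linarith
    nlinarith
  have hbu : b ≤ e2 / h + L * u := by rw [hb]; linarith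
  have hau : a + u ≤ K₃ * (e2 / h + u) := by
    have h0 : 0 ≤ e2 / h := by positivity
    have h2 : K₁ * b ≤ K₁ * (e2 / h + L * u) := mul_le_mul_of_nonneg_left hbu hK₁.le
    have h3 : 0 ≤ K₁ * L * (e2 / h) := by positivity
    have h4 : 0 ≤ K₁ * u := by positivity
    have : K₃ * (e2 / h + u) = K₁ * (e2 / h) + K₁ * L * (e2 / h) + e2 / h + K₁ * u + K₁ * L * u + u := by
      rw [hK₃]; ring
    rw [this]
    nlinarith
  -- e2 * a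
  have hX1 : e2 * Δ ≤ L * M := by
    calc e2 * Δ ≤ e2 * (L * u) := mul_le_mul_of_nonneg_left hΔu he2
      _ = L * (e2 * u) := by ring
      _ ≤ L * M := mul_le_mul_of_nonneg_left he2u hL0.le
  have hX2 : e2 * (e2 / h) ≤ M := by
    have : e2 * (e2 / h) = e2 ^ 2 / h := by ring
    rw [this]; exact he2h
  have he2a : e2 * a ≤ K₁ * (1 + L) * M := by
    calc e2 * a ≤ e2 * (K₁ * b) := mul_le_mul_of_nonneg_left haK he2
      _ = K₁ * (e2 * (e2 / h) + e2 * Δ) := by rw [hb]; ring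
      _ ≤ K₁ * (M + L * M) := mul_le_mul_of_nonneg_left (add_le_add hX2 hX1) hK₁.le
      _ = _ := by ring
  -- quadratic term
  have hquad : R * h * (a + Δ) * (a + u) ≤ (K₁ + 1) * K₃ * ((2 + L) * M + R * (h * Δ * u)) := by
    have h0 : 0 ≤ e2 / h := by positivity
    have h2 : (a + Δ) * (a + u) ≤ ((K₁ + 1) * b) * (K₃ * (e2 / h + u)) :=
      mul_le_mul haD hau (by positivity) (by positivity)
    have h3 : h * (b * (e2 / h + u)) = e2 * (e2 / h) + e2 * u + e2 * Δ + h * Δ * u := by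
      rw [hb]
      have : h * ((e2 / h + Δ) * (e2 / h + u)) = (h * (e2 / h)) * (e2 / h) + (h * (e2 / h)) * u
        + (h * (e2 / h)) * Δ + h * Δ * u := by ring
      rw [this, hhe]
    have h4 : R * (h * (b * (e2 / h + u))) ≤ (2 + L) * M + R * (h * Δ * u) := by
      rw [h3]
      have h5 : e2 * (e2 / h) + e2 * u + e2 * Δ ≤ (2 + L) * M := by linarith
      have h6 : 0 ≤ e2 * (e2 / h) + e2 * u + e2 * Δ := by positivity
      have h7 : R * (e2 * (e2 / h) + e2 * u + e2 * Δ) ≤ 1 * ((2 + L) * M) :=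
        mul_le_mul hR1 h5 h6 (by norm_num)
      linarith
    calc R * h * (a + Δ) * (a + u) = (R * h) * ((a + Δ) * (a + u)) := by ring
      _ ≤ (R * h) * (((K₁ + 1) * b) * (K₃ * (e2 / h + u))) := mul_le_mul_of_nonneg_left h2 (by positivity)
      _ = (K₁ + 1) * K₃ * (R * (h * (b * (e2 / h + u)))) := by ring
      _ ≤ _ := mul_le_mul_of_nonneg_left h4 (by positivity)
  -- the second term
  have hsec : σ * (h * e2 + R * h ^ 2 * (a + Δ)) ≤ L * ((1 + (K₁ + 1)) * M + (K₁ + 1) * (R * (h * Δ * u))) := by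
    have h2 : σ * (h * e2) ≤ L * M := by
      calc σ * (h * e2) = (σ * h) * e2 := by ring
        _ ≤ (L * u) * e2 := mul_le_mul_of_nonneg_right hσh he2
        _ = L * (e2 * u) := by ring
        _ ≤ L * M := mul_le_mul_of_nonneg_left he2u hL0.le
    have h3 : σ * (R * h ^ 2 * (a + Δ)) ≤ L * ((K₁ + 1) * M + (K₁ + 1) * (R * (h * Δ * u))) := by
      calc σ * (R * h ^ 2 * (a + Δ)) = (σ * h) * (R * h * (a + Δ)) := by ring
        _ ≤ (L * u) * (R * h * (a + Δ)) := mul_le_mul_of_nonneg_right hσh (by positivity)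
        _ ≤ (L * u) * (R * h * ((K₁ + 1) * b)) := by
            refine mul_le_mul_of_nonneg_left ?_ (by positivity)
            exact mul_le_mul_of_nonneg_left haD (by positivity)
        _ = L * (K₁ + 1) * (R * ((h * (e2 / h)) * u + h * Δ * u)) := by rw [hb]; ring
        _ = L * (K₁ + 1) * (R * (e2 * u) + R * (h * Δ * u)) := by rw [hhe]; ring
        _ ≤ L * (K₁ + 1) * (M + R * (h * Δ * u)) := by
            refine mul_le_mul_of_nonneg_left ?_ (by positivity)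
            have : R * (e2 * u) ≤ 1 * M := mul_le_mul hR1 he2u (by positivity) (by norm_num)
            linarith
        _ = _ := by ring
    calc σ * (h * e2 + R * h ^ 2 * (a + Δ)) = σ * (h * e2) + σ * (R * h ^ 2 * (a + Δ)) := by ring
      _ ≤ L * M + L * ((K₁ + 1) * M + (K₁ + 1) * (R * (h * Δ * u))) := add_le_add h2 h3
      _ = _ := by ring
  have hA : 12 * (κ * σ * |1 / 3 * DG + 1 / 2 * B|) ≤ 12 * (K₂ * (M + K₁ * (1 + L) * M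
      + (K₁ + 1) * K₃ * ((2 + L) * M + R * (h * Δ * u)))) := by
    refine mul_le_mul_of_nonneg_left (hIII.trans ?_) (by norm_num)
    exact mul_le_mul_of_nonneg_left (add_le_add (add_le_add he1 he2a) hquad) hK₂.le
  have hB : 6 * σ * (κ * |B + 1 / 2 * DG|) ≤ 12 * (K₂ * (L * ((1 + (K₁ + 1)) * M + (K₁ + 1) * (R * (h * Δ * u))))) := by
    have h2 : σ * (κ * |B + 1 / 2 * DG|) ≤ σ * (K₂ * (h * e2 + R * h ^ 2 * (a + Δ))) :=
      mul_le_mul_of_nonneg_left hII hσ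
    have h3 : σ * (K₂ * (h * e2 + R * h ^ 2 * (a + Δ))) = K₂ * (σ * (h * e2 + R * h ^ 2 * (a + Δ))) := by ring
    have h4 := mul_le_mul_of_nonneg_left hsec hK₂.le
    have h5 : 0 ≤ σ * (κ * |B + 1 / 2 * DG|) := by positivity
    have h6 := h2.trans (h3.le.trans h4)
    calc 6 * σ * (κ * |B + 1 / 2 * DG|) = 6 * (σ * (κ * |B + 1 / 2 * DG|)) := by ring
      _ ≤ 12 * (σ * (κ * |B + 1 / 2 * DG|)) := by linarith
      _ ≤ _ := mul_le_mul_of_nonneg_left h6 (by norm_num)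
  calc κ * σ * |DG| ≤ _ := h1
    _ ≤ _ := add_le_add hA hB
    _ = _ := by ring

theorem lin_bound (κ e2 a1 a2 n1 n2 : ℝ) (w : ℝ × ℝ) (h1 : |κ * a1 - n1| ≤ e2) (h2 : |κ * a2 - n2| ≤ e2) :
    |κ * (w.1 * a1 + w.2 * a2) - (n1 * w.1 + n2 * w.2)| ≤ 2 * e2 * ‖w‖ := by
  have e1 : κ * (w.1 * a1 + w.2 * a2) - (n1 * w.1 + n2 * w.2) = w.1 * (κ * a1 - n1) + w.2 * (κ * a2 - n2) := by
    ring
  have hw1 : |w.1| ≤ ‖w‖ := norm_fst_le w
  have hw2 : |w.2| ≤ ‖w‖ := norm_snd_le w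
  have he2 : 0 ≤ e2 := (abs_nonneg _).trans h1
  rw [e1]
  calc |w.1 * (κ * a1 - n1) + w.2 * (κ * a2 - n2)| ≤ |w.1 * (κ * a1 - n1)| + |w.2 * (κ * a2 - n2)| := abs_add_le _ _
    _ = |w.1| * |κ * a1 - n1| + |w.2| * |κ * a2 - n2| := by rw [abs_mul, abs_mul]
    _ ≤ ‖w‖ * e2 + ‖w‖ * e2 := add_le_add (mul_le_mul hw1 h1 (abs_nonneg _) (norm_nonneg _))
        (mul_le_mul hw2 h2 (abs_nonneg _) (norm_nonneg _))
    _ = _ := by ring

theorem pair (g : Geo) (ps : ℝ × ℝ) (hps : ps ∈ g.U) : ∃ dm Cθ : ℝ, 0 < dm ∧ dm ≤ 1 ∧ 0 < Cθ ∧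
    (∀ q k, ‖q - ps‖ ≤ dm → |g.f3 q k k k| ≤ Cθ * ‖k‖ ^ 3) ∧
    ∀ κ₁ κ₂ c₁ c₂ : ℝ, 0 < κ₁ → κ₁ ≤ κ₂ → 0 < c₁ → c₁ ≤ c₂ → ∃ K₆ K₇ : ℝ, 0 < K₆ ∧ 0 < K₇ ∧
    ∀ (X h κ e1 e2 M R s s' n0 n1 n2 : ℝ) (k q p p' : ℝ × ℝ), 1 ≤ X → 1 ≤ h → κ₁ ≤ κ → κ ≤ κ₂ →
      h ≤ ‖k‖ → ‖k‖ ≤ 2 * h → 1 / (c₂ * X) ≤ s → s ≤ 1 / (c₁ * X) → 1 / (c₂ * X) ≤ s' → s' ≤ 1 / (c₁ * X) →
      ‖q - ps‖ ≤ dm → ‖p - ps‖ ≤ dm → ‖p' - ps‖ ≤ dm → ‖p - q‖ ≤ R → ‖p' - q‖ ≤ R →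
      2 * h / (c₁ * X) ≤ R → R ≤ dm → 0 ≤ e2 →
      |κ * g.Ev k s p - (n0 + n1 * p.1 + n2 * p.2)| ≤ e1 → |κ * g.Ev k s' p' - (n0 + n1 * p'.1 + n2 * p'.2)| ≤ e1 →
      |κ * g.Hp k s p (1, 0) - n1| ≤ e2 → |κ * g.Hp k s p (0, 1) - n2| ≤ e2 →
      |κ * g.Hp k s' p' (1, 0) - n1| ≤ e2 → |κ * g.Hp k s' p' (0, 1) - n2| ≤ e2 →
      e1 ≤ M → e2 * (h / X) ≤ M → e2 ^ 2 / h ≤ M →
      |s' - s| * |g.f3 q k k k| / X ≤ K₆ * M + K₇ * R * (h ^ 3 * |s' - s| / X) := by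
  obtain ⟨dT, CT, hdT, hCT, -, hT1, hT2, -⟩ := taylor g ps hps
  obtain ⟨dI, cI, CI, hdI, hcI, hCI, -, hI1, hI2⟩ := inj g ps hps
  obtain ⟨dJ, CJ, hdJ, hCJ, -, -, -, -, -, -, hJ, -, -⟩ := jet g ps hps
  set dm := min (min dT dI) (min dJ 1) with hdm
  have hdm0 : 0 < dm := lt_min (lt_min hdT hdI) (lt_min hdJ one_pos)
  have hdmT : dm ≤ dT := (min_le_left _ _).trans (min_le_left _ _)
  have hdmI : dm ≤ dI := (min_le_left _ _).trans (min_le_right _ _)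
  have hdmJ : dm ≤ dJ := (min_le_right _ _).trans (min_le_left _ _)
  have hdm1 : dm ≤ 1 := (min_le_right _ _).trans (min_le_right _ _)
  refine ⟨dm, CJ, hdm0, hdm1, hCJ, ?_, ?_⟩
  · intro q k hq
    have := hJ q k k k (hq.trans hdmJ)
    calc |g.f3 q k k k| ≤ CJ * ‖k‖ * ‖k‖ * ‖k‖ := this
      _ = CJ * ‖k‖ ^ 3 := by ring
  intro κ₁ κ₂ c₁ c₂ hκ₁ hκ₁₂ hc₁ hc₁₂
  have hκ₂ : 0 < κ₂ := hκ₁.trans_le hκ₁₂
  have hc₂ : 0 < c₂ := hc₁.trans_le hc₁₂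
  set K₁ : ℝ := 2 / (κ₁ * cI) + 4 * CI / cI with hK₁
  have hK₁0 : 0 < K₁ := by positivity
  set K₂ : ℝ := 8 + 8 * κ₂ * CT + 4 * κ₂ * CT * (1 + 4 / c₁) with hK₂
  have hK₂0 : 0 < K₂ := by positivity
  obtain ⟨K₄, K₅, hK₄, hK₅, hcore⟩ := core K₁ K₂ c₁ hK₁0 hK₂0 hc₁
  refine ⟨c₂ / κ₁ * K₄, c₂ / κ₁ * K₅, by positivity, by positivity, ?_⟩
  intro X h κ e1 e2 M R s s' n0 n1 n2 k q p p' hX hh hκκ₁ hκκ₂ hkl hku hsl hsu hsl' hsu' hq hp hp' hpq hpq' hR hRdm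
    he2 hE hE' hH1 hH2 hH1' hH2' he1M he2M he22M
  have hX0 : 0 < X := by linarith
  have hh0 : 0 < h := by linarith
  have hκ0 : 0 < κ := hκ₁.trans_le hκκ₁
  have hs0 : 0 < s := lt_of_lt_of_le (by positivity) hsl
  have hs0' : 0 < s' := lt_of_lt_of_le (by positivity) hsl'
  have hR0 : 0 < R := lt_of_lt_of_le (by positivity) hR
  have hk0 : 0 < ‖k‖ := by linarith
  have he1 : 0 ≤ e1 := (abs_nonneg _).trans hE
  have hM0 : 0 ≤ M := he1.trans he1M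
  have hskR : ∀ s : ℝ, 0 < s → s ≤ 1 / (c₁ * X) → s * ‖k‖ ≤ R := by
    intro s hs hs'
    calc s * ‖k‖ ≤ 1 / (c₁ * X) * (2 * h) := mul_le_mul hs' hku hk0.le (by positivity)
      _ = 2 * h / (c₁ * X) := by ring
      _ ≤ R := hR
  set δ := p' - p with hδ
  set a := ‖δ‖ with ha
  have ha0 : 0 ≤ a := norm_nonneg _
  set D := s' - s with hD
  set G := g.f3 q k k k with hG
  set B := g.f3 q k k δ with hB
  have hT1' := hT1 k k p p' q s s' R hs0 hs0' (hp.trans hdmT) (hp'.trans hdmT) (hq.trans hdmT)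
    (hskR s hs0 hsu) (hskR s' hs0' hsu') hpq hpq' (hRdm.trans hdmT)
  have hT2' := hT2 k p p' q s s' R hs0 hs0' (hp.trans hdmT) (hp'.trans hdmT) (hq.trans hdmT)
    (hskR s hs0 hsu) (hskR s' hs0' hsu') hpq hpq' (hRdm.trans hdmT)
  rw [f3_symm, ← hδ, ← hD, ← hG, ← hB, ← ha] at hT1'
  rw [← hδ, ← hD, ← hG, ← hB, ← ha] at hT2'
  set Δ := h * |D| with hΔ
  have hΔ0 : 0 ≤ Δ := by positivity
  have hkD : ‖k‖ * |D| ≤ 2 * Δ := by
    calc ‖k‖ * |D| ≤ 2 * h * |D| := mul_le_mul_of_nonneg_right hku (abs_nonneg _)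
      _ = 2 * Δ := by rw [hΔ]; ring
  have haD : a + ‖k‖ * |D| ≤ 2 * (a + Δ) := by linarith
  have hkk : ‖k‖ * ‖k‖ ≤ 4 * h ^ 2 := by
    calc ‖k‖ * ‖k‖ ≤ (2 * h) * (2 * h) := mul_le_mul hku hku hk0.le (by positivity)
      _ = 4 * h ^ 2 := by ring
  -- bounds from the lattice points
  have hlin : ∀ w : ℝ × ℝ, |κ * g.Hp k s p w - (n1 * w.1 + n2 * w.2)| ≤ 2 * e2 * ‖w‖ := by
    intro w; rw [Hp_lin]; exact lin_bound κ e2 _ _ n1 n2 w hH1 hH2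
  have hlin' : ∀ w : ℝ × ℝ, |κ * g.Hp k s' p' w - (n1 * w.1 + n2 * w.2)| ≤ 2 * e2 * ‖w‖ := by
    intro w; rw [Hp_lin]; exact lin_bound κ e2 _ _ n1 n2 w hH1' hH2'
  -- (I)
  have hI : a ≤ K₁ * (e2 / h + Δ) := by
    have hgen : ∀ w : ℝ × ℝ, ‖w‖ ≤ 1 → |κ * g.Hp k s p w - (n1 * w.1 + n2 * w.2)| ≤ e2 →
        |κ * g.Hp k s' p' w - (n1 * w.1 + n2 * w.2)| ≤ e2 →
        |g.Hp k s p' w - g.Hp k s p w| ≤ 2 * e2 / κ₁ + 4 * CI * h * Δ := by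
      intro w hw h1 h2
      have h3 := hI2 k w p' p' s s' hs0 hs0' (hp'.trans hdmI) (hp'.trans hdmI)
        ((hskR s hs0 hsu).trans (hRdm.trans hdmI)) ((hskR s' hs0' hsu').trans (hRdm.trans hdmI))
      rw [sub_self, norm_zero, zero_add] at h3
      have h4 : CI * ‖w‖ * ‖k‖ * (‖k‖ * |s' - s|) ≤ 4 * CI * h * Δ := by
        calc CI * ‖w‖ * ‖k‖ * (‖k‖ * |s' - s|) = CI * ‖w‖ * (‖k‖ * ‖k‖) * |D| := by rw [hD]; ring
          _ ≤ CI * 1 * (4 * h ^ 2) * |D| := by gcongr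
          _ = 4 * CI * h * Δ := by rw [hΔ]; ring
      have h5 : |κ * g.Hp k s' p' w - κ * g.Hp k s p w| ≤ 2 * e2 := by
        calc |κ * g.Hp k s' p' w - κ * g.Hp k s p w|
            = |(κ * g.Hp k s' p' w - (n1 * w.1 + n2 * w.2)) - (κ * g.Hp k s p w - (n1 * w.1 + n2 * w.2))| := by
              congr 1; ring
          _ ≤ _ := abs_sub _ _
          _ ≤ 2 * e2 := by linarith
      have h6 : |g.Hp k s' p' w - g.Hp k s p w| ≤ 2 * e2 / κ₁ := by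
        rw [← mul_sub, abs_mul, abs_of_pos hκ0] at h5
        rw [le_div_iff₀ hκ₁]
        calc |g.Hp k s' p' w - g.Hp k s p w| * κ₁ ≤ |g.Hp k s' p' w - g.Hp k s p w| * κ :=
              mul_le_mul_of_nonneg_left hκκ₁ (abs_nonneg _)
          _ = κ * |g.Hp k s' p' w - g.Hp k s p w| := mul_comm _ _
          _ ≤ 2 * e2 := h5
      calc |g.Hp k s p' w - g.Hp k s p w|
          = |(g.Hp k s' p' w - g.Hp k s p w) - (g.Hp k s' p' w - g.Hp k s p' w)| := by congr 1; ring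
        _ ≤ |g.Hp k s' p' w - g.Hp k s p w| + |g.Hp k s' p' w - g.Hp k s p' w| := abs_sub _ _
        _ ≤ _ := add_le_add h6 (h3.trans h4)
    have h1 := hI1 k p p' s hs0 (hp.trans hdmI) (hp'.trans hdmI) ((hskR s hs0 hsu).trans (hRdm.trans hdmI))
    have hw1 : ‖((1:ℝ), (0:ℝ))‖ ≤ 1 := by simp [Prod.norm_def]
    have hw2 : ‖((0:ℝ), (1:ℝ))‖ ≤ 1 := by simp [Prod.norm_def]
    have h2 := hgen (1, 0) hw1 (by simpa using hH1) (by simpa using hH1')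
    have h3 := hgen (0, 1) hw2 (by simpa using hH2) (by simpa using hH2')
    have h4 : cI * ‖k‖ * ‖p' - p‖ ≤ 2 * e2 / κ₁ + 4 * CI * h * Δ := h1.trans (max_le h2 h3)
    have h5 : cI * h * a ≤ 2 * e2 / κ₁ + 4 * CI * h * Δ := by
      refine le_trans ?_ h4
      rw [← hδ, ← ha]
      gcongr
    have h6 : K₁ * (e2 / h + Δ) = (2 * e2 / κ₁ + 4 * CI * h * Δ) / (cI * h)
        + 2 / (κ₁ * cI) * Δ + 4 * CI / cI * (e2 / h) := by
      rw [hK₁]; field_simp; ring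
    have h7 : a ≤ (2 * e2 / κ₁ + 4 * CI * h * Δ) / (cI * h) := by
      rw [le_div_iff₀ (by positivity)]
      linarith
    have h8 : 0 ≤ 2 / (κ₁ * cI) * Δ := by positivity
    have h9 : 0 ≤ 4 * CI / cI * (e2 / h) := by positivity
    rw [h6]; linarith
  -- (II)
  have hII : κ * |B + 1 / 2 * (D * G)| ≤ K₂ * (h * e2 + R * h ^ 2 * (a + Δ)) := by
    have h1 : |κ * g.Hp k s' p' k - κ * g.Hp k s p k| ≤ 8 * h * e2 := by
      calc |κ * g.Hp k s' p' k - κ * g.Hp k s p k|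
          = |(κ * g.Hp k s' p' k - (n1 * k.1 + n2 * k.2)) - (κ * g.Hp k s p k - (n1 * k.1 + n2 * k.2))| := by
            congr 1; ring
        _ ≤ _ := abs_sub _ _
        _ ≤ 2 * e2 * ‖k‖ + 2 * e2 * ‖k‖ := add_le_add (hlin' k) (hlin k)
        _ = 4 * e2 * ‖k‖ := by ring
        _ ≤ 4 * e2 * (2 * h) := by gcongr
        _ = 8 * h * e2 := by ring
    have h2 : κ * |B + 1 / 2 * (D * G)| ≤ |κ * g.Hp k s' p' k - κ * g.Hp k s p k|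
        + κ * |g.Hp k s' p' k - g.Hp k s p k - B - 1 / 2 * D * G| := by
      have h3 : B + 1 / 2 * (D * G) = (g.Hp k s' p' k - g.Hp k s p k)
          - (g.Hp k s' p' k - g.Hp k s p k - B - 1 / 2 * D * G) := by ring
      calc κ * |B + 1 / 2 * (D * G)| ≤ κ * (|g.Hp k s' p' k - g.Hp k s p k|
            + |g.Hp k s' p' k - g.Hp k s p k - B - 1 / 2 * D * G|) := by
            refine mul_le_mul_of_nonneg_left ?_ hκ0.le
            conv_lhs => rw [h3]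
            exact abs_sub _ _
        _ = _ := by rw [mul_add, ← mul_sub, abs_mul κ, abs_of_pos hκ0]
    have h4 : κ * |g.Hp k s' p' k - g.Hp k s p k - B - 1 / 2 * D * G| ≤ 8 * κ₂ * CT * (R * h ^ 2 * (a + Δ)) := by
      calc κ * |g.Hp k s' p' k - g.Hp k s p k - B - 1 / 2 * D * G|
          ≤ κ₂ * (CT * R * ‖k‖ * ‖k‖ * (a + ‖k‖ * |D|)) :=
            mul_le_mul hκκ₂ hT1' (abs_nonneg _) hκ₂.le
        _ = κ₂ * CT * R * (‖k‖ * ‖k‖) * (a + ‖k‖ * |D|) := by ring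
        _ ≤ κ₂ * CT * R * (4 * h ^ 2) * (2 * (a + Δ)) := by gcongr
        _ = _ := by ring
    have h5 : 0 ≤ h * e2 := by positivity
    have h6 : 0 ≤ R * h ^ 2 * (a + Δ) := by positivity
    have h7 : K₂ * (h * e2 + R * h ^ 2 * (a + Δ)) = 8 * h * e2 + 8 * κ₂ * CT * (R * h ^ 2 * (a + Δ))
        + ((8 * κ₂ * CT + 4 * κ₂ * CT * (1 + 4 / c₁)) * (h * e2)
          + (8 + 4 * κ₂ * CT * (1 + 4 / c₁)) * (R * h ^ 2 * (a + Δ))) := by rw [hK₂]; ring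
    have h8 : 0 ≤ (8 * κ₂ * CT + 4 * κ₂ * CT * (1 + 4 / c₁)) * (h * e2)
          + (8 + 4 * κ₂ * CT * (1 + 4 / c₁)) * (R * h ^ 2 * (a + Δ)) := by positivity
    rw [h7]
    linarith
  -- (III)
  set σ := (s + s') / 2 with hσ
  have hσ0 : 0 < σ := by rw [hσ]; positivity
  have hσu : σ ≤ 1 / (c₁ * X) := by rw [hσ]; linarith
  have hσl : 1 / (c₂ * X) ≤ σ := by rw [hσ]; linarith
  set u := h / X with hu
  have hu0 : 0 < u := by positivity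
  have hIII : κ * σ * |1 / 3 * (D * G) + 1 / 2 * B| ≤ K₂ * (e1 + e2 * a + R * h * (a + Δ) * (a + u)) := by
    set W := g.Ev k s' p' - g.Ev k s p - 1 / 2 * (g.Hp k s p δ + g.Hp k s' p' δ) with hW
    have h1 : κ * |W| ≤ 2 * e1 + 2 * e2 * a := by
      have h2 : κ * W = (κ * g.Ev k s' p' - (n0 + n1 * p'.1 + n2 * p'.2)) - (κ * g.Ev k s p - (n0 + n1 * p.1 + n2 * p.2))
          - 1 / 2 * ((κ * g.Hp k s p δ - (n1 * δ.1 + n2 * δ.2)) + (κ * g.Hp k s' p' δ - (n1 * δ.1 + n2 * δ.2))) := by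
        have h3 : δ.1 = p'.1 - p.1 := rfl
        have h4 : δ.2 = p'.2 - p.2 := rfl
        rw [hW, h3, h4]; ring
      rw [← abs_of_pos hκ0, ← abs_mul, h2]
      have h5 := hlin δ
      have h6 := hlin' δ
      rw [← ha] at h5 h6
      rw [abs_le] at hE hE' h5 h6 ⊢
      constructor <;> linarith [hE.1, hE.2, hE'.1, hE'.2, h5.1, h5.2, h6.1, h6.2]
    have h2 : σ * |1 / 3 * (D * G) + 1 / 2 * B| ≤ |W| + |W + σ * (1 / 3 * D * G + 1 / 2 * B)| := by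
      have h3 : σ * (1 / 3 * (D * G) + 1 / 2 * B) = (W + σ * (1 / 3 * D * G + 1 / 2 * B)) - W := by ring
      rw [← abs_of_pos hσ0, ← abs_mul, h3, abs_of_pos hσ0]
      calc |W + σ * (1 / 3 * D * G + 1 / 2 * B) - W| ≤ |W + σ * (1 / 3 * D * G + 1 / 2 * B)| + |W| := abs_sub _ _
        _ = _ := add_comm _ _
    have h3 : κ * |W + σ * (1 / 3 * D * G + 1 / 2 * B)| ≤ 4 * κ₂ * CT * (1 + 4 / c₁) * (R * h * (a + Δ) * (a + u)) := by
      have h4 : a + (s + s') * ‖k‖ ≤ (1 + 4 / c₁) * (a + u) := by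
        have h5 : (s + s') * ‖k‖ ≤ 4 / c₁ * u := by
          calc (s + s') * ‖k‖ ≤ (1 / (c₁ * X) + 1 / (c₁ * X)) * (2 * h) :=
                mul_le_mul (add_le_add hsu hsu') hku hk0.le (by positivity)
            _ = 4 / c₁ * u := by rw [hu]; field_simp; ring
        have h6 : 0 ≤ 4 / c₁ * a := by positivity
        have h7 : (1 + 4 / c₁) * (a + u) = a + u + 4 / c₁ * a + 4 / c₁ * u := by ring
        rw [h7]; linarith
      calc κ * |W + σ * (1 / 3 * D * G + 1 / 2 * B)|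
          ≤ κ₂ * (CT * R * ‖k‖ * (a + ‖k‖ * |D|) * (a + (s + s') * ‖k‖)) :=
            mul_le_mul hκκ₂ hT2' (abs_nonneg _) hκ₂.le
        _ ≤ κ₂ * (CT * R * (2 * h) * (2 * (a + Δ)) * ((1 + 4 / c₁) * (a + u))) := by gcongr
        _ = _ := by ring
    have h5 : κ * σ * |1 / 3 * (D * G) + 1 / 2 * B| ≤ (2 * e1 + 2 * e2 * a)
        + 4 * κ₂ * CT * (1 + 4 / c₁) * (R * h * (a + Δ) * (a + u)) := by
      calc κ * σ * |1 / 3 * (D * G) + 1 / 2 * B| = κ * (σ * |1 / 3 * (D * G) + 1 / 2 * B|) := by ring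
        _ ≤ κ * (|W| + |W + σ * (1 / 3 * D * G + 1 / 2 * B)|) := mul_le_mul_of_nonneg_left h2 hκ0.le
        _ = κ * |W| + κ * |W + σ * (1 / 3 * D * G + 1 / 2 * B)| := by ring
        _ ≤ _ := add_le_add h1 h3
    refine h5.trans ?_
    have h6 : 0 ≤ e2 * a := by positivity
    have h7 : 0 ≤ R * h * (a + Δ) * (a + u) := by positivity
    have h8 : K₂ * (e1 + e2 * a + R * h * (a + Δ) * (a + u)) = (2 * e1 + 2 * e2 * a)
        + 4 * κ₂ * CT * (1 + 4 / c₁) * (R * h * (a + Δ) * (a + u))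
        + ((6 + 8 * κ₂ * CT + 4 * κ₂ * CT * (1 + 4 / c₁)) * (e1 + e2 * a)
          + (8 + 8 * κ₂ * CT) * (R * h * (a + Δ) * (a + u))) := by rw [hK₂]; ring
    have h9 : 0 ≤ (6 + 8 * κ₂ * CT + 4 * κ₂ * CT * (1 + 4 / c₁)) * (e1 + e2 * a)
          + (8 + 8 * κ₂ * CT) * (R * h * (a + Δ) * (a + u)) := by positivity
    rw [h8]
    linarith
  -- apply the core inequality
  have hDu : |D| ≤ 1 / (c₁ * X) := by
    rw [hD, abs_le]
    constructor <;> linarith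
  have hfin := hcore h u e1 e2 M R a Δ σ κ B (D * G) hh0 hu0.le he2 hM0 hR0.le (hRdm.trans hdm1) ha0 hΔ0 hκ0.le hσ0.le
    (by
      calc σ * h ≤ 1 / (c₁ * X) * h := mul_le_mul_of_nonneg_right hσu hh0.le
        _ = u / c₁ := by rw [hu]; field_simp)
    (by
      calc Δ ≤ h * (1 / (c₁ * X)) := mul_le_mul_of_nonneg_left hDu hh0.le
        _ = u / c₁ := by rw [hu]; field_simp)
    he1M he2M he22M hI hII hIII
  have h1 : κ₁ * (1 / (c₂ * X)) * |D * G| ≤ κ * σ * |D * G| := by gcongr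
  have h2 : |D| * |G| / X = c₂ / κ₁ * (κ₁ * (1 / (c₂ * X)) * |D * G|) := by
    rw [abs_mul]; field_simp
  have h3 : h * Δ * u = h ^ 3 * |D| / X := by rw [hΔ, hu]; ring
  rw [h2]
  calc c₂ / κ₁ * (κ₁ * (1 / (c₂ * X)) * |D * G|) ≤ c₂ / κ₁ * (K₄ * M + K₅ * (R * (h * Δ * u))) :=
        mul_le_mul_of_nonneg_left (h1.trans hfin) (by positivity)
    _ = _ := by rw [h3]; ring

theorem reg1 {X h : ℝ} (hX : 1 ≤ X) (hh : 1 ≤ h) (hhX : h ≤ X ^ (4 / 7 : ℝ)) :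
    h ^ (-(3 / 4) : ℝ) ≤ (X / h) ^ (3 / 2 : ℝ) / X := by
  have hX0 : 0 < X := by linarith
  have hh0 : 0 < h := by linarith
  have h1 : h ^ (3 / 4 : ℝ) ≤ X ^ (1 / 2 : ℝ) := by
    calc h ^ (3 / 4 : ℝ) ≤ (X ^ (4 / 7 : ℝ)) ^ (3 / 4 : ℝ) := Real.rpow_le_rpow hh0.le hhX (by norm_num)
      _ = X ^ (3 / 7 : ℝ) := by rw [← Real.rpow_mul hX0.le]; norm_num
      _ ≤ X ^ (1 / 2 : ℝ) := Real.rpow_le_rpow_of_exponent_le hX (by norm_num)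
  rw [Real.div_rpow hX0.le hh0.le, div_div, le_div_iff₀ (by positivity)]
  have h2 : h ^ (-(3 / 4) : ℝ) * (h ^ (3 / 2 : ℝ) * X) = h ^ (3 / 4 : ℝ) * X := by
    rw [← mul_assoc, ← Real.rpow_add hh0]; norm_num
  have h3 : X ^ (3 / 2 : ℝ) = X ^ (1 / 2 : ℝ) * X := by
    rw [← Real.rpow_add_one hX0.ne']; norm_num
  rw [h2, h3]
  exact mul_le_mul_of_nonneg_right h1 hX0.le

theorem reg2 {X h : ℝ} (hX : 1 ≤ X) (hh : 1 ≤ h) (hhX : h ≤ X ^ (4 / 7 : ℝ)) :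
    h / X ≤ (X / h) ^ (3 / 2 : ℝ) / X := by
  have hX0 : 0 < X := by linarith
  have hh0 : 0 < h := by linarith
  rw [div_le_div_iff_of_pos_right hX0, Real.div_rpow hX0.le hh0.le, le_div_iff₀ (by positivity)]
  calc h * h ^ (3 / 2 : ℝ) = h ^ (5 / 2 : ℝ) := by
        rw [mul_comm, ← Real.rpow_add_one hh0.ne']; norm_num
    _ ≤ (X ^ (4 / 7 : ℝ)) ^ (5 / 2 : ℝ) := Real.rpow_le_rpow hh0.le hhX (by norm_num)
    _ = X ^ (10 / 7 : ℝ) := by rw [← Real.rpow_mul hX0.le]; norm_num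
    _ ≤ X ^ (3 / 2 : ℝ) := Real.rpow_le_rpow_of_exponent_le hX (by norm_num)

theorem reg3 {X h : ℝ} (hX : 1 ≤ X) (hhX : h ≤ X ^ (4 / 7 : ℝ)) :
    h / X ≤ X ^ (-(3 / 7) : ℝ) := by
  have hX0 : 0 < X := by linarith
  rw [div_le_iff₀ hX0]
  calc h ≤ X ^ (4 / 7 : ℝ) := hhX
    _ = X ^ (-(3 / 7) : ℝ) * X := by rw [← Real.rpow_add_one hX0.ne']; norm_num

theorem card_le_of_diam (S : Finset ℤ) (T : ℝ) (hT : 0 ≤ T) (h : ∀ i ∈ S, ∀ j ∈ S, |(i:ℝ) - j| ≤ T) :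
    (S.card : ℝ) ≤ T + 1 := by
  rcases S.eq_empty_or_nonempty with hS | hS
  · rw [hS]; simp; linarith
  · have hsub : S ⊆ Finset.Icc (S.min' hS) (S.min' hS + ⌊T⌋) := by
      intro i hi
      rw [Finset.mem_Icc]
      refine ⟨S.min'_le i hi, ?_⟩
      have h1 := h i hi (S.min' hS) (S.min'_mem hS)
      have h2 : (i:ℝ) - (S.min' hS : ℤ) ≤ T := (le_abs_self _).trans h1
      have h3 : i - S.min' hS ≤ ⌊T⌋ := Int.le_floor.mpr (by push_cast; exact h2)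
      linarith
    have h1 := Finset.card_le_card hsub
    rw [Int.card_Icc] at h1
    have h2 : (S.min' hS + ⌊T⌋ + 1 - S.min' hS).toNat = (⌊T⌋ + 1).toNat := by congr 1; ring
    rw [h2] at h1
    have h3 : 0 ≤ ⌊T⌋ := Int.floor_nonneg.mpr hT
    have h4 : (((⌊T⌋ + 1).toNat : ℕ) : ℝ) = (⌊T⌋ : ℝ) + 1 := by
      have : (((⌊T⌋ + 1).toNat : ℕ) : ℤ) = ⌊T⌋ + 1 := Int.toNat_of_nonneg (by linarith)
      exact_mod_cast congrArg (fun z : ℤ => (z : ℝ)) this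
    calc (S.card : ℝ) ≤ (((⌊T⌋ + 1).toNat : ℕ) : ℝ) := by exact_mod_cast h1
      _ = (⌊T⌋ : ℝ) + 1 := h4
      _ ≤ T + 1 := by linarith [Int.floor_le T]

theorem Mb {X h c₀ ρ L : ℝ} (hX0 : 0 < X) (hh0 : 0 < h) (hc₀ : 0 < c₀) (hρ : 1 ≤ ρ) (hL0 : 0 < L)
    (hLX : L ≤ c₀ * X) (hcB : L = c₀ * (X / h) ^ (3 / 2 : ℝ)) :
    ρ / L ≤ (1 + c₀) * ρ ^ 2 / L ∧ ρ / Lt X h * (h / X) ≤ (1 + c₀) * ρ ^ 2 / L ∧
      (ρ / Lt X h) ^ 2 / h ≤ (1 + c₀) * ρ ^ 2 / L := by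
  have hρ0 : 0 < ρ := by linarith
  have hρ2 : ρ ≤ ρ ^ 2 := by nlinarith
  have hy0 : 0 < X / h := by positivity
  refine ⟨?_, ?_, ?_⟩
  · rw [div_le_div_iff_of_pos_right hL0]
    calc ρ ≤ ρ ^ 2 := hρ2
      _ ≤ (1 + c₀) * ρ ^ 2 := by nlinarith [mul_pos hc₀ (pow_pos hρ0 2)]
  · have hyy : √(X / h) * (X / h) = (X / h) ^ (3 / 2 : ℝ) := by
      rw [Real.sqrt_eq_rpow, ← Real.rpow_add_one hy0.ne']; norm_num
    have h1 : ρ / Lt X h * (h / X) = c₀ * ρ / L := by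
      have h2 : h / X = 1 / (X / h) := by field_simp
      have h3 : 0 < √(X / h) := Real.sqrt_pos.mpr hy0
      rw [Lt, h2, hcB, ← hyy]
      generalize √(X / h) = z at *
      generalize X / h = y at *
      field_simp
    rw [h1, div_le_div_iff_of_pos_right hL0]
    calc c₀ * ρ ≤ c₀ * ρ ^ 2 := mul_le_mul_of_nonneg_left hρ2 hc₀.le
      _ ≤ (1 + c₀) * ρ ^ 2 := by nlinarith [pow_pos hρ0 2]
  · have h1 : (ρ / Lt X h) ^ 2 / h = ρ ^ 2 / X := by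
      rw [Lt, div_pow, Real.sq_sqrt (by positivity)]
      field_simp
    rw [h1, div_le_div_iff₀ hX0 hL0]
    calc ρ ^ 2 * L ≤ ρ ^ 2 * (c₀ * X) := mul_le_mul_of_nonneg_left hLX (by positivity)
      _ ≤ (1 + c₀) * ρ ^ 2 * X := by nlinarith [mul_pos (pow_pos hρ0 2) hX0]

theorem cell_near {e₀ h : ℝ} (heta0 : 0 < eta e₀ h) (p : ℝ × ℝ) (c : ℤ × ℤ) (hj : cellOf e₀ h p = c) :
    ‖p - pc e₀ h c‖ ≤ eta e₀ h := by
  rw [cellOf] at hj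
  have h1 : ⌊p.1 / eta e₀ h⌋ = c.1 := congrArg Prod.fst hj
  have h2 : ⌊p.2 / eta e₀ h⌋ = c.2 := congrArg Prod.snd hj
  rw [Int.floor_eq_iff, le_div_iff₀ heta0, div_lt_iff₀ heta0] at h1 h2
  rw [Prod.norm_def]
  refine max_le ?_ ?_
  · rw [Real.norm_eq_abs, abs_le]
    simp only [pc, Prod.fst_sub]
    constructor <;> linarith [h1.1, h1.2]
  · rw [Real.norm_eq_abs, abs_le]
    simp only [pc, Prod.snd_sub]
    constructor <;> linarith [h2.1, h2.2]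

theorem JJ_near {X h d : ℝ} (hta0 : 0 < ta X h) (ps : ℝ × ℝ) (j : ℤ × ℤ) (hj : j ∈ JJ ps d X h) :
    ‖pj X h j - ps‖ ≤ d := by
  rw [JJ, Finset.mem_product, Finset.mem_Icc, Finset.mem_Icc, Int.ceil_le, Int.le_floor, Int.ceil_le, Int.le_floor,
    div_le_iff₀ hta0, le_div_iff₀ hta0, div_le_iff₀ hta0, le_div_iff₀ hta0] at hj
  rw [Prod.norm_def]
  refine max_le ?_ ?_
  · rw [Real.norm_eq_abs, abs_le]
    simp only [pj, Prod.fst_sub]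
    constructor <;> linarith [hj.1.1, hj.1.2]
  · rw [Real.norm_eq_abs, abs_le]
    simp only [pj, Prod.snd_sub]
    constructor <;> linarith [hj.2.1, hj.2.2]

theorem Wt_bounds {g : Geo} {κ c₀ X h ρ : ℝ} {k : ℝ × ℝ} {r : ℝ} {p : ℝ × ℝ} {n : Fin 3 → ℤ} (hL0 : 0 < Lr c₀ X h)
    (hLt0 : 0 < Lt X h) (hw : Wt g κ c₀ X h k r p n ≤ ρ) :
    |κ * g.Ev k (1 / r) p - (n 0 + n 1 * p.1 + n 2 * p.2)| ≤ ρ / Lr c₀ X h ∧
        |κ * g.Hp k (1 / r) p (1, 0) - n 1| ≤ ρ / Lt X h ∧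
        |κ * g.Hp k (1 / r) p (0, 1) - n 2| ≤ ρ / Lt X h := by
  rw [Wt] at hw
  have a1 : 0 ≤ Lr c₀ X h * |κ * g.Ev k (1 / r) p - (n 0 + n 1 * p.1 + n 2 * p.2)| := by positivity
  have a2 : 0 ≤ Lt X h * |κ * g.Hp k (1 / r) p (1, 0) - n 1| := by positivity
  have a3 : 0 ≤ Lt X h * |κ * g.Hp k (1 / r) p (0, 1) - n 2| := by positivity
  refine ⟨?_, ?_, ?_⟩
  · rw [le_div_iff₀ hL0, mul_comm]; linarith
  · rw [le_div_iff₀ hLt0, mul_comm]; linarith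
  · rw [le_div_iff₀ hLt0, mul_comm]; linarith

/-- final conversion: from the bound of `|D|` to the bound of `|i - i'|` -/
theorem conv {X h c₀ c₁ c₂ ρ L θ K₆ K₇ R M : ℝ} {i i' : ℝ} (hX0 : 0 < X) (hh0 : 0 < h) (hc₀ : 0 < c₀) (hc₁ : 0 < c₁)
    (hc₂ : 0 < c₂) (hL0 : 0 < L) (hcB : L = c₀ * (X / h) ^ (3 / 2 : ℝ)) (hθ : 0 < θ) (hK₆ : 0 < K₆)
    (hr : c₁ * X ≤ i * L ∧ i * L ≤ c₂ * X) (hr' : c₁ * X ≤ i' * L ∧ i' * L ≤ c₂ * X)
    (hM : M = (1 + c₀) * ρ ^ 2 / L) (hRθ : 2 * K₇ * R ≤ θ)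
    (hmain : |1 / (i' * L) - 1 / (i * L)| * (h ^ 3 * θ) / X
      ≤ K₆ * M + K₇ * R * (h ^ 3 * |1 / (i' * L) - 1 / (i * L)| / X)) :
    |i - i'| ≤ (2 * K₆ * c₂ ^ 2 * (1 + c₀) / c₀ ^ 2) * ρ ^ 2 / θ := by
  have hri : 0 < i * L := lt_of_lt_of_le (by positivity) hr.1
  have hri' : 0 < i' * L := lt_of_lt_of_le (by positivity) hr'.1
  have hi : 0 < i := by
    rcases (mul_pos_iff.mp hri) with h | h
    · exact h.1
    · linarith [h.2]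
  have hi' : 0 < i' := by
    rcases (mul_pos_iff.mp hri') with h | h
    · exact h.1
    · linarith [h.2]
  have h4 : |i - i'| * L = |1 / (i' * L) - 1 / (i * L)| * ((i * L) * (i' * L)) := by
    have h5 : (i - i') * L = (1 / (i' * L) - 1 / (i * L)) * ((i * L) * (i' * L)) := by
      field_simp
    calc |i - i'| * L = |(i - i') * L| := by rw [abs_mul, abs_of_pos hL0]
      _ = _ := by rw [h5, abs_mul, abs_of_pos (mul_pos hri hri')]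
  set D := 1 / (i' * L) - 1 / (i * L) with hD
  set Q := h ^ 3 * |D| / X with hQ
  have hQ0 : 0 ≤ Q := by positivity
  have h1 : |D| * (h ^ 3 * θ) / X = θ * Q := by rw [hQ]; ring
  rw [h1] at hmain
  have h2 : K₇ * R * Q ≤ θ / 2 * Q := mul_le_mul_of_nonneg_right (by linarith) hQ0
  have h3 : θ * Q ≤ 2 * K₆ * M := by linarith
  have h5 : |i - i'| * L ≤ |D| * (c₂ * X * (c₂ * X)) := by
    rw [h4]
    refine mul_le_mul_of_nonneg_left ?_ (abs_nonneg _)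
    exact mul_le_mul hr.2 hr'.2 hri'.le (by positivity)
  have hy0 : 0 < X / h := by positivity
  have hLsq : L ^ 2 = c₀ ^ 2 * (X ^ 3 / h ^ 3) := by
    rw [hcB, mul_pow, ← Real.rpow_natCast ((X / h) ^ (3 / 2 : ℝ)), ← Real.rpow_mul hy0.le]
    have : (3 / 2 : ℝ) * ((2 : ℕ) : ℝ) = ((3 : ℕ) : ℝ) := by norm_num
    rw [this, Real.rpow_natCast, div_pow]
  rw [le_div_iff₀ hθ]
  have h6 : |i - i'| * θ * L ^ 2 ≤ (2 * K₆ * c₂ ^ 2 * (1 + c₀) / c₀ ^ 2) * ρ ^ 2 * L ^ 2 := by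
    calc |i - i'| * θ * L ^ 2 = (|i - i'| * L) * (θ * L) := by ring
      _ ≤ (|D| * (c₂ * X * (c₂ * X))) * (θ * L) := mul_le_mul_of_nonneg_right h5 (by positivity)
      _ = c₂ ^ 2 * (X ^ 3 / h ^ 3) * L * (θ * Q) := by rw [hQ]; field_simp
      _ ≤ c₂ ^ 2 * (X ^ 3 / h ^ 3) * L * (2 * K₆ * M) := mul_le_mul_of_nonneg_left h3 (by positivity)
      _ = (2 * K₆ * c₂ ^ 2 * (1 + c₀) / c₀ ^ 2) * ρ ^ 2 * (c₀ ^ 2 * (X ^ 3 / h ^ 3)) := by rw [hM]; field_simp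
      _ = _ := by rw [hLsq]
  exact le_of_mul_le_mul_right h6 (by positivity)

end CI

open CI in
theorem countI (g : Geo) (ps : ℝ × ℝ) (hps : ps ∈ g.U) : ∃ d e₁ : ℝ, 0 < d ∧ 0 < e₁ ∧
    ∀ κ₁ κ₂ c₀ c₁ c₂ e₀ : ℝ, 0 < κ₁ → κ₁ ≤ κ₂ → 0 < c₀ → 0 < c₁ → c₁ ≤ c₂ → 0 < e₀ → e₀ ≤ e₁ →
    ∃ C X₀ : ℝ, 0 < C ∧ ∀ X h κ ρ : ℝ, Reg X₀ X h → κ₁ ≤ κ → κ ≤ κ₂ → 1 ≤ ρ →
    ∀ k ∈ KK h, ∀ c : ℤ × ℤ, ∀ n : Fin 3 → ℤ, ∀ S : Finset ℤ,
    (∀ i ∈ S, i ∈ II c₀ c₁ c₂ X h ∧ ∃ j ∈ JJ ps d X h, cellOf e₀ h (pj X h j) = c ∧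
      Wt g κ c₀ X h (cst k) (i * Lr c₀ X h) (pj X h j) n ≤ ρ) →
    (S.card : ℝ) ≤ C * ρ ^ 3 / max (th g e₀ h c (cst k)) (Lr c₀ X h / X) := by
  obtain ⟨dm, Cθ, hdm, hdm1, hCθ, hθ, hpair⟩ := pair g ps hps
  refine ⟨dm / 2, dm / 4, by positivity, by positivity, ?_⟩
  intro κ₁ κ₂ c₀ c₁ c₂ e₀ hκ₁ hκ₁₂ hc₀ hc₁ hc₁₂ he₀ he₀₁
  have hc₂ : 0 < c₂ := hc₁.trans_le hc₁₂
  obtain ⟨K₆, K₇, hK₆, hK₇, hp⟩ := hpair κ₁ κ₂ c₁ c₂ hκ₁ hκ₁₂ hc₁ hc₁₂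
  set A₂ : ℝ := 1 + 8 * Cθ / c₀ + 2 * K₇ * (e₀ + 2 / c₁) / c₀ with hA₂
  have hA₂1 : 1 ≤ A₂ := by
    have h1 : 0 ≤ 8 * Cθ / c₀ := by positivity
    have h2 : 0 ≤ 2 * K₇ * (e₀ + 2 / c₁) / c₀ := by positivity
    rw [hA₂]; linarith
  set K₈ : ℝ := 2 * K₆ * c₂ ^ 2 * (1 + c₀) / c₀ ^ 2 with hK₈
  have hK₈0 : 0 < K₈ := by positivity
  refine ⟨(c₂ - c₁ + c₀) * A₂ + K₈ + 8 * Cθ, (8 / (c₁ * dm)) ^ (7 / 3 : ℝ), ?_, ?_⟩
  · have : 0 ≤ c₂ - c₁ := by linarith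
    positivity
  intro X h κ ρ hreg hκκ₁ hκκ₂ hρ k hk c n S hS
  obtain ⟨hX1, hXX₀, hh1, hhX⟩ := hreg
  have hX0 : 0 < X := by linarith
  have hh0 : 0 < h := by linarith
  have hρ0 : 0 < ρ := by linarith
  -- norm of k
  have hk' := (Finset.mem_filter.mp hk).2
  have hkl : h ≤ ‖cst k‖ := hk'.1
  have hku : ‖cst k‖ ≤ 2 * h := hk'.2
  set L := Lr c₀ X h with hL
  have hXh : 1 ≤ X / h := by
    rw [le_div_iff₀ hh0, one_mul]
    calc h ≤ X ^ (4 / 7 : ℝ) := hhX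
      _ ≤ X ^ (1 : ℝ) := Real.rpow_le_rpow_of_exponent_le hX1 (by norm_num)
      _ = X := Real.rpow_one X
  have hL0 : 0 < L := by
    rw [hL, Lr]
    have : 0 < min X ((X / h) ^ (3 / 2 : ℝ)) := lt_min hX0 (by positivity)
    positivity
  have hLX : L ≤ c₀ * X := by
    rw [hL, Lr]; exact mul_le_mul_of_nonneg_left (min_le_left _ _) hc₀.le
  set θ := th g e₀ h c (cst k) with hθdef
  have hmax0 : 0 < max θ (L / X) := lt_max_of_lt_right (by positivity)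
  have hρ3 : 1 ≤ ρ ^ 3 := one_le_pow₀ hρ
  rcases S.eq_empty_or_nonempty with hSe | hSne
  · rw [hSe]
    have : 0 ≤ c₂ - c₁ := by linarith
    simp only [Finset.card_empty, Nat.cast_zero]
    positivity
  -- geometry of one point
  have heta0 : 0 < eta e₀ h := by rw [eta]; positivity
  have hetae : eta e₀ h ≤ e₀ := by
    rw [eta]
    have : h ^ (-(3 / 4) : ℝ) ≤ 1 := Real.rpow_le_one_of_one_le_of_nonpos hh1 (by norm_num)
    nlinarith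
  have hta0 : 0 < ta X h := by rw [ta]; positivity
  have hptd : ∀ j ∈ JJ ps (dm / 2) X h, ‖pj X h j - ps‖ ≤ dm / 2 := fun j hj => JJ_near hta0 ps j hj
  have hptq : ∀ j, cellOf e₀ h (pj X h j) = c → ‖pj X h j - pc e₀ h c‖ ≤ eta e₀ h :=
    fun j hj => cell_near heta0 _ c hj
  obtain ⟨i₀, hi₀⟩ := hSne
  have hqps : ‖pc e₀ h c - ps‖ ≤ dm := by
    obtain ⟨-, j, hj, hjc, -⟩ := hS i₀ hi₀
    calc ‖pc e₀ h c - ps‖ = ‖(pj X h j - ps) - (pj X h j - pc e₀ h c)‖ := by congr 1; abel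
      _ ≤ ‖pj X h j - ps‖ + ‖pj X h j - pc e₀ h c‖ := norm_sub_le _ _
      _ ≤ dm / 2 + dm / 4 := add_le_add (hptd j hj) ((hptq j hjc).trans (hetae.trans he₀₁))
      _ ≤ dm := by linarith
  have hθG : |g.f3 (pc e₀ h c) (cst k) (cst k) (cst k)| = h ^ 3 * θ := by
    rw [hθdef, th]; field_simp
  have hθ0 : 0 ≤ θ := by rw [hθdef, th]; positivity
  have hθu : θ ≤ 8 * Cθ := by
    have h1 := hθ (pc e₀ h c) (cst k) hqps
    rw [hθG] at h1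
    have h2 : ‖cst k‖ ^ 3 ≤ (2 * h) ^ 3 := pow_le_pow_left₀ (norm_nonneg _) hku 3
    have h3 : h ^ 3 * θ ≤ h ^ 3 * (8 * Cθ) := by
      calc h ^ 3 * θ ≤ Cθ * ‖cst k‖ ^ 3 := h1
        _ ≤ Cθ * (2 * h) ^ 3 := mul_le_mul_of_nonneg_left h2 hCθ.le
        _ = _ := by ring
    exact le_of_mul_le_mul_left h3 (by positivity)
  -- positions of the radii
  have hir : ∀ i ∈ S, c₁ * X ≤ i * L ∧ i * L ≤ c₂ * X := by
    intro i hi
    have h1 := (hS i hi).1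
    rw [II, Finset.mem_Icc, Int.ceil_le, Int.le_floor, div_le_iff₀ hL0, le_div_iff₀ hL0] at h1
    exact h1
  have hc21 : 0 ≤ c₂ - c₁ := by linarith
  by_cases hcase : θ ≤ A₂ * (L / X)
  · -- trivial bound
    have h1 : (S.card : ℝ) ≤ (c₂ - c₁) * X / L + 1 := by
      refine card_le_of_diam S _ (by positivity) ?_
      intro i hi j hj
      have h2 := hir i hi
      have h3 := hir j hj
      have h4 : |(i:ℝ) - j| * L = |(i:ℝ) * L - j * L| := by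
        rw [← sub_mul, abs_mul, abs_of_pos hL0]
      rw [le_div_iff₀ hL0, h4, abs_le]
      constructor <;> linarith
    have h2 : 1 ≤ c₀ * X / L := by rw [le_div_iff₀ hL0]; linarith
    have h3 : max θ (L / X) ≤ A₂ * (L / X) := by
      refine max_le hcase ?_
      have : 0 < L / X := by positivity
      nlinarith
    rw [le_div_iff₀ hmax0]
    calc (S.card : ℝ) * max θ (L / X) ≤ ((c₂ - c₁ + c₀) * X / L) * (A₂ * (L / X)) := by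
          refine mul_le_mul ?_ h3 hmax0.le (by positivity)
          have : (c₂ - c₁ + c₀) * X / L = (c₂ - c₁) * X / L + c₀ * X / L := by ring
          linarith
      _ = (c₂ - c₁ + c₀) * A₂ * 1 := by field_simp
      _ ≤ ((c₂ - c₁ + c₀) * A₂ + K₈ + 8 * Cθ) * ρ ^ 3 := by
          refine mul_le_mul ?_ hρ3 (by norm_num) (by positivity)
          linarith
  · push Not at hcase
    have hLX0 : 0 < L / X := by positivity
    have hmaxθ : max θ (L / X) = θ := max_eq_left (by nlinarith)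
    have hθpos : 0 < θ := lt_of_le_of_lt (by positivity) hcase
    -- case A impossible
    have hcB : L = c₀ * (X / h) ^ (3 / 2 : ℝ) := by
      rcases le_total X ((X / h) ^ (3 / 2 : ℝ)) with h1 | h1
      · exfalso
        have h2 : L = c₀ * X := by rw [hL, Lr, min_eq_left h1]
        have h3 : L / X = c₀ := by rw [h2]; field_simp
        rw [h3] at hcase
        have h4 : 8 * Cθ ≤ A₂ * c₀ := by
          have h5 : A₂ * c₀ = c₀ + 8 * Cθ + 2 * K₇ * (e₀ + 2 / c₁) := by rw [hA₂]; field_simp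
          rw [h5]
          have : 0 ≤ 2 * K₇ * (e₀ + 2 / c₁) := by positivity
          linarith
        linarith
      · rw [hL, Lr, min_eq_right h1]
    set R : ℝ := eta e₀ h + 2 * h / (c₁ * X) with hR
    have hR0 : 0 < R := by positivity
    have hRθ : 2 * K₇ * R ≤ θ := by
      have h1 : R ≤ (e₀ + 2 / c₁) * ((X / h) ^ (3 / 2 : ℝ) / X) := by
        have h2 := mul_le_mul_of_nonneg_left (reg1 hX1 hh1 hhX) he₀.le
        have h3 := mul_le_mul_of_nonneg_left (reg2 hX1 hh1 hhX) (by positivity : 0 ≤ 2 / c₁)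
        have h4 : R = e₀ * h ^ (-(3 / 4) : ℝ) + 2 / c₁ * (h / X) := by
          rw [hR, eta]; field_simp
        rw [h4]; linarith
      have h2 : L / X = c₀ * ((X / h) ^ (3 / 2 : ℝ) / X) := by rw [hcB]; ring
      have h3 : 2 * K₇ * R ≤ A₂ * (L / X) := by
        calc 2 * K₇ * R ≤ 2 * K₇ * ((e₀ + 2 / c₁) * ((X / h) ^ (3 / 2 : ℝ) / X)) :=
              mul_le_mul_of_nonneg_left h1 (by positivity)
          _ = (2 * K₇ * (e₀ + 2 / c₁) / c₀) * (L / X) := by rw [h2]; field_simp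
          _ ≤ A₂ * (L / X) := by
              refine mul_le_mul_of_nonneg_right ?_ hLX0.le
              have : 0 ≤ 8 * Cθ / c₀ := by positivity
              rw [hA₂]; linarith
      linarith
    have hRdm : R ≤ dm := by
      have h1 : h / X ≤ c₁ * dm / 8 := by
        refine (reg3 hX1 hhX).trans ?_
        have h2 : (8 / (c₁ * dm)) ≤ X ^ (3 / 7 : ℝ) := by
          calc (8 / (c₁ * dm)) = ((8 / (c₁ * dm)) ^ (7 / 3 : ℝ)) ^ (3 / 7 : ℝ) := by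
                rw [← Real.rpow_mul (by positivity)]; norm_num
            _ ≤ X ^ (3 / 7 : ℝ) := Real.rpow_le_rpow (by positivity) hXX₀ (by norm_num)
        rw [Real.rpow_neg hX0.le]
        calc (X ^ (3 / 7 : ℝ))⁻¹ ≤ (8 / (c₁ * dm))⁻¹ := inv_anti₀ (by positivity) h2
          _ = c₁ * dm / 8 := by rw [inv_div]
      have h2 : 2 * h / (c₁ * X) ≤ dm / 4 := by
        have h3 : 2 * h / (c₁ * X) = 2 / c₁ * (h / X) := by field_simp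
        rw [h3]
        calc 2 / c₁ * (h / X) ≤ 2 / c₁ * (c₁ * dm / 8) := mul_le_mul_of_nonneg_left h1 (by positivity)
          _ = dm / 4 := by field_simp; ring
      rw [hR]
      linarith [hetae, he₀₁]
    -- diameter
    have hLt0 : 0 < Lt X h := by rw [Lt]; positivity
    obtain ⟨hM1, hM2, hM3⟩ := Mb hX0 hh0 hc₀ hρ hL0 hLX hcB
    have hdiam : ∀ i ∈ S, ∀ i' ∈ S, |(i:ℝ) - i'| ≤ K₈ * ρ ^ 2 / θ := by
      intro i hi i' hi'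
      obtain ⟨-, j, hj, hjc, hw⟩ := hS i hi
      obtain ⟨-, j', hj', hjc', hw'⟩ := hS i' hi'
      obtain ⟨b3, b4, b5⟩ := Wt_bounds (r := (i:ℝ) * L) hL0 hLt0 hw
      obtain ⟨b3', b4', b5'⟩ := Wt_bounds (r := (i':ℝ) * L) hL0 hLt0 hw'
      have hr := hir i hi
      have hr' := hir i' hi'
      have hri : 0 < (i:ℝ) * L := lt_of_lt_of_le (by positivity) hr.1
      have hri' : 0 < (i':ℝ) * L := lt_of_lt_of_le (by positivity) hr'.1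
      have h2X : 0 ≤ 2 * h / (c₁ * X) := by positivity
      have hmain := hp X h κ (ρ / L) (ρ / Lt X h) ((1 + c₀) * ρ ^ 2 / L) R (1 / (i * L)) (1 / (i' * L))
        (n 0) (n 1) (n 2) (cst k)
        (pc e₀ h c) (pj X h j) (pj X h j') hX1 hh1 hκκ₁ hκκ₂ hkl hku
        (one_div_le_one_div_of_le hri hr.2) (one_div_le_one_div_of_le (by positivity) hr.1)
        (one_div_le_one_div_of_le hri' hr'.2) (one_div_le_one_div_of_le (by positivity) hr'.1)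
        hqps ((hptd j hj).trans (by linarith)) ((hptd j' hj').trans (by linarith))
        ((hptq j hjc).trans (by rw [hR]; linarith)) ((hptq j' hjc').trans (by rw [hR]; linarith))
        (by rw [hR]; linarith) hRdm (by positivity) b3 b3' b4 b5 b4' b5' hM1 hM2 hM3
      rw [hθG] at hmain
      exact conv hX0 hh0 hc₀ hc₁ hc₂ hL0 hcB hθpos hK₆ hr hr' rfl hRθ hmain
    have hcard := card_le_of_diam S _ (by positivity) hdiam
    rw [hmaxθ, le_div_iff₀ hθpos]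
    have h1 : (S.card : ℝ) * θ ≤ (K₈ * ρ ^ 2 / θ + 1) * θ := mul_le_mul_of_nonneg_right hcard hθpos.le
    have h2 : (K₈ * ρ ^ 2 / θ + 1) * θ = K₈ * ρ ^ 2 + θ := by field_simp
    have h3 : ρ ^ 2 ≤ ρ ^ 3 := pow_le_pow_right₀ hρ (by norm_num)
    have h4 : K₈ * ρ ^ 2 ≤ K₈ * ρ ^ 3 := mul_le_mul_of_nonneg_left h3 hK₈0.le
    have h5 : 8 * Cθ ≤ 8 * Cθ * ρ ^ 3 := le_mul_of_one_le_right (by positivity) hρ3
    have h6 : 0 ≤ (c₂ - c₁ + c₀) * A₂ * ρ ^ 3 := by positivity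
    calc (S.card : ℝ) * θ ≤ K₈ * ρ ^ 2 + θ := by rw [← h2]; exact h1
      _ ≤ K₈ * ρ ^ 3 + 8 * Cθ * ρ ^ 3 := by linarith
      _ ≤ _ := by nlinarith

end Pool.Agent.Helper19.BD
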