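import Pool.Agent.Helper19.BD.EInj

/-!
MP_bd232a_nt, part E, block E07 (number of boxes `j` for given `k, i, n`).
`Wt ≤ ρ` gives `|κ Hp₁ - n₁| ≤ ρ/L_t`, `|κ Hp₂ - n₂| ≤ ρ/L_t`; by `inj` two such `j, j'` satisfy `c κ₁ h ‖pj j - pj j'‖ ≤ 2ρ/L_t`, i.e. `‖j - j'‖ ≤ C ρ`
(`τ h L_t = 1`).
-/

namespace Pool.Agent.Helper19.BD

theorem countJ (g : Geo) (ps : ℝ × ℝ) (hps : ps ∈ g.U) : ∃ d : ℝ, 0 < d ∧
    ∀ κ₁ κ₂ c₀ c₁ c₂ : ℝ, 0 < κ₁ → κ₁ ≤ κ₂ → 0 < c₀ → 0 < c₁ → c₁ ≤ c₂ →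
    ∃ C X₀ : ℝ, 0 < C ∧ ∀ X h κ ρ : ℝ, Reg X₀ X h → κ₁ ≤ κ → κ ≤ κ₂ → 1 ≤ ρ →
    ∀ k ∈ KK h, ∀ i ∈ II c₀ c₁ c₂ X h, ∀ n : Fin 3 → ℤ, ∀ S : Finset (ℤ × ℤ),
    (∀ j ∈ S, j ∈ JJ ps d X h ∧ Wt g κ c₀ X h (cst k) (i * Lr c₀ X h) (pj X h j) n ≤ ρ) →
    (S.card : ℝ) ≤ C * ρ ^ 2 := by
  obtain ⟨d, c, C', hd, hc, hC', -, hinj, -⟩ := inj g ps hps
  refine ⟨d, hd, ?_⟩
  intro κ₁ κ₂ c₀ c₁ c₂ hκ₁ hκ hc₀ hc₁ hc₂
  set M : ℝ := 2 / (κ₁ * c) with hM
  have hM0 : 0 < M := by positivity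
  refine ⟨(2 * M + 1) ^ 2, (2 / (c₁ * d)) ^ (7 / 3 : ℝ), by positivity, ?_⟩
  intro X h κ ρ hreg hκa hκb hρ k hk i hi n S hS
  obtain ⟨hX1, hX0, hh1, hh2⟩ := hreg
  have hX : 0 < X := by linarith
  have hh : 0 < h := by linarith
  have hκ0 : 0 < κ := by linarith
  -- h is small compared with X
  have hhX : h ≤ X * (c₁ * d / 2) := by
    have e1 : X ^ (4 / 7 : ℝ) * X ^ (3 / 7 : ℝ) = X := by
      rw [← Real.rpow_add hX]; norm_num
    have e2 : 2 / (c₁ * d) ≤ X ^ (3 / 7 : ℝ) := by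
      have h1 : ((2 / (c₁ * d)) ^ (7 / 3 : ℝ)) ^ (3 / 7 : ℝ) ≤ X ^ (3 / 7 : ℝ) :=
        Real.rpow_le_rpow (by positivity) hX0 (by norm_num)
      rw [← Real.rpow_mul (by positivity)] at h1
      norm_num at h1
      exact h1
    have e3 : 1 ≤ X ^ (3 / 7 : ℝ) * (c₁ * d / 2) := by
      have : 2 / (c₁ * d) * (c₁ * d / 2) = 1 := by field_simp
      calc (1 : ℝ) = 2 / (c₁ * d) * (c₁ * d / 2) := this.symm
        _ ≤ _ := mul_le_mul_of_nonneg_right e2 (by positivity)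
    have e4 : 0 ≤ X ^ (4 / 7 : ℝ) := by positivity
    calc h ≤ X ^ (4 / 7 : ℝ) := hh2
      _ = X ^ (4 / 7 : ℝ) * 1 := (mul_one _).symm
      _ ≤ X ^ (4 / 7 : ℝ) * (X ^ (3 / 7 : ℝ) * (c₁ * d / 2)) := mul_le_mul_of_nonneg_left e3 e4
      _ = X * (c₁ * d / 2) := by rw [← mul_assoc, e1]
  -- scales
  have hLr : 0 < Lr c₀ X h := by
    unfold Lr
    have : 0 < min X ((X / h) ^ (3 / 2 : ℝ)) := lt_min hX (by positivity)
    positivity
  have hLt : 0 < Lt X h := by unfold Lt; positivity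
  have hta : 0 < ta X h := by unfold ta; positivity
  have hscale : h * (ta X h * Lt X h) = 1 := by
    unfold ta Lt
    have h1 : √(X / h) = √X / √h := Real.sqrt_div hX.le h
    have h2 : √(h * X) = √h * √X := Real.sqrt_mul hh.le X
    have h3 : √h * √h = h := Real.mul_self_sqrt hh.le
    have h4 : 0 < √X := Real.sqrt_pos.2 hX
    have h5 : 0 < √h := Real.sqrt_pos.2 hh
    rw [h1, h2]
    field_simp
    rw [sq, h3]
  -- the radius
  have hr : c₁ * X ≤ i * Lr c₀ X h := by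
    unfold II at hi
    rw [Finset.mem_Icc] at hi
    have := Int.ceil_le.1 hi.1
    rwa [div_le_iff₀ hLr] at this
  have hr0 : 0 < (i : ℝ) * Lr c₀ X h := lt_of_lt_of_le (by positivity) hr
  have hs0 : 0 < 1 / ((i : ℝ) * Lr c₀ X h) := by positivity
  unfold KK at hk
  rw [Finset.mem_filter] at hk
  obtain ⟨-, hk1, hk2⟩ := hk
  have hsk : 1 / ((i : ℝ) * Lr c₀ X h) * ‖cst k‖ ≤ d := by
    rw [one_div, inv_mul_le_iff₀ hr0]
    calc ‖cst k‖ ≤ 2 * h := hk2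
      _ ≤ 2 * (X * (c₁ * d / 2)) := by linarith
      _ = c₁ * X * d := by ring
      _ ≤ i * Lr c₀ X h * d := mul_le_mul_of_nonneg_right hr hd.le
  -- boxes lie near ps
  have hnear : ∀ j ∈ JJ ps d X h, ‖pj X h j - ps‖ ≤ d := by
    intro j hj
    unfold JJ at hj
    rw [Finset.mem_product, Finset.mem_Icc, Finset.mem_Icc] at hj
    obtain ⟨⟨a1, a2⟩, ⟨a3, a4⟩⟩ := hj
    have b1 := Int.ceil_le.1 a1
    have b2 := Int.le_floor.1 a2
    have b3 := Int.ceil_le.1 a3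
    have b4 := Int.le_floor.1 a4
    rw [div_le_iff₀ hta] at b1 b3
    rw [le_div_iff₀ hta] at b2 b4
    rw [Prod.norm_def, max_le_iff]
    simp only [pj, Prod.fst_sub, Prod.snd_sub, Real.norm_eq_abs, abs_le]
    refine ⟨⟨by linarith, by linarith⟩, ⟨by linarith, by linarith⟩⟩
  -- two boxes are close
  have hclose : ∀ j ∈ S, ∀ j' ∈ S, |(j'.1 : ℝ) - j.1| ≤ M * ρ ∧ |(j'.2 : ℝ) - j.2| ≤ M * ρ := by
    intro j hj j' hj'
    obtain ⟨hJ, hW⟩ := hS j hj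
    obtain ⟨hJ', hW'⟩ := hS j' hj'
    have key := hinj (cst k) (pj X h j) (pj X h j') (1 / ((i : ℝ) * Lr c₀ X h)) hs0
      (hnear j hJ) (hnear j' hJ') hsk
    unfold Wt at hW hW'
    have bd : ∀ (w : ℝ × ℝ) (m : ℝ),
        Lt X h * |κ * g.Hp (cst k) (1 / ((i : ℝ) * Lr c₀ X h)) (pj X h j) w - m| ≤ ρ →
        Lt X h * |κ * g.Hp (cst k) (1 / ((i : ℝ) * Lr c₀ X h)) (pj X h j') w - m| ≤ ρ →
        |g.Hp (cst k) (1 / ((i : ℝ) * Lr c₀ X h)) (pj X h j') w -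
          g.Hp (cst k) (1 / ((i : ℝ) * Lr c₀ X h)) (pj X h j) w| ≤ 2 * ρ / (κ₁ * Lt X h) := by
      intro w m h1 h2
      set A := g.Hp (cst k) (1 / ((i : ℝ) * Lr c₀ X h)) (pj X h j) w
      set B := g.Hp (cst k) (1 / ((i : ℝ) * Lr c₀ X h)) (pj X h j') w
      have h3 : κ * |B - A| ≤ |κ * B - m| + |κ * A - m| := by
        have : κ * |B - A| = |(κ * B - m) - (κ * A - m)| := by
          rw [← abs_of_pos hκ0, ← abs_mul, abs_of_pos hκ0]; congr 1; ring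
        rw [this]; exact abs_sub _ _
      rw [le_div_iff₀ (by positivity)]
      have h4 : Lt X h * (κ * |B - A|) ≤ Lt X h * (|κ * B - m| + |κ * A - m|) :=
        mul_le_mul_of_nonneg_left h3 hLt.le
      have h5 : Lt X h * (κ₁ * |B - A|) ≤ Lt X h * (κ * |B - A|) :=
        mul_le_mul_of_nonneg_left (mul_le_mul_of_nonneg_right hκa (abs_nonneg _)) hLt.le
      nlinarith
    have n0 : ∀ x : ℝ, 0 ≤ Lr c₀ X h * |x| := fun x => by positivity
    have n1 : ∀ x : ℝ, 0 ≤ Lt X h * |x| := fun x => by positivity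
    have k1 := bd (1, 0) (n 1)
      (by
        have := n0 (κ * g.Ev (cst k) (1 / (i * Lr c₀ X h)) (pj X h j) -
          (n 0 + n 1 * (pj X h j).1 + n 2 * (pj X h j).2))
        have := n1 (κ * g.Hp (cst k) (1 / (i * Lr c₀ X h)) (pj X h j) (0, 1) - n 2)
        linarith)
      (by
        have := n0 (κ * g.Ev (cst k) (1 / (i * Lr c₀ X h)) (pj X h j') -
          (n 0 + n 1 * (pj X h j').1 + n 2 * (pj X h j').2))
        have := n1 (κ * g.Hp (cst k) (1 / (i * Lr c₀ X h)) (pj X h j') (0, 1) - n 2)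
        linarith)
    have k2 := bd (0, 1) (n 2)
      (by
        have := n0 (κ * g.Ev (cst k) (1 / (i * Lr c₀ X h)) (pj X h j) -
          (n 0 + n 1 * (pj X h j).1 + n 2 * (pj X h j).2))
        have := n1 (κ * g.Hp (cst k) (1 / (i * Lr c₀ X h)) (pj X h j) (1, 0) - n 1)
        linarith)
      (by
        have := n0 (κ * g.Ev (cst k) (1 / (i * Lr c₀ X h)) (pj X h j') -
          (n 0 + n 1 * (pj X h j').1 + n 2 * (pj X h j').2))
        have := n1 (κ * g.Hp (cst k) (1 / (i * Lr c₀ X h)) (pj X h j') (1, 0) - n 1)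
        linarith)
    have k3 := key.trans (max_le k1 k2)
    -- ‖pj j' - pj j‖
    have k4 : c * h * ‖pj X h j' - pj X h j‖ ≤ 2 * ρ / (κ₁ * Lt X h) := by
      refine le_trans ?_ k3
      exact mul_le_mul_of_nonneg_right (mul_le_mul_of_nonneg_left hk1 hc.le) (norm_nonneg _)
    have k5 : ‖pj X h j' - pj X h j‖ ≤ ta X h * (M * ρ) := by
      have : c * h * (ta X h * (M * ρ)) = 2 * ρ / (κ₁ * Lt X h) := by
        rw [hM, eq_div_iff (by positivity)]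
        have : c * h * (ta X h * (2 / (κ₁ * c) * ρ)) * (κ₁ * Lt X h)
            = (h * (ta X h * Lt X h)) * (2 * ρ) * (c * κ₁ / (κ₁ * c)) := by ring
        rw [this, hscale]
        field_simp
      rw [← this] at k4
      exact le_of_mul_le_mul_left k4 (by positivity)
    rw [Prod.norm_def, max_le_iff] at k5
    simp only [pj, Prod.fst_sub, Prod.snd_sub, Real.norm_eq_abs] at k5
    obtain ⟨k6, k7⟩ := k5
    rw [← mul_sub, abs_mul, abs_of_pos hta] at k6 k7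
    exact ⟨le_of_mul_le_mul_left k6 hta, le_of_mul_le_mul_left k7 hta⟩
  -- counting
  rcases S.eq_empty_or_nonempty with hE | ⟨j₀, hj₀⟩
  · rw [hE, Finset.card_empty, Nat.cast_zero]; positivity
  set N : ℤ := ⌊M * ρ⌋ with hN
  have hMρ : 0 ≤ M * ρ := by positivity
  have hN0 : 0 ≤ N := Int.floor_nonneg.2 hMρ
  have hsub : S ⊆ Finset.Icc (j₀.1 - N) (j₀.1 + N) ×ˢ Finset.Icc (j₀.2 - N) (j₀.2 + N) := by
    intro j hj
    obtain ⟨q1, q2⟩ := hclose j₀ hj₀ j hj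
    rw [abs_le] at q1 q2
    have r1 : j.1 - j₀.1 ≤ N := Int.le_floor.2 (by push_cast; linarith [q1.2])
    have r2 : j₀.1 - j.1 ≤ N := Int.le_floor.2 (by push_cast; linarith [q1.1])
    have r3 : j.2 - j₀.2 ≤ N := Int.le_floor.2 (by push_cast; linarith [q2.2])
    have r4 : j₀.2 - j.2 ≤ N := Int.le_floor.2 (by push_cast; linarith [q2.1])
    rw [Finset.mem_product, Finset.mem_Icc, Finset.mem_Icc]
    exact ⟨⟨by omega, by omega⟩, ⟨by omega, by omega⟩⟩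
  have hcard := Finset.card_le_card hsub
  rw [Finset.card_product, Int.card_Icc, Int.card_Icc] at hcard
  have e1 : (j₀.1 + N + 1 - (j₀.1 - N)).toNat = (2 * N + 1).toNat := by congr 1; ring
  have e2 : (j₀.2 + N + 1 - (j₀.2 - N)).toNat = (2 * N + 1).toNat := by congr 1; ring
  rw [e1, e2] at hcard
  have hcast : (((2 * N + 1).toNat : ℕ) : ℝ) = 2 * (N : ℝ) + 1 := by
    have : (((2 * N + 1).toNat : ℕ) : ℤ) = 2 * N + 1 := Int.toNat_of_nonneg (by omega)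
    exact_mod_cast this
  have hcardR : (S.card : ℝ) ≤ (2 * (N : ℝ) + 1) * (2 * (N : ℝ) + 1) := by
    rw [← hcast]; exact_mod_cast hcard
  have hNle : (N : ℝ) ≤ M * ρ := Int.floor_le _
  have hNR : (0 : ℝ) ≤ N := by exact_mod_cast hN0
  have hfin : 2 * (N : ℝ) + 1 ≤ (2 * M + 1) * ρ := by nlinarith
  calc (S.card : ℝ) ≤ (2 * (N : ℝ) + 1) * (2 * (N : ℝ) + 1) := hcardR
    _ ≤ ((2 * M + 1) * ρ) * ((2 * M + 1) * ρ) :=
        mul_le_mul hfin hfin (by positivity) (by positivity)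
    _ = (2 * M + 1) ^ 2 * ρ ^ 2 := by ring

end Pool.Agent.Helper19.BD
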