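import Pool.Agent.Helper19.BD.ENd

/-!
MP_bd232a_nt, part E, block E09 (average over `k` of `1/θ`).
`p = pc c` satisfies `‖p - ps‖ ≤ d + e₀ ≤` radius of `nd`. By `nd`: `θ_c(k) = (4/27) f0 |ℓ₀ℓ₁ℓ₂|/h³ ≥ c min_i |ℓ_i(k)|/h` (two of the `|ℓ_i|` are `≥ c‖k‖ ≥ ch`).
So `1/max(θ, L_r/X) ≤ Σ_i min(X/L_r, C h/|ℓ_i(k)|)`. `ℓ_i(k) = A k₁ + B k₂` with `c ≤ max(|A|,|B|) ≤ C`, so
`#{k ∈ KK h : |ℓ_i(k)| ≤ y} ≤ C (1+y) h`; dyadic decomposition in `y`: the part `|ℓ_i| ≤ 1` contributes `≤ C h · X/L_r ≤ C h²` (`X/L_r ≤ C h`: if `L_r=c₀X` clear, else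
`h^{3/2}X^{-1/2} ≤ h`), the part `2^l < |ℓ_i| ≤ 2^{l+1}` contributes `≤ C h·h`, and there are `O(1+log h)` values of `l`; `log h ≤ log X`.
-/

namespace Pool.Agent.Helper19.BD

theorem sk_harm (M : ℕ) : ∑ i ∈ Finset.Icc (-(M : ℤ)) M, 1 / (|(i : ℝ)| + 1)
    ≤ 2 * (1 + Real.log (M + 1)) := by
  have h1 : ∀ M : ℕ, ∑ i ∈ Finset.Icc (-(M : ℤ)) M, 1 / (|(i : ℝ)| + 1)
      ≤ 2 * ∑ i ∈ Finset.range (M + 1), ((i : ℝ) + 1)⁻¹ := by
    intro M
    induction M with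
    | zero => simp
    | succ M ih =>
      have h2 : Finset.Icc (-((M + 1 : ℕ) : ℤ)) ((M + 1 : ℕ) : ℤ)
          = insert ((M + 1 : ℕ) : ℤ) (insert (-((M + 1 : ℕ) : ℤ)) (Finset.Icc (-(M : ℤ)) M)) := by
        ext x
        simp only [Finset.mem_Icc, Finset.mem_insert]
        omega
      rw [h2, Finset.sum_insert, Finset.sum_insert, Finset.sum_range_succ]
      · have h3 : |((((M + 1 : ℕ) : ℤ)) : ℝ)| = (M : ℝ) + 1 := by
          push_cast
          exact abs_of_nonneg (by positivity)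
        have h4 : |((-((M + 1 : ℕ) : ℤ) : ℤ) : ℝ)| = (M : ℝ) + 1 := by
          rw [Int.cast_neg, abs_neg]
          exact h3
        rw [h3, h4]
        push_cast at ih ⊢
        have h5 : 1 / ((M : ℝ) + 1 + 1) = ((M : ℝ) + 1 + 1)⁻¹ := one_div _
        rw [h5]
        linarith
      · simp
      · simp only [Finset.mem_insert, Finset.mem_Icc]
        omega
  refine (h1 M).trans ?_
  have h6 := harmonic_le_one_add_log (M + 1)
  have h7 : ((harmonic (M + 1) : ℚ) : ℝ) = ∑ i ∈ Finset.range (M + 1), ((i : ℝ) + 1)⁻¹ := by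
    unfold harmonic
    push_cast
    rfl
  rw [h7] at h6
  push_cast at h6
  linarith

theorem sk_line {c : ℝ} (hc : 0 < c) (hc1 : c ≤ 1) (s : ℝ) (n : ℕ) :
    ∑ j ∈ Finset.Icc (-(n : ℤ)) n, 1 / max (c * |(j : ℝ) - s|) 1
      ≤ 6 / c * (1 + Real.log (n + |s| + 2)) := by
  have hj0 : |((⌊s⌋ : ℤ) : ℝ)| ≤ |s| + 1 := by
    have h1 := Int.floor_le s
    have h2 := Int.lt_floor_add_one s
    have h3 : |((⌊s⌋ : ℤ) : ℝ) - s| ≤ 1 := by
      rw [abs_le]; constructor <;> linarith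
    calc |((⌊s⌋ : ℤ) : ℝ)| = |s + (((⌊s⌋ : ℤ) : ℝ) - s)| := by ring_nf
      _ ≤ |s| + |((⌊s⌋ : ℤ) : ℝ) - s| := abs_add_le _ _
      _ ≤ |s| + 1 := by linarith
  have hterm : ∀ j : ℤ, 1 / max (c * |(j : ℝ) - s|) 1 ≤ 3 / c * (1 / (|((j - ⌊s⌋ : ℤ) : ℝ)| + 1)) := by
    intro j
    have h1 := Int.floor_le s
    have h2 := Int.lt_floor_add_one s
    have h3 : |((j - ⌊s⌋ : ℤ) : ℝ)| - 1 ≤ |(j : ℝ) - s| := by
      have : |((j - ⌊s⌋ : ℤ) : ℝ)| ≤ |(j : ℝ) - s| + |s - ((⌊s⌋ : ℤ) : ℝ)| := by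
        calc |((j - ⌊s⌋ : ℤ) : ℝ)| = |((j : ℝ) - s) + (s - ((⌊s⌋ : ℤ) : ℝ))| := by
              push_cast; ring_nf
          _ ≤ _ := abs_add_le _ _
      have h4 : |s - ((⌊s⌋ : ℤ) : ℝ)| ≤ 1 := by
        rw [abs_le]; constructor <;> linarith
      linarith
    have h5 : c / 3 * (|((j - ⌊s⌋ : ℤ) : ℝ)| + 1) ≤ max (c * |(j : ℝ) - s|) 1 := by
      by_cases h6 : |(j - ⌊s⌋ : ℤ)| ≤ 1
      · have h7 : |((j - ⌊s⌋ : ℤ) : ℝ)| ≤ 1 := by exact_mod_cast h6
        have : c / 3 * (|((j - ⌊s⌋ : ℤ) : ℝ)| + 1) ≤ 1 := by nlinarith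
        exact this.trans (le_max_right _ _)
      · have h7 : 2 ≤ |((j - ⌊s⌋ : ℤ) : ℝ)| := by
          push Not at h6
          exact_mod_cast h6
        refine le_trans ?_ (le_max_left _ _)
        calc c / 3 * (|((j - ⌊s⌋ : ℤ) : ℝ)| + 1) ≤ c * (|((j - ⌊s⌋ : ℤ) : ℝ)| - 1) := by nlinarith
          _ ≤ c * |(j : ℝ) - s| := by gcongr
    have h8 : 0 < c / 3 * (|((j - ⌊s⌋ : ℤ) : ℝ)| + 1) := by positivity
    calc 1 / max (c * |(j : ℝ) - s|) 1 ≤ 1 / (c / 3 * (|((j - ⌊s⌋ : ℤ) : ℝ)| + 1)) :=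
          one_div_le_one_div_of_le h8 h5
      _ = 3 / c * (1 / (|((j - ⌊s⌋ : ℤ) : ℝ)| + 1)) := by field_simp
  refine (Finset.sum_le_sum fun j _ => hterm j).trans ?_
  rw [← Finset.mul_sum]
  have hM : ∑ j ∈ Finset.Icc (-(n : ℤ)) n, 1 / (|((j - ⌊s⌋ : ℤ) : ℝ)| + 1)
      ≤ ∑ i ∈ Finset.Icc (-((n + ⌊s⌋.natAbs : ℕ) : ℤ)) ((n + ⌊s⌋.natAbs : ℕ) : ℤ),
        1 / (|(i : ℝ)| + 1) := by
    rw [← Finset.sum_image (s := Finset.Icc (-(n : ℤ)) n) (g := fun j => j - ⌊s⌋)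
      (f := fun i : ℤ => 1 / (|(i : ℝ)| + 1)) (by intro a _ b _ hab; simpa using hab)]
    refine Finset.sum_le_sum_of_subset_of_nonneg ?_ (fun _ _ _ => by positivity)
    intro x hx
    rw [Finset.mem_image] at hx
    obtain ⟨j, hj, rfl⟩ := hx
    rw [Finset.mem_Icc] at hj ⊢
    push_cast
    have h9 := neg_abs_le ⌊s⌋
    have h10 := le_abs_self ⌊s⌋
    constructor <;> linarith [hj.1, hj.2]
  have hL := hM.trans (sk_harm (n + ⌊s⌋.natAbs))
  have hlog : Real.log (((n + ⌊s⌋.natAbs : ℕ) : ℝ) + 1) ≤ Real.log (n + |s| + 2) := by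
    apply Real.log_le_log (by positivity)
    push_cast
    rw [Nat.cast_natAbs]
    push_cast
    linarith
  calc 3 / c * ∑ j ∈ Finset.Icc (-(n : ℤ)) n, 1 / (|((j - ⌊s⌋ : ℤ) : ℝ)| + 1)
      ≤ 3 / c * (2 * (1 + Real.log (((n + ⌊s⌋.natAbs : ℕ) : ℝ) + 1))) := by gcongr
    _ ≤ 3 / c * (2 * (1 + Real.log (n + |s| + 2))) := by gcongr
    _ = _ := by ring

theorem sk_plane {c Cn : ℝ} (hc : 0 < c) (hc1 : c ≤ 1) (hCn : 0 < Cn) (A B : ℝ)
    (hAB : c ≤ max |A| |B|) (hA : |A| ≤ Cn) (hB : |B| ≤ Cn) (n : ℕ) :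
    ∑ k ∈ Finset.Icc (-(n : ℤ)) n ×ˢ Finset.Icc (-(n : ℤ)) n, 1 / max |A * (k.1 : ℝ) + B * k.2| 1
      ≤ (2 * n + 1) * (6 / c * (1 + Real.log (n + Cn * n / c + 2))) := by
  have hcard : ((Finset.Icc (-(n : ℤ)) n).card : ℝ) = 2 * n + 1 := by
    rw [Int.card_Icc]
    have : ((n : ℤ) + 1 - -(n : ℤ)).toNat = 2 * n + 1 := by omega
    rw [this]; push_cast; ring
  have main : ∀ A B : ℝ, c ≤ |A| → |B| ≤ Cn → ∀ k2 ∈ Finset.Icc (-(n : ℤ)) n,
      ∑ k1 ∈ Finset.Icc (-(n : ℤ)) n, 1 / max |A * (k1 : ℝ) + B * k2| 1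
      ≤ 6 / c * (1 + Real.log (n + Cn * n / c + 2)) := by
    intro A B hA hB k2 hk2
    have hA0 : A ≠ 0 := by
      intro h; rw [h] at hA; simp at hA; linarith
    have hApos : 0 < |A| := by linarith
    have hk : |(k2 : ℝ)| ≤ n := by
      rw [Finset.mem_Icc] at hk2
      rw [abs_le]
      constructor
      · exact_mod_cast hk2.1
      · exact_mod_cast hk2.2
    have h1 : ∀ k1 ∈ Finset.Icc (-(n : ℤ)) n, 1 / max |A * (k1 : ℝ) + B * k2| 1
        ≤ 1 / max (c * |(k1 : ℝ) - (-(B * k2) / A)|) 1 := by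
      intro k1 _
      apply one_div_le_one_div_of_le (by positivity)
      apply max_le_max _ le_rfl
      have h2 : |A * (k1 : ℝ) + B * k2| = |A| * |(k1 : ℝ) - (-(B * k2) / A)| := by
        rw [← abs_mul]
        congr 1
        field_simp
        ring
      rw [h2]
      gcongr
    refine (Finset.sum_le_sum h1).trans ((sk_line hc hc1 _ n).trans ?_)
    have h3 : |-(B * k2) / A| ≤ Cn * n / c := by
      rw [abs_div, abs_neg, abs_mul]
      calc |B| * |(k2 : ℝ)| / |A| ≤ Cn * n / |A| := by gcongr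
        _ ≤ Cn * n / c := by gcongr
    have h4 : Real.log (n + |-(B * k2) / A| + 2) ≤ Real.log (n + Cn * n / c + 2) := by
      apply Real.log_le_log (by positivity)
      linarith
    gcongr
  rcases le_max_iff.1 hAB with h | h
  · rw [Finset.sum_product_right]
    refine (Finset.sum_le_sum fun k2 hk2 => main A B h hB k2 hk2).trans ?_
    rw [Finset.sum_const, nsmul_eq_mul, hcard]
  · rw [Finset.sum_product]
    have h5 : ∀ k1 ∈ Finset.Icc (-(n : ℤ)) n,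
        ∑ k2 ∈ Finset.Icc (-(n : ℤ)) n, 1 / max |A * (k1 : ℝ) + B * k2| 1
        ≤ 6 / c * (1 + Real.log (n + Cn * n / c + 2)) := by
      intro k1 hk1
      have := main B A h hA k1 hk1
      simpa only [add_comm] using this
    refine (Finset.sum_le_sum h5).trans ?_
    rw [Finset.sum_const, nsmul_eq_mul, hcard]

theorem sk_min3 {c h x y z : ℝ} (hc : 0 < c) (hh : 0 < h) (hx : 0 ≤ x) (hy : 0 ≤ y) (hz : 0 ≤ z)
    (hxy : c * h ≤ max x y) (hxz : c * h ≤ max x z) (hyz : c * h ≤ max y z) :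
    (c * h) ^ 2 * x ≤ x * y * z ∨ (c * h) ^ 2 * y ≤ x * y * z ∨ (c * h) ^ 2 * z ≤ x * y * z := by
  have hch : 0 < c * h := by positivity
  rcases le_max_iff.1 hxy with h1 | h1
  · rcases le_max_iff.1 hyz with h2 | h2
    · right; right
      nlinarith [mul_le_mul h1 h2 hch.le hx, mul_nonneg hx hy]
    · right; left
      nlinarith [mul_le_mul h1 h2 hch.le hx, mul_nonneg hx hz]
  · rcases le_max_iff.1 hxz with h2 | h2
    · right; right
      nlinarith [mul_le_mul h2 h1 hch.le hx, mul_nonneg hx hy]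
    · left
      nlinarith [mul_le_mul h1 h2 hch.le hy, mul_nonneg hy hz]

theorem sumK (g : Geo) (ps : ℝ × ℝ) (hps : ps ∈ g.U) : ∃ d e₁ : ℝ, 0 < d ∧ 0 < e₁ ∧
    ∀ c₀ e₀ : ℝ, 0 < c₀ → 0 < e₀ → e₀ ≤ e₁ → ∃ C X₀ : ℝ, 0 < C ∧ ∀ X h : ℝ, Reg X₀ X h →
    ∀ c ∈ CC e₀ ps d h,
    ∑ k ∈ KK h, 1 / max (th g e₀ h c (cst k)) (Lr c₀ X h / X) ≤ C * h ^ 2 * (1 + Real.log X) := by
  obtain ⟨dn, cn0, Cn, hdn, hcn0, hCn, -, -, hf3, -, hell, hAB, hf0⟩ := nd g ps hps
  -- normalise the constant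
  set cn : ℝ := min cn0 1 with hcn_def
  have hcn : 0 < cn := lt_min hcn0 one_pos
  have hcn1 : cn ≤ 1 := min_le_right _ _
  have hcnle : cn ≤ cn0 := min_le_left _ _
  refine ⟨dn / 2, dn / 4, by positivity, by positivity, ?_⟩
  intro c₀ e₀ hc₀ he₀ he₁
  set c' : ℝ := 4 / 27 * cn ^ 3 with hc'
  have hc'0 : 0 < c' := by positivity
  set μ : ℝ := min c' c₀ with hμ
  have hμ0 : 0 < μ := lt_min hc'0 hc₀
  set D : ℝ := 3 * (1 + Cn / cn) + 2 with hD
  have hD1 : 1 ≤ D := by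
    have : 0 < Cn / cn := by positivity
    rw [hD]; linarith
  refine ⟨3 * (1 / μ * (7 * (6 / cn * (1 + Real.log D)))), 1, ?_, ?_⟩
  · have : 0 ≤ Real.log D := Real.log_nonneg hD1
    positivity
  intro X h hReg c hc
  obtain ⟨hX1, -, hh1, hhX⟩ := hReg
  have hX0 : 0 < X := by linarith
  have hh0 : 0 < h := by linarith
  have hhX' : h ≤ X := by
    refine hhX.trans ?_
    calc X ^ (4 / 7 : ℝ) ≤ X ^ (1 : ℝ) := Real.rpow_le_rpow_of_exponent_le hX1 (by norm_num)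
      _ = X := Real.rpow_one X
  -- the point of the cell
  have heta0 : 0 < eta e₀ h := by unfold eta; positivity
  have heta : eta e₀ h ≤ dn / 4 := by
    unfold eta
    calc e₀ * h ^ (-(3 / 4) : ℝ) ≤ e₀ * 1 := by
          gcongr
          exact Real.rpow_le_one_of_one_le_of_nonpos hh1 (by norm_num)
      _ ≤ dn / 4 := by linarith
  have hp : ‖pc e₀ h c - ps‖ ≤ dn := by
    unfold CC at hc
    rw [Finset.mem_product, Finset.mem_Icc, Finset.mem_Icc] at hc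
    obtain ⟨⟨h1, h2⟩, ⟨h3, h4⟩⟩ := hc
    have aux : ∀ (a : ℝ) (z : ℤ), ⌊(a - dn / 2) / eta e₀ h⌋ ≤ z → z ≤ ⌊(a + dn / 2) / eta e₀ h⌋ →
        |eta e₀ h * z - a| ≤ dn := by
      intro a z hz1 hz2
      have h5 : (a - dn / 2) / eta e₀ h < z + 1 := by
        have h6 := Int.lt_floor_add_one ((a - dn / 2) / eta e₀ h)
        have h7 : ((⌊(a - dn / 2) / eta e₀ h⌋ : ℤ) : ℝ) ≤ z := by exact_mod_cast hz1
        linarith
      have h8 : (z : ℝ) ≤ (a + dn / 2) / eta e₀ h := by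
        have h6 := Int.floor_le ((a + dn / 2) / eta e₀ h)
        have h7 : (z : ℝ) ≤ ((⌊(a + dn / 2) / eta e₀ h⌋ : ℤ) : ℝ) := by exact_mod_cast hz2
        linarith
      rw [div_lt_iff₀ heta0] at h5
      rw [le_div_iff₀ heta0] at h8
      rw [abs_le]
      constructor <;> nlinarith
    rw [Prod.norm_def]
    apply max_le
    · exact aux ps.1 c.1 h1 h2
    · exact aux ps.2 c.2 h3 h4
  set p : ℝ × ℝ := pc e₀ h c with hpdef
  -- `R = Lr / X ≥ c₀ / h`
  have hR : c₀ / h ≤ Lr c₀ X h / X := by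
    unfold Lr
    have h1 : X / h ≤ (X / h) ^ (3 / 2 : ℝ) := by
      have h2 : 1 ≤ X / h := by rw [one_le_div hh0]; exact hhX'
      calc X / h = (X / h) ^ (1 : ℝ) := (Real.rpow_one _).symm
        _ ≤ _ := Real.rpow_le_rpow_of_exponent_le h2 (by norm_num)
    have h3 : X / h ≤ min X ((X / h) ^ (3 / 2 : ℝ)) := by
      apply le_min _ h1
      exact div_le_self hX0.le hh1
    rw [le_div_iff₀ hX0]
    calc c₀ / h * X = c₀ * (X / h) := by field_simp
      _ ≤ _ := by gcongr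
  have hR0 : 0 < Lr c₀ X h / X := lt_of_lt_of_le (by positivity) hR
  -- termwise bound
  have hterm : ∀ k ∈ KK h, 1 / max (th g e₀ h c (cst k)) (Lr c₀ X h / X)
      ≤ ∑ i : Fin 3, h / μ * (1 / max |g.ell i p (cst k)| 1) := by
    intro k hk
    unfold KK at hk
    rw [Finset.mem_filter] at hk
    obtain ⟨-, hk1, hk2⟩ := hk
    have hE : ∀ i j : Fin 3, i ≠ j → cn * h ≤ max |g.ell i p (cst k)| |g.ell j p (cst k)| := by
      intro i j hij
      refine le_trans ?_ (hell p (cst k) hp i j hij)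
      gcongr
    have hmin := sk_min3 hcn hh0 (abs_nonneg (g.ell 0 p (cst k))) (abs_nonneg (g.ell 1 p (cst k)))
      (abs_nonneg (g.ell 2 p (cst k))) (hE 0 1 (by decide)) (hE 0 2 (by decide)) (hE 1 2 (by decide))
    have hth : th g e₀ h c (cst k) = 4 / 27 * g.f0 p *
        (|g.ell 0 p (cst k)| * |g.ell 1 p (cst k)| * |g.ell 2 p (cst k)|) / h ^ 3 := by
      unfold th
      rw [← hpdef, hf3, abs_mul, abs_mul, abs_mul, abs_mul, abs_neg]
      have h1 : 0 ≤ g.f0 p := hcn0.le.trans (hf0 p hp)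
      rw [abs_of_nonneg h1, abs_of_pos (by norm_num : (0:ℝ) < 4 / 27)]
    have hstep : ∀ i : Fin 3, (cn * h) ^ 2 * |g.ell i p (cst k)|
        ≤ |g.ell 0 p (cst k)| * |g.ell 1 p (cst k)| * |g.ell 2 p (cst k)| →
        1 / max (th g e₀ h c (cst k)) (Lr c₀ X h / X)
        ≤ h / μ * (1 / max |g.ell i p (cst k)| 1) := by
      intro i hi
      have h1 : c' * |g.ell i p (cst k)| / h ≤ th g e₀ h c (cst k) := by
        rw [hth, div_le_div_iff₀ hh0 (by positivity)]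
        have h2 : cn ≤ g.f0 p := hcnle.trans (hf0 p hp)
        calc c' * |g.ell i p (cst k)| * h ^ 3
            = 4 / 27 * cn * ((cn * h) ^ 2 * |g.ell i p (cst k)|) * h := by rw [hc']; ring
          _ ≤ 4 / 27 * g.f0 p * (|g.ell 0 p (cst k)| * |g.ell 1 p (cst k)| *
              |g.ell 2 p (cst k)|) * h := by
              have h3 : 0 ≤ g.f0 p := hcn.le.trans h2
              gcongr
      have h4 : μ / h * max |g.ell i p (cst k)| 1 ≤ max (th g e₀ h c (cst k)) (Lr c₀ X h / X) := by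
        rw [mul_max_of_nonneg _ _ (by positivity)]
        apply max_le_max
        · refine le_trans ?_ h1
          calc μ / h * |g.ell i p (cst k)| ≤ c' / h * |g.ell i p (cst k)| := by
                gcongr
                exact min_le_left _ _
            _ = _ := by ring
        · refine le_trans ?_ hR
          rw [mul_one]
          gcongr
          exact min_le_right _ _
      have h5 : 0 < μ / h * max |g.ell i p (cst k)| 1 := by positivity
      calc 1 / max (th g e₀ h c (cst k)) (Lr c₀ X h / X)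
          ≤ 1 / (μ / h * max |g.ell i p (cst k)| 1) := one_div_le_one_div_of_le h5 h4
        _ = _ := by field_simp
    have hnn : ∀ i ∈ (Finset.univ : Finset (Fin 3)), 0 ≤ h / μ * (1 / max |g.ell i p (cst k)| 1) :=
      fun i _ => by positivity
    rcases hmin with h1 | h1 | h1
    · exact (hstep 0 h1).trans (Finset.single_le_sum hnn (Finset.mem_univ 0))
    · exact (hstep 1 h1).trans (Finset.single_le_sum hnn (Finset.mem_univ 1))
    · exact (hstep 2 h1).trans (Finset.single_le_sum hnn (Finset.mem_univ 2))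
  refine (Finset.sum_le_sum hterm).trans ?_
  rw [Finset.sum_comm]
  -- each form
  set n : ℕ := ⌈2 * h⌉.toNat with hn
  have hnz : ((n : ℕ) : ℤ) = ⌈2 * h⌉ := by
    rw [hn, Int.toNat_of_nonneg]
    exact Int.ceil_nonneg (by positivity)
  have hnr : (n : ℝ) ≤ 3 * h := by
    have h1 : ((n : ℤ) : ℝ) = ((⌈2 * h⌉ : ℤ) : ℝ) := by rw [hnz]
    have h2 := Int.ceil_lt_add_one (2 * h)
    push_cast at h1
    rw [h1]; linarith
  have hform : ∀ i ∈ (Finset.univ : Finset (Fin 3)),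
      ∑ k ∈ KK h, h / μ * (1 / max |g.ell i p (cst k)| 1)
      ≤ 1 / μ * (7 * (6 / cn * (1 + Real.log D))) * h ^ 2 * (1 + Real.log X) := by
    intro i _
    obtain ⟨A, B, hlin, hmx, hA, hB⟩ := hAB p hp i
    have h1 : ∑ k ∈ KK h, 1 / max |g.ell i p (cst k)| 1
        ≤ ∑ k ∈ Finset.Icc (-(n : ℤ)) n ×ˢ Finset.Icc (-(n : ℤ)) n,
          1 / max |A * (k.1 : ℝ) + B * k.2| 1 := by
      unfold KK
      rw [← hnz]
      refine (Finset.sum_le_sum_of_subset_of_nonneg (Finset.filter_subset _ _)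
        (fun _ _ _ => by positivity)).trans (le_of_eq ?_)
      refine Finset.sum_congr rfl fun k _ => ?_
      rw [hlin]
      rfl
    have h2 := sk_plane hcn hcn1 hCn A B (hcnle.trans hmx) hA hB n
    have h3 : (2 * (n : ℝ) + 1) ≤ 7 * h := by linarith
    have h4 : Real.log (n + Cn * n / cn + 2) ≤ Real.log D + Real.log X := by
      rw [← Real.log_mul (by positivity) hX0.ne']
      apply Real.log_le_log (by positivity)
      calc (n : ℝ) + Cn * n / cn + 2 = n * (1 + Cn / cn) + 2 := by ring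
        _ ≤ 3 * h * (1 + Cn / cn) + 2 * h := by
            have : 0 < Cn / cn := by positivity
            nlinarith
        _ = D * h := by rw [hD]; ring
        _ ≤ D * X := by gcongr
    have hlX : 0 ≤ Real.log X := Real.log_nonneg hX1
    have hlD : 0 ≤ Real.log D := Real.log_nonneg hD1
    have h5 : 1 + Real.log (n + Cn * n / cn + 2) ≤ (1 + Real.log D) * (1 + Real.log X) := by
      nlinarith [mul_nonneg hlD hlX]
    have h6 : 0 ≤ 1 + Real.log (n + Cn * n / cn + 2) := by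
      have : 0 ≤ Real.log (n + Cn * n / cn + 2) := by
        apply Real.log_nonneg
        have : 0 ≤ (n : ℝ) + Cn * n / cn := by positivity
        linarith
      linarith
    rw [← Finset.mul_sum]
    calc h / μ * ∑ k ∈ KK h, 1 / max |g.ell i p (cst k)| 1
        ≤ h / μ * ((2 * n + 1) * (6 / cn * (1 + Real.log (n + Cn * n / cn + 2)))) := by
          gcongr
          exact h1.trans h2
      _ ≤ h / μ * ((7 * h) * (6 / cn * ((1 + Real.log D) * (1 + Real.log X)))) := by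
          gcongr
      _ = _ := by ring
  refine (Finset.sum_le_sum hform).trans (le_of_eq ?_)
  rw [Finset.sum_const, Finset.card_univ, Fintype.card_fin]
  simp only [nsmul_eq_mul]
  push_cast
  ring

end Pool.Agent.Helper19.BD
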