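import Pool.Agent.Helper19.BD.EDefs

/-!
MP_bd232a_nt, part E, block E06 (short vectors nearly orthogonal to the cells). Elementary counting.
Number of cells `≤ C h^{3/2}`. Exchange the sums: for fixed `v` with `|v₁|,|v₂| ≤ C₁h^{1/4}`, `v' = (v₁,v₂) ≠ 0`, say `|v₁| ≥ |v₂|`: for every `c₂` the
condition `|v₀+v₁η c.1+v₂ η c.2| ≤ C₁h^{-1/2}` leaves `≤ 1 + 2C₁h^{-1/2}/(η|v₁|)` values of `c.1`, so `≤ C h^{3/4}(1 + h^{1/4}/|v'|) ≤ C h/|v'|` cells (`1 ≤ |v'| ≤ C₁h^{1/4}`);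
and `v₀` is restricted to `|v₀| ≤ C|v'|` (the cells are in a bounded region) — sum over `v₀` first: `Σ_{v₀} ≤ C |v'|·h/|v'|`, so the total is
`Σ_{v'} C h ≤ C h · h^{1/2}`. For `v' = 0` there are `≤ C` values of `v₀`.
-/

namespace Pool.Agent.Helper19.BD

open Finset

/-- indicator of `|y| ≤ δ` -/
noncomputable def ind6 (δ y : ℝ) : ℝ := if |y| ≤ δ then 1 else 0

theorem ind6_nonneg (δ y : ℝ) : 0 ≤ ind6 δ y := by
  unfold ind6; split_ifs <;> norm_num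

theorem ind6_zero {δ y : ℝ} (h : δ < |y|) : ind6 δ y = 0 := by
  unfold ind6; rw [if_neg (not_le.mpr h)]

/-- integers in an interval -/
theorem cnt6 (I : Finset ℤ) (x r : ℝ) (hr : 0 ≤ r) :
    ∑ c ∈ I, ind6 r ((c : ℝ) - x) ≤ 1 + 2 * r := by
  classical
  have e : ∑ c ∈ I, ind6 r ((c : ℝ) - x) = ((I.filter (fun c : ℤ => |(c:ℝ) - x| ≤ r)).card : ℝ) := by
    unfold ind6
    rw [Finset.sum_boole]
  rw [e]
  have hsub : I.filter (fun c : ℤ => |(c:ℝ) - x| ≤ r) ⊆ Finset.Icc ⌈x - r⌉ ⌊x + r⌋ := by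
    intro c hc
    rw [mem_filter] at hc
    obtain ⟨_, hc⟩ := hc
    rw [abs_le] at hc
    rw [Finset.mem_Icc, Int.ceil_le, Int.le_floor]
    constructor <;> linarith [hc.1, hc.2]
  have h1 := Finset.card_le_card hsub
  rw [Int.card_Icc] at h1
  have h2 : (((⌊x + r⌋ + 1 - ⌈x - r⌉).toNat : ℕ) : ℝ) ≤ 1 + 2 * r := by
    rcases le_or_gt 0 (⌊x + r⌋ + 1 - ⌈x - r⌉) with h | h
    · have h3 : (((⌊x + r⌋ + 1 - ⌈x - r⌉).toNat : ℕ) : ℝ) = ((⌊x + r⌋ + 1 - ⌈x - r⌉ : ℤ) : ℝ) := by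
        rw [← Int.cast_natCast, Int.toNat_of_nonneg h]
      rw [h3]
      have a1 := Int.floor_le (x + r)
      have a2 := Int.le_ceil (x - r)
      push_cast
      linarith
    · rw [Int.toNat_of_nonpos h.le]
      simp only [Nat.cast_zero]
      linarith
  exact le_trans (by exact_mod_cast h1) h2

theorem cnt6a (I : Finset ℤ) (a b δ : ℝ) (ha : a ≠ 0) (hδ : 0 ≤ δ) :
    ∑ c ∈ I, ind6 δ (b + a * (c : ℝ)) ≤ 1 + 2 * (δ / |a|) := by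
  have h := cnt6 I (-b / a) (δ / |a|) (by positivity)
  refine le_of_eq_of_le (Finset.sum_congr rfl fun c _ => ?_) h
  unfold ind6
  have ha' : 0 < |a| := abs_pos.mpr ha
  have e : |b + a * (c : ℝ)| ≤ δ ↔ |(c : ℝ) - -b / a| ≤ δ / |a| := by
    rw [le_div_iff₀ ha', ← abs_mul]
    have : ((c : ℝ) - -b / a) * a = b + a * c := by field_simp; ring
    rw [this]
  simp only [e]

/-- for a fixed pair `(v₁,v₂)`, one summation variable over the cells and `v₀` -/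
theorem cnt6b (V I : Finset ℤ) (a b δ R : ℝ) (ha : a ≠ 0) (hδ : 0 ≤ δ) (hR : 0 ≤ R)
    (hb : ∀ c ∈ I, |b + a * (c : ℝ)| + δ ≤ R) :
    ∑ v ∈ V, ∑ c ∈ I, ind6 δ ((v : ℝ) + (b + a * (c : ℝ))) ≤ (1 + 2 * R) * (1 + 2 * (δ / |a|)) := by
  have h1 : ∀ v ∈ V, ∑ c ∈ I, ind6 δ ((v : ℝ) + (b + a * (c : ℝ))) ≤
      ind6 R ((v : ℝ) - 0) * (1 + 2 * (δ / |a|)) := by
    intro v _
    by_cases hv : |(v : ℝ)| ≤ R
    · have : ind6 R ((v : ℝ) - 0) = 1 := by unfold ind6; rw [sub_zero, if_pos hv]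
      rw [this, one_mul]
      have := cnt6a I a ((v : ℝ) + b) δ ha hδ
      simpa only [add_assoc] using this
    · push Not at hv
      have h0 : ∑ c ∈ I, ind6 δ ((v : ℝ) + (b + a * (c : ℝ))) = 0 := by
        apply Finset.sum_eq_zero
        intro c hc
        apply ind6_zero
        have h2 := hb c hc
        have h3 : |(v : ℝ)| ≤ |(v : ℝ) + (b + a * (c : ℝ))| + |b + a * (c : ℝ)| := by
          have := abs_sub ((v : ℝ) + (b + a * (c : ℝ))) (b + a * (c : ℝ))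
          rwa [add_sub_cancel_right] at this
        linarith
      rw [h0]
      have := ind6_nonneg R ((v : ℝ) - 0)
      positivity
  refine (Finset.sum_le_sum h1).trans ?_
  rw [← Finset.sum_mul]
  have := cnt6 V 0 R hR
  have h4 : 0 ≤ 1 + 2 * (δ / |a|) := by positivity
  exact mul_le_mul_of_nonneg_right this h4

theorem card_Icc6 (a b : ℝ) : ((Finset.Icc ⌊a⌋ ⌊b⌋).card : ℝ) ≤ |b - a| + 2 := by
  rw [Int.card_Icc]
  rcases le_or_gt 0 (⌊b⌋ + 1 - ⌊a⌋) with h | h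
  · have h3 : (((⌊b⌋ + 1 - ⌊a⌋).toNat : ℕ) : ℝ) = ((⌊b⌋ + 1 - ⌊a⌋ : ℤ) : ℝ) := by
      rw [← Int.cast_natCast, Int.toNat_of_nonneg h]
    rw [h3]
    have a1 := Int.floor_le b
    have a2 := (Int.lt_floor_add_one a).le
    have a3 := le_abs_self (b - a)
    push_cast
    linarith
  · rw [Int.toNat_of_nonpos h.le]
    simp only [Nat.cast_zero]
    have := abs_nonneg (b - a)
    linarith

theorem card_VV6 (C₁ h : ℝ) (p : ℝ × ℝ) (V0 V : Finset ℤ)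
    (hV : ∀ m : ℤ, |(m : ℝ)| ≤ C₁ * h ^ (1 / 4 : ℝ) → m ∈ V)
    (hV0 : ∀ v ∈ VV C₁ h p, v 0 ∈ V0) :
    ((VV C₁ h p).ncard : ℝ) ≤ ∑ v1 ∈ V, ∑ v2 ∈ V, ∑ v0 ∈ V0,
      ind6 (C₁ * h ^ (-(1 / 2) : ℝ)) ((v0 : ℝ) + v1 * p.1 + v2 * p.2) := by
  classical
  set T : Finset (ℤ × ℤ × ℤ) := (V ×ˢ V ×ˢ V0).filter
    (fun t => |(t.2.2 : ℝ) + t.1 * p.1 + t.2.1 * p.2| ≤ C₁ * h ^ (-(1 / 2) : ℝ)) with hT
  set F : Finset (Fin 3 → ℤ) := T.image (fun t => ![t.2.2, t.1, t.2.1]) with hF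
  have hsub : VV C₁ h p ⊆ (F : Set (Fin 3 → ℤ)) := by
    intro v hv
    have hv' := hv
    obtain ⟨_, h1, h2, h3⟩ := hv'
    rw [hF, Finset.coe_image]
    refine ⟨(v 1, v 2, v 0), ?_, ?_⟩
    · rw [Finset.mem_coe, hT, mem_filter, mem_product, mem_product]
      exact ⟨⟨hV _ h1, hV _ h2, hV0 v hv⟩, h3⟩
    · ext i; fin_cases i <;> rfl
  have h1 : (VV C₁ h p).ncard ≤ F.card := by
    rw [← Set.ncard_coe_finset]
    exact Set.ncard_le_ncard hsub (Finset.finite_toSet F)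
  have h2 : F.card ≤ T.card := Finset.card_image_le
  have h3 : (T.card : ℝ) = ∑ v1 ∈ V, ∑ v2 ∈ V, ∑ v0 ∈ V0,
      ind6 (C₁ * h ^ (-(1 / 2) : ℝ)) ((v0 : ℝ) + v1 * p.1 + v2 * p.2) := by
    rw [hT, ← Finset.sum_boole, Finset.sum_product]
    refine Finset.sum_congr rfl fun v1 _ => ?_
    rw [Finset.sum_product]
    rfl
  rw [← h3]
  exact_mod_cast h1.trans h2

theorem mem_Icc6 (m : ℤ) (B : ℝ) (h : |(m : ℝ)| ≤ B) : m ∈ Finset.Icc (-⌊B⌋) ⌊B⌋ := by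
  rw [abs_le] at h
  rw [Finset.mem_Icc]
  constructor
  · have : -m ≤ ⌊B⌋ := by rw [Int.le_floor]; push_cast; linarith [h.1]
    omega
  · rw [Int.le_floor]; exact h.2

theorem card_sym6 (B : ℝ) (hB : 0 ≤ B) : ((Finset.Icc (-⌊B⌋) ⌊B⌋).card : ℝ) ≤ 2 * B + 1 := by
  have h0 : 0 ≤ ⌊B⌋ := Int.floor_nonneg.mpr hB
  rw [Int.card_Icc]
  have h3 : (((⌊B⌋ + 1 - -⌊B⌋).toNat : ℕ) : ℝ) = ((⌊B⌋ + 1 - -⌊B⌋ : ℤ) : ℝ) := by
    rw [← Int.cast_natCast, Int.toNat_of_nonneg (by omega)]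
  rw [h3]
  have a1 := Int.floor_le B
  push_cast
  linarith

theorem dsum6 (V : Finset ℤ) (hz0 : (0 : ℤ) ∈ V) (x y : ℝ) :
    ∑ v1 ∈ V, ∑ v2 ∈ V, (x + if v1 = 0 ∧ v2 = 0 then y else 0) = (V.card : ℝ) ^ 2 * x + y := by
  simp only [Finset.sum_add_distrib, Finset.sum_const, nsmul_eq_mul]
  congr 1
  · ring
  · rw [Finset.sum_eq_single 0]
    · rw [Finset.sum_eq_single 0]
      · simp
      · intro b _ hb; simp [hb]
      · intro h; exact absurd hz0 h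
    · intro b _ hb; simp [hb]
    · intro h; exact absurd hz0 h

/-- the count for a fixed nonzero pair -/
theorem one6 (V0 I : Finset ℤ) (v w : ℤ) (C₁ P e₀ q η δ z : ℝ) (hC : 0 < C₁) (hP : 0 < P) (he : 0 < e₀)
    (hq : 1 ≤ q) (hη : η = e₀ * (q ^ 3)⁻¹) (hδ : δ = C₁ * (q ^ 2)⁻¹) (hv : v ≠ 0) (hvA : |(v : ℝ)| ≤ C₁ * q)
    (hwv : |(w : ℝ)| ≤ |(v : ℝ)|) (hz : |z| ≤ P) (hI : ∀ c ∈ I, |η * (c : ℝ)| ≤ P) :
    ∑ v0 ∈ V0, ∑ c ∈ I, ind6 δ ((v0 : ℝ) + (w * z + (v * η) * (c : ℝ))) ≤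
      (2 * C₁ + 4 * P + 1) * (C₁ + 2 * (C₁ / e₀)) * q := by
  have hq0 : 0 < q := by linarith
  have hη0 : 0 < η := by rw [hη]; positivity
  have hv1 : (1 : ℝ) ≤ |(v : ℝ)| := by
    have : (1 : ℤ) ≤ |v| := Int.one_le_abs hv
    exact_mod_cast this
  have hδ0 : 0 < δ := by rw [hδ]; positivity
  have hδ1 : δ ≤ C₁ := by
    rw [hδ]
    have : (q ^ 2)⁻¹ ≤ 1 := inv_le_one_of_one_le₀ (by nlinarith)
    nlinarith
  have ha : (v : ℝ) * η ≠ 0 := by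
    have : (v : ℝ) ≠ 0 := by exact_mod_cast hv
    positivity
  have h := cnt6b V0 I ((v : ℝ) * η) (w * z) δ (2 * P * |(v : ℝ)| + C₁) ha hδ0.le (by positivity) (by
    intro c hc
    have h1 := hI c hc
    have h2 : |(w : ℝ) * z + v * η * (c : ℝ)| ≤ |(w : ℝ)| * |z| + |(v : ℝ)| * |η * (c : ℝ)| := by
      refine (abs_add_le _ _).trans ?_
      rw [abs_mul, mul_assoc, abs_mul (v : ℝ)]
    have h3 : |(w : ℝ)| * |z| ≤ |(v : ℝ)| * P := by gcongr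
    have h4 : |(v : ℝ)| * |η * (c : ℝ)| ≤ |(v : ℝ)| * P := by gcongr
    linarith)
  refine h.trans ?_
  have e1 : δ / |(v : ℝ) * η| = (C₁ / e₀) * q / |(v : ℝ)| := by
    rw [abs_mul, abs_of_pos hη0, hη, hδ]
    have : |(v : ℝ)| ≠ 0 := by positivity
    field_simp
  rw [e1]
  have h5 : 1 + 2 * (2 * P * |(v : ℝ)| + C₁) ≤ (2 * C₁ + 4 * P + 1) * |(v : ℝ)| := by nlinarith
  have h6 : 0 ≤ 1 + 2 * ((C₁ / e₀) * q / |(v : ℝ)|) := by positivity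
  calc (1 + 2 * (2 * P * |(v : ℝ)| + C₁)) * (1 + 2 * ((C₁ / e₀) * q / |(v : ℝ)|))
      ≤ ((2 * C₁ + 4 * P + 1) * |(v : ℝ)|) * (1 + 2 * ((C₁ / e₀) * q / |(v : ℝ)|)) :=
        mul_le_mul_of_nonneg_right h5 h6
    _ = (2 * C₁ + 4 * P + 1) * (|(v : ℝ)| + 2 * (C₁ / e₀) * q) := by
        have : |(v : ℝ)| ≠ 0 := by positivity
        field_simp
    _ ≤ (2 * C₁ + 4 * P + 1) * (C₁ * q + 2 * (C₁ / e₀) * q) := by gcongr
    _ = _ := by ring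

/-- the count for a fixed pair -/
theorem pair6 (V0 I1 I2 : Finset ℤ) (v1 v2 : ℤ) (C₁ P e₀ q η δ KI : ℝ) (hC : 0 < C₁) (hP0 : 0 < P) (he : 0 < e₀)
    (hq1 : 1 ≤ q) (hKI0 : 0 < KI) (hηq : η = e₀ * (q ^ 3)⁻¹) (hδq : δ = C₁ * (q ^ 2)⁻¹)
    (hδ0 : 0 < δ) (hδ1 : δ ≤ C₁)
    (hv1 : |(v1 : ℝ)| ≤ C₁ * q) (hv2 : |(v2 : ℝ)| ≤ C₁ * q)
    (hI1P : ∀ c ∈ I1, |η * (c : ℝ)| ≤ P) (hI2P : ∀ c ∈ I2, |η * (c : ℝ)| ≤ P)
    (c1 : (I1.card : ℝ) ≤ KI * q ^ 3) (c2 : (I2.card : ℝ) ≤ KI * q ^ 3) :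
    ∑ a ∈ I1, ∑ b ∈ I2, ∑ v0 ∈ V0, ind6 δ ((v0 : ℝ) + v1 * (η * a) + v2 * (η * b)) ≤
      KI * ((2 * C₁ + 4 * P + 1) * (C₁ + 2 * (C₁ / e₀))) * q ^ 4 +
        if v1 = 0 ∧ v2 = 0 then KI ^ 2 * (1 + 2 * C₁) * q ^ 6 else 0 := by
  have hq0 : 0 < q := by linarith
  by_cases hz : v1 = 0 ∧ v2 = 0
  · rw [if_pos hz, hz.1, hz.2]
    have h1 : ∀ a ∈ I1, ∑ b ∈ I2, ∑ v0 ∈ V0,
        ind6 δ ((v0 : ℝ) + ((0 : ℤ) : ℝ) * (η * a) + ((0 : ℤ) : ℝ) * (η * b)) ≤ (I2.card : ℝ) * (1 + 2 * C₁) := by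
      intro a _
      rw [← nsmul_eq_mul]
      apply Finset.sum_le_card_nsmul
      intro b _
      have := cnt6 V0 0 δ hδ0.le
      simp only [Int.cast_zero, zero_mul, add_zero, sub_zero] at this ⊢
      linarith
    have h2 := Finset.sum_le_card_nsmul _ _ _ h1
    rw [nsmul_eq_mul] at h2
    refine h2.trans ?_
    have h3 : (I1.card : ℝ) * ((I2.card : ℝ) * (1 + 2 * C₁)) ≤ (KI * q ^ 3) * ((KI * q ^ 3) * (1 + 2 * C₁)) := by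
      gcongr
    have h4 : 0 ≤ KI * ((2 * C₁ + 4 * P + 1) * (C₁ + 2 * (C₁ / e₀))) * q ^ 4 := by positivity
    have h5 : (KI * q ^ 3) * ((KI * q ^ 3) * (1 + 2 * C₁)) = KI ^ 2 * (1 + 2 * C₁) * q ^ 6 := by ring
    linarith
  · rw [if_neg hz, add_zero]
    rcases le_total |(v2 : ℝ)| |(v1 : ℝ)| with hle | hle
    · have hne : v1 ≠ 0 := by
        intro h
        apply hz
        refine ⟨h, ?_⟩
        rw [h] at hle
        simpa using hle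
      rw [Finset.sum_comm]
      have h1 : ∀ b ∈ I2, ∑ a ∈ I1, ∑ v0 ∈ V0,
          ind6 δ ((v0 : ℝ) + v1 * (η * a) + v2 * (η * b)) ≤
          (2 * C₁ + 4 * P + 1) * (C₁ + 2 * (C₁ / e₀)) * q := by
        intro b hb
        rw [Finset.sum_comm]
        refine le_of_eq_of_le ?_ (one6 V0 I1 v1 v2 C₁ P e₀ q η δ (η * b) hC hP0 he hq1 hηq hδq hne hv1 hle
          (hI2P b hb) hI1P)
        refine Finset.sum_congr rfl fun v0 _ => Finset.sum_congr rfl fun a _ => ?_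
        congr 1; ring
      have h2 := Finset.sum_le_card_nsmul _ _ _ h1
      rw [nsmul_eq_mul] at h2
      refine h2.trans ?_
      have h3 : 0 ≤ (2 * C₁ + 4 * P + 1) * (C₁ + 2 * (C₁ / e₀)) * q := by positivity
      calc (I2.card : ℝ) * ((2 * C₁ + 4 * P + 1) * (C₁ + 2 * (C₁ / e₀)) * q)
          ≤ (KI * q ^ 3) * ((2 * C₁ + 4 * P + 1) * (C₁ + 2 * (C₁ / e₀)) * q) := mul_le_mul_of_nonneg_right c2 h3
        _ = _ := by ring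
    · have hne : v2 ≠ 0 := by
        intro h
        apply hz
        refine ⟨?_, h⟩
        rw [h] at hle
        simpa using hle
      have h1 : ∀ a ∈ I1, ∑ b ∈ I2, ∑ v0 ∈ V0,
          ind6 δ ((v0 : ℝ) + v1 * (η * a) + v2 * (η * b)) ≤
          (2 * C₁ + 4 * P + 1) * (C₁ + 2 * (C₁ / e₀)) * q := by
        intro a ha
        rw [Finset.sum_comm]
        refine le_of_eq_of_le ?_ (one6 V0 I2 v2 v1 C₁ P e₀ q η δ (η * a) hC hP0 he hq1 hηq hδq hne hv2 hle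
          (hI1P a ha) hI2P)
        refine Finset.sum_congr rfl fun v0 _ => Finset.sum_congr rfl fun b _ => ?_
        congr 1; ring
      have h2 := Finset.sum_le_card_nsmul _ _ _ h1
      rw [nsmul_eq_mul] at h2
      refine h2.trans ?_
      have h3 : 0 ≤ (2 * C₁ + 4 * P + 1) * (C₁ + 2 * (C₁ / e₀)) * q := by positivity
      calc (I1.card : ℝ) * ((2 * C₁ + 4 * P + 1) * (C₁ + 2 * (C₁ / e₀)) * q)
          ≤ (KI * q ^ 3) * ((2 * C₁ + 4 * P + 1) * (C₁ + 2 * (C₁ / e₀)) * q) := mul_le_mul_of_nonneg_right c1 h3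
        _ = _ := by ring

/-- summation over the pairs -/
theorem sum6 (V V0 I1 I2 : Finset ℤ) (C₁ q η δ KI K2 : ℝ) (hq0 : 0 < q) (hK20 : 0 < K2) (hKI0 : 0 < KI)
    (hz0 : (0 : ℤ) ∈ V) (cV : (V.card : ℝ) ≤ (2 * C₁ + 1) * q) (nv : ℤ × ℤ → ℝ)
    (key : ∀ c ∈ I1 ×ˢ I2, nv c ≤ ∑ v1 ∈ V, ∑ v2 ∈ V, ∑ v0 ∈ V0,
      ind6 δ ((v0 : ℝ) + v1 * (η * c.1) + v2 * (η * c.2)))
    (hG : ∀ v1 ∈ V, ∀ v2 ∈ V, ∑ a ∈ I1, ∑ b ∈ I2, ∑ v0 ∈ V0,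
      ind6 δ ((v0 : ℝ) + v1 * (η * a) + v2 * (η * b)) ≤
      KI * K2 * q ^ 4 + if v1 = 0 ∧ v2 = 0 then KI ^ 2 * (1 + 2 * C₁) * q ^ 6 else 0) :
    ∑ c ∈ I1 ×ˢ I2, nv c ≤ ((2 * C₁ + 1) ^ 2 * (KI * K2) + KI ^ 2 * (1 + 2 * C₁)) * q ^ 6 := by
  refine (Finset.sum_le_sum key).trans ?_
  rw [Finset.sum_comm]
  have e : ∀ v1 ∈ V, ∑ c ∈ I1 ×ˢ I2, ∑ v2 ∈ V, ∑ v0 ∈ V0,
      ind6 δ ((v0 : ℝ) + v1 * (η * c.1) + v2 * (η * c.2)) ≤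
      ∑ v2 ∈ V, (KI * K2 * q ^ 4 + if v1 = 0 ∧ v2 = 0 then KI ^ 2 * (1 + 2 * C₁) * q ^ 6 else 0) := by
    intro v1 hv1
    rw [Finset.sum_comm]
    refine Finset.sum_le_sum fun v2 hv2 => ?_
    rw [Finset.sum_product]
    exact hG v1 hv1 v2 hv2
  refine (Finset.sum_le_sum e).trans ?_
  rw [dsum6 V hz0]
  have h5 : (V.card : ℝ) ^ 2 ≤ ((2 * C₁ + 1) * q) ^ 2 := by gcongr
  have h6 : 0 ≤ KI * K2 * q ^ 4 := by positivity
  calc (V.card : ℝ) ^ 2 * (KI * K2 * q ^ 4) + KI ^ 2 * (1 + 2 * C₁) * q ^ 6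
      ≤ ((2 * C₁ + 1) * q) ^ 2 * (KI * K2 * q ^ 4) + KI ^ 2 * (1 + 2 * C₁) * q ^ 6 := by
        have := mul_le_mul_of_nonneg_right h5 h6
        linarith
    _ = _ := by ring

theorem sumV (ps : ℝ × ℝ) (d C₁ e₀ : ℝ) (hd : 0 < d) (hC : 0 < C₁) (he : 0 < e₀) : ∃ C : ℝ, 0 < C ∧ ∀ h : ℝ, 1 ≤ h →
    ∑ c ∈ CC e₀ ps d h, (1 + ((VV C₁ h (pc e₀ h c)).ncard : ℝ)) ≤ C * h ^ (3 / 2 : ℝ) := by
  set P : ℝ := |ps.1| + |ps.2| + d + e₀ with hP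
  have hP0 : 0 < P := by positivity
  set KI : ℝ := 2 * d / e₀ + 2 with hKI
  have hKI0 : 0 < KI := by positivity
  set K2 : ℝ := (2 * C₁ + 4 * P + 1) * (C₁ + 2 * (C₁ / e₀)) with hK2
  have hK20 : 0 < K2 := by positivity
  refine ⟨KI ^ 2 + ((2 * C₁ + 1) ^ 2 * (KI * K2) + KI ^ 2 * (1 + 2 * C₁)), by positivity, ?_⟩
  intro h hh
  have h0 : 0 ≤ h := by linarith
  set q : ℝ := h ^ (1 / 4 : ℝ) with hq
  have hq1 : 1 ≤ q := Real.one_le_rpow hh (by norm_num)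
  have hq0 : 0 < q := by linarith
  have e32 : h ^ (3 / 2 : ℝ) = q ^ 6 := by
    rw [hq, ← Real.rpow_natCast, ← Real.rpow_mul h0]; norm_num
  have e12 : h ^ (-(1 / 2) : ℝ) = (q ^ 2)⁻¹ := by
    rw [hq, ← Real.rpow_natCast, ← Real.rpow_mul h0, ← Real.rpow_neg h0]; norm_num
  have e34 : h ^ (-(3 / 4) : ℝ) = (q ^ 3)⁻¹ := by
    rw [hq, ← Real.rpow_natCast, ← Real.rpow_mul h0, ← Real.rpow_neg h0]; norm_num
  set η : ℝ := eta e₀ h with hη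
  have hηq : η = e₀ * (q ^ 3)⁻¹ := by rw [hη, eta, e34]
  have hη0 : 0 < η := by rw [hηq]; positivity
  have hq3 : (q ^ 3)⁻¹ ≤ 1 := inv_le_one_of_one_le₀ (one_le_pow₀ hq1)
  have hηe : η ≤ e₀ := by rw [hηq]; nlinarith
  set δ : ℝ := C₁ * h ^ (-(1 / 2) : ℝ) with hδ
  have hδq : δ = C₁ * (q ^ 2)⁻¹ := by rw [hδ, e12]
  have hδ0 : 0 < δ := by rw [hδq]; positivity
  have hδ1 : δ ≤ C₁ := by
    rw [hδq]
    have : (q ^ 2)⁻¹ ≤ 1 := inv_le_one_of_one_le₀ (by nlinarith)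
    nlinarith
  set I1 : Finset ℤ := Finset.Icc ⌊(ps.1 - d) / η⌋ ⌊(ps.1 + d) / η⌋ with hI1
  set I2 : Finset ℤ := Finset.Icc ⌊(ps.2 - d) / η⌋ ⌊(ps.2 + d) / η⌋ with hI2
  have hCC : CC e₀ ps d h = I1 ×ˢ I2 := rfl
  have hcard : ∀ x : ℝ, ((Finset.Icc ⌊(x - d) / η⌋ ⌊(x + d) / η⌋).card : ℝ) ≤ KI * q ^ 3 := by
    intro x
    refine (card_Icc6 _ _).trans ?_
    have e : (x + d) / η - (x - d) / η = 2 * d / e₀ * q ^ 3 := by
      rw [hηq]; field_simp; ring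
    rw [e, abs_of_nonneg (by positivity), hKI]
    have : 1 ≤ q ^ 3 := one_le_pow₀ hq1
    nlinarith
  have c1 : (I1.card : ℝ) ≤ KI * q ^ 3 := hcard ps.1
  have c2 : (I2.card : ℝ) ≤ KI * q ^ 3 := hcard ps.2
  have hbd : ∀ x : ℝ, |x| ≤ |ps.1| + |ps.2| → ∀ c ∈ Finset.Icc ⌊(x - d) / η⌋ ⌊(x + d) / η⌋,
      |η * (c : ℝ)| ≤ P := by
    intro x hx c hc
    rw [Finset.mem_Icc] at hc
    have a1 : (x - d) / η - 1 ≤ (c : ℝ) := by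
      have := (Int.lt_floor_add_one ((x - d) / η)).le
      have h2 : ((⌊(x - d) / η⌋ : ℤ) : ℝ) ≤ (c : ℝ) := by exact_mod_cast hc.1
      linarith
    have a2 : (c : ℝ) ≤ (x + d) / η := by
      have h2 : (c : ℝ) ≤ ((⌊(x + d) / η⌋ : ℤ) : ℝ) := by exact_mod_cast hc.2
      exact h2.trans (Int.floor_le _)
    have b1 : x - d - η ≤ η * c := by
      have := mul_le_mul_of_nonneg_left a1 hη0.le
      have e : η * ((x - d) / η - 1) = x - d - η := by field_simp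
      linarith
    have b2 : η * c ≤ x + d := by
      have := mul_le_mul_of_nonneg_left a2 hη0.le
      have e : η * ((x + d) / η) = x + d := by field_simp
      linarith
    have b3 := abs_le.1 hx
    rw [abs_le, hP]
    constructor <;> linarith [b3.1, b3.2]
  have hI1P : ∀ c ∈ I1, |η * (c : ℝ)| ≤ P := hbd ps.1 (by linarith [abs_nonneg ps.2])
  have hI2P : ∀ c ∈ I2, |η * (c : ℝ)| ≤ P := hbd ps.2 (by linarith [abs_nonneg ps.1])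
  set A : ℝ := C₁ * q with hA
  have hA0 : 0 < A := by positivity
  set V : Finset ℤ := Finset.Icc (-⌊A⌋) ⌊A⌋ with hV
  set B : ℝ := C₁ + 2 * (A * P) with hB
  set V0 : Finset ℤ := Finset.Icc (-⌊B⌋) ⌊B⌋ with hV0
  have cV : (V.card : ℝ) ≤ (2 * C₁ + 1) * q := by
    refine (card_sym6 A hA0.le).trans ?_
    rw [hA]; nlinarith
  have hVm : ∀ m : ℤ, |(m : ℝ)| ≤ C₁ * h ^ (1 / 4 : ℝ) → m ∈ V := fun m hm => mem_Icc6 m A hm
  have hVabs : ∀ m ∈ V, |(m : ℝ)| ≤ C₁ * q := by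
    intro m hm
    rw [hV, Finset.mem_Icc] at hm
    have h1 : ((⌊A⌋ : ℤ) : ℝ) ≤ A := Int.floor_le A
    have h2 : (m : ℝ) ≤ ((⌊A⌋ : ℤ) : ℝ) := by exact_mod_cast hm.2
    have h3 : -((⌊A⌋ : ℤ) : ℝ) ≤ (m : ℝ) := by exact_mod_cast hm.1
    rw [abs_le]; constructor <;> linarith
  -- the counts for the cells
  have key : ∀ c ∈ CC e₀ ps d h, ((VV C₁ h (pc e₀ h c)).ncard : ℝ) ≤ ∑ v1 ∈ V, ∑ v2 ∈ V, ∑ v0 ∈ V0,
      ind6 δ ((v0 : ℝ) + v1 * (η * c.1) + v2 * (η * c.2)) := by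
    intro c hc
    rw [hCC, mem_product] at hc
    have := card_VV6 C₁ h (pc e₀ h c) V0 V hVm (by
      intro v hv
      obtain ⟨_, h1, h2, h3⟩ := hv
      apply mem_Icc6
      have p1 := hI1P c.1 hc.1
      have p2 := hI2P c.2 hc.2
      have h4 : |(v 0 : ℝ)| ≤ |(v 0 : ℝ) + v 1 * (η * c.1) + v 2 * (η * c.2)| +
          |(v 1 : ℝ)| * |η * c.1| + |(v 2 : ℝ)| * |η * c.2| := by
        rw [← abs_mul, ← abs_mul]
        have e : (v 0 : ℝ) = ((v 0 : ℝ) + v 1 * (η * c.1) + v 2 * (η * c.2)) - v 1 * (η * c.1) - v 2 * (η * c.2) := by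
          ring
        have t1 := abs_sub ((v 0 : ℝ) + v 1 * (η * c.1) + v 2 * (η * c.2) - v 1 * (η * c.1)) (v 2 * (η * c.2))
        have t2 := abs_sub ((v 0 : ℝ) + v 1 * (η * c.1) + v 2 * (η * c.2)) (v 1 * (η * c.1))
        rw [← e] at t1
        linarith
      have h5 : |(v 1 : ℝ)| * |η * c.1| ≤ A * P := by gcongr
      have h6 : |(v 2 : ℝ)| * |η * c.2| ≤ A * P := by gcongr
      have h7 : |(v 0 : ℝ) + v 1 * (η * c.1) + v 2 * (η * c.2)| ≤ δ := h3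
      rw [hB]; linarith)
    exact this
  have hG : ∀ v1 ∈ V, ∀ v2 ∈ V, ∑ a ∈ I1, ∑ b ∈ I2, ∑ v0 ∈ V0,
      ind6 δ ((v0 : ℝ) + v1 * (η * a) + v2 * (η * b)) ≤
      KI * K2 * q ^ 4 + if v1 = 0 ∧ v2 = 0 then KI ^ 2 * (1 + 2 * C₁) * q ^ 6 else 0 :=
    fun v1 hv1 v2 hv2 => pair6 V0 I1 I2 v1 v2 C₁ P e₀ q η δ KI hC hP0 he hq1 hKI0 hηq hδq hδ0 hδ1
      (hVabs v1 hv1) (hVabs v2 hv2) hI1P hI2P c1 c2
  have hz0 : (0 : ℤ) ∈ V := mem_Icc6 0 A (by rw [Int.cast_zero, abs_zero]; exact hA0.le)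
  have hsum : ∑ c ∈ CC e₀ ps d h, ((VV C₁ h (pc e₀ h c)).ncard : ℝ) ≤
      ((2 * C₁ + 1) ^ 2 * (KI * K2) + KI ^ 2 * (1 + 2 * C₁)) * q ^ 6 := by
    rw [hCC] at key ⊢
    exact sum6 V V0 I1 I2 C₁ q η δ KI K2 hq0 hK20 hKI0 hz0 cV _ key hG
  rw [Finset.sum_add_distrib, e32]
  have hc1 : ∑ _c ∈ CC e₀ ps d h, (1 : ℝ) ≤ KI ^ 2 * q ^ 6 := by
    rw [Finset.sum_const, nsmul_eq_mul, mul_one, hCC, card_product]
    push_cast
    calc (I1.card : ℝ) * (I2.card : ℝ) ≤ (KI * q ^ 3) * (KI * q ^ 3) := by gcongr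
      _ = _ := by ring
  calc _ ≤ KI ^ 2 * q ^ 6 + ((2 * C₁ + 1) ^ 2 * (KI * K2) + KI ^ 2 * (1 + 2 * C₁)) * q ^ 6 :=
        add_le_add hc1 hsum
    _ = _ := by ring

end Pool.Agent.Helper19.BD
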