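import Pool.Agent.Helper19.BD.ECellA
import Pool.Agent.Helper19.BD.ESumV
import Pool.Agent.Helper19.BD.ECountJ
import Pool.Agent.Helper19.BD.ECountI
import Pool.Agent.Helper19.BD.ESumK

/-!
MP_bd232a_nt, part E, block E10 (combination of E05-E09), finite combinatorics. For fixed `k`: every triple `(i,j,n)` with `Wt ≤ ρ` has a cell `c = cellOf (pj j) ∈ CC`;
for fixed `c` the `n` occurring are at most `Cρ³(1+ncard VV)` (E05, also gives the finiteness of `{n | Wt ≤ ρ}`), for fixed `c,n` the `i` are at most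
`Cρ³/max(θ_c(k), L_r/X)` (E08), for fixed `k,i,n` the `j` are at most `Cρ²` (E07). Sum over `k` with E09 (uniform in `c`), then over `c` with E06 (`d` may be decreased:
all blocks are monotone in `d`; take `e₀ ≤` all `e₁`).
-/

namespace Pool.Agent.Helper19.BD

/-- the finite combinatorics -/
theorem comb_count {ι J N Cc : Type*} (II : Finset ι) (JJ : Finset J) (CC : Finset Cc) (cell : J → Cc)
    (hcell : ∀ j ∈ JJ, cell j ∈ CC) (P : ι → J → N → Prop) (cJ : ℝ) (hcJ : 0 ≤ cJ) (A B : Cc → ℝ)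
    (h1 : ∀ c, ∀ S : Finset N, (∀ n ∈ S, ∃ i ∈ II, ∃ j ∈ JJ, cell j = c ∧ P i j n) → (S.card : ℝ) ≤ A c)
    (h2 : ∀ c n, ∀ S : Finset ι, (∀ i ∈ S, i ∈ II ∧ ∃ j ∈ JJ, cell j = c ∧ P i j n) → (S.card : ℝ) ≤ B c)
    (h3 : ∀ i ∈ II, ∀ n, ∀ S : Finset J, (∀ j ∈ S, j ∈ JJ ∧ P i j n) → (S.card : ℝ) ≤ cJ) [Nonempty N] :
    (∀ i ∈ II, ∀ j ∈ JJ, {n | P i j n}.Finite) ∧
    ∑ i ∈ II, ∑ j ∈ JJ, ({n | P i j n}.ncard : ℝ) ≤ ∑ c ∈ CC, A c * (B c * cJ) := by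
  classical
  have hfin : ∀ i ∈ II, ∀ j ∈ JJ, {n | P i j n}.Finite := by
    intro i hi j hj
    by_contra hinf
    obtain ⟨m, hm⟩ := exists_nat_gt (A (cell j))
    obtain ⟨t, ht, hc⟩ := Set.Infinite.exists_subset_card_eq hinf m
    have := h1 (cell j) t fun n hn => ⟨i, hi, j, hj, rfl, ht hn⟩
    rw [hc] at this
    linarith
  refine ⟨hfin, ?_⟩
  have hB0 : ∀ c, 0 ≤ B c := fun c => by
    have := h2 c (Classical.arbitrary N) ∅ (by simp)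
    simpa using this
  set All : Finset N := II.biUnion fun i => JJ.biUnion fun j => if h : {n | P i j n}.Finite then h.toFinset else ∅ with hAll
  have hmem : ∀ i ∈ II, ∀ j ∈ JJ, ∀ n, P i j n → n ∈ All := by
    intro i hi j hj n hn
    rw [hAll, Finset.mem_biUnion]
    refine ⟨i, hi, ?_⟩
    rw [Finset.mem_biUnion]
    refine ⟨j, hj, ?_⟩
    rw [dif_pos (hfin i hi j hj)]
    simpa using hn
  have hcard : ∀ i ∈ II, ∀ j ∈ JJ, ({n | P i j n}.ncard : ℝ) = ∑ n ∈ All, if P i j n then (1 : ℝ) else 0 := by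
    intro i hi j hj
    have e : {n | P i j n} = ((All.filter (P i j) : Finset N) : Set N) := by
      ext n
      simp only [Set.mem_setOf_eq, Finset.coe_filter]
      exact ⟨fun h => ⟨hmem i hi j hj n h, h⟩, fun h => h.2⟩
    rw [e, Set.ncard_coe_finset, Finset.sum_boole]
  have step1 : ∑ i ∈ II, ∑ j ∈ JJ, ({n | P i j n}.ncard : ℝ) =
      ∑ c ∈ CC, ∑ n ∈ All, ∑ i ∈ II, ∑ j ∈ JJ with cell j = c, if P i j n then (1 : ℝ) else 0 := by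
    calc ∑ i ∈ II, ∑ j ∈ JJ, ({n | P i j n}.ncard : ℝ)
        = ∑ i ∈ II, ∑ j ∈ JJ, ∑ n ∈ All, (if P i j n then (1 : ℝ) else 0) :=
          Finset.sum_congr rfl fun i hi => Finset.sum_congr rfl fun j hj => hcard i hi j hj
      _ = ∑ i ∈ II, ∑ c ∈ CC, ∑ j ∈ JJ with cell j = c, ∑ n ∈ All, (if P i j n then (1 : ℝ) else 0) :=
          Finset.sum_congr rfl fun i _ => (Finset.sum_fiberwise_of_maps_to hcell _).symm
      _ = ∑ i ∈ II, ∑ c ∈ CC, ∑ n ∈ All, ∑ j ∈ JJ with cell j = c, (if P i j n then (1 : ℝ) else 0) :=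
          Finset.sum_congr rfl fun i _ => Finset.sum_congr rfl fun c _ => Finset.sum_comm
      _ = ∑ c ∈ CC, ∑ i ∈ II, ∑ n ∈ All, ∑ j ∈ JJ with cell j = c, (if P i j n then (1 : ℝ) else 0) :=
          Finset.sum_comm
      _ = _ := Finset.sum_congr rfl fun c _ => Finset.sum_comm
  rw [step1]
  apply Finset.sum_le_sum
  intro c _
  have hT0 : ∀ n i, 0 ≤ ∑ j ∈ JJ with cell j = c, (if P i j n then (1 : ℝ) else 0) := fun n i =>
    Finset.sum_nonneg fun j _ => by split_ifs <;> norm_num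
  have hTle : ∀ n, ∀ i ∈ II, ∑ j ∈ JJ with cell j = c, (if P i j n then (1 : ℝ) else 0) ≤ cJ := by
    intro n i hi
    rw [Finset.sum_boole]
    refine h3 i hi n _ fun j hj => ?_
    simp only [Finset.mem_filter] at hj
    exact ⟨hj.1.1, hj.2⟩
  have hTz : ∀ n i, (∑ j ∈ JJ with cell j = c, (if P i j n then (1 : ℝ) else 0)) ≠ 0 →
      ∃ j ∈ JJ, cell j = c ∧ P i j n := by
    intro n i h
    obtain ⟨j, hj, hj2⟩ := Finset.exists_ne_zero_of_sum_ne_zero h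
    rw [Finset.mem_filter] at hj
    refine ⟨j, hj.1, hj.2, ?_⟩
    by_contra hP
    exact hj2 (if_neg hP)
  have hI : ∀ n, ∑ i ∈ II, ∑ j ∈ JJ with cell j = c, (if P i j n then (1 : ℝ) else 0) ≤ B c * cJ := by
    intro n
    rw [← Finset.sum_filter_ne_zero]
    calc ∑ i ∈ II with (∑ j ∈ JJ with cell j = c, (if P i j n then (1 : ℝ) else 0)) ≠ 0,
          ∑ j ∈ JJ with cell j = c, (if P i j n then (1 : ℝ) else 0)
        ≤ ∑ i ∈ II with (∑ j ∈ JJ with cell j = c, (if P i j n then (1 : ℝ) else 0)) ≠ 0, cJ :=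
          Finset.sum_le_sum fun i hi => hTle n i (Finset.mem_filter.mp hi).1
      _ = (((II.filter fun i => (∑ j ∈ JJ with cell j = c, (if P i j n then (1 : ℝ) else 0)) ≠ 0).card : ℕ) : ℝ) * cJ := by
          rw [Finset.sum_const, nsmul_eq_mul]
      _ ≤ B c * cJ := by
          refine mul_le_mul_of_nonneg_right ?_ hcJ
          refine h2 c n _ fun i hi => ?_
          rw [Finset.mem_filter] at hi
          exact ⟨hi.1, hTz n i hi.2⟩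
  rw [← Finset.sum_filter_ne_zero]
  calc ∑ n ∈ All with (∑ i ∈ II, ∑ j ∈ JJ with cell j = c, (if P i j n then (1 : ℝ) else 0)) ≠ 0,
        ∑ i ∈ II, ∑ j ∈ JJ with cell j = c, (if P i j n then (1 : ℝ) else 0)
      ≤ ∑ n ∈ All with (∑ i ∈ II, ∑ j ∈ JJ with cell j = c, (if P i j n then (1 : ℝ) else 0)) ≠ 0, B c * cJ :=
        Finset.sum_le_sum fun n _ => hI n
    _ = (((All.filter fun n => (∑ i ∈ II, ∑ j ∈ JJ with cell j = c, (if P i j n then (1 : ℝ) else 0)) ≠ 0).card : ℕ) : ℝ)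
          * (B c * cJ) := by
        rw [Finset.sum_const, nsmul_eq_mul]
    _ ≤ A c * (B c * cJ) := by
        refine mul_le_mul_of_nonneg_right ?_ (mul_nonneg (hB0 c) hcJ)
        refine h1 c _ fun n hn => ?_
        rw [Finset.mem_filter] at hn
        obtain ⟨i, hi, hi2⟩ := Finset.exists_ne_zero_of_sum_ne_zero hn.2
        obtain ⟨j, hj⟩ := hTz n i hi2
        exact ⟨i, hi, j, hj⟩

theorem Reg.mono {X₀ X₁ X h : ℝ} (hr : Reg X₁ X h) (hle : X₀ ≤ X₁) : Reg X₀ X h :=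
  ⟨hr.1, hle.trans hr.2.1, hr.2.2.1, hr.2.2.2⟩

theorem ta_pos {X h : ℝ} (hX : 1 ≤ X) (hh : 1 ≤ h) : 0 < ta X h := by
  unfold ta
  have : 0 < h * X := by positivity
  positivity

theorem eta_pos' {e₀ h : ℝ} (he : 0 < e₀) (hh : 1 ≤ h) : 0 < eta e₀ h := by
  unfold eta
  have : 0 < h := by linarith
  positivity

theorem JJ_mono (ps : ℝ × ℝ) {d d' X h : ℝ} (hd : d ≤ d') (hX : 1 ≤ X) (hh : 1 ≤ h) :
    JJ ps d X h ⊆ JJ ps d' X h := by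
  have ht := ta_pos hX hh
  unfold JJ
  apply Finset.product_subset_product
  · apply Finset.Icc_subset_Icc
    · apply Int.ceil_le_ceil; gcongr
    · apply Int.floor_le_floor; gcongr
  · apply Finset.Icc_subset_Icc
    · apply Int.ceil_le_ceil; gcongr
    · apply Int.floor_le_floor; gcongr

theorem CC_mono (e₀ : ℝ) (ps : ℝ × ℝ) {d d' h : ℝ} (hd : d ≤ d') (he : 0 < e₀) (hh : 1 ≤ h) :
    CC e₀ ps d h ⊆ CC e₀ ps d' h := by
  have ht := eta_pos' he hh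
  unfold CC
  apply Finset.product_subset_product
  · apply Finset.Icc_subset_Icc
    · apply Int.floor_le_floor; gcongr
    · apply Int.floor_le_floor; gcongr
  · apply Finset.Icc_subset_Icc
    · apply Int.floor_le_floor; gcongr
    · apply Int.floor_le_floor; gcongr

theorem cellOf_mem_CC {e₀ : ℝ} (ps : ℝ × ℝ) {d X h : ℝ} (he : 0 < e₀) (hX : 1 ≤ X) (hh : 1 ≤ h) (j : ℤ × ℤ)
    (hj : j ∈ JJ ps d X h) : cellOf e₀ h (pj X h j) ∈ CC e₀ ps d h := by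
  have ht := ta_pos hX hh
  have hη := eta_pos' he hh
  unfold JJ at hj
  rw [Finset.mem_product, Finset.mem_Icc, Finset.mem_Icc] at hj
  obtain ⟨⟨h1, h2⟩, h3, h4⟩ := hj
  rw [Int.ceil_le, div_le_iff₀ ht] at h1 h3
  rw [Int.le_floor, le_div_iff₀ ht] at h2 h4
  unfold CC cellOf pj
  rw [Finset.mem_product, Finset.mem_Icc, Finset.mem_Icc]
  refine ⟨⟨?_, ?_⟩, ?_, ?_⟩
  all_goals
    apply Int.floor_le_floor
    apply div_le_div_of_nonneg_right _ hη.le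
    linarith

theorem countZ (g : Geo) (ps : ℝ × ℝ) (hps : ps ∈ g.U) : ∃ d : ℝ, 0 < d ∧
    ∀ κ₁ κ₂ c₀ c₁ c₂ : ℝ, 0 < κ₁ → κ₁ ≤ κ₂ → 0 < c₀ → 0 < c₁ → c₁ ≤ c₂ →
    ∃ C X₀ : ℝ, 0 < C ∧ ∀ X h κ ρ : ℝ, Reg X₀ X h → κ₁ ≤ κ → κ ≤ κ₂ → 1 ≤ ρ →
    (∀ k ∈ KK h, ∀ i ∈ II c₀ c₁ c₂ X h, ∀ j ∈ JJ ps d X h,
      {n : Fin 3 → ℤ | Wt g κ c₀ X h (cst k) (i * Lr c₀ X h) (pj X h j) n ≤ ρ}.Finite) ∧
    ∑ k ∈ KK h, ∑ i ∈ II c₀ c₁ c₂ X h, ∑ j ∈ JJ ps d X h,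
      ({n : Fin 3 → ℤ | Wt g κ c₀ X h (cst k) (i * Lr c₀ X h) (pj X h j) n ≤ ρ}.ncard : ℝ)
      ≤ C * ρ ^ 8 * h ^ (7 / 2 : ℝ) * (1 + Real.log X) := by
  obtain ⟨dA, eA, hdA, heA, hA⟩ := cellA g ps hps
  obtain ⟨dJ, hdJ, hJ⟩ := countJ g ps hps
  obtain ⟨dI, eI, hdI, heI, hI⟩ := countI g ps hps
  obtain ⟨dK, eK, hdK, heK, hK⟩ := sumK g ps hps
  obtain ⟨d, hd, hd1, hd2, hd3, hd4⟩ : ∃ d : ℝ, 0 < d ∧ d ≤ dA ∧ d ≤ dJ ∧ d ≤ dI ∧ d ≤ dK :=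
    ⟨min (min dA dJ) (min dI dK), by positivity, (min_le_left _ _).trans (min_le_left _ _),
      (min_le_left _ _).trans (min_le_right _ _), (min_le_right _ _).trans (min_le_left _ _),
      (min_le_right _ _).trans (min_le_right _ _)⟩
  obtain ⟨e₀, he, he1, he2, he3⟩ : ∃ e₀ : ℝ, 0 < e₀ ∧ e₀ ≤ eA ∧ e₀ ≤ eI ∧ e₀ ≤ eK :=
    ⟨min eA (min eI eK), by positivity, min_le_left _ _, (min_le_right _ _).trans (min_le_left _ _),
      (min_le_right _ _).trans (min_le_right _ _)⟩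
  refine ⟨d, hd, fun κ₁ κ₂ c₀ c₁ c₂ hκ₁ hκ hc₀ hc₁ hc => ?_⟩
  obtain ⟨C₁, CA, XA, hC₁, hCA, hA⟩ := hA κ₁ κ₂ c₀ c₁ c₂ e₀ hκ₁ hκ hc₀ hc₁ hc he he1
  obtain ⟨CJ, XJ, hCJ, hJ⟩ := hJ κ₁ κ₂ c₀ c₁ c₂ hκ₁ hκ hc₀ hc₁ hc
  obtain ⟨CI, XI, hCI, hI⟩ := hI κ₁ κ₂ c₀ c₁ c₂ e₀ hκ₁ hκ hc₀ hc₁ hc he he2
  obtain ⟨CK, XK, hCK, hK⟩ := hK c₀ e₀ hc₀ he he3
  obtain ⟨CV, hCV, hV⟩ := sumV ps d C₁ e₀ hd hC₁ he
  refine ⟨CA * CI * CJ * CK * CV, max (max XA XJ) (max XI XK), by positivity, ?_⟩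
  intro X h κ ρ hreg hκ1 hκ2 hρ
  have hX : 1 ≤ X := hreg.1
  have hh : 1 ≤ h := hreg.2.2.1
  have hρ0 : 0 < ρ := by linarith
  have hh0 : 0 < h := by linarith
  have hlog : 0 ≤ Real.log X := Real.log_nonneg hX
  have rA := hreg.mono ((le_max_left _ _).trans (le_max_left _ _))
  have rJ := hreg.mono ((le_max_right _ _).trans (le_max_left _ _))
  have rI := hreg.mono ((le_max_left _ _).trans (le_max_right _ _))
  have rK := hreg.mono ((le_max_right _ _).trans (le_max_right _ _))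
  have main : ∀ k ∈ KK h, (∀ i ∈ II c₀ c₁ c₂ X h, ∀ j ∈ JJ ps d X h,
      {n : Fin 3 → ℤ | Wt g κ c₀ X h (cst k) (i * Lr c₀ X h) (pj X h j) n ≤ ρ}.Finite) ∧
      ∑ i ∈ II c₀ c₁ c₂ X h, ∑ j ∈ JJ ps d X h,
      ({n : Fin 3 → ℤ | Wt g κ c₀ X h (cst k) (i * Lr c₀ X h) (pj X h j) n ≤ ρ}.ncard : ℝ) ≤
      ∑ c ∈ CC e₀ ps d h, (CA * ρ ^ 3 * (1 + ((VV C₁ h (pc e₀ h c)).ncard : ℝ))) *
        ((CI * ρ ^ 3 / max (th g e₀ h c (cst k)) (Lr c₀ X h / X)) * (CJ * ρ ^ 2)) := by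
    intro k hk
    refine comb_count (II c₀ c₁ c₂ X h) (JJ ps d X h) (CC e₀ ps d h) (fun j => cellOf e₀ h (pj X h j))
      (fun j hj => cellOf_mem_CC ps he hX hh j hj)
      (fun i j n => Wt g κ c₀ X h (cst k) (i * Lr c₀ X h) (pj X h j) n ≤ ρ) (CJ * ρ ^ 2) (by positivity)
      (fun c => CA * ρ ^ 3 * (1 + ((VV C₁ h (pc e₀ h c)).ncard : ℝ)))
      (fun c => CI * ρ ^ 3 / max (th g e₀ h c (cst k)) (Lr c₀ X h / X)) ?_ ?_ ?_
    · intro c S hS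
      refine hA X h κ ρ rA hκ1 hκ2 hρ k hk c S fun n hn => ?_
      obtain ⟨i, hi, j, hj, hc, hw⟩ := hS n hn
      exact ⟨i, hi, j, JJ_mono ps hd1 hX hh hj, hc, hw⟩
    · intro c n S hS
      refine hI X h κ ρ rI hκ1 hκ2 hρ k hk c n S fun i hi => ?_
      obtain ⟨h1, j, hj, hc, hw⟩ := hS i hi
      exact ⟨h1, j, JJ_mono ps hd3 hX hh hj, hc, hw⟩
    · intro i hi n S hS
      refine hJ X h κ ρ rJ hκ1 hκ2 hρ k hk i hi n S fun j hj => ?_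
      exact ⟨JJ_mono ps hd2 hX hh (hS j hj).1, (hS j hj).2⟩
  refine ⟨fun k hk => (main k hk).1, ?_⟩
  calc ∑ k ∈ KK h, ∑ i ∈ II c₀ c₁ c₂ X h, ∑ j ∈ JJ ps d X h,
        ({n : Fin 3 → ℤ | Wt g κ c₀ X h (cst k) (i * Lr c₀ X h) (pj X h j) n ≤ ρ}.ncard : ℝ)
      ≤ ∑ k ∈ KK h, ∑ c ∈ CC e₀ ps d h, (CA * ρ ^ 3 * (1 + ((VV C₁ h (pc e₀ h c)).ncard : ℝ))) *
        ((CI * ρ ^ 3 / max (th g e₀ h c (cst k)) (Lr c₀ X h / X)) * (CJ * ρ ^ 2)) :=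
        Finset.sum_le_sum fun k hk => (main k hk).2
    _ = ∑ c ∈ CC e₀ ps d h, ∑ k ∈ KK h, (CA * ρ ^ 3 * (1 + ((VV C₁ h (pc e₀ h c)).ncard : ℝ))) *
        ((CI * ρ ^ 3 / max (th g e₀ h c (cst k)) (Lr c₀ X h / X)) * (CJ * ρ ^ 2)) := Finset.sum_comm
    _ = ∑ c ∈ CC e₀ ps d h, (CA * CI * CJ * ρ ^ 8 * (1 + ((VV C₁ h (pc e₀ h c)).ncard : ℝ))) *
          ∑ k ∈ KK h, 1 / max (th g e₀ h c (cst k)) (Lr c₀ X h / X) := by
        refine Finset.sum_congr rfl fun c _ => ?_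
        rw [Finset.mul_sum]
        refine Finset.sum_congr rfl fun k _ => ?_
        rw [div_eq_mul_one_div (CI * ρ ^ 3)]
        ring
    _ ≤ ∑ c ∈ CC e₀ ps d h, (CA * CI * CJ * ρ ^ 8 * (1 + ((VV C₁ h (pc e₀ h c)).ncard : ℝ))) *
          (CK * h ^ 2 * (1 + Real.log X)) := by
        refine Finset.sum_le_sum fun c hc => ?_
        refine mul_le_mul_of_nonneg_left ?_ (by positivity)
        exact hK X h rK c (CC_mono e₀ ps hd4 he hh hc)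
    _ = CA * CI * CJ * CK * ρ ^ 8 * h ^ 2 * (1 + Real.log X) *
          ∑ c ∈ CC e₀ ps d h, (1 + ((VV C₁ h (pc e₀ h c)).ncard : ℝ)) := by
        rw [Finset.mul_sum]
        refine Finset.sum_congr rfl fun c _ => ?_
        ring
    _ ≤ CA * CI * CJ * CK * ρ ^ 8 * h ^ 2 * (1 + Real.log X) * (CV * h ^ (3 / 2 : ℝ)) := by
        refine mul_le_mul_of_nonneg_left (hV h hh) (by positivity)
    _ = CA * CI * CJ * CK * CV * ρ ^ 8 * (h ^ 2 * h ^ (3 / 2 : ℝ)) * (1 + Real.log X) := by ring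
    _ = CA * CI * CJ * CK * CV * ρ ^ 8 * h ^ (7 / 2 : ℝ) * (1 + Real.log X) := by
        congr 2
        rw [← Real.rpow_natCast h 2, ← Real.rpow_add hh0]
        norm_num

end Pool.Agent.Helper19.BD
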