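import Mathlib

/-!
MP_bd232a_nt, part E: definitions for the exponential sum bound.
-/

open scoped ContDiff

namespace Pool.Agent.Helper19.BD

/-- `e(t) = exp(2 π i t)` -/
noncomputable def ex (t : ℝ) : ℂ := Complex.exp (2 * Real.pi * Complex.I * t)

/-- three linear forms `λ_i(x) = α_i x₀ + β_{i,1} x₁ + β_{i,2} x₂` on `ℝ³`, linearly independent -/
structure Geo where
  al : Fin 3 → ℝ
  b1 : Fin 3 → ℝ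
  b2 : Fin 3 → ℝ
  det_ne : (Matrix.of ![al, b1, b2]).det ≠ 0

namespace Geo

variable (g : Geo)

def lam (i : Fin 3) (x : Fin 3 → ℝ) : ℝ := g.al i * x 0 + g.b1 i * x 1 + g.b2 i * x 2

/-- `φ(x) = (λ₀λ₁λ₂)^{2/3}` -/
noncomputable def phi (x : Fin 3 → ℝ) : ℝ := (∏ i, g.lam i x) ^ (2 / 3 : ℝ)

def om (i : Fin 3) (p : ℝ × ℝ) : ℝ := g.al i + g.b1 i * p.1 + g.b2 i * p.2

def U : Set (ℝ × ℝ) := {p | ∀ i, 0 < g.om i p}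

/-- `t_i(p,k) = β_i·k / ω_i(p)` -/
noncomputable def tt (i : Fin 3) (p k : ℝ × ℝ) : ℝ := (g.b1 i * k.1 + g.b2 i * k.2) / g.om i p

noncomputable def TT (p k : ℝ × ℝ) : ℝ := ∑ i, g.tt i p k

/-- `f(p) = (ω₀ω₁ω₂)^{2/3}` -/
noncomputable def f0 (p : ℝ × ℝ) : ℝ := (∏ i, g.om i p) ^ (2 / 3 : ℝ)

/-- `Df(p)[k]` -/
noncomputable def f1 (p k : ℝ × ℝ) : ℝ := g.f0 p * (2 / 3 * g.TT p k)

/-- `D²f(p)[k,w]` -/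
noncomputable def f2 (p k w : ℝ × ℝ) : ℝ :=
  g.f0 p * (4 / 9 * g.TT p k * g.TT p w - 2 / 3 * ∑ i, g.tt i p k * g.tt i p w)

/-- `D³f(p)[k,w,z]` -/
noncomputable def f3 (p k w z : ℝ × ℝ) : ℝ :=
  g.f0 p * (8 / 27 * g.TT p k * g.TT p w * g.TT p z
    - 4 / 9 * (g.TT p k * (∑ i, g.tt i p w * g.tt i p z) + g.TT p w * (∑ i, g.tt i p k * g.tt i p z)
        + g.TT p z * (∑ i, g.tt i p k * g.tt i p w))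
    + 4 / 3 * ∑ i, g.tt i p k * g.tt i p w * g.tt i p z)

/-- `ℓ_i(p,k) = T - 3 t_i` -/
noncomputable def ell (i : Fin 3) (p k : ℝ × ℝ) : ℝ := g.TT p k - 3 * g.tt i p k

/-- `Ev = H - s H_s` for `H(s,p) = (f(p+sk)-f(p))/s` -/
noncomputable def Ev (k : ℝ × ℝ) (s : ℝ) (p : ℝ × ℝ) : ℝ :=
  2 * (g.f0 (p + s • k) - g.f0 p) / s - g.f1 (p + s • k) k

/-- `Hp = ∂_w H` -/
noncomputable def Hp (k : ℝ × ℝ) (s : ℝ) (p w : ℝ × ℝ) : ℝ := (g.f1 (p + s • k) w - g.f1 p w) / s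

end Geo

/-- the exponential sum -/
noncomputable def ES (g : Geo) (Ψ : (Fin 3 → ℝ) → ℂ) (κ X : ℝ) : ℂ :=
  ∑' y : Fin 3 → ℤ, Ψ (fun i => (y i : ℝ) / X) * ex (κ * g.phi (fun i => (y i : ℝ)))

/-- small cone around the direction `(1, ps)` -/
def cone (ps : ℝ × ℝ) (d : ℝ) : Set (Fin 3 → ℝ) := {x | 0 < x 0 ∧ |x 1 / x 0 - ps.1| < d ∧ |x 2 / x 0 - ps.2| < d}

/-- integer shift `(0,k₁,k₂)` -/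
def shz (k : ℤ × ℤ) : Fin 3 → ℤ := ![0, k.1, k.2]

/-- real shift -/
def shr (k : ℝ × ℝ) : Fin 3 → ℝ := ![0, k.1, k.2]

/-- cast of an integer pair -/
def cst (k : ℤ × ℤ) : ℝ × ℝ := ((k.1 : ℝ), (k.2 : ℝ))

/-- the differenced sum `T(k)` -/
noncomputable def ET (g : Geo) (Ψ : (Fin 3 → ℝ) → ℂ) (κ X : ℝ) (k : ℤ × ℤ) : ℂ :=
  ∑' y : Fin 3 → ℤ, (Ψ (fun i => ((y + shz k) i : ℝ) / X) * ex (κ * g.phi (fun i => ((y + shz k) i : ℝ)))) *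
    (starRingEnd ℂ) (Ψ (fun i => (y i : ℝ) / X) * ex (κ * g.phi (fun i => (y i : ℝ))))

/-- scales -/
noncomputable def Lt (X h : ℝ) : ℝ := √(X / h)
noncomputable def Lr (c₀ X h : ℝ) : ℝ := c₀ * min X ((X / h) ^ (3 / 2 : ℝ))
noncomputable def ta (X h : ℝ) : ℝ := 1 / √(h * X)

/-- centre of the box with index `j` in the `p`-plane -/
noncomputable def pj (X h : ℝ) (j : ℤ × ℤ) : ℝ × ℝ := (ta X h * j.1, ta X h * j.2)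

/-- the weight `1 + L_r |κ Ev - (n₀ + n'·p)| + L_t |κ Hp₁ - n₁| + L_t |κ Hp₂ - n₂|` at `s = 1/r`, `p`. -/
noncomputable def Wt (g : Geo) (κ c₀ X h : ℝ) (k : ℝ × ℝ) (r : ℝ) (p : ℝ × ℝ) (n : Fin 3 → ℤ) : ℝ :=
  1 + Lr c₀ X h * |κ * g.Ev k (1 / r) p - (n 0 + n 1 * p.1 + n 2 * p.2)|
    + Lt X h * |κ * g.Hp k (1 / r) p (1, 0) - n 1| + Lt X h * |κ * g.Hp k (1 / r) p (0, 1) - n 2|

/-- indices `i` of the radial boxes: `c₁ X ≤ i L_r ≤ c₂ X` -/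
noncomputable def II (c₀ c₁ c₂ X h : ℝ) : Finset ℤ := Finset.Icc ⌈c₁ * X / Lr c₀ X h⌉ ⌊c₂ * X / Lr c₀ X h⌋

/-- indices `j` of the boxes in the `p`-plane: `‖pj j - ps‖ ≤ d` -/
noncomputable def JJ (ps : ℝ × ℝ) (d X h : ℝ) : Finset (ℤ × ℤ) :=
  Finset.Icc ⌈(ps.1 - d) / ta X h⌉ ⌊(ps.1 + d) / ta X h⌋ ×ˢ Finset.Icc ⌈(ps.2 - d) / ta X h⌉ ⌊(ps.2 + d) / ta X h⌋

/-- the shifts `k` with `h ≤ ‖k‖ ≤ 2h` (sup norm) -/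
noncomputable def KK (h : ℝ) : Finset (ℤ × ℤ) :=
  (Finset.Icc (-⌈2 * h⌉) ⌈2 * h⌉ ×ˢ Finset.Icc (-⌈2 * h⌉) ⌈2 * h⌉).filter (fun k => h ≤ ‖cst k‖ ∧ ‖cst k‖ ≤ 2 * h)

/-- cells: squares of side `η = e₀ h^{-3/4}` -/
noncomputable def eta (e₀ h : ℝ) : ℝ := e₀ * h ^ (-(3 / 4) : ℝ)
noncomputable def cellOf (e₀ h : ℝ) (p : ℝ × ℝ) : ℤ × ℤ := (⌊p.1 / eta e₀ h⌋, ⌊p.2 / eta e₀ h⌋)
noncomputable def pc (e₀ h : ℝ) (c : ℤ × ℤ) : ℝ × ℝ := (eta e₀ h * c.1, eta e₀ h * c.2)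

/-- short vectors nearly orthogonal to `(1, p)` -/
noncomputable def VV (C₁ h : ℝ) (p : ℝ × ℝ) : Set (Fin 3 → ℤ) :=
  {v | v ≠ 0 ∧ |(v 1 : ℝ)| ≤ C₁ * h ^ (1 / 4 : ℝ) ∧ |(v 2 : ℝ)| ≤ C₁ * h ^ (1 / 4 : ℝ) ∧
    |(v 0 : ℝ) + v 1 * p.1 + v 2 * p.2| ≤ C₁ * h ^ (-(1 / 2) : ℝ)}

/-- cells meeting the ball of radius `d` around `ps` -/
noncomputable def CC (e₀ : ℝ) (ps : ℝ × ℝ) (d h : ℝ) : Finset (ℤ × ℤ) :=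
  Finset.Icc ⌊(ps.1 - d) / eta e₀ h⌋ ⌊(ps.1 + d) / eta e₀ h⌋ ×ˢ Finset.Icc ⌊(ps.2 - d) / eta e₀ h⌋ ⌊(ps.2 + d) / eta e₀ h⌋

/-- `θ_c(k) = |D³f(p_c)[k,k,k]| / h³` -/
noncomputable def th (g : Geo) (e₀ h : ℝ) (c : ℤ × ℤ) (k : ℝ × ℝ) : ℝ := |g.f3 (pc e₀ h c) k k k| / h ^ 3

/-- the regime `X ≥ X₀`, `1 ≤ h ≤ X^{4/7}` -/
def Reg (X₀ X h : ℝ) : Prop := 1 ≤ X ∧ X₀ ≤ X ∧ 1 ≤ h ∧ h ≤ X ^ (4 / 7 : ℝ)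

end Pool.Agent.Helper19.BD
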