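import Pool.Agent.Helper19.BD.EDefs

/-!
MP_bd232a_nt, part E, block E14 (Fourier decay). For each `i`: integrate by parts `N` times in the variable `v_i` (compact support):
`(2π|ζ_i|)^N |B̂(ζ)| ≤ ∫ |∂_i^N B| ≤ C (2V)³`. Then `(1+Σ|ζ_i|)^N ≤ 4^N (1 + max |ζ_i|)^N`.
-/

open scoped ContDiff
open MeasureTheory

namespace Pool.Agent.Helper19.BD

namespace EFtAux

/-- Derivative in the direction of the `i`-th coordinate. -/
noncomputable def pd (i : Fin 3) (f : (Fin 3 → ℝ) → ℂ) : (Fin 3 → ℝ) → ℂ :=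
  fun v => fderiv ℝ f v (Pi.single i 1)

theorem pd_smooth (i : Fin 3) {f : (Fin 3 → ℝ) → ℂ} (hf : ContDiff ℝ ∞ f) : ContDiff ℝ ∞ (pd i f) :=
  (hf.fderiv_right (m := ∞) (by simp)).clm_apply contDiff_const

theorem pd_iter_smooth (i : Fin 3) (j : ℕ) {f : (Fin 3 → ℝ) → ℂ} (hf : ContDiff ℝ ∞ f) :
    ContDiff ℝ ∞ ((pd i)^[j] f) := by
  induction j with
  | zero => simpa using hf
  | succ j ih =>
    rw [Function.iterate_succ_apply']
    exact pd_smooth i ih

theorem pd_iter_eq (i : Fin 3) {f : (Fin 3 → ℝ) → ℂ} (hf : ContDiff ℝ ∞ f) (v : Fin 3 → ℝ) (j : ℕ) :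
    iteratedDeriv j (fun t => f (Function.update v i t)) =
      fun t => ((pd i)^[j] f) (Function.update v i t) := by
  induction j with
  | zero => simp [iteratedDeriv_zero]
  | succ j ih =>
    rw [iteratedDeriv_succ, ih]
    funext t
    rw [Function.iterate_succ_apply']
    have h1 : HasFDerivAt ((pd i)^[j] f) (fderiv ℝ ((pd i)^[j] f) (Function.update v i t))
        (Function.update v i t) :=
      ((pd_iter_smooth i j hf).differentiable (by simp)).differentiableAt.hasFDerivAt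
    have h2 : HasDerivAt (Function.update v i) (Pi.single i (1 : ℝ)) t := hasDerivAt_update v i t
    exact (h1.comp_hasDerivAt t h2).deriv

theorem pd_iter_zero (i : Fin 3) {f : (Fin 3 → ℝ) → ℂ} {S : Set (Fin 3 → ℝ)} (hS : IsClosed S)
    (hf : ∀ v ∉ S, f v = 0) (j : ℕ) : ∀ v ∉ S, ((pd i)^[j] f) v = 0 := by
  induction j with
  | zero => simpa using hf
  | succ j ih =>
    intro v hv
    rw [Function.iterate_succ_apply']
    have h : (pd i)^[j] f =ᶠ[nhds v] fun _ => (0 : ℂ) := by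
      filter_upwards [hS.isOpen_compl.mem_nhds hv] with w hw using ih w hw
    change fderiv ℝ ((pd i)^[j] f) v (Pi.single i 1) = 0
    rw [show fderiv ℝ ((pd i)^[j] f) v = fderiv ℝ (fun _ => (0 : ℂ)) v from h.fderiv_eq]
    simp

theorem ex_differentiable (ζ : Fin 3 → ℝ) :
    Differentiable ℝ (fun v : Fin 3 → ℝ => ex (-∑ i, ζ i * v i)) := by
  unfold ex
  fun_prop

theorem ex_continuous (ζ : Fin 3 → ℝ) :
    Continuous (fun v : Fin 3 → ℝ => ex (-∑ i, ζ i * v i)) := (ex_differentiable ζ).continuous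

theorem ex_fderiv (ζ : Fin 3 → ℝ) (i : Fin 3) (v : Fin 3 → ℝ) :
    fderiv ℝ (fun v : Fin 3 → ℝ => ex (-∑ l, ζ l * v l)) v (Pi.single i 1) =
      -(2 * Real.pi * Complex.I * ζ i) * ex (-∑ l, ζ l * v l) := by
  have h1 : HasFDerivAt (fun v : Fin 3 → ℝ => ex (-∑ l, ζ l * v l))
      (fderiv ℝ (fun v : Fin 3 → ℝ => ex (-∑ l, ζ l * v l)) (Function.update v i (v i)))
      (Function.update v i (v i)) := (ex_differentiable ζ).differentiableAt.hasFDerivAt
  have h2 : HasDerivAt (Function.update v i) (Pi.single i (1 : ℝ)) (v i) := hasDerivAt_update v i (v i)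
  have h3 := (h1.comp_hasDerivAt (v i) h2)
  rw [Function.update_eq_self] at h3
  have h4 : ∀ t : ℝ, (fun v : Fin 3 → ℝ => ex (-∑ l, ζ l * v l)) (Function.update v i t) =
      Complex.exp (-(2 * Real.pi * Complex.I * ζ i) * ((t - v i : ℝ) : ℂ)) *
        ex (-∑ l, ζ l * v l) := by
    intro t
    have hs : ∑ l, ζ l * (Function.update v i t) l = (∑ l, ζ l * v l) + ζ i * (t - v i) := by
      have : ∀ l, ζ l * (Function.update v i t) l = ζ l * v l + (if l = i then ζ i * (t - v i) else 0) := by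
        intro l
        by_cases hl : l = i
        · subst hl
          simp
          ring
        · simp [hl]
      rw [Finset.sum_congr rfl fun l _ => this l, Finset.sum_add_distrib]
      simp
    simp only [hs, ex]
    rw [← Complex.exp_add]
    congr 1
    push_cast
    ring
  have h5 : HasDerivAt ((fun v : Fin 3 → ℝ => ex (-∑ l, ζ l * v l)) ∘ Function.update v i)
      (-(2 * Real.pi * Complex.I * ζ i) * ex (-∑ l, ζ l * v l)) (v i) := by
    have h6 : HasDerivAt (fun t : ℝ => ((t - v i : ℝ) : ℂ)) ((1 : ℝ) : ℂ) (v i) :=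
      ((hasDerivAt_id (v i)).sub_const (v i)).ofReal_comp
    have h7 := ((h6.const_mul (-(2 * Real.pi * Complex.I * ζ i))).cexp).mul_const (ex (-∑ l, ζ l * v l))
    refine (h7.congr_of_eventuallyEq (Filter.Eventually.of_forall fun t => ?_)).congr_deriv ?_
    · exact h4 t
    · simp
  exact h3.unique h5

theorem ibp_step (i : Fin 3) (ζ : Fin 3 → ℝ) {f : (Fin 3 → ℝ) → ℂ} (hf : ContDiff ℝ ∞ f)
    (hs : HasCompactSupport f) (hs' : HasCompactSupport (pd i f)) :
    ∫ v : Fin 3 → ℝ, pd i f v * ex (-∑ l, ζ l * v l) =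
      (2 * Real.pi * Complex.I * ζ i) * ∫ v : Fin 3 → ℝ, f v * ex (-∑ l, ζ l * v l) := by
  have hc := hf.continuous
  have hc' := (pd_smooth i hf).continuous
  have hg := ex_continuous ζ
  have hfun : (fun v : Fin 3 → ℝ => fderiv ℝ (fun v : Fin 3 → ℝ => ex (-∑ l, ζ l * v l)) v (Pi.single i 1)) =
      fun v => -(2 * Real.pi * Complex.I * ζ i) * ex (-∑ l, ζ l * v l) := by
    funext v
    exact ex_fderiv ζ i v
  have h := integral_mul_fderiv_eq_neg_fderiv_mul_of_integrable (μ := (volume : Measure (Fin 3 → ℝ)))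
    (f := f) (g := fun v : Fin 3 → ℝ => ex (-∑ l, ζ l * v l)) (v := Pi.single i (1 : ℝ))
    ((hc'.mul hg).integrable_of_hasCompactSupport hs'.mul_right)
    (by
      have e : (fun x : Fin 3 → ℝ => f x * fderiv ℝ (fun v : Fin 3 → ℝ => ex (-∑ l, ζ l * v l)) x (Pi.single i 1)) =
          fun x => f x * (-(2 * Real.pi * Complex.I * ζ i) * ex (-∑ l, ζ l * x l)) := by
        funext x
        rw [ex_fderiv]
      rw [e]
      exact (hc.mul (continuous_const.mul hg)).integrable_of_hasCompactSupport hs.mul_right)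
    ((hc.mul hg).integrable_of_hasCompactSupport hs.mul_right)
    (fun x _ => (hf.differentiable (by simp)).differentiableAt)
    (fun x _ => (ex_differentiable ζ).differentiableAt)
  have h2 : ∫ v : Fin 3 → ℝ, pd i f v * ex (-∑ l, ζ l * v l) =
      -∫ x : Fin 3 → ℝ, f x * fderiv ℝ (fun v : Fin 3 → ℝ => ex (-∑ l, ζ l * v l)) x (Pi.single i 1) := by
    rw [h, neg_neg]
    rfl
  rw [h2, ← integral_const_mul, ← integral_neg]
  refine integral_congr_ae (Filter.Eventually.of_forall fun x => ?_)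
  simp only
  rw [ex_fderiv]
  ring

theorem norm_ex (t : ℝ) : ‖ex t‖ = 1 := by
  unfold ex
  rw [show (2 * Real.pi * Complex.I * t : ℂ) = ((2 * Real.pi * t : ℝ) : ℂ) * Complex.I by push_cast; ring,
    Complex.norm_exp_ofReal_mul_I]

end EFtAux

open EFtAux in
theorem ftDecay (N : ℕ) (V C : ℝ) : ∃ C' : ℝ, ∀ B : (Fin 3 → ℝ) → ℂ, ContDiff ℝ ∞ B → (∀ v, B v ≠ 0 → ∀ i, |v i| ≤ V) →
    (∀ (v : Fin 3 → ℝ) (i : Fin 3), ∀ j ≤ N, ‖iteratedDeriv j (fun t => B (Function.update v i t)) (v i)‖ ≤ C) →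
    ∀ ζ : Fin 3 → ℝ, ‖∫ v : Fin 3 → ℝ, B v * ex (-∑ i, ζ i * v i)‖ ≤ C' / (1 + ∑ i, |ζ i|) ^ N := by
  set S : Set (Fin 3 → ℝ) := Set.Icc (fun _ => -V) (fun _ => V) with hS
  have hSc : IsCompact S := isCompact_Icc
  have hSf : volume S < ⊤ := hSc.measure_lt_top
  refine ⟨4 ^ N * (|C| * (volume S).toReal), fun B hB hsupp hder ζ => ?_⟩
  set K : ℝ := |C| * (volume S).toReal with hK
  have hK0 : 0 ≤ K := by positivity
  have hB0 : ∀ v ∉ S, B v = 0 := by
    intro v hv
    by_contra hne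
    apply hv
    have h := hsupp v hne
    exact ⟨fun i => (abs_le.mp (h i)).1, fun i => (abs_le.mp (h i)).2⟩
  have hz := fun i j => pd_iter_zero i hSc.isClosed hB0 j
  have hcs : ∀ i j, HasCompactSupport ((pd i)^[j] B) := fun i j =>
    HasCompactSupport.intro hSc (hz i j)
  have hbd : ∀ i : Fin 3, ∀ j ≤ N, ∀ v, ‖((pd i)^[j] B) v‖ ≤ |C| := by
    intro i j hj v
    have h := hder v i j hj
    rw [pd_iter_eq i hB v j] at h
    simp only [Function.update_eq_self] at h
    exact h.trans (le_abs_self C)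
  set I : ℂ := ∫ v : Fin 3 → ℝ, B v * ex (-∑ i, ζ i * v i) with hI
  have hint : ∀ i : Fin 3, ∀ j : ℕ, ∫ v : Fin 3 → ℝ, ((pd i)^[j] B) v * ex (-∑ l, ζ l * v l) =
      (2 * Real.pi * Complex.I * ζ i) ^ j * I := by
    intro i j
    induction j with
    | zero => simp [hI]
    | succ j ih =>
      rw [Function.iterate_succ_apply', ibp_step i ζ (pd_iter_smooth i j hB) (hcs i j)
        (by have := hcs i (j + 1); rwa [Function.iterate_succ_apply'] at this), ih, pow_succ]
      ring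
  have hle : ∀ i : Fin 3, ∀ j ≤ N, ‖∫ v : Fin 3 → ℝ, ((pd i)^[j] B) v * ex (-∑ l, ζ l * v l)‖ ≤ K := by
    intro i j hj
    have e : ∫ v : Fin 3 → ℝ, ((pd i)^[j] B) v * ex (-∑ l, ζ l * v l) =
        ∫ v in S, ((pd i)^[j] B) v * ex (-∑ l, ζ l * v l) := by
      rw [setIntegral_eq_integral_of_forall_compl_eq_zero]
      intro v hv
      rw [hz i j v hv, zero_mul]
    rw [e]
    exact norm_setIntegral_le_of_norm_le_const hSf (fun v _ => by
      rw [norm_mul, norm_ex, mul_one]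
      exact hbd i j hj v)
  have hI0 : ‖I‖ ≤ K := by
    have := hle 0 0 (Nat.zero_le _)
    rwa [hint, pow_zero, one_mul] at this
  have hIi : ∀ i : Fin 3, |ζ i| ^ N * ‖I‖ ≤ K := by
    intro i
    have h := hle i N le_rfl
    rw [hint, norm_mul, norm_pow] at h
    refine le_trans ?_ h
    apply mul_le_mul_of_nonneg_right _ (norm_nonneg _)
    apply pow_le_pow_left₀ (abs_nonneg _)
    have e : ‖(2 * Real.pi * Complex.I * ζ i : ℂ)‖ = 2 * Real.pi * |ζ i| := by
      rw [norm_mul, norm_mul, norm_mul, Complex.norm_I, Complex.norm_real, Complex.norm_real]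
      simp [abs_of_pos Real.pi_pos]
    rw [e]
    have := Real.pi_gt_three
    nlinarith [abs_nonneg (ζ i)]
  obtain ⟨m, hm⟩ := Finite.exists_max (fun i : Fin 3 => |ζ i|)
  have hsum : 1 + ∑ i, |ζ i| ≤ 4 * max 1 |ζ m| := by
    have h3 : ∑ i, |ζ i| ≤ 3 * |ζ m| := by
      rw [Fin.sum_univ_three]
      linarith [hm 0, hm 1, hm 2]
    have h4 := le_max_left (1 : ℝ) |ζ m|
    have h5 := le_max_right (1 : ℝ) |ζ m|
    linarith
  have hpos : 0 < 1 + ∑ i, |ζ i| := by positivity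
  rw [le_div_iff₀ (by positivity)]
  calc ‖I‖ * (1 + ∑ i, |ζ i|) ^ N ≤ ‖I‖ * (4 * max 1 |ζ m|) ^ N := by gcongr
    _ = 4 ^ N * (max 1 |ζ m| ^ N * ‖I‖) := by rw [mul_pow]; ring
    _ ≤ 4 ^ N * K := by
        apply mul_le_mul_of_nonneg_left _ (by positivity)
        rcases le_total (1 : ℝ) |ζ m| with h | h
        · rw [max_eq_right h]
          exact hIi m
        · rw [max_eq_left h, one_pow, one_mul]
          exact hI0

end Pool.Agent.Helper19.BD
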