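import Pool.Agent.Helper19.BD.EDefs

/-!
MP_bd232a_nt, part E, block E03 (nondegeneracy). Algebra + compactness.
(1) `f3 p k k k = -(4/27) f0 p ℓ₀ℓ₁ℓ₂` : expand (`Fin.sum_univ_three`, `ring`). More generally
    `f3 p k z w = -(4/27)(1/6) f0 p Σ_π ℓ_{π0}(k) ℓ_{π1}(z) ℓ_{π2}(w)` (sum over the 6 permutations; `ring`).
(2) `ℓ(k) = 0` (all three) only for `k = 0`: then `t_i(p,k) = τ` for all `i`, i.e. `β_i·k = τ ω_i(p) = τ(α_i + β_i·p)`,
    `-τ α_i + β_i·(k-τp) = 0`; the determinant is nonzero, so `τ = 0`, `k = 0`.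
(3) `f3 p k z w = 0` for all `w` ⇒ `k = 0` or `z = 0`: the vectors `ℓ(w)` fill the plane `x₀+x₁+x₂=0`, so with `a=ℓ(k)`, `b=ℓ(z)`:
    `a₁b₂+a₂b₁ = a₀b₂+a₂b₀ = a₀b₁+a₁b₀`, hence `a₁b₁ = a₀b₀ =: u`, `a₀b₁+a₁b₀ = -u`, `(a₀b₁)(a₁b₀) = u²` ⇒ `x²+ux+u²=0` ⇒ `u=0`, `a₀b₁=a₁b₀=0` ⇒ `a=0` or `b=0`.
(4) constants: compactness of `{‖p-ps‖≤d} × {‖k‖=1} × {‖z‖=1}` and homogeneity.
(5) any two of the `ℓ_i` vanish simultaneously only at `k=0` (sum zero + (2)).
-/

namespace Pool.Agent.Helper19.BD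

namespace NdAux

variable (g : Geo)

noncomputable def A (i : Fin 3) (p : ℝ × ℝ) : ℝ :=
  (∑ j, g.b1 j / g.om j p) - 3 * (g.b1 i / g.om i p)

noncomputable def B (i : Fin 3) (p : ℝ × ℝ) : ℝ :=
  (∑ j, g.b2 j / g.om j p) - 3 * (g.b2 i / g.om i p)

theorem ell_eq (i : Fin 3) (p k : ℝ × ℝ) : g.ell i p k = A g i p * k.1 + B g i p * k.2 := by
  simp only [Geo.ell, Geo.TT, Geo.tt, A, B, Fin.sum_univ_three]
  ring

theorem ell_sum (p k : ℝ × ℝ) : g.ell 0 p k + g.ell 1 p k + g.ell 2 p k = 0 := by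
  simp only [Geo.ell, Geo.TT, Fin.sum_univ_three]
  ring

theorem f3_eq (p k z w : ℝ × ℝ) : g.f3 p k z w = -(2 / 81) * g.f0 p *
    (g.ell 0 p k * (g.ell 1 p z * g.ell 2 p w + g.ell 2 p z * g.ell 1 p w)
      + g.ell 1 p k * (g.ell 0 p z * g.ell 2 p w + g.ell 2 p z * g.ell 0 p w)
      + g.ell 2 p k * (g.ell 0 p z * g.ell 1 p w + g.ell 1 p z * g.ell 0 p w)) := by
  simp only [Geo.f3, Geo.ell, Geo.TT, Fin.sum_univ_three]
  ring

theorem f3_diag (p k : ℝ × ℝ) :
    g.f3 p k k k = -(4 / 27) * g.f0 p * (g.ell 0 p k * g.ell 1 p k * g.ell 2 p k) := by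
  rw [f3_eq]
  ring

theorem ell_smul (i : Fin 3) (p k : ℝ × ℝ) (s : ℝ) : g.ell i p (s • k) = s * g.ell i p k := by
  rw [ell_eq, ell_eq]
  simp only [Prod.smul_fst, Prod.smul_snd, smul_eq_mul]
  ring

theorem f3_smul (p k z w : ℝ × ℝ) (s t : ℝ) : g.f3 p (s • k) (t • z) w = s * t * g.f3 p k z w := by
  rw [f3_eq, f3_eq]
  simp only [ell_smul]
  ring

/-- kernel of the three forms -/
theorem ker (p k : ℝ × ℝ) (hp : p ∈ g.U) (h : ∀ i, g.ell i p k = 0) : k = 0 := by
  set τ : ℝ := g.TT p k / 3 with hτ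
  have ht : ∀ i, g.b1 i * k.1 + g.b2 i * k.2 = τ * g.om i p := by
    intro i
    have h1 := h i
    simp only [Geo.ell, Geo.tt] at h1
    have h2 : (g.b1 i * k.1 + g.b2 i * k.2) / g.om i p = τ := by
      rw [hτ]; linarith
    have h3 : g.om i p ≠ 0 := ne_of_gt (hp i)
    field_simp at h2
    linarith
  have hv : Matrix.vecMul ![τ, -(k.1 - τ * p.1), -(k.2 - τ * p.2)] (Matrix.of ![g.al, g.b1, g.b2]) = 0 := by
    funext i
    have h1 := ht i
    simp only [Geo.om] at h1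
    simp only [Matrix.vecMul, dotProduct, Fin.sum_univ_three, Pi.zero_apply]
    show τ * g.al i + -(k.1 - τ * p.1) * g.b1 i + -(k.2 - τ * p.2) * g.b2 i = 0
    linarith
  have h0 := Matrix.eq_zero_of_vecMul_eq_zero g.det_ne hv
  have e0 : τ = 0 := congrFun h0 0
  have e1 : -(k.1 - τ * p.1) = 0 := congrFun h0 1
  have e2 : -(k.2 - τ * p.2) = 0 := congrFun h0 2
  rw [e0] at e1 e2
  ext
  · simp only [Prod.fst_zero]; linarith
  · simp only [Prod.snd_zero]; linarith

theorem ker2 (p k : ℝ × ℝ) (hp : p ∈ g.U) (h0 : g.ell 0 p k = 0) (h1 : g.ell 1 p k = 0) : k = 0 := by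
  apply ker g p k hp
  intro i
  have hs := ell_sum g p k
  fin_cases i
  · exact h0
  · exact h1
  · show g.ell 2 p k = 0
    linarith

theorem alg (a0 a1 a2 b0 b1 b2 : ℝ) (ha : a0 + a1 + a2 = 0) (hb : b0 + b1 + b2 = 0)
    (h1 : a1 * b2 + a2 * b1 = a0 * b2 + a2 * b0) (h2 : a1 * b2 + a2 * b1 = a0 * b1 + a1 * b0) :
    (a0 = 0 ∧ a1 = 0) ∨ (b0 = 0 ∧ b1 = 0) := by
  have ea : a2 = -a0 - a1 := by linarith
  have eb : b2 = -b0 - b1 := by linarith
  subst ea eb
  have hu : a0 * b0 = a1 * b1 := by nlinarith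
  have hs : a0 * b1 + a1 * b0 = -(a0 * b0) := by nlinarith
  have hx : (a0 * b1) ^ 2 + (a0 * b0) * (a0 * b1) + (a0 * b0) ^ 2 = 0 := by
    have e : a1 * b0 = -(a0 * b0) - a0 * b1 := by linarith
    have e2 : (a0 * b1) * (a1 * b0) = (a0 * b0) * (a1 * b1) := by ring
    rw [e, ← hu] at e2
    nlinarith
  have hu0 : a0 * b0 = 0 := by nlinarith [sq_nonneg (a0 * b1 + a0 * b0 / 2), sq_nonneg (a0 * b0)]
  have hx0 : a0 * b1 = 0 := by
    rw [hu0] at hx
    have : (a0 * b1) ^ 2 = 0 := by nlinarith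
    exact pow_eq_zero_iff (two_ne_zero) |>.mp this
  have hy0 : a1 * b0 = 0 := by rw [hu0, hx0] at hs; linarith
  have hz0 : a1 * b1 = 0 := by rw [← hu, hu0]
  by_cases h : b0 = 0 ∧ b1 = 0
  · exact Or.inr h
  · left
    rcases not_and_or.mp h with h | h
    · exact ⟨(mul_eq_zero.mp hu0).resolve_right h, (mul_eq_zero.mp hy0).resolve_right h⟩
    · exact ⟨(mul_eq_zero.mp hx0).resolve_right h, (mul_eq_zero.mp hz0).resolve_right h⟩

theorem f0_pos (p : ℝ × ℝ) (hp : p ∈ g.U) : 0 < g.f0 p := by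
  unfold Geo.f0
  exact Real.rpow_pos_of_pos (Finset.prod_pos fun i _ => hp i) _

/-- the two basis vectors give independent values of `(ℓ₀, ℓ₁)` -/
theorem det_ell (p : ℝ × ℝ) (hp : p ∈ g.U) :
    g.ell 0 p (1, 0) * g.ell 1 p (0, 1) - g.ell 1 p (1, 0) * g.ell 0 p (0, 1) ≠ 0 := by
  intro h
  have e00 : g.ell 0 p (1, 0) = A g 0 p := by rw [ell_eq]; simp
  have e01 : g.ell 0 p (0, 1) = B g 0 p := by rw [ell_eq]; simp
  have e10 : g.ell 1 p (1, 0) = A g 1 p := by rw [ell_eq]; simp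
  have e11 : g.ell 1 p (0, 1) = B g 1 p := by rw [ell_eq]; simp
  rw [e00, e01, e10, e11] at h
  by_cases hz : A g 0 p = 0 ∧ B g 0 p = 0
  · -- then ℓ₀ = 0 identically; take a vector killed by ℓ₁
    by_cases hy : A g 1 p = 0 ∧ B g 1 p = 0
    · have := ker2 g p (1, 0) hp (by rw [ell_eq, hz.1, hz.2]; simp) (by rw [ell_eq, hy.1, hy.2]; simp)
      simp [Prod.ext_iff] at this
    · have := ker2 g p (B g 1 p, -A g 1 p) hp (by rw [ell_eq, hz.1, hz.2]; simp) (by rw [ell_eq]; ring)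
      simp only [Prod.ext_iff, Prod.fst_zero, Prod.snd_zero, neg_eq_zero] at this
      exact hy ⟨this.2, this.1⟩
  · have := ker2 g p (B g 0 p, -A g 0 p) hp (by rw [ell_eq]; ring) (by rw [ell_eq]; linarith)
    simp only [Prod.ext_iff, Prod.fst_zero, Prod.snd_zero, neg_eq_zero] at this
    exact hz ⟨this.2, this.1⟩

theorem f3_ker (p k z : ℝ × ℝ) (hp : p ∈ g.U) (h1 : g.f3 p k z (1, 0) = 0) (h2 : g.f3 p k z (0, 1) = 0) :
    k = 0 ∨ z = 0 := by
  have hf := f0_pos g p hp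
  rw [f3_eq] at h1 h2
  have hf' : -(2 / 81) * g.f0 p ≠ 0 := by
    apply ne_of_lt; linarith
  have h1' := (mul_eq_zero.mp h1).resolve_left hf'
  have h2' := (mul_eq_zero.mp h2).resolve_left hf'
  have s1 := ell_sum g p (1, 0)
  have s2 := ell_sum g p (0, 1)
  have hk := ell_sum g p k
  have hz := ell_sum g p z
  have hd := det_ell g p hp
  generalize g.ell 0 p (1, 0) = u0 at *
  generalize g.ell 1 p (1, 0) = u1 at *
  generalize g.ell 2 p (1, 0) = u2 at *
  generalize g.ell 0 p (0, 1) = v0 at *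
  generalize g.ell 1 p (0, 1) = v1 at *
  generalize g.ell 2 p (0, 1) = v2 at *
  have eu : u2 = -u0 - u1 := by linarith
  have ev : v2 = -v0 - v1 := by linarith
  subst eu ev
  -- c₀, c₁, c₂
  have key := alg (g.ell 0 p k) (g.ell 1 p k) (g.ell 2 p k) (g.ell 0 p z) (g.ell 1 p z) (g.ell 2 p z) hk hz
  generalize hc0 : g.ell 1 p k * g.ell 2 p z + g.ell 2 p k * g.ell 1 p z = c0 at key
  generalize hc1 : g.ell 0 p k * g.ell 2 p z + g.ell 2 p k * g.ell 0 p z = c1 at key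
  generalize hc2 : g.ell 0 p k * g.ell 1 p z + g.ell 1 p k * g.ell 0 p z = c2 at key
  have q1 : (c0 - c2) * u0 + (c1 - c2) * u1 = 0 := by
    rw [← hc0, ← hc1, ← hc2]; linarith
  have q2 : (c0 - c2) * v0 + (c1 - c2) * v1 = 0 := by
    rw [← hc0, ← hc1, ← hc2]; linarith
  have r1 : (c0 - c2) * (u0 * v1 - u1 * v0) = 0 := by
    have : (c0 - c2) * (u0 * v1 - u1 * v0) = v1 * ((c0 - c2) * u0 + (c1 - c2) * u1)
      - u1 * ((c0 - c2) * v0 + (c1 - c2) * v1) := by ring
    rw [this, q1, q2]; ring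
  have r2 : (c1 - c2) * (u0 * v1 - u1 * v0) = 0 := by
    have : (c1 - c2) * (u0 * v1 - u1 * v0) = u0 * ((c0 - c2) * v0 + (c1 - c2) * v1)
      - v0 * ((c0 - c2) * u0 + (c1 - c2) * u1) := by ring
    rw [this, q1, q2]; ring
  have t1 := (mul_eq_zero.mp r1).resolve_right hd
  have t2 := (mul_eq_zero.mp r2).resolve_right hd
  rcases key (by linarith) (by linarith) with h | h
  · exact Or.inl (ker2 g p k hp h.1 h.2)
  · exact Or.inr (ker2 g p z hp h.1 h.2)

theorem pos_min {X : Type*} [TopologicalSpace X] {K : Set X} (hK : IsCompact K) {f : X → ℝ}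
    (hf : ContinuousOn f K) (hpos : ∀ x ∈ K, 0 < f x) : ∃ c : ℝ, 0 < c ∧ ∀ x ∈ K, c ≤ f x := by
  rcases K.eq_empty_or_nonempty with h | h
  · exact ⟨1, one_pos, by simp [h]⟩
  · obtain ⟨x, hx, hm⟩ := hK.exists_isMinOn h hf
    exact ⟨f x, hpos x hx, fun y hy => hm hy⟩

theorem cont_om (i : Fin 3) : Continuous (g.om i) := by
  unfold Geo.om
  fun_prop

theorem isOpen_U : IsOpen g.U := by
  have : g.U = ⋂ i, {p | 0 < g.om i p} := by
    ext p; simp [Geo.U]
  rw [this]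
  exact isOpen_iInter_of_finite fun i => isOpen_lt continuous_const (cont_om g i)

theorem cont_A (i : Fin 3) : ContinuousOn (A g i) g.U := by
  unfold A
  apply ContinuousOn.sub
  · apply continuousOn_finsetSum
    intro j _
    exact continuousOn_const.div (cont_om g j).continuousOn (fun p hp => ne_of_gt (hp j))
  · exact continuousOn_const.mul
      (continuousOn_const.div (cont_om g i).continuousOn (fun p hp => ne_of_gt (hp i)))

theorem cont_B (i : Fin 3) : ContinuousOn (B g i) g.U := by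
  unfold B
  apply ContinuousOn.sub
  · apply continuousOn_finsetSum
    intro j _
    exact continuousOn_const.div (cont_om g j).continuousOn (fun p hp => ne_of_gt (hp j))
  · exact continuousOn_const.mul
      (continuousOn_const.div (cont_om g i).continuousOn (fun p hp => ne_of_gt (hp i)))

theorem cont_f0 : Continuous g.f0 := by
  unfold Geo.f0
  apply Continuous.rpow_const
  · exact continuous_finsetProd _ fun i _ => cont_om g i
  · intro p; right; norm_num

theorem cont_ell {Y : Type*} [TopologicalSpace Y] (i : Fin 3) (P K : Y → ℝ × ℝ) (S : Set Y)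
    (hP : ContinuousOn P S) (hK : ContinuousOn K S) (hS : ∀ y ∈ S, P y ∈ g.U) :
    ContinuousOn (fun y => g.ell i (P y) (K y)) S := by
  simp only [ell_eq]
  apply ContinuousOn.add
  · exact ((cont_A g i).comp hP hS).mul (continuous_fst.comp_continuousOn hK)
  · exact ((cont_B g i).comp hP hS).mul (continuous_snd.comp_continuousOn hK)

theorem cont_f3 {Y : Type*} [TopologicalSpace Y] (P K Z : Y → ℝ × ℝ) (w : ℝ × ℝ) (S : Set Y)
    (hP : ContinuousOn P S) (hK : ContinuousOn K S) (hZ : ContinuousOn Z S) (hS : ∀ y ∈ S, P y ∈ g.U) :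
    ContinuousOn (fun y => g.f3 (P y) (K y) (Z y) w) S := by
  simp only [f3_eq]
  have c := fun i => cont_ell g i P K S hP hK hS
  have c' := fun i => cont_ell g i P Z S hP hZ hS
  have c'' := fun i => cont_ell g i P (fun _ => w) S hP continuousOn_const hS
  have c0 : ContinuousOn (fun y => g.f0 (P y)) S := (cont_f0 g).comp_continuousOn hP
  exact (continuousOn_const.mul c0).mul
    ((((c 0).mul (((c' 1).mul (c'' 2)).add ((c' 2).mul (c'' 1)))).add
      ((c 1).mul (((c' 0).mul (c'' 2)).add ((c' 2).mul (c'' 0))))).add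
      ((c 2).mul (((c' 0).mul (c'' 1)).add ((c' 1).mul (c'' 0)))))

end NdAux

open NdAux

theorem nd (g : Geo) (ps : ℝ × ℝ) (hps : ps ∈ g.U) : ∃ d c C : ℝ, 0 < d ∧ 0 < c ∧ 0 < C ∧
    (∀ p, ‖p - ps‖ ≤ d → p ∈ g.U) ∧
    (∀ p k z, ‖p - ps‖ ≤ d → c * ‖k‖ * ‖z‖ ≤ max |g.f3 p k z (1, 0)| |g.f3 p k z (0, 1)|) ∧
    (∀ p k, g.f3 p k k k = -(4 / 27) * g.f0 p * (g.ell 0 p k * g.ell 1 p k * g.ell 2 p k)) ∧
    (∀ p k, g.ell 0 p k + g.ell 1 p k + g.ell 2 p k = 0) ∧
    (∀ p k, ‖p - ps‖ ≤ d → ∀ i j : Fin 3, i ≠ j → c * ‖k‖ ≤ max |g.ell i p k| |g.ell j p k|) ∧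
    (∀ p, ‖p - ps‖ ≤ d → ∀ i : Fin 3, ∃ A B : ℝ, (∀ k, g.ell i p k = A * k.1 + B * k.2) ∧
      c ≤ max |A| |B| ∧ |A| ≤ C ∧ |B| ≤ C) ∧
    (∀ p, ‖p - ps‖ ≤ d → c ≤ g.f0 p) := by
  obtain ⟨d, hd, hdU⟩ := Metric.nhds_basis_closedBall.mem_iff.mp ((isOpen_U g).mem_nhds hps)
  have hball : ∀ p, ‖p - ps‖ ≤ d → p ∈ g.U := fun p hp => hdU (by rw [Metric.mem_closedBall, dist_eq_norm]; exact hp)
  have hcb : IsCompact (Metric.closedBall ps d) := isCompact_closedBall ps d
  have hsp : IsCompact (Metric.sphere (0 : ℝ × ℝ) 1) := isCompact_sphere 0 1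
  -- f0
  obtain ⟨c1, hc1, hc1'⟩ := pos_min hcb (cont_f0 g).continuousOn (fun p hp => f0_pos g p (hdU hp))
  -- sum of |ℓ|
  obtain ⟨c2, hc2, hc2'⟩ := pos_min (hcb.prod hsp)
    (f := fun y : (ℝ × ℝ) × (ℝ × ℝ) => |g.ell 0 y.1 y.2| + |g.ell 1 y.1 y.2| + |g.ell 2 y.1 y.2|)
    (by
      have c := fun i => (cont_ell g i (fun y : (ℝ × ℝ) × (ℝ × ℝ) => y.1) (fun y => y.2)
        (Metric.closedBall ps d ×ˢ Metric.sphere (0 : ℝ × ℝ) 1) continuousOn_fst continuousOn_snd
        (fun y hy => hdU hy.1)).abs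
      exact ((c 0).add (c 1)).add (c 2))
    (by
      rintro ⟨p, k⟩ ⟨hp, hk⟩
      have hk1 : k ≠ 0 := by
        rintro rfl
        simp at hk
      simp only
      by_contra hcon
      push Not at hcon
      have a0 := abs_nonneg (g.ell 0 p k)
      have a1 := abs_nonneg (g.ell 1 p k)
      have a2 := abs_nonneg (g.ell 2 p k)
      exact hk1 (ker2 g p k (hdU hp) (abs_eq_zero.mp (by linarith)) (abs_eq_zero.mp (by linarith))))
  -- f3
  obtain ⟨c3, hc3, hc3'⟩ := pos_min (hcb.prod (hsp.prod hsp))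
    (f := fun y : (ℝ × ℝ) × ((ℝ × ℝ) × (ℝ × ℝ)) =>
      max |g.f3 y.1 y.2.1 y.2.2 (1, 0)| |g.f3 y.1 y.2.1 y.2.2 (0, 1)|)
    (by
      have c := fun w => (cont_f3 g (fun y : (ℝ × ℝ) × ((ℝ × ℝ) × (ℝ × ℝ)) => y.1) (fun y => y.2.1)
        (fun y => y.2.2) w
        (Metric.closedBall ps d ×ˢ (Metric.sphere (0 : ℝ × ℝ) 1 ×ˢ Metric.sphere (0 : ℝ × ℝ) 1))
        (by fun_prop) (by fun_prop) (by fun_prop)
        (fun y hy => hdU hy.1)).abs
      exact (c (1, 0)).sup (c (0, 1)))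
    (by
      rintro ⟨p, k, z⟩ ⟨hp, hk, hz⟩
      have hk1 : k ≠ 0 := by
        rintro rfl
        simp at hk
      have hz1 : z ≠ 0 := by
        rintro rfl
        simp at hz
      simp only
      rw [lt_max_iff]
      by_contra hcon
      push Not at hcon
      rcases f3_ker g p k z (hdU hp) (abs_nonpos_iff.mp hcon.1) (abs_nonpos_iff.mp hcon.2) with h | h
      · exact hk1 h
      · exact hz1 h)
  -- bound for A, B
  obtain ⟨C, hC⟩ := hcb.exists_bound_of_continuousOn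
    (f := fun p => ∑ i, (|A g i p| + |B g i p|))
    (by
      apply continuousOn_finsetSum
      intro i _
      exact (((cont_A g i).mono hdU).abs).add (((cont_B g i).mono hdU).abs))
  have hell : ∀ p k, ‖p - ps‖ ≤ d → ∀ i j : Fin 3, i ≠ j → c2 / 4 * ‖k‖ ≤ max |g.ell i p k| |g.ell j p k| := by
    intro p k hp i j hij
    by_cases hk : k = 0
    · subst hk
      simp
    · have hk0 : 0 < ‖k‖ := norm_pos_iff.mpr hk
      have h1 := hc2' (p, ‖k‖⁻¹ • k) ⟨by rw [Metric.mem_closedBall, dist_eq_norm]; exact hp,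
        by simp [norm_smul, hk0.ne']⟩
      simp only [ell_smul, abs_mul, abs_inv, abs_norm] at h1
      have hs := ell_sum g p k
      have h2 : c2 * ‖k‖ ≤ |g.ell 0 p k| + |g.ell 1 p k| + |g.ell 2 p k| := by
        have := mul_le_mul_of_nonneg_right h1 hk0.le
        have e : (‖k‖⁻¹ * |g.ell 0 p k| + ‖k‖⁻¹ * |g.ell 1 p k| + ‖k‖⁻¹ * |g.ell 2 p k|) * ‖k‖
          = |g.ell 0 p k| + |g.ell 1 p k| + |g.ell 2 p k| := by
          field_simp
        linarith
      have key : ∀ a b c : ℝ, a + b + c = 0 → |a| + |b| + |c| ≤ 4 * max |a| |b| := by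
        intro a b c h
        have hc : |c| ≤ |a| + |b| := by
          have : c = -(a + b) := by linarith
          rw [this, abs_neg]; exact abs_add_le a b
        have := le_max_left |a| |b|
        have := le_max_right |a| |b|
        linarith
      have h3 : |g.ell 0 p k| + |g.ell 1 p k| + |g.ell 2 p k| ≤ 4 * max |g.ell i p k| |g.ell j p k| := by
        fin_cases i <;> fin_cases j <;> simp only [Fin.mk_zero, Fin.mk_one, Fin.reduceFinMk, Fin.zero_eta, ne_eq, not_true_eq_false, Fin.isValue] at hij ⊢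
        · exact key _ _ _ hs
        · have := key (g.ell 0 p k) (g.ell 2 p k) (g.ell 1 p k) (by linarith); linarith
        · have := key (g.ell 1 p k) (g.ell 0 p k) (g.ell 2 p k) (by linarith); linarith
        · have := key (g.ell 1 p k) (g.ell 2 p k) (g.ell 0 p k) (by linarith); linarith
        · have := key (g.ell 2 p k) (g.ell 0 p k) (g.ell 1 p k) (by linarith); linarith
        · have := key (g.ell 2 p k) (g.ell 1 p k) (g.ell 0 p k) (by linarith); linarith
      linarith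
  refine ⟨d, min (min c1 (c2 / 8)) c3, max C 1, hd, by positivity, by positivity, hball, ?_, f3_diag g, ell_sum g, ?_, ?_, ?_⟩
  · intro p k z hp
    by_cases hk : k = 0
    · subst hk; simp
    by_cases hz : z = 0
    · subst hz; simp
    have hk0 : 0 < ‖k‖ := norm_pos_iff.mpr hk
    have hz0 : 0 < ‖z‖ := norm_pos_iff.mpr hz
    have h1 := hc3' (p, ‖k‖⁻¹ • k, ‖z‖⁻¹ • z) ⟨by rw [Metric.mem_closedBall, dist_eq_norm]; exact hp,
        by simp [norm_smul, hk0.ne'], by simp [norm_smul, hz0.ne']⟩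
    simp only [f3_smul, abs_mul, abs_inv, abs_norm] at h1
    have hmin : min (min c1 (c2 / 8)) c3 * ‖k‖ * ‖z‖ ≤ c3 * ‖k‖ * ‖z‖ := by
      gcongr
      exact min_le_right _ _
    refine hmin.trans ?_
    rcases le_max_iff.mp h1 with h | h
    · refine le_trans ?_ (le_max_left _ _)
      have := mul_le_mul_of_nonneg_right h (mul_pos hk0 hz0).le
      have e : ‖k‖⁻¹ * ‖z‖⁻¹ * |g.f3 p k z (1, 0)| * (‖k‖ * ‖z‖) = |g.f3 p k z (1, 0)| := by field_simp
      linarith
    · refine le_trans ?_ (le_max_right _ _)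
      have := mul_le_mul_of_nonneg_right h (mul_pos hk0 hz0).le
      have e : ‖k‖⁻¹ * ‖z‖⁻¹ * |g.f3 p k z (0, 1)| * (‖k‖ * ‖z‖) = |g.f3 p k z (0, 1)| := by field_simp
      linarith
  · intro p k hp i j hij
    refine le_trans ?_ (hell p k hp i j hij)
    have : min (min c1 (c2 / 8)) c3 ≤ c2 / 4 := by
      have h1 : min (min c1 (c2 / 8)) c3 ≤ c2 / 8 := (min_le_left _ _).trans (min_le_right _ _)
      linarith
    gcongr
  · intro p hp i
    refine ⟨A g i p, B g i p, ell_eq g i p, ?_, ?_, ?_⟩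
    · obtain ⟨j, hij⟩ : ∃ j : Fin 3, i ≠ j := by
        fin_cases i
        · exact ⟨1, by decide⟩
        · exact ⟨0, by decide⟩
        · exact ⟨0, by decide⟩
      have hmain : ∃ k : ℝ × ℝ, k ≠ 0 ∧ g.ell j p k = 0 := by
        by_cases hz : A g j p = 0 ∧ B g j p = 0
        · exact ⟨(1, 0), by simp [Prod.ext_iff], by rw [ell_eq, hz.1, hz.2]; simp⟩
        · refine ⟨(B g j p, -A g j p), ?_, by rw [ell_eq]; ring⟩
          intro h
          simp only [Prod.ext_iff, Prod.fst_zero, Prod.snd_zero, neg_eq_zero] at h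
          exact hz ⟨h.2, h.1⟩
      obtain ⟨k, hk, hkj⟩ := hmain
      have hk0 : 0 < ‖k‖ := norm_pos_iff.mpr hk
      have h1 := hell p k hp i j hij
      rw [hkj, abs_zero, max_eq_left (abs_nonneg _), ell_eq] at h1
      have n1 : |k.1| ≤ ‖k‖ := norm_fst_le k
      have n2 : |k.2| ≤ ‖k‖ := norm_snd_le k
      have h2 : |A g i p * k.1 + B g i p * k.2| ≤ 2 * max |A g i p| |B g i p| * ‖k‖ := by
        refine (abs_add_le _ _).trans ?_
        rw [abs_mul, abs_mul]
        have m1 := le_max_left |A g i p| |B g i p|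
        have m2 := le_max_right |A g i p| |B g i p|
        have q1 : |A g i p| * |k.1| ≤ max |A g i p| |B g i p| * ‖k‖ := by gcongr
        have q2 : |B g i p| * |k.2| ≤ max |A g i p| |B g i p| * ‖k‖ := by gcongr
        linarith
      have h3 : c2 / 4 * ‖k‖ ≤ 2 * max |A g i p| |B g i p| * ‖k‖ := h1.trans h2
      have h4 := le_of_mul_le_mul_right h3 hk0
      have h5 : min (min c1 (c2 / 8)) c3 ≤ c2 / 8 := (min_le_left _ _).trans (min_le_right _ _)
      linarith
    · have h1 := hC p (by rw [Metric.mem_closedBall, dist_eq_norm]; exact hp)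
      have h2 : |A g i p| + |B g i p| ≤ ∑ i, (|A g i p| + |B g i p|) :=
        Finset.single_le_sum (f := fun i => |A g i p| + |B g i p|) (fun i _ => by positivity) (Finset.mem_univ i)
      rw [Real.norm_eq_abs] at h1
      have h3 := le_abs_self (∑ i, (|A g i p| + |B g i p|))
      have h4 := abs_nonneg (B g i p)
      exact le_trans (by linarith) (le_max_left C 1)
    · have h1 := hC p (by rw [Metric.mem_closedBall, dist_eq_norm]; exact hp)
      have h2 : |A g i p| + |B g i p| ≤ ∑ i, (|A g i p| + |B g i p|) :=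
        Finset.single_le_sum (f := fun i => |A g i p| + |B g i p|) (fun i _ => by positivity) (Finset.mem_univ i)
      rw [Real.norm_eq_abs] at h1
      have h3 := le_abs_self (∑ i, (|A g i p| + |B g i p|))
      have h4 := abs_nonneg (A g i p)
      exact le_trans (by linarith) (le_max_left C 1)
  · intro p hp
    refine le_trans ((min_le_left _ _).trans (min_le_left _ _)) (hc1' p ?_)
    rw [Metric.mem_closedBall, dist_eq_norm]; exact hp

end Pool.Agent.Helper19.BD
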