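import Pool.Agent.Helper19.BD.ETaylor
import Pool.Agent.Helper19.BD.ENd

/-!
MP_bd232a_nt, part E, block E04 (injectivity and Lipschitz bound of Hp).
From (T1) with `s = s'`, `q = p`, `R = max(‖p-p'‖, s‖k‖) ≤ d` small and (ND): `|Hp k s p' w - Hp k s p w - f3 p k (p'-p) w| ≤ C R ‖w‖‖k‖‖p'-p‖`,
and `max_w |f3 p k (p'-p) w| ≥ c‖k‖‖p'-p‖`; choose `d` with `2 C d ≤ c/2`. The upper bound is (T1) + `|f3| ≤ C` (E01).
-/

namespace Pool.Agent.Helper19.BD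

theorem inj (g : Geo) (ps : ℝ × ℝ) (hps : ps ∈ g.U) : ∃ d c C : ℝ, 0 < d ∧ 0 < c ∧ 0 < C ∧
    (∀ p, ‖p - ps‖ ≤ d → p ∈ g.U) ∧
    (∀ (k p p' : ℝ × ℝ) (s : ℝ), 0 < s → ‖p - ps‖ ≤ d → ‖p' - ps‖ ≤ d → s * ‖k‖ ≤ d →
      c * ‖k‖ * ‖p' - p‖ ≤ max |g.Hp k s p' (1, 0) - g.Hp k s p (1, 0)| |g.Hp k s p' (0, 1) - g.Hp k s p (0, 1)|) ∧
    (∀ (k w p p' : ℝ × ℝ) (s s' : ℝ), 0 < s → 0 < s' → ‖p - ps‖ ≤ d → ‖p' - ps‖ ≤ d → s * ‖k‖ ≤ d → s' * ‖k‖ ≤ d →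
      |g.Hp k s' p' w - g.Hp k s p w| ≤ C * ‖w‖ * ‖k‖ * (‖p' - p‖ + ‖k‖ * |s' - s|)) := by
  obtain ⟨d₁, C₁, hd₁, hC₁, hU₁, hT1, -, -⟩ := taylor g ps hps
  obtain ⟨d₂, c₂, C₂, hd₂, hc₂, hC₂, -, hND, -⟩ := nd g ps hps
  obtain ⟨d₃, C₃, hd₃, hC₃, -, -, -, -, -, -, hb3, -, -⟩ := jet g ps hps
  set d := min (d₁ / 2) (min d₂ (min d₃ (c₂ / (4 * C₁)))) with hd
  have hdpos : 0 < d := by rw [hd]; positivity
  have hdd₁ : d ≤ d₁ / 2 := min_le_left _ _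
  have hdd₂ : d ≤ d₂ := (min_le_right _ _).trans (min_le_left _ _)
  have hdd₃ : d ≤ d₃ := (min_le_right _ _).trans ((min_le_right _ _).trans (min_le_left _ _))
  have hdc : d ≤ c₂ / (4 * C₁) := (min_le_right _ _).trans ((min_le_right _ _).trans (min_le_right _ _))
  have hdc' : C₁ * (2 * d) ≤ c₂ / 2 := by
    rw [le_div_iff₀ (by positivity)] at hdc
    linarith
  have key : ∀ (k w p p' : ℝ × ℝ) (s s' : ℝ), 0 < s → 0 < s' → ‖p - ps‖ ≤ d → ‖p' - ps‖ ≤ d →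
      s * ‖k‖ ≤ d → s' * ‖k‖ ≤ d →
      |g.Hp k s' p' w - g.Hp k s p w - g.f3 p k (p' - p) w - 1 / 2 * (s' - s) * g.f3 p k k w|
        ≤ C₁ * (2 * d) * ‖w‖ * ‖k‖ * (‖p' - p‖ + ‖k‖ * |s' - s|) := by
    intro k w p p' s s' hs hs' hp hp' hk hk'
    have h1 : ‖p' - p‖ ≤ 2 * d := by
      calc ‖p' - p‖ = ‖(p' - ps) - (p - ps)‖ := by congr 1; abel
        _ ≤ ‖p' - ps‖ + ‖p - ps‖ := norm_sub_le _ _
        _ ≤ 2 * d := by linarith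
    exact hT1 k w p p' p s s' (2 * d) hs hs' (by linarith) (by linarith) (by linarith) (by linarith)
      (by linarith) (by rw [sub_self, norm_zero]; positivity) h1 (by linarith)
  refine ⟨d, c₂ / 2, C₃ + C₁ * (2 * d), hdpos, by positivity, by positivity,
    fun p hp => hU₁ p (by linarith), ?_, ?_⟩
  · intro k p p' s hs hp hp' hk
    have h0 := hND p k (p' - p) (by linarith)
    have hn1 : ‖((1, 0) : ℝ × ℝ)‖ = 1 := by simp [Prod.norm_def]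
    have hn2 : ‖((0, 1) : ℝ × ℝ)‖ = 1 := by simp [Prod.norm_def]
    have hkp : 0 ≤ ‖k‖ * ‖p' - p‖ := by positivity
    have h1 : ∀ w : ℝ × ℝ, ‖w‖ = 1 →
        |g.f3 p k (p' - p) w| ≤ |g.Hp k s p' w - g.Hp k s p w| + c₂ / 2 * (‖k‖ * ‖p' - p‖) := by
      intro w hw
      have h2 := key k w p p' s s hs hs hp hp' hk hk
      rw [hw] at h2
      simp only [sub_self, mul_zero, zero_mul, sub_zero, abs_zero, add_zero, mul_one] at h2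
      have h3 : C₁ * (2 * d) * ‖k‖ * ‖p' - p‖ ≤ c₂ / 2 * (‖k‖ * ‖p' - p‖) := by
        calc C₁ * (2 * d) * ‖k‖ * ‖p' - p‖ = C₁ * (2 * d) * (‖k‖ * ‖p' - p‖) := by ring
          _ ≤ _ := mul_le_mul_of_nonneg_right hdc' hkp
      have h4 : |g.f3 p k (p' - p) w| ≤ |g.Hp k s p' w - g.Hp k s p w| +
          |g.Hp k s p' w - g.Hp k s p w - g.f3 p k (p' - p) w| := by
        calc |g.f3 p k (p' - p) w| = |(g.Hp k s p' w - g.Hp k s p w) -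
              (g.Hp k s p' w - g.Hp k s p w - g.f3 p k (p' - p) w)| := by congr 1; ring
          _ ≤ _ := abs_sub _ _
      linarith
    have h5 := h1 (1, 0) hn1
    have h6 := h1 (0, 1) hn2
    have h7 : max |g.f3 p k (p' - p) (1, 0)| |g.f3 p k (p' - p) (0, 1)| ≤
        max |g.Hp k s p' (1, 0) - g.Hp k s p (1, 0)| |g.Hp k s p' (0, 1) - g.Hp k s p (0, 1)|
          + c₂ / 2 * (‖k‖ * ‖p' - p‖) := by
      refine max_le (h5.trans ?_) (h6.trans ?_)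
      · gcongr; exact le_max_left _ _
      · gcongr; exact le_max_right _ _
    have h8 : c₂ * ‖k‖ * ‖p' - p‖ = c₂ / 2 * ‖k‖ * ‖p' - p‖ + c₂ / 2 * (‖k‖ * ‖p' - p‖) := by ring
    linarith
  · intro k w p p' s s' hs hs' hp hp' hk hk'
    have h1 := key k w p p' s s' hs hs' hp hp' hk hk'
    have h2 := hb3 p k (p' - p) w (by linarith)
    have h3 := hb3 p k k w (by linarith)
    have h4 : |g.Hp k s' p' w - g.Hp k s p w| ≤
        |g.Hp k s' p' w - g.Hp k s p w - g.f3 p k (p' - p) w - 1 / 2 * (s' - s) * g.f3 p k k w|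
          + |g.f3 p k (p' - p) w| + 1 / 2 * |s' - s| * |g.f3 p k k w| := by
      have h5 : g.Hp k s' p' w - g.Hp k s p w =
          (g.Hp k s' p' w - g.Hp k s p w - g.f3 p k (p' - p) w - 1 / 2 * (s' - s) * g.f3 p k k w)
          + g.f3 p k (p' - p) w + 1 / 2 * (s' - s) * g.f3 p k k w := by ring
      calc |g.Hp k s' p' w - g.Hp k s p w| = |(g.Hp k s' p' w - g.Hp k s p w - g.f3 p k (p' - p) w
            - 1 / 2 * (s' - s) * g.f3 p k k w) + g.f3 p k (p' - p) w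
            + 1 / 2 * (s' - s) * g.f3 p k k w| := by rw [← h5]
        _ ≤ |g.Hp k s' p' w - g.Hp k s p w - g.f3 p k (p' - p) w - 1 / 2 * (s' - s) * g.f3 p k k w|
          + |g.f3 p k (p' - p) w| + |1 / 2 * (s' - s) * g.f3 p k k w| := abs_add_three _ _ _
        _ = _ := by rw [abs_mul, abs_mul, abs_of_pos (by norm_num : (0 : ℝ) < 1 / 2)]
    have h6 : 1 / 2 * |s' - s| * |g.f3 p k k w| ≤ 1 / 2 * |s' - s| * (C₃ * ‖k‖ * ‖k‖ * ‖w‖) := by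
      gcongr
    have h7 : 0 ≤ |s' - s| * (C₃ * ‖k‖ * ‖k‖ * ‖w‖) := by positivity
    calc |g.Hp k s' p' w - g.Hp k s p w| ≤ C₁ * (2 * d) * ‖w‖ * ‖k‖ * (‖p' - p‖ + ‖k‖ * |s' - s|)
          + C₃ * ‖k‖ * ‖p' - p‖ * ‖w‖ + |s' - s| * (C₃ * ‖k‖ * ‖k‖ * ‖w‖) := by linarith
      _ = (C₃ + C₁ * (2 * d)) * ‖w‖ * ‖k‖ * (‖p' - p‖ + ‖k‖ * |s' - s|) := by ring

end Pool.Agent.Helper19.BD
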