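import Pool.Agent.Helper19.BD.EDefs

/-!
MP_bd232a_nt, part E, block E01 (Jet). Elementary calculus.
`f0 = (ω₀ω₁ω₂)^{2/3}` and its directional derivatives `f1, f2, f3` (explicit formulas in EDefs).
Proof: choose `d` so small that `ω_i ≥ c > 0` on the closed ball of radius `d` (sup norm). `d/dt ω_i(p+tz) = β_i·z`,
`d/dt t_i(p+tz,k) = - t_i(p,k) t_i(p,z)`; `d/dt f0(p+tz) = f0 * (2/3) T(p,z)` (`Real.rpow` of a positive product);
then the product rule gives `f2`, `f3` exactly (use `ring`/`field_simp` after rewriting sums over `Fin 3` with `Fin.sum_univ_three`).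
Bounds: `|t_i(p,k)| ≤ C ‖k‖`. Lipschitz: `|t_i(p,k)-t_i(q,k)| ≤ C ‖p-q‖ ‖k‖`, `|f0 p - f0 q| ≤ C ‖p-q‖`.
-/

namespace Pool.Agent.Helper19.BD

namespace Jet

/-- `u i` is bounded by `C N i` and is `C N i`-Lipschitz on `S`. -/
def BL {ι : Type} (S : Set (ℝ × ℝ)) (u : ι → ℝ × ℝ → ℝ) (N : ι → ℝ) : Prop :=
  (∀ i, 0 ≤ N i) ∧ ∃ C : ℝ, 0 ≤ C ∧ (∀ i, ∀ p ∈ S, |u i p| ≤ C * N i) ∧
    ∀ i, ∀ p ∈ S, ∀ q ∈ S, |u i p - u i q| ≤ C * N i * ‖p - q‖

theorem BL.add {ι : Type} {S : Set (ℝ × ℝ)} {u v : ι → ℝ × ℝ → ℝ} {N : ι → ℝ}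
    (hu : BL S u N) (hv : BL S v N) : BL S (fun i p => u i p + v i p) N := by
  obtain ⟨hN, C, hC, h1, h2⟩ := hu
  obtain ⟨-, D, hD, k1, k2⟩ := hv
  refine ⟨hN, C + D, by positivity, ?_, ?_⟩
  · intro i p hp
    calc |u i p + v i p| ≤ |u i p| + |v i p| := abs_add_le _ _
      _ ≤ C * N i + D * N i := add_le_add (h1 i p hp) (k1 i p hp)
      _ = (C + D) * N i := by ring
  · intro i p hp q hq
    calc |u i p + v i p - (u i q + v i q)| = |(u i p - u i q) + (v i p - v i q)| := by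
          congr 1; ring
      _ ≤ |u i p - u i q| + |v i p - v i q| := abs_add_le _ _
      _ ≤ C * N i * ‖p - q‖ + D * N i * ‖p - q‖ := add_le_add (h2 i p hp q hq) (k2 i p hp q hq)
      _ = (C + D) * N i * ‖p - q‖ := by ring

theorem BL.cmul {ι : Type} {S : Set (ℝ × ℝ)} {u : ι → ℝ × ℝ → ℝ} {N : ι → ℝ}
    (hu : BL S u N) (c : ℝ) : BL S (fun i p => c * u i p) N := by
  obtain ⟨hN, C, hC, h1, h2⟩ := hu
  refine ⟨hN, |c| * C, by positivity, ?_, ?_⟩
  · intro i p hp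
    rw [abs_mul, mul_assoc]
    exact mul_le_mul_of_nonneg_left (h1 i p hp) (abs_nonneg c)
  · intro i p hp q hq
    rw [← mul_sub, abs_mul, mul_assoc, mul_assoc, ← mul_assoc C]
    exact mul_le_mul_of_nonneg_left (h2 i p hp q hq) (abs_nonneg c)

theorem BL.mul {ι : Type} {S : Set (ℝ × ℝ)} {u v : ι → ℝ × ℝ → ℝ} {N M : ι → ℝ}
    (hu : BL S u N) (hv : BL S v M) : BL S (fun i p => u i p * v i p) (fun i => N i * M i) := by
  obtain ⟨hN, C, hC, h1, h2⟩ := hu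
  obtain ⟨hM, D, hD, k1, k2⟩ := hv
  refine ⟨fun i => mul_nonneg (hN i) (hM i), 2 * (C * D), by positivity, ?_, ?_⟩
  · intro i p hp
    have a := hN i
    have b := hM i
    rw [abs_mul]
    calc |u i p| * |v i p| ≤ (C * N i) * (D * M i) :=
          mul_le_mul (h1 i p hp) (k1 i p hp) (abs_nonneg _) (by positivity)
      _ = C * D * (N i * M i) := by ring
      _ ≤ 2 * (C * D) * (N i * M i) := by
          have : 0 ≤ C * D * (N i * M i) := by positivity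
          linarith
  · intro i p hp q hq
    have a := hN i
    have b := hM i
    calc |u i p * v i p - u i q * v i q| = |(u i p - u i q) * v i p + u i q * (v i p - v i q)| := by
          congr 1; ring
      _ ≤ |(u i p - u i q) * v i p| + |u i q * (v i p - v i q)| := abs_add_le _ _
      _ = |u i p - u i q| * |v i p| + |u i q| * |v i p - v i q| := by rw [abs_mul, abs_mul]
      _ ≤ (C * N i * ‖p - q‖) * (D * M i) + (C * N i) * (D * M i * ‖p - q‖) :=
          add_le_add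
            (mul_le_mul (h2 i p hp q hq) (k1 i p hp) (abs_nonneg _) (by positivity))
            (mul_le_mul (h1 i q hq) (k2 i p hp q hq) (abs_nonneg _) (by positivity))
      _ = 2 * (C * D) * (N i * M i) * ‖p - q‖ := by ring

theorem BL.congr {ι : Type} {S : Set (ℝ × ℝ)} {u v : ι → ℝ × ℝ → ℝ} {N M : ι → ℝ}
    (hu : BL S u N) (h : ∀ i p, v i p = u i p) (h' : ∀ i, M i = N i) : BL S v M := by
  have e1 : v = u := by
    funext i p
    exact h i p
  have e2 : M = N := funext h'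
  rw [e1, e2]
  exact hu

theorem om_line (g : Geo) (i : Fin 3) (p z : ℝ × ℝ) (t : ℝ) :
    g.om i (p + t • z) = g.om i p + t * (g.b1 i * z.1 + g.b2 i * z.2) := by
  simp only [Geo.om, Prod.fst_add, Prod.snd_add, Prod.smul_fst, Prod.smul_snd, smul_eq_mul]
  ring

theorem om_sub (g : Geo) (i : Fin 3) (p q : ℝ × ℝ) :
    g.om i p - g.om i q = g.b1 i * (p - q).1 + g.b2 i * (p - q).2 := by
  simp only [Geo.om, Prod.fst_sub, Prod.snd_sub]
  ring

theorem hasDeriv_om (g : Geo) (i : Fin 3) (p z : ℝ × ℝ) :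
    HasDerivAt (fun t : ℝ => g.om i (p + t • z)) (g.b1 i * z.1 + g.b2 i * z.2) 0 := by
  have h : HasDerivAt (fun t : ℝ => g.om i p + t * (g.b1 i * z.1 + g.b2 i * z.2))
      (1 * (g.b1 i * z.1 + g.b2 i * z.2)) 0 :=
    ((hasDerivAt_id (0 : ℝ)).mul_const _).const_add _
  rw [one_mul] at h
  exact h.congr_of_eventuallyEq (Filter.Eventually.of_forall (fun t => om_line g i p z t))

theorem hasDeriv_tt (g : Geo) (i : Fin 3) (p z k : ℝ × ℝ) (hp : 0 < g.om i p) :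
    HasDerivAt (fun t : ℝ => g.tt i (p + t • z) k) (-(g.tt i p k * g.tt i p z)) 0 := by
  have h0 : g.om i (p + (0 : ℝ) • z) = g.om i p := by simp
  have h := (hasDerivAt_const (0 : ℝ) (g.b1 i * k.1 + g.b2 i * k.2)).div (hasDeriv_om g i p z)
    (by rw [h0]; exact hp.ne')
  refine h.congr_deriv ?_
  rw [h0]
  unfold Geo.tt
  field_simp
  ring

theorem hasDeriv_TT (g : Geo) (p z k : ℝ × ℝ) (hp : p ∈ g.U) :
    HasDerivAt (fun t : ℝ => g.TT (p + t • z) k) (-∑ i, g.tt i p k * g.tt i p z) 0 := by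
  have h := HasDerivAt.fun_sum (u := Finset.univ) (fun (i : Fin 3) _ => hasDeriv_tt g i p z k (hp i))
  rw [Finset.sum_neg_distrib] at h
  exact h

theorem hasDeriv_f0 (g : Geo) (p z : ℝ × ℝ) (hp : p ∈ g.U) :
    HasDerivAt (fun t : ℝ => g.f0 (p + t • z)) (g.f1 p z) 0 := by
  have h0 := hp 0
  have h1 := hp 1
  have h2 := hp 2
  have e0 : p + (0 : ℝ) • z = p := by simp
  have hprod := ((hasDeriv_om g 0 p z).mul (hasDeriv_om g 1 p z)).mul (hasDeriv_om g 2 p z)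
  have hpos : 0 < g.om 0 p * g.om 1 p * g.om 2 p := by positivity
  have h := hprod.rpow_const (p := 2 / 3) (Or.inl (by
    simp only [Pi.mul_apply]
    rw [e0]; exact hpos.ne'))
  have hfun : (fun t : ℝ => g.f0 (p + t • z)) = fun t : ℝ =>
      (g.om 0 (p + t • z) * g.om 1 (p + t • z) * g.om 2 (p + t • z)) ^ (2 / 3 : ℝ) := by
    funext t
    rw [Geo.f0, Fin.prod_univ_three]
  rw [hfun]
  refine h.congr_deriv ?_
  simp only [Pi.mul_apply]
  rw [e0]
  rw [Geo.f1, Geo.f0, Fin.prod_univ_three, Geo.TT, Fin.sum_univ_three, Real.rpow_sub_one hpos.ne']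
  unfold Geo.tt
  field_simp

theorem hasDeriv_f1 (g : Geo) (p z k : ℝ × ℝ) (hp : p ∈ g.U) :
    HasDerivAt (fun t : ℝ => g.f1 (p + t • z) k) (g.f2 p k z) 0 := by
  have e0 : p + (0 : ℝ) • z = p := by simp
  have h := (hasDeriv_f0 g p z hp).mul ((hasDeriv_TT g p z k hp).const_mul (2 / 3))
  refine h.congr_deriv ?_
  rw [e0]
  simp only [Geo.f1, Geo.f2]
  ring

theorem hasDeriv_sum2 (g : Geo) (p z k w : ℝ × ℝ) (hp : p ∈ g.U) :
    HasDerivAt (fun t : ℝ => ∑ i, g.tt i (p + t • z) k * g.tt i (p + t • z) w)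
      (-2 * ∑ i, g.tt i p k * g.tt i p w * g.tt i p z) 0 := by
  have e0 : p + (0 : ℝ) • z = p := by simp
  have h := HasDerivAt.fun_sum (u := Finset.univ)
    (fun (i : Fin 3) _ => (hasDeriv_tt g i p z k (hp i)).mul (hasDeriv_tt g i p z w (hp i)))
  refine h.congr_deriv ?_
  rw [e0, Finset.mul_sum]
  refine Finset.sum_congr rfl (fun i _ => ?_)
  ring

theorem hasDeriv_f2 (g : Geo) (p z k w : ℝ × ℝ) (hp : p ∈ g.U) :
    HasDerivAt (fun t : ℝ => g.f2 (p + t • z) k w) (g.f3 p k w z) 0 := by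
  have e0 : p + (0 : ℝ) • z = p := by simp
  have h := (hasDeriv_f0 g p z hp).mul
    ((((hasDeriv_TT g p z k hp).const_mul (4 / 9)).mul (hasDeriv_TT g p z w hp)).sub
      ((hasDeriv_sum2 g p z k w hp).const_mul (2 / 3)))
  refine h.congr_deriv ?_
  simp only [Pi.sub_apply, Pi.mul_apply]
  rw [e0]
  simp only [Geo.f1, Geo.f3]
  ring

end Jet

open Jet in
theorem jet (g : Geo) (ps : ℝ × ℝ) (hps : ps ∈ g.U) : ∃ d C : ℝ, 0 < d ∧ 0 < C ∧
    (∀ p, ‖p - ps‖ ≤ d → p ∈ g.U) ∧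
    (∀ p z, ‖p - ps‖ ≤ d → HasDerivAt (fun t : ℝ => g.f0 (p + t • z)) (g.f1 p z) 0) ∧
    (∀ p z k, ‖p - ps‖ ≤ d → HasDerivAt (fun t : ℝ => g.f1 (p + t • z) k) (g.f2 p k z) 0) ∧
    (∀ p z k w, ‖p - ps‖ ≤ d → HasDerivAt (fun t : ℝ => g.f2 (p + t • z) k w) (g.f3 p k w z) 0) ∧
    (∀ p k, ‖p - ps‖ ≤ d → |g.f1 p k| ≤ C * ‖k‖) ∧
    (∀ p k w, ‖p - ps‖ ≤ d → |g.f2 p k w| ≤ C * ‖k‖ * ‖w‖) ∧
    (∀ p k w z, ‖p - ps‖ ≤ d → |g.f3 p k w z| ≤ C * ‖k‖ * ‖w‖ * ‖z‖) ∧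
    (∀ p q k w z, ‖p - ps‖ ≤ d → ‖q - ps‖ ≤ d → |g.f3 p k w z - g.f3 q k w z| ≤ C * ‖p - q‖ * ‖k‖ * ‖w‖ * ‖z‖) ∧
    (∀ p, ‖p - ps‖ ≤ d → 1 / C ≤ g.f0 p ∧ g.f0 p ≤ C) := by
  -- constants
  obtain ⟨m, hm0, hm⟩ : ∃ m : ℝ, 0 < m ∧ ∀ i, m ≤ g.om i ps := by
    refine ⟨min (g.om 0 ps) (min (g.om 1 ps) (g.om 2 ps)), ?_, ?_⟩
    · exact lt_min (hps 0) (lt_min (hps 1) (hps 2))
    · intro i
      fin_cases i
      · exact min_le_left _ _
      · exact (min_le_right _ _).trans (min_le_left _ _)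
      · exact (min_le_right _ _).trans (min_le_right _ _)
  obtain ⟨B, hB0, hB⟩ : ∃ B : ℝ, 0 < B ∧ ∀ i, |g.b1 i| + |g.b2 i| ≤ B := by
    refine ⟨1 + ∑ i, (|g.b1 i| + |g.b2 i|), ?_, ?_⟩
    · have : 0 ≤ ∑ i, (|g.b1 i| + |g.b2 i|) := Finset.sum_nonneg (fun i _ => by positivity)
      linarith
    · intro i
      have := Finset.single_le_sum (f := fun i => |g.b1 i| + |g.b2 i|)
        (fun i _ => by positivity) (Finset.mem_univ i)
      linarith
  have hlin : ∀ i (k : ℝ × ℝ), |g.b1 i * k.1 + g.b2 i * k.2| ≤ B * ‖k‖ := by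
    intro i k
    have k1 : |k.1| ≤ ‖k‖ := by
      rw [← Real.norm_eq_abs]
      exact norm_fst_le k
    have k2 : |k.2| ≤ ‖k‖ := by
      rw [← Real.norm_eq_abs]
      exact norm_snd_le k
    calc |g.b1 i * k.1 + g.b2 i * k.2| ≤ |g.b1 i * k.1| + |g.b2 i * k.2| := abs_add_le _ _
      _ = |g.b1 i| * |k.1| + |g.b2 i| * |k.2| := by rw [abs_mul, abs_mul]
      _ ≤ |g.b1 i| * ‖k‖ + |g.b2 i| * ‖k‖ :=
          add_le_add (mul_le_mul_of_nonneg_left k1 (abs_nonneg _))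
            (mul_le_mul_of_nonneg_left k2 (abs_nonneg _))
      _ = (|g.b1 i| + |g.b2 i|) * ‖k‖ := by ring
      _ ≤ B * ‖k‖ := mul_le_mul_of_nonneg_right (hB i) (norm_nonneg _)
  set d : ℝ := m / (2 * B) with hd
  have hd0 : 0 < d := by positivity
  obtain ⟨M, hM0, hM⟩ : ∃ M : ℝ, 0 < M ∧ ∀ i, g.om i ps + m / 2 ≤ M := by
    refine ⟨(∑ i, |g.om i ps|) + m / 2, ?_, ?_⟩
    · have : 0 ≤ ∑ i, |g.om i ps| := Finset.sum_nonneg (fun i _ => abs_nonneg _)
      linarith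
    · intro i
      have := Finset.single_le_sum (f := fun i => |g.om i ps|)
        (fun i _ => abs_nonneg _) (Finset.mem_univ i)
      have h2 := le_abs_self (g.om i ps)
      linarith
  set S : Set (ℝ × ℝ) := Metric.closedBall ps d with hS
  have memS : ∀ p, p ∈ S ↔ ‖p - ps‖ ≤ d := fun p => by rw [hS, Metric.mem_closedBall, dist_eq_norm]
  have hdiff : ∀ p ∈ S, ∀ i, |g.om i p - g.om i ps| ≤ m / 2 := by
    intro p hp i
    rw [om_sub]
    calc |g.b1 i * (p - ps).1 + g.b2 i * (p - ps).2| ≤ B * ‖p - ps‖ := hlin i _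
      _ ≤ B * d := mul_le_mul_of_nonneg_left ((memS p).mp hp) hB0.le
      _ = m / 2 := by rw [hd]; field_simp
  have hlow : ∀ p ∈ S, ∀ i, m / 2 ≤ g.om i p := by
    intro p hp i
    have h1 := abs_le.mp (hdiff p hp i)
    have h2 := hm i
    linarith [h1.1]
  have hup : ∀ p ∈ S, ∀ i, g.om i p ≤ M := by
    intro p hp i
    have h1 := abs_le.mp (hdiff p hp i)
    have h2 := hM i
    linarith [h1.2]
  have hU : ∀ p ∈ S, p ∈ g.U := fun p hp i => lt_of_lt_of_le (by positivity) (hlow p hp i)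
  -- `f0` bounds
  have hf0up : ∀ p ∈ S, g.f0 p ≤ (M ^ 3) ^ (2 / 3 : ℝ) := by
    intro p hp
    rw [Geo.f0]
    apply Real.rpow_le_rpow (Finset.prod_nonneg (fun i _ => (hU p hp i).le)) _ (by norm_num)
    have := Finset.prod_le_prod (s := Finset.univ) (f := fun i => g.om i p) (g := fun _ : Fin 3 => M)
      (fun i _ => (hU p hp i).le) (fun i _ => hup p hp i)
    simpa using this
  have hf0low : ∀ p ∈ S, ((m / 2) ^ 3) ^ (2 / 3 : ℝ) ≤ g.f0 p := by
    intro p hp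
    rw [Geo.f0]
    apply Real.rpow_le_rpow (by positivity) _ (by norm_num)
    have := Finset.prod_le_prod (s := Finset.univ) (f := fun _ : Fin 3 => m / 2)
      (g := fun i => g.om i p) (fun i _ => by positivity) (fun i _ => hlow p hp i)
    rw [Finset.prod_const, Finset.card_univ, Fintype.card_fin] at this
    exact this
  set F : ℝ := (M ^ 3) ^ (2 / 3 : ℝ) with hF
  have hF0 : 0 < F := by positivity
  set G : ℝ := ((m / 2) ^ 3) ^ (2 / 3 : ℝ) with hG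
  have hG0 : 0 < G := by positivity
  have hf0pos : ∀ p ∈ S, 0 ≤ g.f0 p := fun p hp => hG0.le.trans (hf0low p hp)
  -- `tt`
  have htt : ∀ {ι : Type} (i : Fin 3) (k : ι → ℝ × ℝ),
      BL S (fun j p => g.tt i p (k j)) (fun j => ‖k j‖) := by
    intro ι i k
    refine ⟨fun j => norm_nonneg _, B / (m / 2) + B * B / ((m / 2) * (m / 2)), by positivity, ?_, ?_⟩
    · intro j p hp
      have h1 := hlow p hp i
      have h2 := hU p hp i
      change |(g.b1 i * (k j).1 + g.b2 i * (k j).2) / g.om i p| ≤ _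
      rw [abs_div, abs_of_pos h2]
      calc |g.b1 i * (k j).1 + g.b2 i * (k j).2| / g.om i p ≤ (B * ‖k j‖) / (m / 2) :=
            div_le_div₀ (by positivity) (hlin i _) (by positivity) h1
        _ = B / (m / 2) * ‖k j‖ := by ring
        _ ≤ (B / (m / 2) + B * B / ((m / 2) * (m / 2))) * ‖k j‖ := by
            apply mul_le_mul_of_nonneg_right _ (norm_nonneg _)
            have : 0 ≤ B * B / ((m / 2) * (m / 2)) := by positivity
            linarith
    · intro j p hp q hq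
      have h1 := hlow p hp i
      have h2 := hU p hp i
      have h3 := hlow q hq i
      have h4 := hU q hq i
      change |(g.b1 i * (k j).1 + g.b2 i * (k j).2) / g.om i p -
        (g.b1 i * (k j).1 + g.b2 i * (k j).2) / g.om i q| ≤ _
      have e : (g.b1 i * (k j).1 + g.b2 i * (k j).2) / g.om i p -
          (g.b1 i * (k j).1 + g.b2 i * (k j).2) / g.om i q =
          ((g.b1 i * (k j).1 + g.b2 i * (k j).2) * (g.b1 i * (q - p).1 + g.b2 i * (q - p).2)) /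
            (g.om i p * g.om i q) := by
        rw [← om_sub]
        field_simp
      rw [e, abs_div, abs_mul, abs_of_pos (mul_pos h2 h4)]
      calc |g.b1 i * (k j).1 + g.b2 i * (k j).2| * |g.b1 i * (q - p).1 + g.b2 i * (q - p).2| /
            (g.om i p * g.om i q)
          ≤ ((B * ‖k j‖) * (B * ‖q - p‖)) / ((m / 2) * (m / 2)) := by
            apply div_le_div₀ (by positivity) _ (by positivity) _
            · exact mul_le_mul (hlin i _) (hlin i _) (abs_nonneg _) (by positivity)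
            · exact mul_le_mul h1 h3 (by positivity) h2.le
        _ = (B * B / ((m / 2) * (m / 2))) * ‖k j‖ * ‖p - q‖ := by
            rw [norm_sub_rev q p]; ring
        _ ≤ (B / (m / 2) + B * B / ((m / 2) * (m / 2))) * ‖k j‖ * ‖p - q‖ := by
            apply mul_le_mul_of_nonneg_right _ (norm_nonneg _)
            apply mul_le_mul_of_nonneg_right _ (norm_nonneg _)
            have : 0 ≤ B / (m / 2) := by positivity
            linarith
  have hTT : ∀ {ι : Type} (k : ι → ℝ × ℝ), BL S (fun j p => g.TT p (k j)) (fun j => ‖k j‖) := by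
    intro ι k
    refine (((htt 0 k).add (htt 1 k)).add (htt 2 k)).congr ?_ (fun _ => rfl)
    intro j p
    rw [Geo.TT, Fin.sum_univ_three]
  -- bound for `f1`
  have hf1 : ∃ C1 : ℝ, 0 ≤ C1 ∧ ∀ k, ∀ p ∈ S, |g.f1 p k| ≤ C1 * ‖k‖ := by
    obtain ⟨-, C, hC, h1, -⟩ := hTT (fun k : ℝ × ℝ => k)
    refine ⟨F * (2 / 3 * C), by positivity, ?_⟩
    intro k p hp
    rw [Geo.f1, abs_mul, abs_of_nonneg (hf0pos p hp), mul_assoc]
    apply mul_le_mul (hf0up p hp) _ (abs_nonneg _) hF0.le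
    rw [abs_mul, abs_of_pos (by norm_num : (0 : ℝ) < 2 / 3), mul_assoc]
    exact mul_le_mul_of_nonneg_left (h1 k p hp) (by norm_num)
  obtain ⟨C1, hC1, hf1⟩ := hf1
  -- `f0`
  have hf0L : ∀ p ∈ S, ∀ q ∈ S, |g.f0 p - g.f0 q| ≤ C1 * ‖p - q‖ := by
    intro p hp q hq
    have hseg : ∀ t ∈ Set.Icc (0 : ℝ) 1, q + t • (p - q) ∈ S := by
      intro t ht
      have hc : Convex ℝ S := convex_closedBall ps d
      have := hc.add_smul_sub_mem hq hp ht
      simpa using this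
    have hder : ∀ t ∈ Set.Icc (0 : ℝ) 1, HasDerivWithinAt (fun t : ℝ => g.f0 (q + t • (p - q)))
        (g.f1 (q + t • (p - q)) (p - q)) (Set.Icc 0 1) t := by
      intro t ht
      have h := hasDeriv_f0 g (q + t • (p - q)) (p - q) (hU _ (hseg t ht))
      have h2 : HasDerivAt (fun s : ℝ => g.f0 (q + t • (p - q) + (s - t) • (p - q)))
          (g.f1 (q + t • (p - q)) (p - q)) t := by
        have h3 : HasDerivAt (fun s : ℝ => s - t) 1 t := (hasDerivAt_id t).sub_const t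
        have h4 : HasDerivAt (fun t_1 : ℝ => g.f0 (q + t • (p - q) + t_1 • (p - q)))
            (g.f1 (q + t • (p - q)) (p - q)) ((fun s : ℝ => s - t) t) := by
          simpa using h
        have h5 := HasDerivAt.comp (h := fun s : ℝ => s - t) t h4 h3
        rw [mul_one] at h5
        exact h5
      refine (h2.congr_of_eventuallyEq (Filter.Eventually.of_forall (fun s => ?_))).hasDerivWithinAt
      simp only
      congr 1
      rw [add_assoc, ← add_smul]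
      congr 2
      ring
    have := norm_image_sub_le_of_norm_deriv_le_segment_01' hder
      (C := C1 * ‖p - q‖) (fun t ht => by
        rw [Real.norm_eq_abs]
        exact hf1 _ _ (hseg t ⟨ht.1, ht.2.le⟩))
    simpa using this
  have hf0 : ∀ {ι : Type}, BL S (fun (_ : ι) p => g.f0 p) (fun _ => 1) := by
    intro ι
    refine ⟨fun _ => zero_le_one, F + C1, by positivity, ?_, ?_⟩
    · intro _ p hp
      rw [abs_of_nonneg (hf0pos p hp), mul_one]
      linarith [hf0up p hp]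
    · intro _ p hp q hq
      calc |g.f0 p - g.f0 q| ≤ C1 * ‖p - q‖ := hf0L p hp q hq
        _ ≤ (F + C1) * 1 * ‖p - q‖ := by
            apply mul_le_mul_of_nonneg_right _ (norm_nonneg _)
            linarith
  -- `f2`
  have hsum2 : ∀ {ι : Type} (k w : ι → ℝ × ℝ),
      BL S (fun j p => ∑ i, g.tt i p (k j) * g.tt i p (w j)) (fun j => ‖k j‖ * ‖w j‖) := by
    intro ι k w
    refine ((((htt 0 k).mul (htt 0 w)).add ((htt 1 k).mul (htt 1 w))).add
      ((htt 2 k).mul (htt 2 w))).congr ?_ (fun _ => rfl)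
    intro j p
    rw [Fin.sum_univ_three]
  have hf2 : BL S (fun (j : (ℝ × ℝ) × (ℝ × ℝ)) p => g.f2 p j.1 j.2) (fun j => ‖j.1‖ * ‖j.2‖) := by
    refine ((hf0 (ι := (ℝ × ℝ) × (ℝ × ℝ))).mul
      ((((hTT (fun j : (ℝ × ℝ) × (ℝ × ℝ) => j.1)).mul (hTT (fun j => j.2))).cmul (4 / 9)).add
        ((hsum2 (fun j : (ℝ × ℝ) × (ℝ × ℝ) => j.1) (fun j => j.2)).cmul (-(2 / 3))))).congr ?_ ?_
    · intro j p
      rw [Geo.f2]
      ring
    · intro j
      ring
  obtain ⟨-, C2, hC2, hf2, -⟩ := hf2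
  -- `f3`
  have hf3 : BL S (fun (j : (ℝ × ℝ) × (ℝ × ℝ) × (ℝ × ℝ)) p => g.f3 p j.1 j.2.1 j.2.2)
      (fun j => ‖j.1‖ * ‖j.2.1‖ * ‖j.2.2‖) := by
    have a1 := ((hTT (fun j : (ℝ × ℝ) × (ℝ × ℝ) × (ℝ × ℝ) => j.1)).mul (hTT (fun j => j.2.1))).mul
      (hTT (fun j => j.2.2))
    have a2 := ((hTT (fun j : (ℝ × ℝ) × (ℝ × ℝ) × (ℝ × ℝ) => j.1)).mul
      (hsum2 (fun j : (ℝ × ℝ) × (ℝ × ℝ) × (ℝ × ℝ) => j.2.1) (fun j => j.2.2))).congr (M := fun j => ‖j.1‖ * ‖j.2.1‖ * ‖j.2.2‖)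
      (fun _ _ => rfl) (fun j => by ring)
    have a3 := ((hTT (fun j : (ℝ × ℝ) × (ℝ × ℝ) × (ℝ × ℝ) => j.2.1)).mul
      (hsum2 (fun j : (ℝ × ℝ) × (ℝ × ℝ) × (ℝ × ℝ) => j.1) (fun j => j.2.2))).congr (M := fun j => ‖j.1‖ * ‖j.2.1‖ * ‖j.2.2‖)
      (fun _ _ => rfl) (fun j => by ring)
    have a4 := ((hTT (fun j : (ℝ × ℝ) × (ℝ × ℝ) × (ℝ × ℝ) => j.2.2)).mul
      (hsum2 (fun j : (ℝ × ℝ) × (ℝ × ℝ) × (ℝ × ℝ) => j.1) (fun j => j.2.1))).congr (M := fun j => ‖j.1‖ * ‖j.2.1‖ * ‖j.2.2‖)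
      (fun _ _ => rfl) (fun j => by ring)
    have a5 : BL S (fun (j : (ℝ × ℝ) × (ℝ × ℝ) × (ℝ × ℝ)) p =>
        ∑ i, g.tt i p j.1 * g.tt i p j.2.1 * g.tt i p j.2.2)
        (fun j => ‖j.1‖ * ‖j.2.1‖ * ‖j.2.2‖) := by
      have b : ∀ i : Fin 3, BL S (fun (j : (ℝ × ℝ) × (ℝ × ℝ) × (ℝ × ℝ)) p =>
          g.tt i p j.1 * g.tt i p j.2.1 * g.tt i p j.2.2) (fun j => ‖j.1‖ * ‖j.2.1‖ * ‖j.2.2‖) :=
        fun i => ((htt i (fun j : (ℝ × ℝ) × (ℝ × ℝ) × (ℝ × ℝ) => j.1)).mul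
          (htt i (fun j : (ℝ × ℝ) × (ℝ × ℝ) × (ℝ × ℝ) => j.2.1))).mul
          (htt i (fun j : (ℝ × ℝ) × (ℝ × ℝ) × (ℝ × ℝ) => j.2.2))
      refine (((b 0).add (b 1)).add (b 2)).congr ?_ (fun _ => rfl)
      intro j p
      rw [Fin.sum_univ_three]
    refine ((hf0 (ι := (ℝ × ℝ) × (ℝ × ℝ) × (ℝ × ℝ))).mul
      (((a1.cmul (8 / 27)).add (((a2.add a3).add a4).cmul (-(4 / 9)))).add
        (a5.cmul (4 / 3)))).congr ?_ ?_
    · intro j p
      rw [Geo.f3]
      ring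
    · intro j
      ring
  obtain ⟨-, C3, hC3, hf3, hf3L⟩ := hf3
  have hG1 : 0 < 1 / G := by positivity
  refine ⟨d, 1 + C1 + C2 + C3 + F + 1 / G, hd0, by positivity, fun p hp => hU p ((memS p).mpr hp),
    fun p z hp => hasDeriv_f0 g p z (hU p ((memS p).mpr hp)),
    fun p z k hp => hasDeriv_f1 g p z k (hU p ((memS p).mpr hp)),
    fun p z k w hp => hasDeriv_f2 g p z k w (hU p ((memS p).mpr hp)), ?_, ?_, ?_, ?_, ?_⟩
  · intro p k hp
    refine (hf1 k p ((memS p).mpr hp)).trans (mul_le_mul_of_nonneg_right ?_ (norm_nonneg _))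
    linarith
  · intro p k w hp
    refine (hf2 (k, w) p ((memS p).mpr hp)).trans ?_
    rw [mul_assoc]
    refine mul_le_mul_of_nonneg_right ?_ (by positivity)
    linarith
  · intro p k w z hp
    refine (hf3 (k, w, z) p ((memS p).mpr hp)).trans ?_
    have : (1 + C1 + C2 + C3 + F + 1 / G) * ‖k‖ * ‖w‖ * ‖z‖ =
        (1 + C1 + C2 + C3 + F + 1 / G) * (‖k‖ * ‖w‖ * ‖z‖) := by ring
    rw [this]
    refine mul_le_mul_of_nonneg_right ?_ (by positivity)
    linarith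
  · intro p q k w z hp hq
    refine (hf3L (k, w, z) p ((memS p).mpr hp) q ((memS q).mpr hq)).trans ?_
    have : (1 + C1 + C2 + C3 + F + 1 / G) * ‖p - q‖ * ‖k‖ * ‖w‖ * ‖z‖ =
        (1 + C1 + C2 + C3 + F + 1 / G) * (‖k‖ * ‖w‖ * ‖z‖) * ‖p - q‖ := by ring
    rw [this]
    refine mul_le_mul_of_nonneg_right ?_ (norm_nonneg _)
    refine mul_le_mul_of_nonneg_right ?_ (by positivity)
    linarith
  · intro p hp
    have h1 := hf0low p ((memS p).mpr hp)
    have h2 := hf0up p ((memS p).mpr hp)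
    constructor
    · refine le_trans ?_ h1
      rw [div_le_iff₀ (by positivity)]
      have : G * (1 / G) = 1 := by field_simp
      have h3 : 0 ≤ G * (1 + C1 + C2 + C3 + F) := by positivity
      calc (1 : ℝ) = G * (1 / G) := this.symm
        _ ≤ G * (1 + C1 + C2 + C3 + F) + G * (1 / G) := by linarith
        _ = G * (1 + C1 + C2 + C3 + F + 1 / G) := by ring
    · linarith

end Pool.Agent.Helper19.BD
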