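import Pool.Agent.Helper19.BD.ECountZ

/-!
MP_bd232a_nt, part E, block E11. From the level sets (E10) to the sum of `Wt^{-10}`: `Wt ≥ 1`; sort the `n` by `2^l < Wt ≤ 2^{l+1}` (and `Wt ≤ 1`):
`Σ'_n Wt^{-10} ≤ Σ_{l≥0} 2^{-10(l-1)} ncard{Wt ≤ 2^l}`, then exchange the sums; `Σ_l 2^{-10(l-1)} 2^{8l}` converges. Summability of `n ↦ Wt^{-10}`: also to be proved
(e.g. `Wt n ≥ c (1 + |n|)` for fixed other data, or from the same dyadic sums).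
-/

namespace Pool.Agent.Helper19.BD

/-- dyadic summation of the tenth inverse power -/
theorem dyadic_sum {ι : Type*} (W : ι → ℝ) (hW : ∀ n, 1 ≤ W n)
    (hfin : ∀ l : ℕ, {n | W n ≤ 2 ^ l}.Finite)
    (hs : Summable fun l : ℕ => (2 : ℝ) ^ 10 * (1 / 2 ^ 10) ^ l * ({n | W n ≤ 2 ^ l}.ncard : ℝ)) :
    ∑' n, 1 / (W n) ^ 10 ≤
      ∑' l : ℕ, (2 : ℝ) ^ 10 * (1 / 2 ^ 10) ^ l * ({n | W n ≤ 2 ^ l}.ncard : ℝ) := by
  classical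
  have h0 : ∀ l : ℕ, 0 ≤ (2 : ℝ) ^ 10 * (1 / 2 ^ 10) ^ l * ({n | W n ≤ 2 ^ l}.ncard : ℝ) :=
    fun l => by positivity
  refine tsum_le_of_sum_le' (tsum_nonneg h0) fun s => ?_
  -- a bound for the exponents
  have hex : ∀ n, ∃ l : ℕ, W n ≤ 2 ^ l := fun n => pow_unbounded_of_one_lt (W n) (by norm_num : (1:ℝ) < 2)
    |>.imp fun l hl => hl.le
  have hfind : ∀ n, 1 / (W n) ^ 10 ≤ (2 : ℝ) ^ 10 * (1 / 2 ^ 10) ^ (Nat.find (hex n)) := by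
    intro n
    have hpos : 0 < W n := lt_of_lt_of_le one_pos (hW n)
    have hlow : (2 : ℝ) ^ (Nat.find (hex n)) ≤ 2 * W n := by
      rcases Nat.eq_zero_or_pos (Nat.find (hex n)) with h | h
      · rw [h, pow_zero]
        linarith [hW n]
      · obtain ⟨m, hm⟩ := Nat.exists_eq_succ_of_ne_zero h.ne'
        have h2 : ¬ W n ≤ 2 ^ m := Nat.find_min (hex n) (by rw [hm]; exact Nat.lt_succ_self m)
        rw [hm, Nat.succ_eq_add_one, pow_succ]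
        push Not at h2
        linarith
    have h3 : (1 / 2 ^ 10 : ℝ) ^ (Nat.find (hex n)) = 1 / ((2 : ℝ) ^ (Nat.find (hex n))) ^ 10 := by
      rw [div_pow, one_pow, ← pow_mul, ← pow_mul, mul_comm]
    rw [h3, mul_one_div, div_le_div_iff₀ (by positivity) (by positivity), one_mul, ← mul_pow]
    exact pow_le_pow_left₀ (by positivity) hlow 10
  obtain ⟨L, hL⟩ : ∃ L : ℕ, ∀ n ∈ s, Nat.find (hex n) < L :=
    ⟨s.sup (fun n => Nat.find (hex n)) + 1, fun n hn =>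
      Nat.lt_succ_of_le (Finset.le_sup (f := fun n => Nat.find (hex n)) hn)⟩
  calc ∑ n ∈ s, 1 / (W n) ^ 10
      ≤ ∑ n ∈ s, ∑ l ∈ Finset.range L,
          (if W n ≤ 2 ^ l then (2 : ℝ) ^ 10 * (1 / 2 ^ 10) ^ l else 0) := by
        apply Finset.sum_le_sum
        intro n hn
        refine (hfind n).trans ?_
        have h4 := Finset.single_le_sum (s := Finset.range L)
          (f := fun l : ℕ => (if W n ≤ 2 ^ l then (2 : ℝ) ^ 10 * (1 / 2 ^ 10) ^ l else 0))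
          (fun l _ => by
            split_ifs
            · positivity
            · exact le_rfl) (Finset.mem_range.2 (hL n hn))
        rwa [if_pos (Nat.find_spec (hex n))] at h4
    _ = ∑ l ∈ Finset.range L, ∑ n ∈ s,
          (if W n ≤ 2 ^ l then (2 : ℝ) ^ 10 * (1 / 2 ^ 10) ^ l else 0) := Finset.sum_comm
    _ ≤ ∑ l ∈ Finset.range L,
          (2 : ℝ) ^ 10 * (1 / 2 ^ 10) ^ l * ({n | W n ≤ 2 ^ l}.ncard : ℝ) := by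
        apply Finset.sum_le_sum
        intro l _
        rw [← Finset.sum_filter, Finset.sum_const, nsmul_eq_mul, mul_comm]
        apply mul_le_mul_of_nonneg_left _ (by positivity)
        have h5 : ((s.filter fun n => W n ≤ 2 ^ l : Finset ι) : Set ι) ⊆ {n | W n ≤ 2 ^ l} := by
          intro n hn
          exact (Finset.mem_filter.1 (Finset.mem_coe.1 hn)).2
        have h6 := Set.ncard_le_ncard h5 (hfin l)
        rw [Set.ncard_coe_finset] at h6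
        exact_mod_cast h6
    _ ≤ _ := hs.sum_le_tsum _ (fun l _ => h0 l)

theorem one_le_Wt (g : Geo) {κ c₀ X h : ℝ} (hc₀ : 0 < c₀) (hX : 1 ≤ X) (hh : 1 ≤ h) (k : ℝ × ℝ)
    (r : ℝ) (p : ℝ × ℝ) (n : Fin 3 → ℤ) : 1 ≤ Wt g κ c₀ X h k r p n := by
  have h1 : 0 ≤ Lr c₀ X h := by
    unfold Lr
    apply mul_nonneg hc₀.le
    apply le_min (by linarith)
    positivity
  have h2 : 0 ≤ Lt X h := Real.sqrt_nonneg _
  unfold Wt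
  have h3 := mul_nonneg h1 (abs_nonneg (κ * g.Ev k (1 / r) p - (n 0 + n 1 * p.1 + n 2 * p.2)))
  have h4 := mul_nonneg h2 (abs_nonneg (κ * g.Hp k (1 / r) p (1, 0) - n 1))
  have h5 := mul_nonneg h2 (abs_nonneg (κ * g.Hp k (1 / r) p (0, 1) - n 2))
  linarith

theorem sumWt (g : Geo) (ps : ℝ × ℝ) (hps : ps ∈ g.U) : ∃ d : ℝ, 0 < d ∧
    ∀ κ₁ κ₂ c₀ c₁ c₂ : ℝ, 0 < κ₁ → κ₁ ≤ κ₂ → 0 < c₀ → 0 < c₁ → c₁ ≤ c₂ →
    ∃ C X₀ : ℝ, 0 < C ∧ ∀ X h κ : ℝ, Reg X₀ X h → κ₁ ≤ κ → κ ≤ κ₂ →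
    ∑ k ∈ KK h, ∑ i ∈ II c₀ c₁ c₂ X h, ∑ j ∈ JJ ps d X h,
      (∑' n : Fin 3 → ℤ, 1 / (Wt g κ c₀ X h (cst k) (i * Lr c₀ X h) (pj X h j) n) ^ 10)
      ≤ C * h ^ (7 / 2 : ℝ) * (1 + Real.log X) := by
  obtain ⟨d, hd, H⟩ := countZ g ps hps
  refine ⟨d, hd, fun κ₁ κ₂ c₀ c₁ c₂ hκ₁ hκ₂ hc₀ hc₁ hc₂ => ?_⟩
  obtain ⟨C, X₀, hC, H2⟩ := H κ₁ κ₂ c₀ c₁ c₂ hκ₁ hκ₂ hc₀ hc₁ hc₂
  refine ⟨2 ^ 10 * C * (4 / 3), X₀, by positivity, fun X h κ hreg hk1 hk2 => ?_⟩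
  obtain ⟨hX1, hX0, hh1, hh2⟩ := hreg
  set B : ℝ := h ^ (7 / 2 : ℝ) * (1 + Real.log X) with hB
  have hB0 : 0 ≤ B := by
    have := Real.log_nonneg hX1
    positivity
  let Nn : ℤ × ℤ → ℤ → ℤ × ℤ → ℕ → ℝ := fun k i j l =>
    ({n : Fin 3 → ℤ | Wt g κ c₀ X h (cst k) (i * Lr c₀ X h) (pj X h j) n ≤ 2 ^ l}.ncard : ℝ)
  have hN0 : ∀ k i j l, 0 ≤ Nn k i j l := fun k i j l => Nat.cast_nonneg _
  have hNs : ∀ l : ℕ, ∑ k ∈ KK h, ∑ i ∈ II c₀ c₁ c₂ X h, ∑ j ∈ JJ ps d X h, Nn k i j l ≤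
      C * ((2 : ℝ) ^ l) ^ 8 * B := by
    intro l
    have := (H2 X h κ (2 ^ l) ⟨hX1, hX0, hh1, hh2⟩ hk1 hk2 (one_le_pow₀ (by norm_num))).2
    rw [hB, ← mul_assoc]
    exact this
  have hfin : ∀ k ∈ KK h, ∀ i ∈ II c₀ c₁ c₂ X h, ∀ j ∈ JJ ps d X h, ∀ l : ℕ,
      {n : Fin 3 → ℤ | Wt g κ c₀ X h (cst k) (i * Lr c₀ X h) (pj X h j) n ≤ 2 ^ l}.Finite :=
    fun k hk i hi j hj l =>
      (H2 X h κ (2 ^ l) ⟨hX1, hX0, hh1, hh2⟩ hk1 hk2 (one_le_pow₀ (by norm_num))).1 k hk i hi j hj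
  -- the terms of the dyadic sum
  have hterm : ∀ l : ℕ, (2 : ℝ) ^ 10 * (1 / 2 ^ 10) ^ l * (C * ((2 : ℝ) ^ l) ^ 8 * B) =
      2 ^ 10 * C * B * (1 / 4) ^ l := by
    intro l
    have e : (1 / 2 ^ 10 : ℝ) ^ l * ((2 : ℝ) ^ l) ^ 8 = (1 / 4) ^ l := by
      rw [← pow_mul, mul_comm l 8, pow_mul, ← mul_pow]
      norm_num
    calc (2 : ℝ) ^ 10 * (1 / 2 ^ 10) ^ l * (C * ((2 : ℝ) ^ l) ^ 8 * B)
        = 2 ^ 10 * C * B * ((1 / 2 ^ 10 : ℝ) ^ l * ((2 : ℝ) ^ l) ^ 8) := by ring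
      _ = _ := by rw [e]
  have hgeo : HasSum (fun l : ℕ => 2 ^ 10 * C * B * (1 / 4 : ℝ) ^ l) (2 ^ 10 * C * B * (4 / 3)) := by
    have h1 : HasSum (fun l : ℕ => (1 / 4 : ℝ) ^ l) (1 - 1 / 4)⁻¹ :=
      hasSum_geometric_of_lt_one (by norm_num) (by norm_num)
    have e : ((1 : ℝ) - 1 / 4)⁻¹ = 4 / 3 := by norm_num
    rw [e] at h1
    exact h1.mul_left _
  have hsingle : ∀ k ∈ KK h, ∀ i ∈ II c₀ c₁ c₂ X h, ∀ j ∈ JJ ps d X h, ∀ l : ℕ,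
      Nn k i j l ≤ C * ((2 : ℝ) ^ l) ^ 8 * B := by
    intro k hk i hi j hj l
    refine le_trans ?_ (hNs l)
    calc Nn k i j l ≤ ∑ j ∈ JJ ps d X h, Nn k i j l :=
          Finset.single_le_sum (f := fun j => Nn k i j l) (fun j _ => hN0 k i j l) hj
      _ ≤ ∑ i ∈ II c₀ c₁ c₂ X h, ∑ j ∈ JJ ps d X h, Nn k i j l :=
          Finset.single_le_sum (f := fun i => ∑ j ∈ JJ ps d X h, Nn k i j l)
            (fun i _ => Finset.sum_nonneg fun j _ => hN0 k i j l) hi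
      _ ≤ _ := Finset.single_le_sum
            (f := fun k => ∑ i ∈ II c₀ c₁ c₂ X h, ∑ j ∈ JJ ps d X h, Nn k i j l)
            (fun k _ => Finset.sum_nonneg fun i _ => Finset.sum_nonneg fun j _ => hN0 k i j l) hk
  have hsum : ∀ k ∈ KK h, ∀ i ∈ II c₀ c₁ c₂ X h, ∀ j ∈ JJ ps d X h,
      Summable fun l : ℕ => (2 : ℝ) ^ 10 * (1 / 2 ^ 10) ^ l * Nn k i j l := by
    intro k hk i hi j hj
    refine Summable.of_nonneg_of_le (fun l => ?_) (fun l => ?_) hgeo.summable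
    · exact mul_nonneg (by positivity) (hN0 k i j l)
    · rw [← hterm l]
      exact mul_le_mul_of_nonneg_left (hsingle k hk i hi j hj l) (by positivity)
  have hbig : HasSum (fun l : ℕ => ∑ k ∈ KK h, ∑ i ∈ II c₀ c₁ c₂ X h, ∑ j ∈ JJ ps d X h,
      ((2 : ℝ) ^ 10 * (1 / 2 ^ 10) ^ l * Nn k i j l))
      (∑ k ∈ KK h, ∑ i ∈ II c₀ c₁ c₂ X h, ∑ j ∈ JJ ps d X h,
        ∑' l : ℕ, (2 : ℝ) ^ 10 * (1 / 2 ^ 10) ^ l * Nn k i j l) :=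
    hasSum_sum fun k hk => hasSum_sum fun i hi => hasSum_sum fun j hj => (hsum k hk i hi j hj).hasSum
  have hle := hasSum_le (fun l => ?_) hbig hgeo
  · calc ∑ k ∈ KK h, ∑ i ∈ II c₀ c₁ c₂ X h, ∑ j ∈ JJ ps d X h,
        (∑' n : Fin 3 → ℤ, 1 / (Wt g κ c₀ X h (cst k) (i * Lr c₀ X h) (pj X h j) n) ^ 10)
        ≤ ∑ k ∈ KK h, ∑ i ∈ II c₀ c₁ c₂ X h, ∑ j ∈ JJ ps d X h,
          ∑' l : ℕ, (2 : ℝ) ^ 10 * (1 / 2 ^ 10) ^ l * Nn k i j l :=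
          Finset.sum_le_sum fun k hk => Finset.sum_le_sum fun i hi => Finset.sum_le_sum
            fun j hj => dyadic_sum _ (fun n => one_le_Wt g hc₀ hX1 hh1 _ _ _ n)
              (hfin k hk i hi j hj) (hsum k hk i hi j hj)
      _ ≤ 2 ^ 10 * C * B * (4 / 3) := hle
      _ = 2 ^ 10 * C * (4 / 3) * h ^ (7 / 2 : ℝ) * (1 + Real.log X) := by
          rw [hB]
          ring
  · rw [← hterm l]
    have e : ∑ k ∈ KK h, ∑ i ∈ II c₀ c₁ c₂ X h, ∑ j ∈ JJ ps d X h,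
        ((2 : ℝ) ^ 10 * (1 / 2 ^ 10) ^ l * Nn k i j l) =
        (2 : ℝ) ^ 10 * (1 / 2 ^ 10) ^ l *
          ∑ k ∈ KK h, ∑ i ∈ II c₀ c₁ c₂ X h, ∑ j ∈ JJ ps d X h, Nn k i j l := by
      simp only [Finset.mul_sum]
    rw [e]
    exact mul_le_mul_of_nonneg_left (hNs l) (by positivity)

end Pool.Agent.Helper19.BD
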