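import Pool.Agent.Helper19.BD.EDefs

/-!
MP_bd232a_nt, part E, block E17 (Weyl - van der Corput differencing in a plane). `B = {0..H-1}²`; `Σ_y F(y) = H^{-2} Σ_y Σ_{k∈B} F(y+k)`; the inner sum is nonzero for at most
`(2N+1)(4N+1)² ≤ 75 N³` values of `y`. Cauchy-Schwarz, expand the square, substitute `y ↦ y - k'`: `Σ_{k,k'∈B} T(k-k')`, each difference occurs at most `H²` times.
Proof: helper65.
-/

namespace Pool.Agent.Helper19.BD

theorem shz_add_sub (k k' : ℤ × ℤ) : shz k' + shz (k - k') = shz k := by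
  ext i
  fin_cases i <;> simp [shz]

theorem shz_bd (k : ℤ × ℤ) (H : ℕ) (hk : k ∈ Finset.Ico (0 : ℤ) H ×ˢ Finset.Ico (0 : ℤ) H) (i : Fin 3) :
    0 ≤ shz k i ∧ shz k i ≤ H := by
  rw [Finset.mem_product, Finset.mem_Ico, Finset.mem_Ico] at hk
  fin_cases i
  · simp [shz]
  · simp only [shz]; constructor <;> simp <;> omega
  · simp only [shz]; constructor <;> simp <;> omega

theorem weyl (F : (Fin 3 → ℤ) → ℂ) (N : ℝ) (hN : 1 ≤ N) (hF : ∀ y, F y ≠ 0 → ∀ i, |(y i : ℝ)| ≤ N) (H : ℕ) (hH : 1 ≤ H)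
    (hHN : (H : ℝ) ≤ N) :
    ‖∑' y, F y‖ ^ 2 ≤ 75 * N ^ 3 / (H : ℝ) ^ 2 *
      ∑ k ∈ Finset.Ioo (-(H : ℤ)) H ×ˢ Finset.Ioo (-(H : ℤ)) H, ‖∑' y, F (y + shz k) * (starRingEnd ℂ) (F y)‖ := by
  classical
  set B : Finset (ℤ × ℤ) := Finset.Ico (0 : ℤ) H ×ˢ Finset.Ico (0 : ℤ) H with hB
  set D : Finset (ℤ × ℤ) := Finset.Ioo (-(H : ℤ)) H ×ˢ Finset.Ioo (-(H : ℤ)) H with hD
  set T : ℤ × ℤ → ℂ := fun k => ∑' y, F (y + shz k) * (starRingEnd ℂ) (F y) with hT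
  have hBc : (B.card : ℝ) = (H : ℝ) ^ 2 := by
    rw [hB, Finset.card_product]; simp [sq]
  have hHpos : (0 : ℝ) < H := by exact_mod_cast hH
  -- supports
  set Y : Finset (Fin 3 → ℤ) := Fintype.piFinset (fun _ => Finset.Icc (-⌊N⌋ - H) ⌊N⌋) with hY
  have hFY : ∀ k ∈ B, ∀ y, F (y + shz k) ≠ 0 → y ∈ Y := by
    intro k hk y hy
    rw [hY, Fintype.mem_piFinset]
    intro i
    have h1 := hF _ hy i
    have h2 := shz_bd k H hk i
    rw [abs_le] at h1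
    have h3 : (y + shz k) i ≤ ⌊N⌋ := Int.le_floor.mpr h1.2
    have h4 : -⌊N⌋ ≤ (y + shz k) i := by
      have : -(y + shz k) i ≤ ⌊N⌋ := Int.le_floor.mpr (by push_cast; linarith [h1.1])
      linarith
    rw [Pi.add_apply] at h3 h4
    rw [Finset.mem_Icc]
    constructor <;> omega
  have hF0 : ∀ y, F y ≠ 0 → y ∈ Y := by
    intro y hy
    have h0 : ((0 : ℤ), (0 : ℤ)) ∈ B := by
      rw [hB, Finset.mem_product, Finset.mem_Ico]; constructor <;> constructor <;> simp <;> omega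
    apply hFY _ h0
    have : shz ((0 : ℤ), (0 : ℤ)) = 0 := by ext i; fin_cases i <;> simp [shz]
    rw [this, add_zero]; exact hy
  have hsumF : ∀ k ∈ B, Summable (fun y => F (y + shz k)) := by
    intro k hk
    apply summable_of_ne_finset_zero (s := Y)
    intro y hy
    by_contra h
    exact hy (hFY k hk y h)
  -- the averaged function
  set G : (Fin 3 → ℤ) → ℂ := fun y => ∑ k ∈ B, F (y + shz k) with hG
  have hG0 : ∀ y, y ∉ Y → G y = 0 := by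
    intro y hy
    rw [hG]
    apply Finset.sum_eq_zero
    intro k hk
    by_contra h
    exact hy (hFY k hk y h)
  have h1 : (B.card : ℂ) * ∑' y, F y = ∑ y ∈ Y, G y := by
    have e0 : ∑' y, G y = ∑ y ∈ Y, G y := tsum_eq_sum (fun y hy => hG0 y hy)
    have e2 : ∑' y, G y = ∑ k ∈ B, ∑' y, F (y + shz k) := Summable.tsum_finsetSum hsumF
    have e3 : ∀ k ∈ B, ∑' y, F (y + shz k) = ∑' y, F y := fun k _ => (Equiv.addRight (shz k)).tsum_eq F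
    rw [← e0, e2, Finset.sum_congr rfl e3, Finset.sum_const, nsmul_eq_mul]
  -- Cauchy-Schwarz
  have h2 : ‖∑ y ∈ Y, G y‖ ^ 2 ≤ Y.card * ∑ y ∈ Y, ‖G y‖ ^ 2 := by
    calc ‖∑ y ∈ Y, G y‖ ^ 2 ≤ (∑ y ∈ Y, ‖G y‖) ^ 2 := pow_le_pow_left₀ (norm_nonneg _) (norm_sum_le _ _) 2
      _ ≤ Y.card * ∑ y ∈ Y, ‖G y‖ ^ 2 := sq_sum_le_card_mul_sum_sq
  -- expansion of the square
  have h3 : ((∑ y ∈ Y, ‖G y‖ ^ 2 : ℝ) : ℂ) = ∑ k ∈ B, ∑ k' ∈ B, T (k - k') := by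
    have e1 : ((∑ y ∈ Y, ‖G y‖ ^ 2 : ℝ) : ℂ) = ∑ y ∈ Y, ∑ k ∈ B, ∑ k' ∈ B, F (y + shz k) * (starRingEnd ℂ) (F (y + shz k')) := by
      push_cast
      apply Finset.sum_congr rfl
      intro y _
      rw [← Complex.mul_conj', hG]
      simp only [map_sum]
      rw [Finset.sum_mul_sum]
    rw [e1, Finset.sum_comm]
    apply Finset.sum_congr rfl
    intro k hk
    rw [Finset.sum_comm]
    apply Finset.sum_congr rfl
    intro k' hk'
    have e2 : ∑' y, F (y + shz k) * (starRingEnd ℂ) (F (y + shz k')) =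
        ∑ y ∈ Y, F (y + shz k) * (starRingEnd ℂ) (F (y + shz k')) := by
      apply tsum_eq_sum
      intro y hy
      have : F (y + shz k) = 0 := by
        by_contra h
        exact hy (hFY k hk y h)
      rw [this, zero_mul]
    have e3 : ∑' y, (fun y => F (y + shz (k - k')) * (starRingEnd ℂ) (F y)) ((Equiv.addRight (shz k')) y) =
        T (k - k') := (Equiv.addRight (shz k')).tsum_eq (fun y => F (y + shz (k - k')) * (starRingEnd ℂ) (F y))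
    rw [← e2, ← e3]
    apply tsum_congr
    intro y
    simp only [Equiv.coe_addRight]
    rw [add_assoc, shz_add_sub]
  have h4 : ∑ y ∈ Y, ‖G y‖ ^ 2 ≤ (H : ℝ) ^ 2 * ∑ k ∈ D, ‖T k‖ := by
    have e1 : ∑ y ∈ Y, ‖G y‖ ^ 2 = ‖((∑ y ∈ Y, ‖G y‖ ^ 2 : ℝ) : ℂ)‖ := by
      rw [Complex.norm_real, Real.norm_of_nonneg]
      exact Finset.sum_nonneg (fun y _ => sq_nonneg _)
    rw [e1, h3, Finset.sum_comm]
    calc ‖∑ k' ∈ B, ∑ k ∈ B, T (k - k')‖ ≤ ∑ k' ∈ B, ∑ k ∈ B, ‖T (k - k')‖ :=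
          (norm_sum_le _ _).trans (Finset.sum_le_sum (fun k' _ => norm_sum_le _ _))
      _ ≤ ∑ k' ∈ B, ∑ k ∈ D, ‖T k‖ := by
          apply Finset.sum_le_sum
          intro k' hk'
          rw [← Finset.sum_image (f := fun k => ‖T k‖) (g := fun k => k - k') (s := B)]
          · apply Finset.sum_le_sum_of_subset_of_nonneg
            · intro d hd
              rw [Finset.mem_image] at hd
              obtain ⟨k, hk, rfl⟩ := hd
              rw [hB, Finset.mem_product, Finset.mem_Ico, Finset.mem_Ico] at hk hk'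
              rw [hD, Finset.mem_product, Finset.mem_Ioo, Finset.mem_Ioo, Prod.fst_sub, Prod.snd_sub]
              omega
            · intro _ _ _; exact norm_nonneg _
          · intro a _ b _ hab
            exact sub_left_injective hab
      _ = (H : ℝ) ^ 2 * ∑ k ∈ D, ‖T k‖ := by
          rw [Finset.sum_const, nsmul_eq_mul, hBc]
  -- the number of points
  have h5 : (Y.card : ℝ) ≤ 75 * N ^ 3 := by
    have e1 : Y.card = (⌊N⌋ + 1 - (-⌊N⌋ - H)).toNat ^ 3 := by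
      rw [hY, Fintype.card_piFinset]
      simp [Int.card_Icc]
    have hfl : 0 ≤ ⌊N⌋ := Int.floor_nonneg.mpr (by linarith)
    have e2 : (((⌊N⌋ + 1 - (-⌊N⌋ - H)).toNat : ℕ) : ℝ) = 2 * (⌊N⌋ : ℝ) + 1 + H := by
      have : (((⌊N⌋ + 1 - (-⌊N⌋ - H)).toNat : ℕ) : ℤ) = 2 * ⌊N⌋ + 1 + H := by
        rw [Int.toNat_of_nonneg (by omega)]; ring
      exact_mod_cast this
    rw [e1, Nat.cast_pow, e2]
    have e3 : 2 * (⌊N⌋ : ℝ) + 1 + H ≤ 4 * N := by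
      linarith [Int.floor_le N]
    have e4 : 0 ≤ 2 * (⌊N⌋ : ℝ) + 1 + H := by
      have : (0 : ℝ) ≤ ⌊N⌋ := by exact_mod_cast hfl
      positivity
    calc (2 * (⌊N⌋ : ℝ) + 1 + H) ^ 3 ≤ (4 * N) ^ 3 := pow_le_pow_left₀ e4 e3 3
      _ ≤ 75 * N ^ 3 := by nlinarith [pow_pos (by linarith : (0 : ℝ) < N) 3]
  -- conclusion
  have h6 : ((H : ℝ) ^ 2) ^ 2 * ‖∑' y, F y‖ ^ 2 ≤ 75 * N ^ 3 * ((H : ℝ) ^ 2 * ∑ k ∈ D, ‖T k‖) := by
    have e1 : ((H : ℝ) ^ 2) ^ 2 * ‖∑' y, F y‖ ^ 2 = ‖∑ y ∈ Y, G y‖ ^ 2 := by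
      rw [← h1, norm_mul, mul_pow, Complex.norm_natCast, hBc]
    rw [e1]
    have hs : 0 ≤ ∑ y ∈ Y, ‖G y‖ ^ 2 := Finset.sum_nonneg (fun y _ => sq_nonneg _)
    calc ‖∑ y ∈ Y, G y‖ ^ 2 ≤ Y.card * ∑ y ∈ Y, ‖G y‖ ^ 2 := h2
      _ ≤ 75 * N ^ 3 * ∑ y ∈ Y, ‖G y‖ ^ 2 := mul_le_mul_of_nonneg_right h5 hs
      _ ≤ _ := mul_le_mul_of_nonneg_left h4 (mul_nonneg (by norm_num) (pow_nonneg (by linarith) 3))
  have hH2 : (0 : ℝ) < (H : ℝ) ^ 2 := by positivity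
  rw [div_mul_eq_mul_div, le_div_iff₀ hH2]
  have h7 : (H : ℝ) ^ 2 * (‖∑' y, F y‖ ^ 2 * (H : ℝ) ^ 2) ≤ (H : ℝ) ^ 2 * (75 * N ^ 3 * ∑ k ∈ D, ‖T k‖) := by
    calc (H : ℝ) ^ 2 * (‖∑' y, F y‖ ^ 2 * (H : ℝ) ^ 2) = ((H : ℝ) ^ 2) ^ 2 * ‖∑' y, F y‖ ^ 2 := by ring
      _ ≤ 75 * N ^ 3 * ((H : ℝ) ^ 2 * ∑ k ∈ D, ‖T k‖) := h6
      _ = _ := by ring
  exact le_of_mul_le_mul_left h7 hH2

end Pool.Agent.Helper19.BD
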