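import Pool.Agent.Helper19.BD.ETBound
import Pool.Agent.Helper19.BD.EWeyl
import Pool.Agent.Helper19.BD.ESumWt

/-!
MP_bd232a_nt, part E, block E18 (exponents). `H = ⌊X^{11/20}⌋`. `weyl` with `N = C X`. `k = 0`: `|ET 0| ≤ C X³`. For `k ≠ 0` group dyadically: `k ∈ KK (2^l)` for some `l ≥ 0` with `2^l ≤ H`
(sup norm `≥ 1`), `tBound` and `sumWt` give
`Σ_{k∈KK h} |ET k| ≤ C L_r L_t² h^{7/2} (1+log X)`, `L_rL_t² ≤ C (X/h)^{5/2}`, so `≤ C (1+log X) X^{5/2} h`.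
Total: `|S|² ≤ C X³ X^{-11/10}·(X³ + (1+log X) X^{5/2+11/20}) ≤ C X^{4.95} (1+log X)`, `|S| ≤ C X^{2.49}`. For `X` bounded: trivial bound `C X³`.
(`Reg` needs `h ≤ X^{4/7}`: `11/20 < 4/7`.)
-/

open scoped ContDiff

namespace Pool.Agent.Helper19.BD

namespace ELoc

/-- trivial bound -/
theorem tsum_triv {G : (Fin 3 → ℤ) → ℂ} {M N : ℝ} (hM : ∀ y, ‖G y‖ ≤ M) (hN : 0 ≤ N)
    (hG : ∀ y, G y ≠ 0 → ∀ i, |(y i : ℝ)| ≤ N) : ‖∑' y, G y‖ ≤ M * (2 * N + 1) ^ 3 := by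
  classical
  have hM0 : 0 ≤ M := (norm_nonneg _).trans (hM 0)
  set S : Finset (Fin 3 → ℤ) := Fintype.piFinset (fun _ => Finset.Icc (-⌊N⌋) ⌊N⌋) with hS
  have h0 : ∀ y ∉ S, G y = 0 := by
    intro y hy
    by_contra hne
    apply hy
    rw [hS, Fintype.mem_piFinset]
    intro i
    have h1 := hG y hne i
    rw [abs_le] at h1
    rw [Finset.mem_Icc]
    have h2 : y i ≤ ⌊N⌋ := Int.le_floor.2 h1.2
    have h3 : -(y i) ≤ ⌊N⌋ := Int.le_floor.2 (by push_cast; linarith)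
    omega
  rw [tsum_eq_sum h0]
  have hN0 : (0 : ℤ) ≤ ⌊N⌋ := Int.floor_nonneg.2 hN
  have hcard : (S.card : ℝ) ≤ (2 * N + 1) ^ 3 := by
    rw [hS, Fintype.card_piFinset_const]
    push_cast
    have h1 : ((Finset.Icc (-⌊N⌋) ⌊N⌋).card : ℝ) ≤ 2 * N + 1 := by
      rw [Int.card_Icc]
      have h2 : (((⌊N⌋ + 1 - -⌊N⌋).toNat : ℤ) : ℝ) = 2 * (⌊N⌋ : ℝ) + 1 := by
        rw [Int.toNat_of_nonneg (by omega)]
        push_cast; ring
      have h3 : (((⌊N⌋ + 1 - -⌊N⌋).toNat : ℕ) : ℝ) = 2 * (⌊N⌋ : ℝ) + 1 := by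
        rw [← h2]; norm_cast
      rw [h3]
      linarith [Int.floor_le N]
    have h4 : (0 : ℝ) ≤ ((Finset.Icc (-⌊N⌋) ⌊N⌋).card : ℝ) := by positivity
    simpa using pow_le_pow_left₀ h4 h1 3
  calc ‖∑ y ∈ S, G y‖ ≤ ∑ y ∈ S, ‖G y‖ := norm_sum_le _ _
    _ ≤ ∑ _y ∈ S, M := Finset.sum_le_sum fun y _ => hM y
    _ = (S.card : ℝ) * M := by rw [Finset.sum_const, nsmul_eq_mul]
    _ ≤ (2 * N + 1) ^ 3 * M := mul_le_mul_of_nonneg_right hcard hM0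
    _ = _ := by ring

theorem norm_ex (t : ℝ) : ‖ex t‖ = 1 := by
  unfold ex
  rw [show (2 * (Real.pi : ℂ) * Complex.I * (t : ℂ)) = ((2 * Real.pi * t : ℝ) : ℂ) * Complex.I by push_cast; ring]
  exact Complex.norm_exp_ofReal_mul_I _

theorem norm_cst (k : ℤ × ℤ) : ‖cst k‖ = ((max |k.1| |k.2| : ℤ) : ℝ) := by
  unfold cst
  rw [Prod.norm_def]
  push_cast
  rfl

theorem JJ_mono (ps : ℝ × ℝ) {d d' X h : ℝ} (hd : d ≤ d') (ht : 0 < ta X h) : JJ ps d X h ⊆ JJ ps d' X h := by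
  unfold JJ
  refine Finset.product_subset_product ?_ ?_
  all_goals
    refine Finset.Icc_subset_Icc (Int.ceil_le_ceil ?_) (Int.floor_le_floor ?_)
    all_goals
      gcongr

theorem lrlt_le {c₀ X h : ℝ} (hc : 0 < c₀) (hX : 0 < X) (hh : 0 < h) :
    Lr c₀ X h * Lt X h ^ 2 ≤ c₀ * (X / h) ^ (5 / 2 : ℝ) := by
  have hXh : 0 < X / h := by positivity
  unfold Lr Lt
  rw [Real.sq_sqrt hXh.le, mul_assoc]
  refine mul_le_mul_of_nonneg_left ?_ hc.le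
  calc min X ((X / h) ^ (3 / 2 : ℝ)) * (X / h) ≤ (X / h) ^ (3 / 2 : ℝ) * (X / h) :=
        mul_le_mul_of_nonneg_right (min_le_right _ _) hXh.le
    _ = (X / h) ^ (5 / 2 : ℝ) := by
        rw [show (5 / 2 : ℝ) = 3 / 2 + 1 by norm_num, Real.rpow_add hXh, Real.rpow_one]

/-- the bound for the sum over a dyadic range of shifts -/
theorem sum_KK_le {g : Geo} {ps : ℝ × ℝ} {Ψ : (Fin 3 → ℝ) → ℂ} {κ X h d d₂ c₀ c₁ c₂ C₁ C₂ : ℝ} (hX : 1 ≤ X) (hh : 1 ≤ h)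
    (hc₀ : 0 < c₀) (hC₁ : 0 < C₁) (hC₂ : 0 < C₂) (hd : 2 * d ≤ d₂)
    (hT : ∀ k ∈ KK h, ‖ET g Ψ κ X k‖ ≤ C₁ * (Lr c₀ X h * Lt X h ^ 2) *
        ∑ i ∈ II c₀ c₁ c₂ X h, ∑ j ∈ JJ ps (2 * d) X h,
          ∑' n : Fin 3 → ℤ, 1 / (Wt g κ c₀ X h (cst k) (i * Lr c₀ X h) (pj X h j) n) ^ 10)
    (hS : ∑ k ∈ KK h, ∑ i ∈ II c₀ c₁ c₂ X h, ∑ j ∈ JJ ps d₂ X h,
      (∑' n : Fin 3 → ℤ, 1 / (Wt g κ c₀ X h (cst k) (i * Lr c₀ X h) (pj X h j) n) ^ 10)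
      ≤ C₂ * h ^ (7 / 2 : ℝ) * (1 + Real.log X)) :
    ∑ k ∈ KK h, ‖ET g Ψ κ X k‖ ≤ C₁ * c₀ * C₂ * X ^ (5 / 2 : ℝ) * h * (1 + Real.log X) := by
  have hX0 : 0 < X := by linarith
  have hh0 : 0 < h := by linarith
  have hlog : 0 ≤ Real.log X := Real.log_nonneg hX
  have hta : 0 < ta X h := by unfold ta; positivity
  have hW : ∀ (k : ℤ × ℤ) (i : ℤ) (j : ℤ × ℤ) (n : Fin 3 → ℤ),
      0 ≤ 1 / (Wt g κ c₀ X h (cst k) (i * Lr c₀ X h) (pj X h j) n) ^ 10 := by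
    intro k i j n
    have : (0 : ℝ) ≤ (Wt g κ c₀ X h (cst k) (i * Lr c₀ X h) (pj X h j) n) ^ 10 := by
      rw [show (10 : ℕ) = 5 * 2 by norm_num, pow_mul]; positivity
    positivity
  have hLr : 0 ≤ Lr c₀ X h * Lt X h ^ 2 := by
    unfold Lr Lt
    positivity
  calc ∑ k ∈ KK h, ‖ET g Ψ κ X k‖
      ≤ ∑ k ∈ KK h, C₁ * (Lr c₀ X h * Lt X h ^ 2) *
        ∑ i ∈ II c₀ c₁ c₂ X h, ∑ j ∈ JJ ps d₂ X h,
          ∑' n : Fin 3 → ℤ, 1 / (Wt g κ c₀ X h (cst k) (i * Lr c₀ X h) (pj X h j) n) ^ 10 := by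
        refine Finset.sum_le_sum fun k hk => (hT k hk).trans ?_
        refine mul_le_mul_of_nonneg_left ?_ (by positivity)
        refine Finset.sum_le_sum fun i _ => ?_
        refine Finset.sum_le_sum_of_subset_of_nonneg (JJ_mono ps hd hta) fun j _ _ => ?_
        exact tsum_nonneg fun n => hW k i j n
    _ = C₁ * (Lr c₀ X h * Lt X h ^ 2) * ∑ k ∈ KK h, ∑ i ∈ II c₀ c₁ c₂ X h, ∑ j ∈ JJ ps d₂ X h,
          ∑' n : Fin 3 → ℤ, 1 / (Wt g κ c₀ X h (cst k) (i * Lr c₀ X h) (pj X h j) n) ^ 10 := by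
        rw [Finset.mul_sum]
    _ ≤ C₁ * (c₀ * (X / h) ^ (5 / 2 : ℝ)) * (C₂ * h ^ (7 / 2 : ℝ) * (1 + Real.log X)) := by
        refine mul_le_mul (mul_le_mul_of_nonneg_left (lrlt_le hc₀ hX0 hh0) hC₁.le) hS ?_ (by positivity)
        refine Finset.sum_nonneg fun k _ => Finset.sum_nonneg fun i _ => Finset.sum_nonneg fun j _ =>
          tsum_nonneg fun n => hW k i j n
    _ = _ := by
        rw [Real.div_rpow hX0.le hh0.le, show (7 / 2 : ℝ) = 5 / 2 + 1 by norm_num, Real.rpow_add hh0, Real.rpow_one]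
        have : h ^ (5 / 2 : ℝ) ≠ 0 := by positivity
        field_simp

theorem sum_biUnion_le' {ι α : Type*} [DecidableEq α] [DecidableEq ι] (s : Finset ι) (t : ι → Finset α) {f : α → ℝ}
    (hf : ∀ a, 0 ≤ f a) : ∑ a ∈ s.biUnion t, f a ≤ ∑ i ∈ s, ∑ a ∈ t i, f a := by
  induction s using Finset.induction_on with
  | empty => simp
  | insert i s hi ih =>
    rw [Finset.biUnion_insert, Finset.sum_insert hi]
    have h1 := Finset.sum_union_inter (s₁ := t i) (s₂ := s.biUnion t) (f := f)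
    have h2 : 0 ≤ ∑ a ∈ t i ∩ s.biUnion t, f a := Finset.sum_nonneg fun a _ => hf a
    linarith

/-- dyadic decomposition of the square without the origin -/
theorem sum_square_le {f : ℤ × ℤ → ℝ} (hf : ∀ k, 0 ≤ f k) {H : ℕ} (hH : 1 ≤ H) {B : ℝ} (hB : 0 ≤ B)
    (h : ∀ l : ℕ, 2 ^ l ≤ H → ∑ k ∈ KK ((2 : ℝ) ^ l), f k ≤ B * (2 : ℝ) ^ l) :
    ∑ k ∈ Finset.Ioo (-(H : ℤ)) H ×ˢ Finset.Ioo (-(H : ℤ)) H, f k ≤ f 0 + 2 * B * H := by
  classical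
  set L := Nat.log 2 H with hL
  have hsub : Finset.Ioo (-(H : ℤ)) H ×ˢ Finset.Ioo (-(H : ℤ)) H ⊆
      {0} ∪ (Finset.range (L + 1)).biUnion (fun l => KK ((2 : ℝ) ^ l)) := by
    intro k hk
    rw [Finset.mem_product, Finset.mem_Ioo, Finset.mem_Ioo] at hk
    rw [Finset.mem_union, Finset.mem_singleton, Finset.mem_biUnion]
    by_cases hk0 : k = 0
    · exact Or.inl hk0
    right
    set m : ℕ := max k.1.natAbs k.2.natAbs with hm
    have hm1 : m ≠ 0 := by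
      intro h0
      apply hk0
      have h1 : k.1.natAbs ≤ 0 := h0 ▸ le_max_left _ _
      have h2 : k.2.natAbs ≤ 0 := h0 ▸ le_max_right _ _
      ext
      · simp at h1; simpa using h1
      · simp at h2; simpa using h2
    have hmH : m < H := by
      rw [hm, max_lt_iff]
      omega
    have hnorm : ‖cst k‖ = (m : ℝ) := by
      rw [norm_cst, hm]
      have : max |k.1| |k.2| = ((max k.1.natAbs k.2.natAbs : ℕ) : ℤ) := by
        rw [Nat.cast_max, Int.natCast_natAbs, Int.natCast_natAbs]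
      rw [this]; norm_cast
    refine ⟨Nat.log 2 m, ?_, ?_⟩
    · rw [Finset.mem_range]
      have := Nat.log_mono_right (b := 2) hmH.le
      omega
    · have h1 : 2 ^ Nat.log 2 m ≤ m := Nat.pow_log_le_self 2 hm1
      have h2 : m < 2 ^ (Nat.log 2 m + 1) := Nat.lt_pow_succ_log_self (by norm_num) m
      have h1' : (2 : ℝ) ^ Nat.log 2 m ≤ m := by exact_mod_cast h1
      have h2' : (m : ℝ) ≤ 2 * 2 ^ Nat.log 2 m := by
        have : (m : ℝ) < 2 ^ (Nat.log 2 m + 1) := by exact_mod_cast h2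
        rw [pow_succ] at this; linarith
      unfold KK
      rw [Finset.mem_filter, Finset.mem_product, Finset.mem_Icc, Finset.mem_Icc, hnorm]
      refine ⟨?_, h1', h2'⟩
      have h3 : (m : ℤ) ≤ ⌈2 * (2 : ℝ) ^ Nat.log 2 m⌉ := by
        have : ((m : ℤ) : ℝ) ≤ ⌈2 * (2 : ℝ) ^ Nat.log 2 m⌉ := by
          refine le_trans ?_ (Int.le_ceil _)
          exact_mod_cast h2'
        exact_mod_cast this
      have h4 : k.1.natAbs ≤ m := le_max_left _ _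
      have h5 : k.2.natAbs ≤ m := le_max_right _ _
      omega
  calc ∑ k ∈ Finset.Ioo (-(H : ℤ)) H ×ˢ Finset.Ioo (-(H : ℤ)) H, f k
      ≤ ∑ k ∈ {0} ∪ (Finset.range (L + 1)).biUnion (fun l => KK ((2 : ℝ) ^ l)), f k :=
        Finset.sum_le_sum_of_subset_of_nonneg hsub fun k _ _ => hf k
    _ ≤ ∑ k ∈ {0}, f k + ∑ k ∈ (Finset.range (L + 1)).biUnion (fun l => KK ((2 : ℝ) ^ l)), f k := by
        rw [← Finset.sum_union_inter]
        have : 0 ≤ ∑ k ∈ {0} ∩ (Finset.range (L + 1)).biUnion (fun l => KK ((2 : ℝ) ^ l)), f k :=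
          Finset.sum_nonneg fun k _ => hf k
        linarith
    _ ≤ f 0 + ∑ l ∈ Finset.range (L + 1), ∑ k ∈ KK ((2 : ℝ) ^ l), f k := by
        rw [Finset.sum_singleton]
        gcongr
        exact sum_biUnion_le' _ _ hf
    _ ≤ f 0 + ∑ l ∈ Finset.range (L + 1), B * (2 : ℝ) ^ l := by
        gcongr with l hl
        apply h
        rw [Finset.mem_range] at hl
        calc 2 ^ l ≤ 2 ^ L := Nat.pow_le_pow_right (by norm_num) (by omega)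
          _ ≤ H := Nat.pow_log_le_self 2 (by omega)
    _ ≤ f 0 + 2 * B * H := by
        rw [← Finset.mul_sum]
        have h1 : ∑ l ∈ Finset.range (L + 1), (2 : ℝ) ^ l ≤ 2 * H := by
          rw [geom_sum_eq (by norm_num)]
          have h2 : 2 ^ L ≤ H := Nat.pow_log_le_self 2 (by omega)
          have h2' : (2 : ℝ) ^ L ≤ H := by exact_mod_cast h2
          rw [pow_succ]
          linarith
        nlinarith

end ELoc

open ELoc in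
theorem es_local (g : Geo) (ps : ℝ × ℝ) (hps : ps ∈ g.U) : ∃ d : ℝ, 0 < d ∧
    ∀ (κ₁ κ₂ : ℝ) (Ψ : (Fin 3 → ℝ) → ℂ), 0 < κ₁ → κ₁ ≤ κ₂ → ContDiff ℝ ∞ Ψ → HasCompactSupport Ψ →
    tsupport Ψ ⊆ cone ps d → ∃ C : ℝ, ∀ X κ : ℝ, 1 ≤ X → κ₁ ≤ κ → κ ≤ κ₂ →
      ‖ES g Ψ κ X‖ ≤ C * X ^ (249 / 100 : ℝ) := by
  obtain ⟨d₁, hd₁, hT⟩ := tBound g ps hps
  obtain ⟨d₂, hd₂, hS⟩ := sumWt g ps hps
  set d := min d₁ (d₂ / 2) with hd
  have hd0 : 0 < d := lt_min hd₁ (by positivity)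
  have hdd₁ : d ≤ d₁ := min_le_left _ _
  have hdd₂ : 2 * d ≤ d₂ := by have := min_le_right d₁ (d₂ / 2); linarith
  refine ⟨d, hd0, fun κ₁ κ₂ Ψ hκ₁ hκ hΨ hc hs => ?_⟩
  obtain ⟨c₀, c₁, c₂, C₁, X₁, hc₀, hc₁, hc₂, hC₁, hT⟩ := hT d hd0 hdd₁ κ₁ κ₂ Ψ hκ₁ hκ hΨ hc hs
  obtain ⟨C₂, X₂, hC₂, hS⟩ := hS κ₁ κ₂ c₀ c₁ c₂ hκ₁ hκ hc₀ hc₁ hc₂
  -- bounds for `Ψ`
  obtain ⟨M, hM⟩ := hc.exists_bound_of_continuous hΨ.continuous
  have hM0 : 0 ≤ M := (norm_nonneg _).trans (hM 0)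
  obtain ⟨R₀, hR₀⟩ := hc.isBounded.exists_norm_le
  set R := max R₀ 1 with hR
  have hR1 : 1 ≤ R := le_max_right _ _
  have hRs : ∀ x, Ψ x ≠ 0 → ∀ i, |x i| ≤ R := by
    intro x hx i
    have h1 : ‖x‖ ≤ R₀ := hR₀ x (subset_tsupport _ hx)
    exact (norm_le_pi_norm x i).trans (h1.trans (le_max_left _ _))
  set F : ℝ → ℝ → (Fin 3 → ℤ) → ℂ := fun X κ y =>
    Ψ (fun i => (y i : ℝ) / X) * ex (κ * g.phi (fun i => (y i : ℝ))) with hF
  have hFM : ∀ X κ y, ‖F X κ y‖ ≤ M := by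
    intro X κ y
    rw [hF]
    simp only [norm_mul, norm_ex, mul_one]
    exact hM _
  have hFN : ∀ X κ y, 0 < X → F X κ y ≠ 0 → ∀ i, |(y i : ℝ)| ≤ R * X := by
    intro X κ y hX hy i
    rw [hF] at hy
    have h1 := hRs _ (left_ne_zero_of_mul hy) i
    rw [abs_div, abs_of_pos hX, div_le_iff₀ hX] at h1
    exact h1
  set X₀ := max (max X₁ X₂) 1 with hX₀
  have hX₀1 : 1 ≤ X₀ := le_max_right _ _
  -- constants
  set A₁ : ℝ := M ^ 2 * (3 * R) ^ 3 with hA₁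
  set A₂ : ℝ := C₁ * c₀ * C₂ with hA₂
  have hA₁0 : 0 ≤ A₁ := by positivity
  have hA₂0 : 0 ≤ A₂ := by positivity
  set A₃ : ℝ := 75 * (4 * R ^ 3) * (A₁ + 2 * A₂ * (1 + 100 / 3)) with hA₃
  have hA₃0 : 0 ≤ A₃ := by positivity
  refine ⟨√A₃ + M * (3 * R * X₀) ^ 3, fun X κ hX1 hκ1 hκ2 => ?_⟩
  have hX0 : 0 < X := by linarith
  have hXp : 1 ≤ X ^ (249 / 100 : ℝ) := Real.one_le_rpow hX1 (by norm_num)
  rcases lt_or_ge X X₀ with hlt | hge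
  · -- trivial bound
    have h1 : ‖ES g Ψ κ X‖ ≤ M * (2 * (R * X) + 1) ^ 3 :=
      tsum_triv (hFM X κ) (by positivity) (fun y hy => hFN X κ y hX0 hy)
    have h2 : 2 * (R * X) + 1 ≤ 3 * R * X₀ := by nlinarith
    have h3 : M * (2 * (R * X) + 1) ^ 3 ≤ M * (3 * R * X₀) ^ 3 := by gcongr
    have h4 : 0 ≤ M * (3 * R * X₀) ^ 3 := by positivity
    calc ‖ES g Ψ κ X‖ ≤ M * (3 * R * X₀) ^ 3 := h1.trans h3
      _ ≤ M * (3 * R * X₀) ^ 3 * X ^ (249 / 100 : ℝ) := le_mul_of_one_le_right h4 hXp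
      _ ≤ _ := by
        refine mul_le_mul_of_nonneg_right ?_ (by positivity)
        linarith [Real.sqrt_nonneg A₃]
  · have hXX₁ : X₁ ≤ X := le_trans ((le_max_left _ _).trans (le_max_left _ _)) hge
    have hXX₂ : X₂ ≤ X := le_trans ((le_max_right _ _).trans (le_max_left _ _)) hge
    have hlog : 0 ≤ Real.log X := Real.log_nonneg hX1
    set Y : ℝ := X ^ (11 / 20 : ℝ) with hY
    have hY1 : 1 ≤ Y := Real.one_le_rpow hX1 (by norm_num)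
    set H : ℕ := ⌊Y⌋₊ with hH
    have hH1 : 1 ≤ H := Nat.le_floor (by simpa using hY1)
    have hHY : (H : ℝ) ≤ Y := Nat.floor_le (by linarith)
    have hYH : Y ≤ 2 * H := by
      have h1 := Nat.lt_floor_add_one Y
      have h2 : (1 : ℝ) ≤ H := by exact_mod_cast hH1
      linarith
    have hYX : Y ≤ X := by
      calc Y ≤ X ^ (1 : ℝ) := Real.rpow_le_rpow_of_exponent_le hX1 (by norm_num)
        _ = X := Real.rpow_one X
    have hN1 : 1 ≤ R * X := by nlinarith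
    have hHN : (H : ℝ) ≤ R * X := by nlinarith
    have hH0 : (0 : ℝ) < H := by exact_mod_cast hH1
    have hw := weyl (F X κ) (R * X) hN1 (fun y hy => hFN X κ y hX0 hy) H hH1 hHN
    -- the differenced sums
    have hET0 : ‖ET g Ψ κ X 0‖ ≤ A₁ * X ^ 3 := by
      have h1 : ‖ET g Ψ κ X 0‖ ≤ M ^ 2 * (2 * (R * X) + 1) ^ 3 := by
        refine tsum_triv (fun y => ?_) (by positivity) (fun y hy => ?_)
        · have h2 := hFM X κ (y + shz 0)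
          have h3 := hFM X κ y
          calc _ = ‖F X κ (y + shz 0)‖ * ‖F X κ y‖ := by
                rw [hF]
                simp only [norm_mul, RCLike.norm_conj]
            _ ≤ M * M := by gcongr
            _ = M ^ 2 := by ring
        · refine hFN X κ y hX0 ?_
          intro h0
          apply hy
          have h4 : (starRingEnd ℂ) (Ψ (fun i => (y i : ℝ) / X) * ex (κ * g.phi (fun i => (y i : ℝ)))) = 0 := by
            have h5 : Ψ (fun i => (y i : ℝ) / X) * ex (κ * g.phi (fun i => (y i : ℝ))) = 0 := h0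
            rw [h5, map_zero]
          rw [h4, mul_zero]
      refine h1.trans ?_
      rw [hA₁, mul_assoc, ← mul_pow]
      have h2 : 2 * (R * X) + 1 ≤ 3 * R * X := by nlinarith
      gcongr
    have hsum : ∑ k ∈ Finset.Ioo (-(H : ℤ)) H ×ˢ Finset.Ioo (-(H : ℤ)) H, ‖ET g Ψ κ X k‖ ≤
        A₁ * X ^ 3 + 2 * (A₂ * X ^ (5 / 2 : ℝ) * (1 + Real.log X)) * H := by
      have h1 := sum_square_le (f := fun k => ‖ET g Ψ κ X k‖) (fun k => norm_nonneg _) hH1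
        (B := A₂ * X ^ (5 / 2 : ℝ) * (1 + Real.log X)) (by positivity) (fun l hl => ?_)
      · refine h1.trans ?_
        gcongr
      · have hl1 : (1 : ℝ) ≤ 2 ^ l := one_le_pow₀ (by norm_num)
        have hreg : ∀ Z, Z ≤ X → Reg Z X ((2 : ℝ) ^ l) := by
          intro Z hZ
          refine ⟨hX1, hZ, hl1, ?_⟩
          have h2 : ((2 : ℝ) ^ l) ≤ H := by exact_mod_cast hl
          calc (2 : ℝ) ^ l ≤ Y := h2.trans hHY
            _ ≤ X ^ (4 / 7 : ℝ) := Real.rpow_le_rpow_of_exponent_le hX1 (by norm_num)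
        have h2 := sum_KK_le (g := g) (ps := ps) (Ψ := Ψ) (κ := κ) (c₁ := c₁) (c₂ := c₂) hX1 hl1 hc₀ hC₁ hC₂ hdd₂
          (hT X _ κ (hreg X₁ hXX₁) hκ1 hκ2) (hS X _ κ (hreg X₂ hXX₂) hκ1 hκ2)
        refine h2.trans (le_of_eq ?_)
        rw [hA₂]; ring
    -- final computation
    have hlog2 : 1 + Real.log X ≤ (1 + 100 / 3) * X ^ (3 / 100 : ℝ) := by
      have h1 := Real.log_le_rpow_div hX0.le (show (0 : ℝ) < 3 / 100 by norm_num)
      have h2 : 1 ≤ X ^ (3 / 100 : ℝ) := Real.one_le_rpow hX1 (by norm_num)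
      have h3 : X ^ (3 / 100 : ℝ) / (3 / 100) = 100 / 3 * X ^ (3 / 100 : ℝ) := by ring
      rw [h3] at h1
      linarith
    have hH2 : 1 / (H : ℝ) ^ 2 ≤ 4 * X ^ (-(11 / 10) : ℝ) := by
      have h1 : X ^ (-(11 / 10) : ℝ) = 1 / Y ^ 2 := by
        rw [hY, ← Real.rpow_natCast (X ^ (11 / 20 : ℝ)) 2, ← Real.rpow_mul hX0.le, Real.rpow_neg hX0.le, one_div]
        norm_num
      rw [h1, mul_one_div, div_le_div_iff₀ (by positivity) (by positivity)]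
      nlinarith
    have hsq : ‖ES g Ψ κ X‖ ^ 2 ≤ A₃ * X ^ (249 / 50 : ℝ) := by
      have e1 : X ^ 3 * X ^ (-(11 / 10) : ℝ) * X ^ 3 = X ^ (49 / 10 : ℝ) := by
        rw [← Real.rpow_natCast X 3, ← Real.rpow_add hX0, ← Real.rpow_add hX0]; norm_num
      have e2 : X ^ 3 * X ^ (-(11 / 10) : ℝ) * (X ^ (5 / 2 : ℝ) * X ^ (3 / 100 : ℝ) * Y) = X ^ (249 / 50 : ℝ) := by
        rw [hY, ← Real.rpow_natCast X 3, ← Real.rpow_add hX0, ← Real.rpow_add hX0, ← Real.rpow_add hX0,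
          ← Real.rpow_add hX0]
        norm_num
      have e3 : X ^ (49 / 10 : ℝ) ≤ X ^ (249 / 50 : ℝ) := Real.rpow_le_rpow_of_exponent_le hX1 (by norm_num)
      have hin : A₁ * X ^ 3 + 2 * (A₂ * X ^ (5 / 2 : ℝ) * (1 + Real.log X)) * H ≤
          A₁ * X ^ 3 + 2 * A₂ * (1 + 100 / 3) * (X ^ (5 / 2 : ℝ) * X ^ (3 / 100 : ℝ) * Y) := by
        have h5 : 2 * (A₂ * X ^ (5 / 2 : ℝ) * (1 + Real.log X)) * H ≤
            2 * (A₂ * X ^ (5 / 2 : ℝ) * ((1 + 100 / 3) * X ^ (3 / 100 : ℝ))) * Y := by gcongr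
        linarith [h5]
      calc ‖ES g Ψ κ X‖ ^ 2 = ‖∑' y, F X κ y‖ ^ 2 := rfl
        _ ≤ 75 * (R * X) ^ 3 / (H : ℝ) ^ 2 *
            ∑ k ∈ Finset.Ioo (-(H : ℤ)) H ×ˢ Finset.Ioo (-(H : ℤ)) H, ‖ET g Ψ κ X k‖ := hw
        _ ≤ 75 * (R * X) ^ 3 / (H : ℝ) ^ 2 *
            (A₁ * X ^ 3 + 2 * A₂ * (1 + 100 / 3) * (X ^ (5 / 2 : ℝ) * X ^ (3 / 100 : ℝ) * Y)) := by
            gcongr
            exact hsum.trans hin
        _ = 75 * R ^ 3 * (X ^ 3 * (1 / (H : ℝ) ^ 2)) *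
            (A₁ * X ^ 3 + 2 * A₂ * (1 + 100 / 3) * (X ^ (5 / 2 : ℝ) * X ^ (3 / 100 : ℝ) * Y)) := by ring
        _ ≤ 75 * R ^ 3 * (X ^ 3 * (4 * X ^ (-(11 / 10) : ℝ))) *
            (A₁ * X ^ 3 + 2 * A₂ * (1 + 100 / 3) * (X ^ (5 / 2 : ℝ) * X ^ (3 / 100 : ℝ) * Y)) := by
            gcongr
        _ = 75 * (4 * R ^ 3) * (A₁ * (X ^ 3 * X ^ (-(11 / 10) : ℝ) * X ^ 3) +
            2 * A₂ * (1 + 100 / 3) * (X ^ 3 * X ^ (-(11 / 10) : ℝ) * (X ^ (5 / 2 : ℝ) * X ^ (3 / 100 : ℝ) * Y))) := by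
            ring
        _ ≤ 75 * (4 * R ^ 3) * (A₁ * X ^ (249 / 50 : ℝ) + 2 * A₂ * (1 + 100 / 3) * X ^ (249 / 50 : ℝ)) := by
            rw [e1, e2]
            gcongr
        _ = A₃ * X ^ (249 / 50 : ℝ) := by rw [hA₃]; ring
    have hfin : ‖ES g Ψ κ X‖ ≤ √A₃ * X ^ (249 / 100 : ℝ) := by
      refine le_of_sq_le_sq ?_ (by positivity)
      rw [mul_pow, Real.sq_sqrt hA₃0, ← Real.rpow_natCast (X ^ (249 / 100 : ℝ)) 2, ← Real.rpow_mul hX0.le]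
      norm_num at hsq ⊢
      exact hsq
    refine hfin.trans (mul_le_mul_of_nonneg_right ?_ (by positivity))
    have : 0 ≤ M * (3 * R * X₀) ^ 3 := by positivity
    linarith

end Pool.Agent.Helper19.BD
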