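import Pool.Agent.Helper19.BD.EBox

/-!
MP_bd232a_nt, block E-PU: existence of a smooth partition of unity `η` on `ℝ` with support in `(-1,1)` and `Σ_i η(t-i) = 1`.
`η(t) = s(t+1) - s(t)` with the smooth transition function `s` (`s = 0` on `(-∞,0]`, `s = 1` on `[1,∞)`).
-/

open scoped ContDiff

namespace Pool.Agent.Helper19.BD

namespace EPUAux

/-- The partition of unity. -/
noncomputable def puf (t : ℝ) : ℝ := Real.smoothTransition (t + 1) - Real.smoothTransition t

theorem puf_left {t : ℝ} (h : t ≤ 0) : puf t = Real.smoothTransition (t + 1) := by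
  unfold puf
  rw [Real.smoothTransition.zero_of_nonpos h, sub_zero]

theorem puf_right {t : ℝ} (h : 0 ≤ t) : puf t = 1 - Real.smoothTransition t := by
  unfold puf
  rw [Real.smoothTransition.one_of_one_le (by linarith)]

theorem puf_supp {t : ℝ} (h : puf t ≠ 0) : |t| < 1 := by
  by_contra hc
  rw [not_lt, le_abs] at hc
  rcases hc with hc | hc
  · exact h (by rw [puf_right (by linarith), Real.smoothTransition.one_of_one_le hc, sub_self])
  · exact h (by rw [puf_left (by linarith), Real.smoothTransition.zero_of_nonpos (by linarith)])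

theorem puf_sum (t : ℝ) : HasSum (fun i : ℤ => puf (t - i)) 1 := by
  have hz : ∀ i ∉ ({⌊t⌋, ⌊t⌋ + 1} : Finset ℤ), puf (t - i) = 0 := by
    intro i hi
    by_contra hne
    have h := abs_lt.mp (puf_supp hne)
    apply hi
    have h1 : i < ⌊t⌋ + 2 := by
      have : (i : ℝ) < ⌊t⌋ + 2 := by linarith [Int.lt_floor_add_one t]
      exact_mod_cast this
    have h2 : ⌊t⌋ - 1 < i := by
      have : (⌊t⌋ : ℝ) - 1 < i := by linarith [Int.floor_le t]
      exact_mod_cast this
    rw [Finset.mem_insert, Finset.mem_singleton]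
    omega
  have hs : HasSum (fun i : ℤ => puf (t - i)) (∑ i ∈ ({⌊t⌋, ⌊t⌋ + 1} : Finset ℤ), puf (t - i)) :=
    hasSum_sum_of_ne_finset_zero hz
  rw [Finset.sum_pair (by omega)] at hs
  have hf0 : 0 ≤ t - ⌊t⌋ := by linarith [Int.floor_le t]
  have hf1 : t - ((⌊t⌋ + 1 : ℤ) : ℝ) ≤ 0 := by
    push_cast
    linarith [Int.lt_floor_add_one t]
  rw [puf_right hf0, puf_left hf1] at hs
  have e : t - ((⌊t⌋ + 1 : ℤ) : ℝ) + 1 = t - ⌊t⌋ := by
    push_cast
    ring
  rw [e, sub_add_cancel] at hs
  exact hs

end EPUAux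

open EPUAux in
theorem exists_PU : ∃ η : ℝ → ℝ, IsPU η ∧ (∀ t, 0 ≤ η t) ∧ ∀ t, η t ≤ 1 := by
  refine ⟨puf, ⟨?_, fun t ht => puf_supp ht, puf_sum⟩, fun t => ?_, fun t => ?_⟩
  · exact (Real.smoothTransition.contDiff.comp (contDiff_id.add contDiff_const)).sub
      Real.smoothTransition.contDiff
  · rcases le_total t 0 with h | h
    · rw [puf_left h]
      exact Real.smoothTransition.nonneg _
    · rw [puf_right h]
      linarith [Real.smoothTransition.le_one t]
  · rcases le_total t 0 with h | h
    · rw [puf_left h]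
      exact Real.smoothTransition.le_one _
    · rw [puf_right h]
      linarith [Real.smoothTransition.nonneg t]

end Pool.Agent.Helper19.BD
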