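import Pool.Agent.Helper19.BD.EDefs
import Pool.Agent.Helper71.BDA.Pois

/-!
MP_bd232a_nt, block A0 (Poisson summation in `ℝ³`, used by parts A and E). Derived from `Pool.Agent.Helper71.BDA.poisson3`:
a Schwartz function and its Fourier transform decay like `(1 + ‖x‖)^(-4)`. (helper64)
-/

open scoped ContDiff FourierTransform SchwartzMap
open MeasureTheory

namespace Pool.Agent.Helper19.BD

open Pool.Agent.Helper71.BDA (FT ee)

theorem sch_dec {E : Type*} [NormedAddCommGroup E] [NormedSpace ℝ E] (F : SchwartzMap E ℂ) :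
    ∃ C : ℝ, ∀ x, ‖F x‖ ≤ C * (1 + ‖x‖) ^ (-(4 : ℝ)) := by
  refine ⟨2 ^ 4 * (Finset.Iic (4, 0)).sup (fun m => SchwartzMap.seminorm ℂ m.1 m.2) F, fun x => ?_⟩
  have h := SchwartzMap.one_add_le_sup_seminorm_apply (𝕜 := ℂ) (m := (4, 0)) (k := 4) (n := 0) le_rfl le_rfl F x
  rw [norm_iteratedFDeriv_zero] at h
  have h1 : 0 < 1 + ‖x‖ := by positivity
  rw [Real.rpow_neg h1.le, ← div_eq_mul_inv, le_div_iff₀ (by positivity)]
  have h2 : (1 + ‖x‖) ^ (4 : ℝ) = (1 + ‖x‖) ^ 4 := by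
    rw [← Real.rpow_natCast]; norm_num
  rw [h2, mul_comm]
  exact h

theorem ft_eq (F : SchwartzMap (Fin 3 → ℝ) ℂ) (ξ : Fin 3 → ℝ) :
    FT F ξ = 𝓕 (SchwartzMap.compCLMOfContinuousLinearEquiv ℂ (EuclideanSpace.equiv (Fin 3) ℝ) F)
      (WithLp.toLp 2 ξ) := by
  rw [SchwartzMap.fourier_coe, Real.fourier_eq']
  unfold FT
  rw [← (PiLp.volume_preserving_ofLp (Fin 3)).integral_comp
    (MeasurableEquiv.toLp 2 (Fin 3 → ℝ)).symm.measurableEmbedding]
  refine integral_congr_ae (Filter.Eventually.of_forall fun x => ?_)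
  simp only [smul_eq_mul]
  congr 1
  unfold ee
  congr 1
  have h3 : inner ℝ x (WithLp.toLp 2 ξ) = ∑ j, x.ofLp j * ξ j := by
    simp [PiLp.inner_apply, mul_comm]
  rw [h3]
  push_cast
  ring

theorem ft_dec (F : SchwartzMap (Fin 3 → ℝ) ℂ) :
    ∃ C : ℝ, ∀ ξ, ‖FT F ξ‖ ≤ C * (1 + ‖ξ‖) ^ (-(4 : ℝ)) := by
  obtain ⟨C, hC⟩ := sch_dec (𝓕 (SchwartzMap.compCLMOfContinuousLinearEquiv ℂ (EuclideanSpace.equiv (Fin 3) ℝ) F))
  have hC0 : 0 ≤ C := by
    have := (norm_nonneg _).trans (hC 0)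
    simpa using this
  refine ⟨C, fun ξ => ?_⟩
  rw [ft_eq]
  refine (hC _).trans ?_
  refine mul_le_mul_of_nonneg_left ?_ hC0
  refine Real.rpow_le_rpow_of_nonpos (by positivity) ?_ (by norm_num)
  have : ‖ξ‖ ≤ ‖WithLp.toLp 2 ξ‖ := by
    rw [pi_norm_le_iff_of_nonneg (norm_nonneg _)]
    intro i
    exact PiLp.norm_apply_le (WithLp.toLp 2 ξ) i
  linarith

theorem ee_eq (t : ℝ) : ee t = ex t := rfl

theorem poisson3 (F : SchwartzMap (Fin 3 → ℝ) ℂ) :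
    Summable (fun n : Fin 3 → ℤ => ∫ x : Fin 3 → ℝ, F x * ex (-∑ i, (n i : ℝ) * x i)) ∧
    Summable (fun y : Fin 3 → ℤ => F (fun i => (y i : ℝ))) ∧
    ∑' y : Fin 3 → ℤ, F (fun i => (y i : ℝ)) =
      ∑' n : Fin 3 → ℤ, ∫ x : Fin 3 → ℝ, F x * ex (-∑ i, (n i : ℝ) * x i) := by
  obtain ⟨C, hC⟩ := sch_dec F
  obtain ⟨D, hD⟩ := ft_dec F
  have hs := Pool.Agent.Helper71.BDA.summable_int3 (p := 4) (by norm_num)
  have hft : Summable (fun n : Fin 3 → ℤ => ‖FT F (Pool.Agent.Helper71.BDA.cst n)‖) :=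
    Summable.of_nonneg_of_le (fun n => norm_nonneg _) (fun n => hD (Pool.Agent.Helper71.BDA.cst n)) (hs.mul_left D)
  have hfe : ∀ n : Fin 3 → ℤ, FT F (Pool.Agent.Helper71.BDA.cst n) = ∫ x : Fin 3 → ℝ, F x * ex (-∑ i, (n i : ℝ) * x i) := by
    intro n
    unfold FT
    refine integral_congr_ae (Filter.Eventually.of_forall fun x => ?_)
    simp only
    rw [mul_comm, ee_eq]
    congr 3
    refine Finset.sum_congr rfl fun i _ => ?_
    simp [Pool.Agent.Helper71.BDA.cst, mul_comm]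
  have hmain := Pool.Agent.Helper71.BDA.poisson3 F F.continuous (by norm_num : (3 : ℝ) < 4) hC hft 0
  refine ⟨?_, ?_, ?_⟩
  · exact hft.of_norm.congr fun n => hfe n
  · exact Summable.of_norm (Summable.of_nonneg_of_le (fun n => norm_nonneg _) (fun n => hC (Pool.Agent.Helper71.BDA.cst n)) (hs.mul_left C))
  · have h1 := hmain.tsum_eq
    have h2 : ∀ m : Fin 3 → ℤ, F (0 + Pool.Agent.Helper71.BDA.cst m) = F (fun i => (m i : ℝ)) := by
      intro m
      rw [zero_add]; rfl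
    rw [tsum_congr h2] at h1
    rw [← h1]
    refine tsum_congr fun n => ?_
    rw [← hfe n]
    have : ee (∑ j, (0 : Fin 3 → ℝ) j * (n j : ℝ)) = 1 := by
      simp [ee]
    rw [this, mul_one]

end Pool.Agent.Helper19.BD
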