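import Pool.Agent.Helper19.BD.EBox

/-!
MP_bd232a_nt, part E, block E12 (analytic bound for the remainder `Rem`, then Cauchy estimates).
Complexify: `λ_i(z)`, `z ∈ ℂ³`, `φ(z) = ∏ λ_i(z)^{2/3}` (principal `cpow`, `Re λ_i > 0`), `xb` for complex `v`. On `|v_i| ≤ V+2`: `λ_i(xb v) = λ_i(xb 0) + O(L_r + L_t)`,
`λ_i(xb 0) = r ω_i(p) ≥ cX`, `L_r ≤ c₀X` with `c₀` small, `L_t ≤ X^{1/2}`, `‖k‖ ≤ 2X^{4/7}`: so `Re λ_i ≥ cX`, `|λ_i| ≤ CX` on the whole region.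
`Rem(v) = ∫₀¹ (1-t) (d²/dt²) [κ(φ(xb(tv)+k) - φ(xb(tv)))] dt` (the first order part of the Taylor expansion at `v=0` is exactly the `Ev`, `Hp` term: `∂_{v₀}` is the derivative of
`r ↦ κ r² (f0(p+k/r)-f0(p))`, i.e. `κ L_r Ev`, and `∂_{v_1}`: `κ L_t Hp(1,0)`), and the second derivative in the direction `ℓ = xb v - xb 0` (as a vector) equals
`κ ∫₀¹ D³φ(x+θk)[k,ℓ,ℓ] dθ`, `D³φ(x)[a,b,c] = φ(x) C(τ(a),τ(b),τ(c))`, `τ_i(a) = λ_i(a)/λ_i(x)`,
`C(a,b,c) = 8/27 ΣaΣbΣc - 4/9(Σa Σb_ic_i + Σb Σa_ic_i + Σc Σa_ib_i) + 4/3 Σ a_ib_ic_i`, which satisfies `C(·,·,𝟙) = 0`.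
Write `ℓ = α x' + a'` with `x' = xb(tv)`, `α = O(L_r/X)`, `a' = O(L_t)` (`ℓ = L_r v₀ (1,p) + L_t(0,v')`, `x' = (r + tL_rv₀)(1,p) + tL_t(0,v')`), at the base point `x'+θk`:
`τ(x') = 𝟙 - θτ(k)`, so `C(τ(k),τ(ℓ),τ(ℓ)) = C(τ(k), τ(a')-αθτ(k), τ(a')-αθτ(k))`, hence
`|Rem(v)| ≤ C X² (h/X)(L_t/X + (L_r/X)(h/X))² ≤ C (h L_t²/X + h³L_r²/X³) ≤ C`.
`v_i ↦ ex(Rem)` is holomorphic on `|v_i| < V+2` and bounded by `e^{2πC}`: Cauchy (`Complex.norm_iteratedDeriv_le_of_forall_mem_sphere_norm_le`) gives the derivative bounds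
for real `v`.
-/

open scoped ContDiff

namespace Pool.Agent.Helper19.BD

namespace RemAux

/-- `∏ A_i^{2/3}` -/
noncomputable def Qc (A : Fin 3 → ℂ) : ℂ :=
  A 0 ^ (2 / 3 : ℂ) * A 1 ^ (2 / 3 : ℂ) * A 2 ^ (2 / 3 : ℂ)

/-- `DQ(A)[L]` -/
noncomputable def Q1 (A L : Fin 3 → ℂ) : ℂ :=
  Qc A * (2 / 3 * (L 0 / A 0 + L 1 / A 1 + L 2 / A 2))

/-- `D²Q(A)[L,L]` -/
noncomputable def Q2 (A L : Fin 3 → ℂ) : ℂ :=
  Qc A * (4 / 9 * (L 0 / A 0 + L 1 / A 1 + L 2 / A 2) ^ 2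
    - 2 / 3 * ((L 0 / A 0) ^ 2 + (L 1 / A 1) ^ 2 + (L 2 / A 2) ^ 2))

/-- `D³Q(A)[L,L,K]` -/
noncomputable def Q3 (A L K : Fin 3 → ℂ) : ℂ :=
  Qc A * (8 / 27 * (L 0 / A 0 + L 1 / A 1 + L 2 / A 2) ^ 2 * (K 0 / A 0 + K 1 / A 1 + K 2 / A 2)
    - 4 / 9 * (2 * (L 0 / A 0 + L 1 / A 1 + L 2 / A 2) *
          ((L 0 / A 0) * (K 0 / A 0) + (L 1 / A 1) * (K 1 / A 1) + (L 2 / A 2) * (K 2 / A 2))
        + (K 0 / A 0 + K 1 / A 1 + K 2 / A 2) * ((L 0 / A 0) ^ 2 + (L 1 / A 1) ^ 2 + (L 2 / A 2) ^ 2))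
    + 4 / 3 * ((L 0 / A 0) ^ 2 * (K 0 / A 0) + (L 1 / A 1) ^ 2 * (K 1 / A 1)
        + (L 2 / A 2) ^ 2 * (K 2 / A 2)))

theorem hasDerivAt_lin (a b s : ℂ) : HasDerivAt (fun z : ℂ => a + z * b) b s := by
  simpa using ((hasDerivAt_id s).mul_const b).const_add a

theorem hasDerivAt_cp (a b s : ℂ) (h : 0 < (a + s * b).re) :
    HasDerivAt (fun z : ℂ => (a + z * b) ^ (2 / 3 : ℂ))
      ((a + s * b) ^ (2 / 3 : ℂ) * (2 / 3 * (b / (a + s * b)))) s := by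
  have h0 : (a + s * b) ∈ Complex.slitPlane := Or.inl h
  have hne : (a + s * b) ≠ 0 := Complex.slitPlane_ne_zero h0
  have := (hasDerivAt_lin a b s).cpow_const (c := (2 / 3 : ℂ)) h0
  convert this using 1
  rw [Complex.cpow_sub _ _ hne, Complex.cpow_one]
  field_simp

theorem hasDerivAt_Qc (A K : Fin 3 → ℂ) (s : ℂ) (h : ∀ i, 0 < (A i + s * K i).re) :
    HasDerivAt (fun z : ℂ => Qc (fun i => A i + z * K i)) (Q1 (fun i => A i + s * K i) K) s := by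
  have := ((hasDerivAt_cp _ _ _ (h 0)).mul (hasDerivAt_cp _ _ _ (h 1))).mul
    (hasDerivAt_cp _ _ _ (h 2))
  refine this.congr_deriv ?_
  simp only [Q1, Qc, Pi.mul_apply]
  ring

theorem hasDerivAt_div (a b l s : ℂ) (h : 0 < (a + s * b).re) :
    HasDerivAt (fun z : ℂ => l / (a + z * b)) (-(l / (a + s * b)) * (b / (a + s * b))) s := by
  have h0 : (a + s * b) ∈ Complex.slitPlane := Or.inl h
  have hne : (a + s * b) ≠ 0 := Complex.slitPlane_ne_zero h0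
  have := (hasDerivAt_const s l).div (hasDerivAt_lin a b s) hne
  refine this.congr_deriv ?_
  field_simp
  ring

theorem hasDerivAt_Q1 (A K : Fin 3 → ℂ) (s : ℂ) (h : ∀ i, 0 < (A i + s * K i).re) :
    HasDerivAt (fun z : ℂ => Q1 (fun i => A i + z * K i) K) (Q2 (fun i => A i + s * K i) K) s := by
  have h1 := hasDerivAt_Qc A K s h
  have h2 := (((hasDerivAt_div _ _ (K 0) _ (h 0)).add (hasDerivAt_div _ _ (K 1) _ (h 1))).add
    (hasDerivAt_div _ _ (K 2) _ (h 2))).const_mul (2 / 3 : ℂ)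
  have := h1.mul h2
  refine this.congr_deriv ?_
  simp only [Q1, Q2, Pi.add_apply]
  ring

theorem hasDerivAt_Q2 (A L K : Fin 3 → ℂ) (s : ℂ) (h : ∀ i, 0 < (A i + s * K i).re) :
    HasDerivAt (fun z : ℂ => Q2 (fun i => A i + z * K i) L) (Q3 (fun i => A i + s * K i) L K) s := by
  have h1 := hasDerivAt_Qc A K s h
  have d0 := hasDerivAt_div _ _ (L 0) _ (h 0)
  have d1 := hasDerivAt_div _ _ (L 1) _ (h 1)
  have d2 := hasDerivAt_div _ _ (L 2) _ (h 2)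
  have h2 := (((d0.add d1).add d2).pow 2).const_mul (4 / 9 : ℂ)
  have h3 := (((d0.pow 2).add (d1.pow 2)).add (d2.pow 2)).const_mul (2 / 3 : ℂ)
  have := h1.mul (h2.sub h3)
  refine this.congr_deriv ?_
  simp only [Q1, Q3, Pi.add_apply, Pi.sub_apply, Pi.pow_apply]
  push_cast
  ring

theorem norm_Qc (A : Fin 3 → ℂ) (C : ℝ) (h : ∀ i, ‖A i‖ ≤ C) : ‖Qc A‖ ≤ C ^ 2 := by
  have hC : 0 ≤ C := (norm_nonneg _).trans (h 0)
  have e : ∀ i, ‖A i ^ (2 / 3 : ℂ)‖ ≤ C ^ (2 / 3 : ℝ) := by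
    intro i
    have : (2 / 3 : ℂ) = ((2 / 3 : ℝ) : ℂ) := by push_cast; rfl
    rw [this, Complex.norm_cpow_real]
    exact Real.rpow_le_rpow (norm_nonneg _) (h i) (by norm_num)
  have e3 : (C ^ (2 / 3 : ℝ)) ^ 3 = C ^ 2 := by
    rw [← Real.rpow_natCast, ← Real.rpow_mul hC, ← Real.rpow_natCast]; norm_num
  unfold Qc
  rw [norm_mul, norm_mul]
  calc _ ≤ C ^ (2 / 3 : ℝ) * C ^ (2 / 3 : ℝ) * C ^ (2 / 3 : ℝ) := by
        gcongr <;> exact e _
    _ = C ^ 2 := by rw [← e3]; ring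

/-- the third derivative is small in nearly proportional directions -/
theorem norm_Q3 (A L K : Fin 3 → ℂ) (c C ρ σ : ℝ) (hc : 0 < c) (hA : ∀ i, c ≤ ‖A i‖)
    (hC : ∀ i, ‖A i‖ ≤ C) (α : ℂ) (hL : ∀ i, ‖L i - α * A i‖ ≤ ρ) (hK : ∀ i, ‖K i‖ ≤ σ) :
    ‖Q3 A L K‖ ≤ 24 * C ^ 2 * ((σ / c) * (ρ / c) ^ 2) := by
  have hne : ∀ i, A i ≠ 0 := fun i => by
    have := hA i; rw [← norm_pos_iff]; linarith
  have hρ : 0 ≤ ρ := (norm_nonneg _).trans (hL 0)
  have hσ : 0 ≤ σ := (norm_nonneg _).trans (hK 0)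
  set x : Fin 3 → ℂ := fun i => (L i - α * A i) / A i with hx
  set y : Fin 3 → ℂ := fun i => K i / A i with hy
  have hxn : ∀ i, ‖x i‖ ≤ ρ / c := by
    intro i
    simp only [hx]
    rw [norm_div]
    exact div_le_div₀ hρ (hL i) hc (hA i)
  have hyn : ∀ i, ‖y i‖ ≤ σ / c := by
    intro i
    simp only [hy]
    rw [norm_div]
    exact div_le_div₀ hσ (hK i) hc (hA i)
  have hLx : ∀ i, L i / A i = α + x i := by
    intro i; simp only [hx]; field_simp [hne i]; ring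
  have hKy : ∀ i, K i / A i = y i := fun i => rfl
  have key : Q3 A L K = Qc A * (8 / 27 * (x 0 + x 1 + x 2) ^ 2 * (y 0 + y 1 + y 2)
      - 4 / 9 * (2 * (x 0 + x 1 + x 2) * (x 0 * y 0 + x 1 * y 1 + x 2 * y 2)
        + (y 0 + y 1 + y 2) * (x 0 ^ 2 + x 1 ^ 2 + x 2 ^ 2))
      + 4 / 3 * (x 0 ^ 2 * y 0 + x 1 ^ 2 * y 1 + x 2 ^ 2 * y 2)) := by
    unfold Q3
    simp only [hLx, hKy]
    ring
  rw [key, norm_mul]
  set R := ρ / c with hR
  set S := σ / c with hS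
  have hR0 : 0 ≤ R := by positivity
  have hS0 : 0 ≤ S := by positivity
  have sx : ‖x 0 + x 1 + x 2‖ ≤ 3 * R := by
    calc _ ≤ ‖x 0‖ + ‖x 1‖ + ‖x 2‖ := norm_add₃_le
      _ ≤ R + R + R := by gcongr <;> exact hxn _
      _ = _ := by ring
  have sy : ‖y 0 + y 1 + y 2‖ ≤ 3 * S := by
    calc _ ≤ ‖y 0‖ + ‖y 1‖ + ‖y 2‖ := norm_add₃_le
      _ ≤ S + S + S := by gcongr <;> exact hyn _
      _ = _ := by ring
  have sxy : ‖x 0 * y 0 + x 1 * y 1 + x 2 * y 2‖ ≤ 3 * (R * S) := by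
    calc _ ≤ ‖x 0 * y 0‖ + ‖x 1 * y 1‖ + ‖x 2 * y 2‖ := norm_add₃_le
      _ ≤ R * S + R * S + R * S := by
        simp only [norm_mul]
        gcongr <;> first | exact hxn _ | exact hyn _
      _ = _ := by ring
  have sxx : ‖x 0 ^ 2 + x 1 ^ 2 + x 2 ^ 2‖ ≤ 3 * R ^ 2 := by
    calc _ ≤ ‖x 0 ^ 2‖ + ‖x 1 ^ 2‖ + ‖x 2 ^ 2‖ := norm_add₃_le
      _ ≤ R ^ 2 + R ^ 2 + R ^ 2 := by
        simp only [norm_pow]
        gcongr <;> exact hxn _
      _ = _ := by ring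
  have sxxy : ‖x 0 ^ 2 * y 0 + x 1 ^ 2 * y 1 + x 2 ^ 2 * y 2‖ ≤ 3 * (R ^ 2 * S) := by
    calc _ ≤ ‖x 0 ^ 2 * y 0‖ + ‖x 1 ^ 2 * y 1‖ + ‖x 2 ^ 2 * y 2‖ := norm_add₃_le
      _ ≤ R ^ 2 * S + R ^ 2 * S + R ^ 2 * S := by
        simp only [norm_mul, norm_pow]
        gcongr <;> first | exact hxn _ | exact hyn _
      _ = _ := by ring
  have t1 : ‖8 / 27 * (x 0 + x 1 + x 2) ^ 2 * (y 0 + y 1 + y 2)‖ ≤ 8 / 27 * (3 * R) ^ 2 * (3 * S) := by
    rw [norm_mul, norm_mul, norm_pow]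
    have : ‖(8 / 27 : ℂ)‖ = 8 / 27 := by norm_num
    rw [this]
    gcongr
  have t2 : ‖4 / 9 * (2 * (x 0 + x 1 + x 2) * (x 0 * y 0 + x 1 * y 1 + x 2 * y 2)
        + (y 0 + y 1 + y 2) * (x 0 ^ 2 + x 1 ^ 2 + x 2 ^ 2))‖
        ≤ 4 / 9 * (2 * (3 * R) * (3 * (R * S)) + 3 * S * (3 * R ^ 2)) := by
    rw [norm_mul]
    have : ‖(4 / 9 : ℂ)‖ = 4 / 9 := by norm_num
    rw [this]
    gcongr
    refine (norm_add_le _ _).trans ?_
    rw [norm_mul, norm_mul, norm_mul]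
    have : ‖(2 : ℂ)‖ = 2 := by norm_num
    rw [this]
    gcongr
  have t3 : ‖4 / 3 * (x 0 ^ 2 * y 0 + x 1 ^ 2 * y 1 + x 2 ^ 2 * y 2)‖ ≤ 4 / 3 * (3 * (R ^ 2 * S)) := by
    rw [norm_mul]
    have : ‖(4 / 3 : ℂ)‖ = 4 / 3 := by norm_num
    rw [this]
    gcongr
  have hC0 : 0 ≤ C := (norm_nonneg _).trans (hC 0)
  calc _ ≤ C ^ 2 * (8 / 27 * (3 * R) ^ 2 * (3 * S) + 4 / 9 * (2 * (3 * R) * (3 * (R * S)) + 3 * S * (3 * R ^ 2))
        + 4 / 3 * (3 * (R ^ 2 * S))) := by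
        refine mul_le_mul (norm_Qc A C hC) ?_ (norm_nonneg _) (by positivity)
        refine (norm_add_le _ _).trans ?_
        refine add_le_add ((norm_sub_le _ _).trans (add_le_add t1 t2)) t3
    _ = 24 * C ^ 2 * (S * R ^ 2) := by ring

theorem key (A L K : Fin 3 → ℂ) (c C ρ σ : ℝ) (hc : 0 < c)
    (hre : ∀ t θ : ℝ, 0 ≤ t → t ≤ 1 → 0 ≤ θ → θ ≤ 1 → ∀ i, c ≤ (A i + t * L i + θ * K i).re)
    (hab : ∀ t θ : ℝ, 0 ≤ t → t ≤ 1 → 0 ≤ θ → θ ≤ 1 → ∀ i, ‖A i + t * L i + θ * K i‖ ≤ C)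
    (hpr : ∀ t θ : ℝ, 0 ≤ t → t ≤ 1 → 0 ≤ θ → θ ≤ 1 →
      ∃ α : ℂ, ∀ i, ‖L i - α * (A i + t * L i + θ * K i)‖ ≤ ρ)
    (hK : ∀ i, ‖K i‖ ≤ σ) :
    ‖Qc (fun i => A i + L i + K i) - Qc (fun i => A i + L i) - (Qc (fun i => A i + K i) - Qc A)
      - (Q1 (fun i => A i + K i) L - Q1 A L)‖ ≤ 24 * C ^ 2 * ((σ / c) * (ρ / c) ^ 2) := by
  set M := 24 * C ^ 2 * ((σ / c) * (ρ / c) ^ 2) with hM
  have hM0 : 0 ≤ M := by
    have h1 : 0 ≤ σ := (norm_nonneg _).trans (hK 0)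
    positivity
  have s1 : ∀ t : ℝ, 0 ≤ t → t ≤ 1 →
      ‖Q2 (fun i => A i + K i + t * L i) L - Q2 (fun i => A i + t * L i) L‖ ≤ M := by
    intro t ht0 ht1
    have h := norm_image_sub_le_of_norm_deriv_le_segment_01'
      (f := fun θ : ℝ => Q2 (fun i => (A i + t * L i) + (θ : ℂ) * K i) L)
      (f' := fun θ : ℝ => Q3 (fun i => (A i + t * L i) + (θ : ℂ) * K i) L K) (C := M) ?_ ?_
    · have e : (fun i => A i + K i + t * L i) = (fun i => (A i + t * L i) + K i) := by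
        funext i; ring
      rw [e]
      simpa using h
    · intro θ hθ
      exact ((hasDerivAt_Q2 (fun i => A i + t * L i) L K θ
        (fun i => hc.trans_le (hre t θ ht0 ht1 hθ.1 hθ.2 i))).comp_ofReal).hasDerivWithinAt
    · intro θ hθ
      obtain ⟨α, hα⟩ := hpr t θ ht0 ht1 hθ.1 hθ.2.le
      exact norm_Q3 _ L K c C ρ σ hc
        (fun i => (hre t θ ht0 ht1 hθ.1 hθ.2.le i).trans (Complex.re_le_norm _))
        (hab t θ ht0 ht1 hθ.1 hθ.2.le) α hα hK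
  have pos0 : ∀ t : ℝ, 0 ≤ t → t ≤ 1 → ∀ i, 0 < (A i + (t : ℂ) * L i).re := by
    intro t h0 h1 i
    have := hre t 0 h0 h1 le_rfl zero_le_one i
    simp only [Complex.ofReal_zero, zero_mul, add_zero] at this
    linarith
  have pos1 : ∀ t : ℝ, 0 ≤ t → t ≤ 1 → ∀ i, 0 < (A i + K i + (t : ℂ) * L i).re := by
    intro t h0 h1 i
    have := hre t 1 h0 h1 zero_le_one le_rfl i
    have e : A i + K i + (t : ℂ) * L i = A i + t * L i + (1 : ℝ) * K i := by push_cast; ring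
    rw [e]
    linarith
  have s2 : ∀ t ∈ Set.Icc (0 : ℝ) 1, ‖(Q1 (fun i => A i + K i + t * L i) L - Q1 (fun i => A i + t * L i) L)
      - (Q1 (fun i => A i + K i + (0 : ℝ) * L i) L - Q1 (fun i => A i + (0 : ℝ) * L i) L)‖ ≤ M := by
    intro t ht
    have h := norm_image_sub_le_of_norm_deriv_le_segment' (a := (0 : ℝ)) (b := 1)
      (f := fun t : ℝ => Q1 (fun i => A i + K i + (t : ℂ) * L i) L - Q1 (fun i => A i + (t : ℂ) * L i) L)
      (f' := fun t : ℝ => Q2 (fun i => A i + K i + (t : ℂ) * L i) L - Q2 (fun i => A i + (t : ℂ) * L i) L)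
      (C := M) ?_ ?_ t ht
    · refine h.trans ?_
      nlinarith [ht.2]
    · intro x hx
      exact (((hasDerivAt_Q1 (fun i => A i + K i) L x (pos1 x hx.1 hx.2)).comp_ofReal).sub
        ((hasDerivAt_Q1 A L x (pos0 x hx.1 hx.2)).comp_ofReal)).hasDerivWithinAt
    · intro x hx
      exact s1 x hx.1 hx.2.le
  have h := norm_image_sub_le_of_norm_deriv_le_segment_01'
    (f := fun t : ℝ => Qc (fun i => A i + K i + (t : ℂ) * L i) - Qc (fun i => A i + (t : ℂ) * L i)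
      - (t : ℂ) * (Q1 (fun i => A i + K i) L - Q1 A L))
    (f' := fun t : ℝ => Q1 (fun i => A i + K i + (t : ℂ) * L i) L - Q1 (fun i => A i + (t : ℂ) * L i) L
      - 1 * (Q1 (fun i => A i + K i) L - Q1 A L)) (C := M) ?_ ?_
  · have e : (fun i => A i + L i + K i) = (fun i => A i + K i + L i) := by
      funext i; ring
    rw [e]
    refine le_trans (le_of_eq ?_) h
    simp only [Complex.ofReal_one, Complex.ofReal_zero, zero_mul, one_mul, add_zero, sub_zero]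
    congr 1
    ring
  · intro x hx
    exact ((((hasDerivAt_Qc (fun i => A i + K i) L x (pos1 x hx.1 hx.2)).comp_ofReal).sub
        ((hasDerivAt_Qc A L x (pos0 x hx.1 hx.2)).comp_ofReal)).sub
        ((hasDerivAt_id (x : ℂ)).comp_ofReal.mul_const _)).hasDerivWithinAt
  · intro x hx
    have := s2 x ⟨hx.1, hx.2.le⟩
    simpa using this

/-- real points: `Qc` of positive reals -/
theorem Qc_real (a : Fin 3 → ℝ) (h : ∀ i, 0 < a i) :
    Qc (fun i => (a i : ℂ)) = (((∏ i, a i) ^ (2 / 3 : ℝ) : ℝ) : ℂ) := by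
  have e : (2 / 3 : ℂ) = ((2 / 3 : ℝ) : ℂ) := by push_cast; rfl
  unfold Qc
  rw [e, ← Complex.ofReal_cpow (h 0).le, ← Complex.ofReal_cpow (h 1).le,
    ← Complex.ofReal_cpow (h 2).le, ← Complex.ofReal_mul, ← Complex.ofReal_mul,
    Fin.prod_univ_three, Real.mul_rpow (mul_nonneg (h 0).le (h 1).le) (h 2).le,
    Real.mul_rpow (h 0).le (h 1).le]

/-- real and complex iterated derivatives -/
theorem iteratedDeriv_real_complex (F : ℂ → ℂ) (f : ℝ → ℂ) (a : ℝ) (hF : DifferentiableOn ℂ F (Metric.ball (a : ℂ) 1))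
    (hf : ∀ t : ℝ, |t - a| < 1 → f t = F t) (j : ℕ) :
    ∀ t : ℝ, |t - a| < 1 → iteratedDeriv j f t = iteratedDeriv j F t := by
  induction j with
  | zero => simpa using hf
  | succ j ih =>
    intro t ht
    have hmem : (t : ℂ) ∈ Metric.ball (a : ℂ) 1 := by
      rw [Metric.mem_ball, Complex.dist_eq, ← Complex.ofReal_sub, Complex.norm_real]
      exact ht
    have hFa : AnalyticAt ℂ F t := hF.analyticAt (Metric.isOpen_ball.mem_nhds hmem)
    have hd : HasDerivAt (iteratedDeriv j F) (iteratedDeriv (j + 1) F t) t := by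
      rw [iteratedDeriv_succ]
      have : AnalyticAt ℂ (iteratedDeriv j F) t := by
        rw [iteratedDeriv_eq_iterate]
        exact hFa.iterated_deriv j
      exact this.differentiableAt.hasDerivAt
    rw [iteratedDeriv_succ]
    refine HasDerivAt.deriv ?_
    refine (hd.comp_ofReal).congr_of_eventuallyEq ?_
    have : ∀ᶠ s : ℝ in nhds t, |s - a| < 1 :=
      (isOpen_lt (by fun_prop) continuous_const).mem_nhds ht
    filter_upwards [this] with s hs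
    exact ih s hs

theorem geo_const (g : Geo) (ps : ℝ × ℝ) (hps : ps ∈ g.U) : ∃ d B m M : ℝ, 0 < d ∧ 0 < B ∧ 0 < m ∧ 0 < M ∧
    (∀ i, |g.b1 i| ≤ B ∧ |g.b2 i| ≤ B) ∧ ∀ p, ‖p - ps‖ ≤ d → ∀ i, m ≤ g.om i p ∧ g.om i p ≤ M := by
  have h0 : ∀ i, 0 < g.om i ps := hps
  set B := 1 + ∑ i, (|g.b1 i| + |g.b2 i|) with hB
  have hBi : ∀ i, |g.b1 i| ≤ B ∧ |g.b2 i| ≤ B := by
    intro i
    have h := Finset.single_le_sum (f := fun i => |g.b1 i| + |g.b2 i|) (s := Finset.univ)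
      (fun j _ => by positivity) (Finset.mem_univ i)
    constructor <;> [nlinarith [abs_nonneg (g.b2 i)]; nlinarith [abs_nonneg (g.b1 i)]]
  have hB0 : 0 < B := by
    have : 0 ≤ ∑ i, (|g.b1 i| + |g.b2 i|) := Finset.sum_nonneg (fun i _ => by positivity)
    linarith
  set mm := min (g.om 0 ps) (min (g.om 1 ps) (g.om 2 ps)) with hmm
  have hmm0 : 0 < mm := by
    rw [hmm]; exact lt_min (h0 0) (lt_min (h0 1) (h0 2))
  have hmi : ∀ i, mm ≤ g.om i ps := by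
    intro i
    fin_cases i
    · exact min_le_left _ _
    · exact (min_le_right _ _).trans (min_le_left _ _)
    · exact (min_le_right _ _).trans (min_le_right _ _)
  set MM := g.om 0 ps + g.om 1 ps + g.om 2 ps with hMM
  have hMi : ∀ i, g.om i ps ≤ MM := by
    intro i
    fin_cases i <;> simp only [Fin.mk_zero, Fin.mk_one, Fin.reduceFinMk, Fin.isValue] <;> nlinarith [h0 0, h0 1, h0 2]
  have hM0 : 0 < MM := (h0 0).trans_le (hMi 0)
  refine ⟨mm / (4 * B), B, mm / 2, 2 * MM, by positivity, hB0, by positivity, by positivity, hBi, ?_⟩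
  intro p hp i
  have e : g.om i p - g.om i ps = g.b1 i * (p.1 - ps.1) + g.b2 i * (p.2 - ps.2) := by
    unfold Geo.om; ring
  have h1 : |p.1 - ps.1| ≤ mm / (4 * B) := (norm_fst_le (p - ps)).trans hp
  have h2 : |p.2 - ps.2| ≤ mm / (4 * B) := (norm_snd_le (p - ps)).trans hp
  have h3 : |g.om i p - g.om i ps| ≤ mm / 2 := by
    rw [e]
    refine (abs_add_le _ _).trans ?_
    rw [abs_mul, abs_mul]
    have h4 : B * (mm / (4 * B)) = mm / 4 := by field_simp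
    have h5 : |g.b1 i| * |p.1 - ps.1| ≤ B * (mm / (4 * B)) :=
      mul_le_mul (hBi i).1 h1 (abs_nonneg _) hB0.le
    have h6 : |g.b2 i| * |p.2 - ps.2| ≤ B * (mm / (4 * B)) :=
      mul_le_mul (hBi i).2 h2 (abs_nonneg _) hB0.le
    linarith
  have h7 := abs_le.mp h3
  have h8 : mm ≤ MM := (hmi 0).trans (hMi 0)
  constructor
  · linarith [hmi i]
  · linarith [hMi i]

/-- the values of the linear forms -/
noncomputable def AA (g : Geo) (r : ℝ) (p : ℝ × ℝ) : Fin 3 → ℂ := fun i => r * g.om i p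

noncomputable def KV (g : Geo) (k : ℝ × ℝ) : Fin 3 → ℂ := fun i => g.b1 i * k.1 + g.b2 i * k.2

noncomputable def LL (g : Geo) (lr lt : ℝ) (p : ℝ × ℝ) (v : Fin 3 → ℂ) : Fin 3 → ℂ :=
  fun i => lr * v 0 * g.om i p + lt * (g.b1 i * v 1 + g.b2 i * v 2)

noncomputable def RC (g : Geo) (κ lr lt r : ℝ) (p k : ℝ × ℝ) (v : Fin 3 → ℂ) : ℂ :=
  κ * (Qc (fun i => AA g r p i + LL g lr lt p v i + KV g k i)
      - Qc (fun i => AA g r p i + LL g lr lt p v i)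
      - (Qc (fun i => AA g r p i + KV g k i) - Qc (AA g r p))
      - (Q1 (fun i => AA g r p i + KV g k i) (LL g lr lt p v) - Q1 (AA g r p) (LL g lr lt p v)))

theorem lam_xb (g : Geo) (c₀ X h r : ℝ) (p : ℝ × ℝ) (v : Fin 3 → ℝ) (i : Fin 3) :
    g.lam i (xb c₀ X h r p v) = r * g.om i p + (Lr c₀ X h * v 0 * g.om i p
      + Lt X h * (g.b1 i * v 1 + g.b2 i * v 2)) := by
  simp only [Geo.lam, xb, Geo.om, Matrix.cons_val_zero, Matrix.cons_val_one, Matrix.cons_val]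
  ring

theorem lam_shr (g : Geo) (x : Fin 3 → ℝ) (k : ℝ × ℝ) (i : Fin 3) :
    g.lam i (x + shr k) = g.lam i x + (g.b1 i * k.1 + g.b2 i * k.2) := by
  simp only [Geo.lam, shr, Pi.add_apply, Matrix.cons_val_zero, Matrix.cons_val_one, Matrix.cons_val]
  ring

theorem lin_real (g : Geo) (lr lt r : ℝ) (p k : ℝ × ℝ) (v : Fin 3 → ℝ) (hr : 0 < r)
    (hω : ∀ i, 0 < g.om i p) (hΩ : ∀ i, 0 < g.om i (p + (1 / r) • k)) :
    r ^ 2 * g.f0 (p + (1 / r) • k) * (2 / 3 *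
        ((lr * v 0 * g.om 0 p + lt * (g.b1 0 * v 1 + g.b2 0 * v 2)) / (r * g.om 0 (p + (1 / r) • k))
        + (lr * v 0 * g.om 1 p + lt * (g.b1 1 * v 1 + g.b2 1 * v 2)) / (r * g.om 1 (p + (1 / r) • k))
        + (lr * v 0 * g.om 2 p + lt * (g.b1 2 * v 1 + g.b2 2 * v 2)) / (r * g.om 2 (p + (1 / r) • k))))
      - r ^ 2 * g.f0 p * (2 / 3 *
        ((lr * v 0 * g.om 0 p + lt * (g.b1 0 * v 1 + g.b2 0 * v 2)) / (r * g.om 0 p)
        + (lr * v 0 * g.om 1 p + lt * (g.b1 1 * v 1 + g.b2 1 * v 2)) / (r * g.om 1 p)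
        + (lr * v 0 * g.om 2 p + lt * (g.b1 2 * v 1 + g.b2 2 * v 2)) / (r * g.om 2 p)))
      = lr * g.Ev k (1 / r) p * v 0
        + lt * (g.Hp k (1 / r) p (1, 0) * v 1 + g.Hp k (1 / r) p (0, 1) * v 2) := by
  have e : ∀ i, g.b1 i * k.1 + g.b2 i * k.2 = r * (g.om i (p + (1 / r) • k) - g.om i p) := by
    intro i
    simp only [Geo.om, Prod.fst_add, Prod.snd_add, Prod.smul_fst, Prod.smul_snd, smul_eq_mul]
    field_simp
    ring
  have n : ∀ i, g.om i p ≠ 0 := fun i => (hω i).ne'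
  have N : ∀ i, g.om i (p + (1 / r) • k) ≠ 0 := fun i => (hΩ i).ne'
  have hr' := hr.ne'
  simp only [Geo.Ev, Geo.Hp, Geo.f1, Geo.TT, Geo.tt, Fin.sum_univ_three, e, mul_one, mul_zero,
    add_zero, zero_add]
  have n0 := n 0
  have n1 := n 1
  have n2 := n 2
  have N0 := N 0
  have N1 := N 1
  have N2 := N 2
  generalize g.om 0 p = w0 at *
  generalize g.om 1 p = w1 at *
  generalize g.om 2 p = w2 at *
  generalize g.om 0 (p + (1 / r) • k) = W0 at *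
  generalize g.om 1 (p + (1 / r) • k) = W1 at *
  generalize g.om 2 (p + (1 / r) • k) = W2 at *
  generalize g.f0 (p + (1 / r) • k) = F at *
  generalize g.f0 p = G at *
  field_simp
  ring

theorem f0_scale (g : Geo) (r : ℝ) (p : ℝ × ℝ) (hr : 0 < r) (hω : ∀ i, 0 < g.om i p) :
    (∏ i, (r * g.om i p)) ^ (2 / 3 : ℝ) = r ^ 2 * g.f0 p := by
  have : (∏ i, (r * g.om i p)) = r ^ 3 * ∏ i, g.om i p := by
    rw [Fin.prod_univ_three, Fin.prod_univ_three]; ring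
  rw [this, Real.mul_rpow (by positivity) (Finset.prod_nonneg (fun i _ => (hω i).le)), Geo.f0,
    ← Real.rpow_natCast, ← Real.rpow_mul hr.le]
  norm_num

theorem RC_real (g : Geo) (κ c₀ X h r : ℝ) (p k : ℝ × ℝ) (v : Fin 3 → ℝ) (hr : 0 < r)
    (hω : ∀ i, 0 < g.om i p) (hΩ : ∀ i, 0 < r * g.om i p + (g.b1 i * k.1 + g.b2 i * k.2))
    (h1 : ∀ i, 0 < g.lam i (xb c₀ X h r p v)) (h2 : ∀ i, 0 < g.lam i (xb c₀ X h r p v + shr k)) :
    ((Rem g κ c₀ X h k r p v : ℝ) : ℂ) =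
      RC g κ (Lr c₀ X h) (Lt X h) r p k (fun i => (v i : ℂ)) := by
  have e : ∀ i, r * g.om i p + (g.b1 i * k.1 + g.b2 i * k.2) = r * g.om i (p + (1 / r) • k) := by
    intro i
    simp only [Geo.om, Prod.fst_add, Prod.snd_add, Prod.smul_fst, Prod.smul_snd, smul_eq_mul]
    field_simp
    ring
  have hΩ' : ∀ i, 0 < g.om i (p + (1 / r) • k) := by
    intro i
    have := hΩ i
    rw [e i] at this
    exact (mul_pos_iff_of_pos_left hr).mp this
  have q1 : Qc (fun i => AA g r p i + LL g (Lr c₀ X h) (Lt X h) p (fun i => (v i : ℂ)) i + KV g k i)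
      = ((g.phi (xb c₀ X h r p v + shr k) : ℝ) : ℂ) := by
    rw [Geo.phi, ← Qc_real _ h2]
    congr 1
    funext i
    rw [lam_shr, lam_xb]
    simp only [AA, LL, KV]
    push_cast
    ring
  have q2 : Qc (fun i => AA g r p i + LL g (Lr c₀ X h) (Lt X h) p (fun i => (v i : ℂ)) i)
      = ((g.phi (xb c₀ X h r p v) : ℝ) : ℂ) := by
    rw [Geo.phi, ← Qc_real _ h1]
    congr 1
    funext i
    rw [lam_xb]
    simp only [AA, LL]
    push_cast
    ring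
  have l0 : ∀ i, g.lam i (xb c₀ X h r p 0) = r * g.om i p := by
    intro i; rw [lam_xb]; simp
  have l0' : ∀ i, g.lam i (xb c₀ X h r p 0 + shr k) = r * g.om i (p + (1 / r) • k) := by
    intro i; rw [lam_shr, l0, e]
  have p0 : g.phi (xb c₀ X h r p 0) = r ^ 2 * g.f0 p := by
    rw [Geo.phi]; simp only [l0]; exact f0_scale g r p hr hω
  have p0' : g.phi (xb c₀ X h r p 0 + shr k) = r ^ 2 * g.f0 (p + (1 / r) • k) := by
    rw [Geo.phi]; simp only [l0']; exact f0_scale g r _ hr hΩ'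
  have q3 : Qc (AA g r p) = ((r ^ 2 * g.f0 p : ℝ) : ℂ) := by
    rw [← f0_scale g r p hr hω, ← Qc_real _ (fun i => mul_pos hr (hω i))]
    congr 1
    funext i
    simp only [AA]; push_cast; ring
  have q4 : Qc (fun i => AA g r p i + KV g k i) = ((r ^ 2 * g.f0 (p + (1 / r) • k) : ℝ) : ℂ) := by
    rw [← f0_scale g r _ hr hΩ', ← Qc_real _ (fun i => mul_pos hr (hΩ' i))]
    congr 1
    funext i
    rw [← e i]
    simp only [AA, KV]; push_cast; ring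
  have ai : ∀ i, AA g r p i = ((r * g.om i p : ℝ) : ℂ) := by
    intro i; simp only [AA]; push_cast; ring
  have aki : ∀ i, AA g r p i + KV g k i = ((r * g.om i (p + (1 / r) • k) : ℝ) : ℂ) := by
    intro i; rw [← e i]; simp only [AA, KV]; push_cast; ring
  have li : ∀ i, LL g (Lr c₀ X h) (Lt X h) p (fun i => (v i : ℂ)) i =
      ((Lr c₀ X h * v 0 * g.om i p + Lt X h * (g.b1 i * v 1 + g.b2 i * v 2) : ℝ) : ℂ) := by
    intro i; simp only [LL]; push_cast; ring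
  have q5 : Q1 (fun i => AA g r p i + KV g k i) (LL g (Lr c₀ X h) (Lt X h) p (fun i => (v i : ℂ)))
      - Q1 (AA g r p) (LL g (Lr c₀ X h) (Lt X h) p (fun i => (v i : ℂ)))
      = ((Lr c₀ X h * g.Ev k (1 / r) p * v 0
        + Lt X h * (g.Hp k (1 / r) p (1, 0) * v 1 + g.Hp k (1 / r) p (0, 1) * v 2) : ℝ) : ℂ) := by
    rw [← lin_real g (Lr c₀ X h) (Lt X h) r p k v hr hω hΩ']
    unfold Q1
    rw [q3, q4]
    simp only [aki]
    simp only [ai, li]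
    push_cast
    ring
  unfold RC Rem
  rw [q1, q2, q3, q4, q5, p0, p0']
  push_cast
  ring

theorem KV_norm (g : Geo) (B h : ℝ) (k : ℝ × ℝ) (hBi : ∀ i, |g.b1 i| ≤ B ∧ |g.b2 i| ≤ B)
    (hB : 0 < B) (hk : ‖k‖ ≤ 2 * h) (i : Fin 3) : ‖KV g k i‖ ≤ 4 * B * h := by
  have h1 : |k.1| ≤ 2 * h := (norm_fst_le k).trans hk
  have h2 : |k.2| ≤ 2 * h := (norm_snd_le k).trans hk
  have e : KV g k i = ((g.b1 i * k.1 + g.b2 i * k.2 : ℝ) : ℂ) := by
    simp only [KV]; push_cast; ring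
  rw [e, Complex.norm_real, Real.norm_eq_abs]
  refine (abs_add_le _ _).trans ?_
  rw [abs_mul, abs_mul]
  have h3 := mul_le_mul (hBi i).1 h1 (abs_nonneg _) hB.le
  have h4 := mul_le_mul (hBi i).2 h2 (abs_nonneg _) hB.le
  linarith

theorem bv_norm (g : Geo) (B W : ℝ) (v : Fin 3 → ℂ) (hBi : ∀ i, |g.b1 i| ≤ B ∧ |g.b2 i| ≤ B)
    (hB : 0 < B) (hv : ∀ i, ‖v i‖ ≤ W) (i : Fin 3) :
    ‖(g.b1 i : ℂ) * v 1 + g.b2 i * v 2‖ ≤ 2 * B * W := by
  refine (norm_add_le _ _).trans ?_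
  rw [norm_mul, norm_mul, Complex.norm_real, Complex.norm_real, Real.norm_eq_abs, Real.norm_eq_abs]
  have h3 := mul_le_mul (hBi i).1 (hv 1) (norm_nonneg _) hB.le
  have h4 := mul_le_mul (hBi i).2 (hv 2) (norm_nonneg _) hB.le
  linarith

theorem box_bounds (g : Geo) (B m M : ℝ) (hB : 0 < B) (hm : 0 < m) (hM : 0 < M)
    (hBi : ∀ i, |g.b1 i| ≤ B ∧ |g.b2 i| ≤ B) (c₁ c₂ W X h lr lt r : ℝ) (p k : ℝ × ℝ)
    (hc₁ : 0 < c₁) (hc₂ : c₁ ≤ c₂) (hW : 0 < W) (hX : 0 < X) (hlr : 0 ≤ lr) (hlt : 0 ≤ lt) (hh : 0 < h)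
    (ha : lr * W * M ≤ c₁ * m * X / 8) (hb : 2 * B * lt * W ≤ c₁ * m * X / 8)
    (hc' : 4 * B * h ≤ c₁ * m * X / 8)
    (hr1 : c₁ * X ≤ r) (hr2 : r ≤ c₂ * X) (hω : ∀ i, m ≤ g.om i p ∧ g.om i p ≤ M)
    (hk : ‖k‖ ≤ 2 * h) (v : Fin 3 → ℂ) (hv : ∀ i, ‖v i‖ ≤ W) (t θ : ℝ) (ht0 : 0 ≤ t) (ht1 : t ≤ 1)
    (hθ0 : 0 ≤ θ) (hθ1 : θ ≤ 1) :
    (∀ i, c₁ * m * X / 2 ≤ (AA g r p i + t * LL g lr lt p v i + θ * KV g k i).re) ∧
    (∀ i, ‖AA g r p i + t * LL g lr lt p v i + θ * KV g k i‖ ≤ 2 * c₂ * M * X) ∧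
    (∃ α : ℂ, ∀ i, ‖LL g lr lt p v i - α * (AA g r p i + t * LL g lr lt p v i + θ * KV g k i)‖
      ≤ 4 * B * W * lt + 8 * B * W * lr * h / (c₁ * X)) := by
  have hK := KV_norm g B h k hBi hB hk
  have hbv := bv_norm g B W v hBi hB hv
  have hmM : m ≤ M := (hω 0).1.trans (hω 0).2
  have hr0 : 0 < r := lt_of_lt_of_le (by positivity) hr1
  have hLn : ∀ i, ‖LL g lr lt p v i‖ ≤ c₁ * m * X / 4 := by
    intro i
    unfold LL
    refine (norm_add_le _ _).trans ?_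
    have e1 : ‖(lr : ℂ) * v 0 * (g.om i p : ℂ)‖ ≤ lr * W * M := by
      rw [norm_mul, norm_mul, Complex.norm_real, Complex.norm_real, Real.norm_eq_abs,
        Real.norm_eq_abs, abs_of_nonneg hlr, abs_of_nonneg (hm.le.trans (hω i).1)]
      have := hv 0
      have := (hω i).2
      have := (hm.le.trans (hω i).1)
      gcongr
    have e2 : ‖(lt : ℂ) * (g.b1 i * v 1 + g.b2 i * v 2)‖ ≤ 2 * B * lt * W := by
      rw [norm_mul, Complex.norm_real, Real.norm_eq_abs, abs_of_nonneg hlt]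
      have := mul_le_mul_of_nonneg_left (hbv i) hlt
      linarith
    linarith
  have htn : ‖(t : ℂ)‖ ≤ 1 := by
    rw [Complex.norm_real, Real.norm_eq_abs, abs_of_nonneg ht0]; exact ht1
  have hθn : ‖(θ : ℂ)‖ ≤ 1 := by
    rw [Complex.norm_real, Real.norm_eq_abs, abs_of_nonneg hθ0]; exact hθ1
  have htL : ∀ i, ‖(t : ℂ) * LL g lr lt p v i‖ ≤ c₁ * m * X / 4 := by
    intro i
    rw [norm_mul]
    calc _ ≤ 1 * (c₁ * m * X / 4) := mul_le_mul htn (hLn i) (norm_nonneg _) zero_le_one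
      _ = _ := one_mul _
  have hθK : ∀ i, ‖(θ : ℂ) * KV g k i‖ ≤ c₁ * m * X / 8 := by
    intro i
    rw [norm_mul]
    calc _ ≤ 1 * (4 * B * h) := mul_le_mul hθn (hK i) (norm_nonneg _) zero_le_one
      _ ≤ _ := by rw [one_mul]; exact hc'
  have hAre : ∀ i, (AA g r p i).re = r * g.om i p := by
    intro i
    simp only [AA]
    rw [← Complex.ofReal_mul, Complex.ofReal_re]
  have hAn : ∀ i, ‖AA g r p i‖ = r * g.om i p := by
    intro i
    simp only [AA]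
    rw [← Complex.ofReal_mul, Complex.norm_real, Real.norm_eq_abs,
      abs_of_nonneg (mul_nonneg hr0.le (hm.le.trans (hω i).1))]
  have hc2 : 0 < c₂ := hc₁.trans_le hc₂
  refine ⟨?_, ?_, ?_⟩
  · intro i
    rw [Complex.add_re, Complex.add_re, hAre]
    have h1 := (abs_le.mp ((Complex.abs_re_le_norm _).trans (htL i))).1
    have h2 := (abs_le.mp ((Complex.abs_re_le_norm _).trans (hθK i))).1
    have h3 : c₁ * X * m ≤ r * g.om i p := mul_le_mul hr1 (hω i).1 hm.le hr0.le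
    nlinarith
  · intro i
    refine norm_add₃_le.trans ?_
    rw [hAn]
    have h3 : r * g.om i p ≤ c₂ * X * M := mul_le_mul hr2 (hω i).2 (hm.le.trans (hω i).1) (by positivity)
    have h4 : c₁ * m * X ≤ c₂ * M * X := by gcongr
    have := htL i
    have := hθK i
    have h5 : 0 ≤ c₂ * M * X := by positivity
    nlinarith
  · have hlW : lr * W ≤ c₁ * X / 8 := by
      have h1 : lr * W * M ≤ (c₁ * X / 8) * M := by
        refine ha.trans ?_
        have : c₁ * m * X / 8 ≤ c₁ * M * X / 8 := by gcongr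
        linarith
      exact le_of_mul_le_mul_right h1 hM
    have hlv : ‖(lr : ℂ) * v 0‖ ≤ lr * W := by
      rw [norm_mul, Complex.norm_real, Real.norm_eq_abs, abs_of_nonneg hlr]
      exact mul_le_mul_of_nonneg_left (hv 0) hlr
    have hmn : c₁ * X / 2 ≤ ‖(r : ℂ) + t * (lr * v 0)‖ := by
      have h1 : ‖(t : ℂ) * (lr * v 0)‖ ≤ c₁ * X / 8 := by
        rw [norm_mul]
        calc _ ≤ 1 * (lr * W) := mul_le_mul htn hlv (norm_nonneg _) zero_le_one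
          _ ≤ _ := by rw [one_mul]; exact hlW
      have h2 : (‖(r : ℂ)‖) = r := by
        rw [Complex.norm_real, Real.norm_eq_abs, abs_of_pos hr0]
      have h3 := norm_sub_norm_le (r : ℂ) (-(t * (lr * v 0)))
      rw [norm_neg, sub_neg_eq_add, h2] at h3
      have : 0 < c₁ * X := by positivity
      linarith
    have hmpos : 0 < ‖(r : ℂ) + t * (lr * v 0)‖ := lt_of_lt_of_le (by positivity) hmn
    have hmne : (r : ℂ) + t * (lr * v 0) ≠ 0 := norm_pos_iff.mp hmpos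
    set α : ℂ := lr * v 0 / ((r : ℂ) + t * (lr * v 0)) with hα
    have hαn : ‖α‖ ≤ 2 * lr * W / (c₁ * X) := by
      rw [hα, norm_div]
      calc _ ≤ lr * W / (c₁ * X / 2) := div_le_div₀ (by positivity) hlv (by positivity) hmn
        _ = _ := by field_simp
    have hα1 : ‖α‖ ≤ 1 := by
      refine hαn.trans ?_
      rw [div_le_one (by positivity)]
      have : 0 < c₁ * X := by positivity
      linarith
    refine ⟨α, fun i => ?_⟩
    have hαm : α * ((r : ℂ) + t * (lr * v 0)) = lr * v 0 := by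
      rw [hα]; exact div_mul_cancel₀ _ hmne
    have e : LL g lr lt p v i - α * (AA g r p i + t * LL g lr lt p v i + θ * KV g k i)
        = lt * (g.b1 i * v 1 + g.b2 i * v 2) * (1 - α * t) - α * (θ * KV g k i) := by
      have e2 : LL g lr lt p v i - α * (AA g r p i + t * LL g lr lt p v i + θ * KV g k i)
        = lt * (g.b1 i * v 1 + g.b2 i * v 2) * (1 - α * t) - α * (θ * KV g k i)
          - (α * ((r : ℂ) + t * (lr * v 0)) - lr * v 0) * g.om i p := by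
        simp only [LL, AA]; ring
      rw [e2, hαm]; ring
    rw [e]
    refine (norm_sub_le _ _).trans ?_
    have h1 : ‖(lt : ℂ) * (g.b1 i * v 1 + g.b2 i * v 2) * (1 - α * t)‖ ≤ 4 * B * W * lt := by
      rw [norm_mul, norm_mul, Complex.norm_real, Real.norm_eq_abs, abs_of_nonneg hlt]
      have h2 : ‖(1 : ℂ) - α * t‖ ≤ 2 := by
        refine (norm_sub_le _ _).trans ?_
        rw [norm_mul, norm_one]
        have := mul_le_mul hα1 htn (norm_nonneg _) zero_le_one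
        linarith
      calc _ ≤ lt * (2 * B * W) * 2 := by
            have := hbv i
            gcongr
        _ = _ := by ring
    have h2 : ‖α * (θ * KV g k i)‖ ≤ 8 * B * W * lr * h / (c₁ * X) := by
      rw [norm_mul, norm_mul]
      calc _ ≤ (2 * lr * W / (c₁ * X)) * (1 * (4 * B * h)) := by
            have := hK i
            gcongr
        _ = _ := by field_simp; ring
    linarith

theorem RC_bound (g : Geo) (B m M : ℝ) (hB : 0 < B) (hm : 0 < m) (hM : 0 < M)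
    (hBi : ∀ i, |g.b1 i| ≤ B ∧ |g.b2 i| ≤ B) (κ c₁ c₂ W X h lr lt r : ℝ) (p k : ℝ × ℝ)
    (hc₁ : 0 < c₁) (hc₂ : c₁ ≤ c₂) (hW : 0 < W) (hX : 0 < X) (hlr : 0 ≤ lr) (hlt : 0 ≤ lt) (hh : 0 < h)
    (ha : lr * W * M ≤ c₁ * m * X / 8) (hb : 2 * B * lt * W ≤ c₁ * m * X / 8)
    (hc' : 4 * B * h ≤ c₁ * m * X / 8)
    (hr1 : c₁ * X ≤ r) (hr2 : r ≤ c₂ * X) (hω : ∀ i, m ≤ g.om i p ∧ g.om i p ≤ M)
    (hk : ‖k‖ ≤ 2 * h) (v : Fin 3 → ℂ) (hv : ∀ i, ‖v i‖ ≤ W) :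
    ‖RC g κ lr lt r p k v‖ ≤ |κ| * (24 * (2 * c₂ * M * X) ^ 2 * ((4 * B * h / (c₁ * m * X / 2)) *
      ((4 * B * W * lt + 8 * B * W * lr * h / (c₁ * X)) / (c₁ * m * X / 2)) ^ 2)) := by
  unfold RC
  rw [norm_mul, Complex.norm_real, Real.norm_eq_abs]
  refine mul_le_mul_of_nonneg_left ?_ (abs_nonneg _)
  have hb := fun t θ ht0 ht1 hθ0 hθ1 => box_bounds g B m M hB hm hM hBi c₁ c₂ W X h lr lt r p k hc₁ hc₂ hW hX
    hlr hlt hh ha hb hc' hr1 hr2 hω hk v hv t θ ht0 ht1 hθ0 hθ1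
  exact key (AA g r p) (LL g lr lt p v) (KV g k) (c₁ * m * X / 2) (2 * c₂ * M * X) _ (4 * B * h)
    (by positivity)
    (fun t θ ht0 ht1 hθ0 hθ1 => (hb t θ ht0 ht1 hθ0 hθ1).1)
    (fun t θ ht0 ht1 hθ0 hθ1 => (hb t θ ht0 ht1 hθ0 hθ1).2.1)
    (fun t θ ht0 ht1 hθ0 hθ1 => (hb t θ ht0 ht1 hθ0 hθ1).2.2)
    (KV_norm g B h k hBi hB hk)

theorem diff_upd (v : Fin 3 → ℂ) (i j : Fin 3) :
    Differentiable ℂ (fun z : ℂ => Function.update v i z j) := by
  by_cases h : j = i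
  · subst h; simp
  · simp only [Function.update_of_ne h]; exact differentiable_const _

theorem diff_Qc (f : Fin 3 → ℂ → ℂ) (z : ℂ) (hf : ∀ i, DifferentiableAt ℂ (f i) z)
    (hp : ∀ i, 0 < (f i z).re) : DifferentiableAt ℂ (fun z => Qc (fun i => f i z)) z := by
  unfold Qc
  exact (((hf 0).cpow (differentiableAt_const _) (Or.inl (hp 0))).mul
    ((hf 1).cpow (differentiableAt_const _) (Or.inl (hp 1)))).mul
    ((hf 2).cpow (differentiableAt_const _) (Or.inl (hp 2)))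

theorem diff_RC (g : Geo) (κ lr lt r : ℝ) (p k : ℝ × ℝ) (v : Fin 3 → ℂ) (i : Fin 3) (z : ℂ)
    (h1 : ∀ j, 0 < (AA g r p j + LL g lr lt p (Function.update v i z) j + KV g k j).re)
    (h2 : ∀ j, 0 < (AA g r p j + LL g lr lt p (Function.update v i z) j).re) :
    DifferentiableAt ℂ (fun z => RC g κ lr lt r p k (Function.update v i z)) z := by
  have hL : ∀ j, DifferentiableAt ℂ (fun z => LL g lr lt p (Function.update v i z) j) z := by
    intro j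
    unfold LL
    have d0 := (diff_upd v i 0) z
    have d1 := (diff_upd v i 1) z
    have d2 := (diff_upd v i 2) z
    exact ((d0.const_mul _).mul_const _).add (((d1.const_mul _).add (d2.const_mul _)).const_mul _)
  have q1 : ∀ A : Fin 3 → ℂ, DifferentiableAt ℂ (fun z => Q1 A (LL g lr lt p (Function.update v i z))) z := by
    intro A
    unfold Q1
    exact (((((hL 0).div_const _).add ((hL 1).div_const _)).add ((hL 2).div_const _)).const_mul _).const_mul _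
  have e1 := diff_Qc (fun j z => AA g r p j + LL g lr lt p (Function.update v i z) j + KV g k j) z
    (fun j => ((hL j).const_add _).add_const _) h1
  have e2 := diff_Qc (fun j z => AA g r p j + LL g lr lt p (Function.update v i z) j) z
    (fun j => (hL j).const_add _) h2
  unfold RC
  exact (((e1.sub e2).sub_const _).sub ((q1 _).sub (q1 _))).const_mul _

theorem scale_facts (c₀ X h : ℝ) (hX : 0 < X) (hh : 0 < h) (hc₀ : 0 < c₀) :
    0 ≤ Lr c₀ X h ∧ Lr c₀ X h ≤ c₀ * X ∧ 0 ≤ Lt X h ∧ h * Lt X h ^ 2 / X = 1 ∧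
      h ^ 3 * Lr c₀ X h ^ 2 / X ^ 3 ≤ c₀ ^ 2 := by
  have h1 : 0 < X / h := by positivity
  have h2 : 0 ≤ (X / h) ^ (3 / 2 : ℝ) := by positivity
  have hLr0 : 0 ≤ Lr c₀ X h := by unfold Lr; exact mul_nonneg hc₀.le (le_min hX.le h2)
  refine ⟨hLr0, ?_, ?_, ?_, ?_⟩
  · unfold Lr; gcongr; exact min_le_left _ _
  · unfold Lt; positivity
  · unfold Lt; rw [Real.sq_sqrt h1.le]; field_simp
  · have h3 : Lr c₀ X h ≤ c₀ * (X / h) ^ (3 / 2 : ℝ) := by
      unfold Lr; gcongr; exact min_le_right _ _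
    have h4 : Lr c₀ X h ^ 2 ≤ (c₀ * (X / h) ^ (3 / 2 : ℝ)) ^ 2 := by gcongr
    have h5 : ((X / h) ^ (3 / 2 : ℝ)) ^ 2 = (X / h) ^ 3 := by
      rw [← Real.rpow_natCast, ← Real.rpow_mul h1.le, ← Real.rpow_natCast]; norm_num
    rw [mul_pow, h5] at h4
    calc h ^ 3 * Lr c₀ X h ^ 2 / X ^ 3 ≤ h ^ 3 * (c₀ ^ 2 * (X / h) ^ 3) / X ^ 3 := by gcongr
      _ = c₀ ^ 2 := by field_simp

/-- numerical form of the bound -/
theorem final_num (B m M κ κ₂ c₀ c₁ c₂ W X h : ℝ) (hB : 0 < B) (hm : 0 < m) (hM : 0 < M)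
    (hc₀ : 0 < c₀) (hc₁ : 0 < c₁) (hc₂ : c₁ ≤ c₂) (hW : 0 < W) (hX : 0 < X) (hh : 0 < h)
    (hκ : |κ| ≤ κ₂) :
    |κ| * (24 * (2 * c₂ * M * X) ^ 2 * ((4 * B * h / (c₁ * m * X / 2)) *
      ((4 * B * W * Lt X h + 8 * B * W * Lr c₀ X h * h / (c₁ * X)) / (c₁ * m * X / 2)) ^ 2))
    ≤ κ₂ * (3072 * B * c₂ ^ 2 * M ^ 2 / (c₁ ^ 3 * m ^ 3) *
      (2 * (4 * B * W) ^ 2 + 2 * (8 * B * W / c₁) ^ 2 * c₀ ^ 2)) := by
  obtain ⟨hLr0, -, hLt0, h1, h2⟩ := scale_facts c₀ X h hX hh hc₀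
  have hc2 : 0 < c₂ := hc₁.trans_le hc₂
  refine mul_le_mul hκ ?_ (by positivity) ((abs_nonneg _).trans hκ)
  set lt := Lt X h
  set lr := Lr c₀ X h
  have e : 24 * (2 * c₂ * M * X) ^ 2 * ((4 * B * h / (c₁ * m * X / 2)) *
      ((4 * B * W * lt + 8 * B * W * lr * h / (c₁ * X)) / (c₁ * m * X / 2)) ^ 2)
      = 3072 * B * c₂ ^ 2 * M ^ 2 / (c₁ ^ 3 * m ^ 3) *
        (h * (4 * B * W * lt + (8 * B * W / c₁) * (lr * h / X)) ^ 2 / X) := by
    field_simp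
    ring
  rw [e]
  refine mul_le_mul_of_nonneg_left ?_ (by positivity)
  have h3 : (4 * B * W * lt + (8 * B * W / c₁) * (lr * h / X)) ^ 2
      ≤ 2 * (4 * B * W * lt) ^ 2 + 2 * ((8 * B * W / c₁) * (lr * h / X)) ^ 2 := by
    nlinarith [sq_nonneg (4 * B * W * lt - (8 * B * W / c₁) * (lr * h / X))]
  calc h * (4 * B * W * lt + (8 * B * W / c₁) * (lr * h / X)) ^ 2 / X
      ≤ h * (2 * (4 * B * W * lt) ^ 2 + 2 * ((8 * B * W / c₁) * (lr * h / X)) ^ 2) / X := by gcongr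
    _ = 2 * (4 * B * W) ^ 2 * (h * lt ^ 2 / X) + 2 * (8 * B * W / c₁) ^ 2 * (h ^ 3 * lr ^ 2 / X ^ 3) := by
        field_simp
    _ ≤ 2 * (4 * B * W) ^ 2 * 1 + 2 * (8 * B * W / c₁) ^ 2 * c₀ ^ 2 := by
        rw [h1]; gcongr
    _ = _ := by ring

end RemAux

open RemAux

theorem remBound (g : Geo) (ps : ℝ × ℝ) (hps : ps ∈ g.U) : ∃ d : ℝ, 0 < d ∧
    ∀ (κ₁ κ₂ c₁ c₂ V : ℝ) (N : ℕ), 0 < κ₁ → κ₁ ≤ κ₂ → 0 < c₁ → c₁ ≤ c₂ → 0 < V → ∃ cs : ℝ, 0 < cs ∧ ∀ c₀, 0 < c₀ → c₀ ≤ cs →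
    ∃ C X₀ : ℝ, ∀ X h κ : ℝ, Reg X₀ X h → κ₁ ≤ κ → κ ≤ κ₂ → ∀ k : ℝ × ℝ, ‖k‖ ≤ 2 * h → ∀ r, c₁ * X ≤ r → r ≤ c₂ * X →
    ∀ p, ‖p - ps‖ ≤ d → ∀ v : Fin 3 → ℝ, (∀ i, |v i| ≤ V) →
      (0 < xb c₀ X h r p v 0 ∧ ∀ i, 0 < g.lam i (xb c₀ X h r p v) ∧ 0 < g.lam i (xb c₀ X h r p v + shr k)) ∧
      ∀ i, ∀ j ≤ N, ‖iteratedDeriv j (fun t => ex (Rem g κ c₀ X h k r p (Function.update v i t))) (v i)‖ ≤ C := by
  obtain ⟨d, B, m, M, hd, hB, hm, hM, hBi, hω⟩ := geo_const g ps hps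
  refine ⟨d, hd, ?_⟩
  intro κ₁ κ₂ c₁ c₂ V N hκ₁ hκ₁₂ hc₁ hc₂ hV
  set W := V + 1 with hW
  have hW0 : 0 < W := by positivity
  refine ⟨c₁ * m / (8 * W * M), by positivity, ?_⟩
  intro c₀ hc₀ hc₀'
  set Cb := κ₂ * (3072 * B * c₂ ^ 2 * M ^ 2 / (c₁ ^ 3 * m ^ 3) *
      (2 * (4 * B * W) ^ 2 + 2 * (8 * B * W / c₁) ^ 2 * c₀ ^ 2)) with hCb
  set T₁ := 16 * B * W / (c₁ * m) with hT₁
  set T₂ := 32 * B / (c₁ * m) with hT₂
  have hT₁0 : 0 < T₁ := by positivity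
  have hT₂0 : 0 < T₂ := by positivity
  refine ⟨N.factorial * Real.exp (2 * Real.pi * Cb), max (T₁ ^ 2) (T₂ ^ (7 / 3 : ℝ)), ?_⟩
  rintro X h κ ⟨hX1, hX0, hh1, hhX⟩ hκ1 hκ2 k hk r hr1 hr2 p hp v hv
  have hX : 0 < X := by linarith
  have hh : 0 < h := by linarith
  obtain ⟨hLr0, hLrX, hLt0, -, -⟩ := scale_facts c₀ X h hX hh hc₀
  have hωp := hω p hp
  have hr0 : 0 < r := lt_of_lt_of_le (by positivity) hr1
  have ha : Lr c₀ X h * W * M ≤ c₁ * m * X / 8 := by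
    calc Lr c₀ X h * W * M ≤ (c₁ * m / (8 * W * M) * X) * W * M := by
          have : Lr c₀ X h ≤ c₁ * m / (8 * W * M) * X := hLrX.trans (by gcongr)
          gcongr
      _ = c₁ * m * X / 8 := by field_simp
  have hb : 2 * B * Lt X h * W ≤ c₁ * m * X / 8 := by
    have h1 : Lt X h ≤ √X := by
      unfold Lt
      apply Real.sqrt_le_sqrt
      exact div_le_self hX.le hh1
    have h2 : T₁ ≤ √X := by
      apply Real.le_sqrt_of_sq_le
      exact (le_max_left _ _).trans hX0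
    have h3 : T₁ * √X ≤ X := by
      calc T₁ * √X ≤ √X * √X := by gcongr
        _ = X := Real.mul_self_sqrt hX.le
    have h4 : √X ≤ X / T₁ := by rw [le_div_iff₀ hT₁0]; linarith
    calc 2 * B * Lt X h * W ≤ 2 * B * (X / T₁) * W := by
          have := h1.trans h4
          gcongr
      _ = c₁ * m * X / 8 := by rw [hT₁]; field_simp; ring
  have hc' : 4 * B * h ≤ c₁ * m * X / 8 := by
    have h1 : T₂ ^ (7 / 3 : ℝ) ≤ X := (le_max_right _ _).trans hX0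
    have h2 : T₂ ≤ X ^ (3 / 7 : ℝ) := by
      calc T₂ = (T₂ ^ (7 / 3 : ℝ)) ^ (3 / 7 : ℝ) := by
            rw [← Real.rpow_mul hT₂0.le]; norm_num
        _ ≤ _ := Real.rpow_le_rpow (by positivity) h1 (by norm_num)
    have h3 : X ^ (4 / 7 : ℝ) * X ^ (3 / 7 : ℝ) = X := by
      rw [← Real.rpow_add hX]; norm_num
    have h4 : h * T₂ ≤ X := by
      calc h * T₂ ≤ X ^ (4 / 7 : ℝ) * X ^ (3 / 7 : ℝ) := by gcongr
        _ = X := h3
    have h5 : h ≤ X / T₂ := by rw [le_div_iff₀ hT₂0]; exact h4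
    calc 4 * B * h ≤ 4 * B * (X / T₂) := by gcongr
      _ = c₁ * m * X / 8 := by rw [hT₂]; field_simp; ring
  have hκ : |κ| ≤ κ₂ := by rw [abs_of_pos (by linarith)]; exact hκ2
  -- complex box facts
  have BB := fun (w : Fin 3 → ℂ) (hw : ∀ i, ‖w i‖ ≤ W) => box_bounds g B m M hB hm hM hBi c₁ c₂ W X h
    (Lr c₀ X h) (Lt X h) r p k hc₁ hc₂ hW0 hX hLr0 hLt0 hh ha hb hc' hr1 hr2 hωp hk w hw
  have hcm : 0 < c₁ * m * X / 2 := by positivity
  have P1 : ∀ (w : Fin 3 → ℂ), (∀ i, ‖w i‖ ≤ W) → ∀ j,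
      0 < (AA g r p j + LL g (Lr c₀ X h) (Lt X h) p w j + KV g k j).re := by
    intro w hw j
    have := (BB w hw 1 1 zero_le_one le_rfl zero_le_one le_rfl).1 j
    simp only [Complex.ofReal_one, one_mul] at this
    linarith
  have P2 : ∀ (w : Fin 3 → ℂ), (∀ i, ‖w i‖ ≤ W) → ∀ j,
      0 < (AA g r p j + LL g (Lr c₀ X h) (Lt X h) p w j).re := by
    intro w hw j
    have := (BB w hw 1 0 zero_le_one le_rfl le_rfl zero_le_one).1 j
    simp only [Complex.ofReal_one, one_mul, Complex.ofReal_zero, zero_mul, add_zero] at this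
    linarith
  have P3 : ∀ j, 0 < r * g.om j p + (g.b1 j * k.1 + g.b2 j * k.2) := by
    intro j
    have := (BB (fun _ => 0) (fun _ => by simp [hW0.le]) 0 1 le_rfl zero_le_one zero_le_one le_rfl).1 j
    simp only [Complex.ofReal_one, one_mul, Complex.ofReal_zero, zero_mul, add_zero] at this
    have e : (AA g r p j + KV g k j).re = r * g.om j p + (g.b1 j * k.1 + g.b2 j * k.2) := by
      have : AA g r p j + KV g k j = ((r * g.om j p + (g.b1 j * k.1 + g.b2 j * k.2) : ℝ) : ℂ) := by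
        simp only [AA, KV]; push_cast; ring
      rw [this, Complex.ofReal_re]
    rw [e] at this
    linarith
  have R1 : ∀ (w : Fin 3 → ℝ), (∀ i, |w i| ≤ W) → ∀ j, 0 < g.lam j (xb c₀ X h r p w) := by
    intro w hw j
    have h1 := P2 (fun i => (w i : ℂ)) (fun i => by rw [Complex.norm_real]; exact hw i) j
    have e : AA g r p j + LL g (Lr c₀ X h) (Lt X h) p (fun i => (w i : ℂ)) j
        = ((g.lam j (xb c₀ X h r p w) : ℝ) : ℂ) := by
      rw [lam_xb]; simp only [AA, LL]; push_cast; ring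
    rw [e, Complex.ofReal_re] at h1
    exact h1
  have R2 : ∀ (w : Fin 3 → ℝ), (∀ i, |w i| ≤ W) → ∀ j, 0 < g.lam j (xb c₀ X h r p w + shr k) := by
    intro w hw j
    have h1 := P1 (fun i => (w i : ℂ)) (fun i => by rw [Complex.norm_real]; exact hw i) j
    have e : AA g r p j + LL g (Lr c₀ X h) (Lt X h) p (fun i => (w i : ℂ)) j + KV g k j
        = ((g.lam j (xb c₀ X h r p w + shr k) : ℝ) : ℂ) := by
      rw [lam_shr, lam_xb]; simp only [AA, LL, KV]; push_cast; ring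
    rw [e, Complex.ofReal_re] at h1
    exact h1
  have hvW : ∀ i, |v i| ≤ W := fun i => (hv i).trans (by linarith)
  refine ⟨⟨?_, fun i => ⟨R1 v hvW i, R2 v hvW i⟩⟩, ?_⟩
  · simp only [xb, Matrix.cons_val_zero]
    have h1 : |Lr c₀ X h * v 0| ≤ Lr c₀ X h * W := by
      rw [abs_mul, abs_of_nonneg hLr0]
      exact mul_le_mul_of_nonneg_left (hvW 0) hLr0
    have h2 : Lr c₀ X h * W ≤ c₁ * X / 8 := by
      have hmM : m ≤ M := (hωp 0).1.trans (hωp 0).2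
      have h3 : Lr c₀ X h * W * M ≤ (c₁ * X / 8) * M := by
        refine ha.trans ?_
        have : c₁ * m * X / 8 ≤ c₁ * M * X / 8 := by gcongr
        linarith
      exact le_of_mul_le_mul_right h3 hM
    have h3 := (abs_le.mp h1).1
    have : 0 < c₁ * X := by positivity
    linarith
  · intro i j hj
    set vc : Fin 3 → ℂ := fun l => (v l : ℂ) with hvc
    set F : ℂ → ℂ := fun z => Complex.exp (2 * Real.pi * Complex.I *
      RC g κ (Lr c₀ X h) (Lt X h) r p k (Function.update vc i z)) with hF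
    have hupd : ∀ z : ℂ, ‖z - v i‖ ≤ 1 → ∀ l, ‖Function.update vc i z l‖ ≤ W := by
      intro z hz l
      by_cases hl : l = i
      · subst hl
        rw [Function.update_self]
        have h1 : ‖z‖ ≤ ‖z - v l‖ + ‖(v l : ℂ)‖ := by
          have := norm_add_le (z - v l) (v l : ℂ)
          simpa using this
        rw [Complex.norm_real, Real.norm_eq_abs] at h1
        linarith [hv l]
      · rw [Function.update_of_ne hl, hvc]
        simp only [Complex.norm_real, Real.norm_eq_abs]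
        exact hvW l
    have hFd : ∀ z : ℂ, ‖z - v i‖ ≤ 1 → DifferentiableAt ℂ F z := by
      intro z hz
      have := diff_RC g κ (Lr c₀ X h) (Lt X h) r p k vc i z (P1 _ (hupd z hz)) (P2 _ (hupd z hz))
      exact (this.const_mul _).cexp
    have hFb : ∀ z : ℂ, ‖z - v i‖ ≤ 1 → ‖F z‖ ≤ Real.exp (2 * Real.pi * Cb) := by
      intro z hz
      have h1 := RC_bound g B m M hB hm hM hBi κ c₁ c₂ W X h (Lr c₀ X h) (Lt X h) r p k hc₁ hc₂ hW0 hX
        hLr0 hLt0 hh ha hb hc' hr1 hr2 hωp hk (Function.update vc i z) (hupd z hz)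
      have h2 := h1.trans (final_num B m M κ κ₂ c₀ c₁ c₂ W X h hB hm hM hc₀ hc₁ hc₂ hW0 hX hh hκ)
      simp only [hF]
      rw [Complex.norm_exp]
      apply Real.exp_le_exp.mpr
      refine (Complex.re_le_norm _).trans ?_
      rw [norm_mul, norm_mul, norm_mul, Complex.norm_I, Complex.norm_real, Real.norm_eq_abs,
        abs_of_pos Real.pi_pos, mul_one]
      have : ‖(2 : ℂ)‖ = 2 := by norm_num
      rw [this]
      have := Real.pi_pos
      gcongr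
    have hball : DifferentiableOn ℂ F (Metric.closedBall (v i : ℂ) 1) := by
      intro z hz
      rw [Metric.mem_closedBall, Complex.dist_eq] at hz
      exact (hFd z hz).differentiableWithinAt
    have hf : ∀ t : ℝ, |t - v i| < 1 →
        ex (Rem g κ c₀ X h k r p (Function.update v i t)) = F t := by
      intro t ht
      have hw : ∀ l, |Function.update v i t l| ≤ W := by
        intro l
        by_cases hl : l = i
        · subst hl
          rw [Function.update_self]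
          have := abs_add_le (t - v l) (v l)
          simp only [sub_add_cancel] at this
          linarith [hv l]
        · rw [Function.update_of_ne hl]; exact hvW l
      have h1 := RC_real g κ c₀ X h r p k (Function.update v i t) hr0
        (fun j => hm.trans_le (hωp j).1) P3 (R1 _ hw) (R2 _ hw)
      have h2 : (fun l => ((Function.update v i t l : ℝ) : ℂ)) = Function.update vc i (t : ℂ) := by
        funext l
        by_cases hl : l = i
        · subst hl; simp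
        · simp [Function.update_of_ne hl, hvc]
      rw [h2] at h1
      simp only [hF, ex]
      rw [h1]
    have h1 := iteratedDeriv_real_complex F _ (v i) (hball.mono Metric.ball_subset_closedBall) hf j (v i)
      (by simp)
    rw [h1]
    have h2 := Complex.norm_iteratedDeriv_le_of_forall_mem_sphere_norm_le (F := ℂ) (c := (v i : ℂ)) (R := 1)
      (C := Real.exp (2 * Real.pi * Cb)) (f := F) j one_pos
      (DifferentiableOn.diffContOnCl (by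
        rw [closure_ball _ one_ne_zero]; exact hball))
      (by
        intro z hz
        apply hFb
        rw [mem_sphere_iff_norm] at hz
        exact hz.le)
    refine h2.trans ?_
    rw [one_pow, div_one]
    have h3 : (j.factorial : ℝ) ≤ N.factorial := by exact_mod_cast Nat.factorial_le hj
    gcongr

end Pool.Agent.Helper19.BD
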