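import Pool.Agent.Helper19.BD.ETij
import Pool.Agent.Helper19.BD.EPU

/-!
MP_bd232a_nt, part E, block E16 (sum over the boxes). `η` from `exists_PU`; `tsupport Ψ ⊆ cone ps d` compact: choose `0 < c₁ ≤ c₂` with `2c₁ ≤ x₀ ≤ c₂/2` on the support.
For `y` in the support of the summand of `ET` (finitely many `y`): `y₀ ≥ 2c₁X > 0` and `1 = Σ_i η(y₀/L_r - i) Σ_{j₁} η(y₁/(y₀τ) - j₁) Σ_{j₂} η(y₂/(y₀τ)-j₂)`; only `i ∈ II` (if `L_r ≤ c₀X`,
`c₀ ≤ c₁`, X large: `|iL_r - y₀| < L_r`) and `j ∈ JJ ps (2d)` (`|τ j_l - y_l/y₀| < τ ≤ d` for `X ≥ X₀`) contribute. Interchange finite sums; `tijBound`.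
-/

open scoped ContDiff

namespace Pool.Agent.Helper19.BD

/-- the support of `Ψ` has first coordinate in a compact part of `(0, ∞)` -/
private lemma exists_supp_bounds (ps : ℝ × ℝ) (d : ℝ) (Ψ : (Fin 3 → ℝ) → ℂ) (hc : HasCompactSupport Ψ)
    (hs : tsupport Ψ ⊆ cone ps d) : ∃ a b : ℝ, 0 < a ∧ a ≤ b ∧ ∀ x, Ψ x ≠ 0 → a ≤ x 0 ∧ x 0 ≤ b := by
  have hcont : ContinuousOn (fun x : Fin 3 → ℝ => x 0) (tsupport Ψ) := (continuous_apply 0).continuousOn
  rcases (tsupport Ψ).eq_empty_or_nonempty with he | hne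
  · refine ⟨1, 1, one_pos, le_rfl, fun x hx => ?_⟩
    have : x ∈ tsupport Ψ := subset_tsupport _ hx
    rw [he] at this
    exact absurd this (Set.notMem_empty x)
  · obtain ⟨x₁, hx₁, h₁⟩ := IsCompact.exists_isMinOn hc hne hcont
    obtain ⟨x₂, hx₂, h₂⟩ := IsCompact.exists_isMaxOn hc hne hcont
    refine ⟨x₁ 0, x₂ 0, (hs hx₁).1, ?_, fun x hx => ⟨?_, ?_⟩⟩
    · exact h₁ hx₂
    · exact h₁ (subset_tsupport _ hx)
    · exact h₂ (subset_tsupport _ hx)

/-- the sum of the shifted partition functions over any finite set of indices that contains the relevant ones -/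
private lemma sum_pu {η : ℝ → ℝ} (hη : IsPU η) (s : Finset ℤ) (t : ℝ) (hs : ∀ i : ℤ, |t - i| < 1 → i ∈ s) :
    ∑ i ∈ s, η (t - i) = 1 := by
  have h1 := hη.sum t
  have h2 : HasSum (fun i : ℤ => η (t - i)) (∑ i ∈ s, η (t - i)) := by
    apply hasSum_sum_of_ne_finset_zero
    intro i hi
    by_contra hne
    exact hi (hs i (hη.supp _ hne))
  exact h2.unique h1

private lemma finite_supp (Ψ : (Fin 3 → ℝ) → ℂ) (hc : HasCompactSupport Ψ) (X : ℝ) (hX : 1 ≤ X) :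
    {y : Fin 3 → ℤ | Ψ (fun i => (y i : ℝ) / X) ≠ 0}.Finite := by
  have hb : Bornology.IsBounded (tsupport Ψ) := IsCompact.isBounded hc
  obtain ⟨R, hR⟩ := hb.exists_norm_le
  have hX0 : 0 < X := by linarith
  apply Set.Finite.subset (Set.finite_Icc (fun _ : Fin 3 => -⌈R * X⌉) (fun _ : Fin 3 => ⌈R * X⌉))
  intro y hy
  have h1 := hR _ (subset_tsupport _ hy)
  have h2 : ∀ i, |(y i : ℝ)| ≤ R * X := by
    intro i
    have := (norm_le_pi_norm (fun i => (y i : ℝ) / X) i).trans h1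
    rw [Real.norm_eq_abs, abs_div, abs_of_pos hX0, div_le_iff₀ hX0] at this
    exact this
  refine ⟨fun i => ?_, fun i => ?_⟩
  · have h3 := (abs_le.1 (h2 i)).1
    have h4 : (-(⌈R * X⌉ : ℤ) : ℝ) ≤ y i := by
      have := Int.le_ceil (R * X)
      linarith
    exact_mod_cast h4
  · have h3 := (abs_le.1 (h2 i)).2
    have h4 : (y i : ℝ) ≤ (⌈R * X⌉ : ℤ) := h3.trans (Int.le_ceil _)
    exact_mod_cast h4

theorem tBound (g : Geo) (ps : ℝ × ℝ) (hps : ps ∈ g.U) : ∃ d : ℝ, 0 < d ∧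
    ∀ d', 0 < d' → d' ≤ d → ∀ (κ₁ κ₂ : ℝ) (Ψ : (Fin 3 → ℝ) → ℂ), 0 < κ₁ → κ₁ ≤ κ₂ → ContDiff ℝ ∞ Ψ → HasCompactSupport Ψ →
    tsupport Ψ ⊆ cone ps d' → ∃ c₀ c₁ c₂ C X₀ : ℝ, 0 < c₀ ∧ 0 < c₁ ∧ c₁ ≤ c₂ ∧ 0 < C ∧
    ∀ X h κ : ℝ, Reg X₀ X h → κ₁ ≤ κ → κ ≤ κ₂ → ∀ k ∈ KK h,
      ‖ET g Ψ κ X k‖ ≤ C * (Lr c₀ X h * Lt X h ^ 2) *
        ∑ i ∈ II c₀ c₁ c₂ X h, ∑ j ∈ JJ ps (2 * d') X h,
          ∑' n : Fin 3 → ℤ, 1 / (Wt g κ c₀ X h (cst k) (i * Lr c₀ X h) (pj X h j) n) ^ 10 := by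
  obtain ⟨d, hd, H⟩ := tijBound g ps hps
  refine ⟨d, hd, fun d' hd' hdd κ₁ κ₂ Ψ hκ₁ hκ₂ hsm hc hs => ?_⟩
  obtain ⟨η, hη, -, -⟩ := exists_PU
  obtain ⟨a, b, ha, hab, hsup⟩ := exists_supp_bounds ps d' Ψ hc hs
  have hs' : tsupport Ψ ⊆ cone ps d := fun x hx => by
    obtain ⟨h0, h1, h2⟩ := hs hx
    exact ⟨h0, h1.trans_le hdd, h2.trans_le hdd⟩
  have hc₁ : 0 < a / 2 := by positivity
  have hc₁₂ : a / 2 ≤ 2 * b := by linarith
  obtain ⟨cs, hcs, H1⟩ := H κ₁ κ₂ Ψ η hκ₁ hκ₂ hsm hc hs' hη (a / 2) (2 * b) hc₁ hc₁₂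
  have hc₀ : 0 < min cs (a / 2) := lt_min hcs hc₁
  obtain ⟨C, X₀, hC, H2⟩ := H1 (min cs (a / 2)) hc₀ (min_le_left _ _)
  refine ⟨min cs (a / 2), a / 2, 2 * b, C, max X₀ (1 / d' ^ 2), hc₀, hc₁, hc₁₂, hC, ?_⟩
  intro X h κ hreg hk₁ hk₂ k hk
  obtain ⟨hX1, hX0, hh1, hhX⟩ := hreg
  have hXX₀ : X₀ ≤ X := (le_max_left _ _).trans hX0
  have hXd : 1 / d' ^ 2 ≤ X := (le_max_right _ _).trans hX0
  have hXpos : 0 < X := by linarith
  have hhpos : 0 < h := by linarith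
  set c₀ := min cs (a / 2) with hc₀def
  set L := Lr c₀ X h with hL
  set τ := ta X h with hτ
  have hLpos : 0 < L := by
    rw [hL, Lr]
    apply mul_pos hc₀
    apply lt_min hXpos
    positivity
  have hLX : L ≤ a / 2 * X := by
    rw [hL, Lr]
    calc c₀ * min X ((X / h) ^ (3 / 2 : ℝ)) ≤ c₀ * X := by gcongr; exact min_le_left _ _
      _ ≤ a / 2 * X := by gcongr; exact min_le_right _ _
  have hτpos : 0 < τ := by rw [hτ, ta]; positivity
  have hτd : τ ≤ d' := by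
    rw [hτ, ta]
    have h1 : 1 / d' ≤ √(h * X) := by
      apply Real.le_sqrt_of_sq_le
      rw [div_pow, one_pow]
      calc 1 / d' ^ 2 ≤ X := hXd
        _ = 1 * X := (one_mul X).symm
        _ ≤ h * X := by gcongr
    have h2 : 0 < 1 / d' := by positivity
    calc 1 / √(h * X) ≤ 1 / (1 / d') := one_div_le_one_div_of_le h2 h1
      _ = d' := by field_simp
  -- the summand
  set F : (Fin 3 → ℤ) → ℂ := fun y =>
    (Ψ (fun l => ((y + shz k) l : ℝ) / X) * ex (κ * g.phi (fun l => ((y + shz k) l : ℝ)))) *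
    (starRingEnd ℂ) (Ψ (fun l => (y l : ℝ) / X) * ex (κ * g.phi (fun l => (y l : ℝ)))) with hF
  set W : ℤ → ℤ × ℤ → (Fin 3 → ℤ) → ℂ := fun i j y =>
    ((η (y 0 / L - i) * η (y 1 / (y 0 * τ) - j.1) * η (y 2 / (y 0 * τ) - j.2) : ℝ) : ℂ) with hW
  have hF0 : ∀ y, Ψ (fun l => (y l : ℝ) / X) = 0 → F y = 0 := by
    intro y hy
    simp [hF, hy]
  have hone : ∀ y, Ψ (fun l => (y l : ℝ) / X) ≠ 0 →
      ∑ i ∈ II c₀ (a / 2) (2 * b) X h, ∑ j ∈ JJ ps (2 * d') X h, W i j y = 1 := by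
    intro y hy
    have hy1 := hsup _ hy
    have hy2 := hs (subset_tsupport _ hy)
    simp only [cone, Set.mem_ofPred_eq] at hy2 hy1
    have hy0 : 0 < (y 0 : ℝ) := by
      have := hy2.1
      rwa [lt_div_iff₀ hXpos, zero_mul] at this
    have hlow : a * X ≤ y 0 := (le_div_iff₀ hXpos).1 hy1.1
    have hup : (y 0 : ℝ) ≤ b * X := (div_le_iff₀ hXpos).1 hy1.2
    have hq1 : (y 1 : ℝ) / X / (y 0 / X) = y 1 / y 0 := by field_simp
    have hq2 : (y 2 : ℝ) / X / (y 0 / X) = y 2 / y 0 := by field_simp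
    rw [hq1, hq2] at hy2
    have e1 : ∑ i ∈ II c₀ (a / 2) (2 * b) X h, η (y 0 / L - i) = 1 := by
      apply sum_pu hη
      intro i hi
      have h1 : |(y 0 : ℝ) - i * L| < L := by
        have : (y 0 : ℝ) - i * L = (y 0 / L - i) * L := by field_simp
        rw [this, abs_mul, abs_of_pos hLpos]
        calc |(y 0 : ℝ) / L - i| * L < 1 * L := by gcongr
          _ = L := one_mul L
      rw [abs_lt] at h1
      rw [II, Finset.mem_Icc, ← hL, Int.ceil_le, Int.le_floor, div_le_iff₀ hLpos, le_div_iff₀ hLpos]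
      constructor
      · linarith [h1.2]
      · have : L ≤ b * X := by
          calc L ≤ a / 2 * X := hLX
            _ ≤ b * X := by gcongr; linarith
        linarith [h1.1]
    have ej : ∀ (m : ℝ) (q : ℝ), |m / y 0 - q| < d' →
        ∑ j ∈ Finset.Icc ⌈(q - 2 * d') / τ⌉ ⌊(q + 2 * d') / τ⌋, η (m / (y 0 * τ) - j) = 1 := by
      intro m q hq
      apply sum_pu hη
      intro j hj
      have h1 : |m / y 0 - j * τ| < τ := by
        have : m / y 0 - j * τ = (m / (y 0 * τ) - j) * τ := by field_simp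
        rw [this, abs_mul, abs_of_pos hτpos]
        calc |m / (y 0 * τ) - j| * τ < 1 * τ := by gcongr
          _ = τ := one_mul τ
      rw [abs_lt] at h1 hq
      rw [Finset.mem_Icc, Int.ceil_le, Int.le_floor, div_le_iff₀ hτpos, le_div_iff₀ hτpos]
      constructor
      · linarith [h1.1, h1.2, hq.1, hq.2]
      · linarith [h1.1, h1.2, hq.1, hq.2]
    have e2 := ej (y 1) ps.1 hy2.2.1
    have e3 := ej (y 2) ps.2 hy2.2.2
    have e4 : ∑ j ∈ JJ ps (2 * d') X h, (η (y 1 / (y 0 * τ) - j.1) * η (y 2 / (y 0 * τ) - j.2)) = 1 := by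
      rw [JJ, Finset.sum_product]
      simp only
      rw [← Finset.sum_mul_sum, ← hτ, e2, e3, one_mul]
    have e5 : ∑ i ∈ II c₀ (a / 2) (2 * b) X h, ∑ j ∈ JJ ps (2 * d') X h,
        (η (y 0 / L - i) * η (y 1 / (y 0 * τ) - j.1) * η (y 2 / (y 0 * τ) - j.2)) = 1 := by
      have : ∀ i ∈ II c₀ (a / 2) (2 * b) X h, ∑ j ∈ JJ ps (2 * d') X h,
          (η (y 0 / L - i) * η (y 1 / (y 0 * τ) - j.1) * η (y 2 / (y 0 * τ) - j.2)) = η (y 0 / L - i) := by
        intro i _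
        simp_rw [mul_assoc]
        rw [← Finset.mul_sum, e4, mul_one]
      rw [Finset.sum_congr rfl this, e1]
    simp only [hW]
    exact_mod_cast e5
  have hfin := finite_supp Ψ hc X hX1
  have hsummable : ∀ i j, Summable (fun y => F y * W i j y) := by
    intro i j
    apply summable_of_hasFiniteSupport
    apply hfin.subset
    intro y hy
    simp only [Function.mem_support, ne_eq] at hy
    intro hz
    exact hy (by rw [hF0 y hz, zero_mul])
  have hT : ∀ i j, ∑' y, F y * W i j y = Tij g Ψ η κ c₀ X h k i j := by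
    intro i j
    rfl
  have hET : ET g Ψ κ X k = ∑ i ∈ II c₀ (a / 2) (2 * b) X h, ∑ j ∈ JJ ps (2 * d') X h, Tij g Ψ η κ c₀ X h k i j := by
    have h1 : ET g Ψ κ X k = ∑' y, ∑ i ∈ II c₀ (a / 2) (2 * b) X h, ∑ j ∈ JJ ps (2 * d') X h, F y * W i j y := by
      rw [ET]
      apply tsum_congr
      intro y
      by_cases hy : Ψ (fun l => (y l : ℝ) / X) = 0
      · have h2 : F y = 0 := hF0 y hy
        have h3 : ∑ i ∈ II c₀ (a / 2) (2 * b) X h, ∑ j ∈ JJ ps (2 * d') X h, F y * W i j y = 0 := by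
          simp [h2]
        rw [h3]
        exact h2
      · have h2 : ∑ i ∈ II c₀ (a / 2) (2 * b) X h, ∑ j ∈ JJ ps (2 * d') X h, F y * W i j y = F y := by
          simp_rw [← Finset.mul_sum]
          rw [hone y hy, mul_one]
        rw [h2]
    rw [h1, Summable.tsum_finsetSum (fun i _ => summable_sum (fun j _ => hsummable i j))]
    apply Finset.sum_congr rfl
    intro i _
    rw [Summable.tsum_finsetSum (fun j _ => hsummable i j)]
    exact Finset.sum_congr rfl (fun j _ => hT i j)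
  have hJ : JJ ps (2 * d') X h ⊆ JJ ps (2 * d) X h := by
    rw [JJ, JJ, ← hτ]
    apply Finset.product_subset_product
    · apply Finset.Icc_subset_Icc
      · apply Int.ceil_le_ceil
        gcongr
      · apply Int.floor_le_floor
        gcongr
    · apply Finset.Icc_subset_Icc
      · apply Int.ceil_le_ceil
        gcongr
      · apply Int.floor_le_floor
        gcongr
  rw [hET, Finset.mul_sum]
  refine (norm_sum_le _ _).trans (Finset.sum_le_sum fun i hi => ?_)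
  rw [Finset.mul_sum]
  refine (norm_sum_le _ _).trans (Finset.sum_le_sum fun j hj => ?_)
  exact H2 X h κ ⟨hX1, hXX₀, hh1, hhX⟩ hk₁ hk₂ k hk i hi j (hJ hj)

end Pool.Agent.Helper19.BD
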