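import Pool.Agent.Helper19.BD.EJet

/-!
MP_bd232a_nt, part E, block E02 (Taylor). Uses `jet` (E01).
With `P_θ = p + θ s k`, `0 ≤ θ ≤ 1`:  `Hp k s p w = ∫₀¹ f2(P_θ; w, k) dθ` and `Ev k s p = ∫₀¹ [f1(P_θ;k) - θ s f2(P_θ;k,k)] dθ`
(fundamental theorem of calculus along the segment, integration by parts for the second). The functions `f1,f2,f3` are multilinear
and symmetric in `k,w,z` (explicit formulas).
(T1) `f2(P'_θ;k,w) - f2(P_θ;k,w) = ∫₀¹ f3(·; k, w, δ + θ D k) dt`, `δ = p'-p`, `D = s'-s`; replace the base point by `q`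
(all points are within `2R` of `q`), integrate over `θ` (`∫θ = 1/2`).
(T2) for `e_θ(s,p) = f1(P_θ;k) - θ s f2(P_θ;k,k)`: along the straight path from `(s,p)` to `(s',p')`,
`d/dt e_θ = f2(P;k,δ) - θ s(t) f3(P;k,k,δ+θDk)`; `f2(P(t);k,δ)` is linear in `t` up to `C R ‖k‖‖δ‖(‖δ‖+‖k‖|D|)`, so its integral is the mean of the end values;
in the second term replace `f3` by its value at `q`; `∫θ = 1/2`, `∫θ² = 1/3`, `∫ s(t) dt = (s+s')/2`.
(T3) `f1(q;k) = f1(P_θ;k) + f2(P_θ;k,q-p) - θ s f2(P_θ;k,k) + O(‖k‖ ‖q-P_θ‖²)`, integrate over `θ`.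
-/

namespace Pool.Agent.Helper19.BD.ETaylorAux

open Set

/-! ### one-variable Taylor inequalities -/

lemma tayA {φ φ' : ℝ → ℝ} {c ε : ℝ} (h : ∀ t ∈ Icc (0 : ℝ) 1, HasDerivAt φ (φ' t) t)
    (hb : ∀ t ∈ Icc (0 : ℝ) 1, |φ' t - c| ≤ ε) : |φ 1 - φ 0 - c| ≤ ε := by
  have h1 : ∀ t ∈ Icc (0 : ℝ) 1, HasDerivWithinAt (fun t => φ t - c * t) (φ' t - c) (Icc 0 1) t := by
    intro t ht
    have := (h t ht).sub ((hasDerivAt_id t).const_mul c)
    rw [mul_one] at this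
    exact this.hasDerivWithinAt
  have h2 := (convex_Icc (0 : ℝ) 1).norm_image_sub_le_of_norm_hasDerivWithin_le h1
    (fun t ht => by rw [Real.norm_eq_abs]; exact hb t ht) (left_mem_Icc.2 zero_le_one) (right_mem_Icc.2 zero_le_one)
  rw [Real.norm_eq_abs, Real.norm_eq_abs] at h2
  simp only [mul_one, mul_zero, sub_zero, abs_one] at h2
  rwa [show φ 1 - φ 0 - c = φ 1 - c - φ 0 by ring]

lemma tayB {φ φ' φ'' : ℝ → ℝ} {c ε : ℝ} (h : ∀ t ∈ Icc (0 : ℝ) 1, HasDerivAt φ (φ' t) t)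
    (h' : ∀ t ∈ Icc (0 : ℝ) 1, HasDerivAt φ' (φ'' t) t)
    (hb : ∀ t ∈ Icc (0 : ℝ) 1, |φ'' t - c| ≤ ε) : |φ' 1 - (φ 1 - φ 0) - 1 / 2 * c| ≤ ε := by
  have key := tayA (φ := fun t => t * φ' t - φ t - c * t ^ 2 / 2) (φ' := fun t => t * (φ'' t - c)) (c := 0) (ε := ε)
    (by
      intro t ht
      have h1 := (((hasDerivAt_id t).mul (h' t ht)).sub (h t ht)).sub
        ((((hasDerivAt_id t).pow 2).const_mul c).div_const 2)
      refine h1.congr_deriv ?_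
      simp only [id]
      ring)
    (by
      intro t ht
      rw [sub_zero, abs_mul, abs_of_nonneg ht.1]
      have h0 := (abs_nonneg _).trans (hb t ht)
      calc t * |φ'' t - c| ≤ 1 * ε := mul_le_mul ht.2 (hb t ht) (abs_nonneg _) zero_le_one
        _ = ε := one_mul _)
  convert key using 2
  ring

lemma tayC {φ φ' φ'' φ''' : ℝ → ℝ} {c ε : ℝ} (h : ∀ t ∈ Icc (0 : ℝ) 1, HasDerivAt φ (φ' t) t)
    (h' : ∀ t ∈ Icc (0 : ℝ) 1, HasDerivAt φ' (φ'' t) t)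
    (h'' : ∀ t ∈ Icc (0 : ℝ) 1, HasDerivAt φ'' (φ''' t) t)
    (hb : ∀ t ∈ Icc (0 : ℝ) 1, |φ''' t - c| ≤ ε) : |φ'' 1 - 2 * φ' 1 + 2 * (φ 1 - φ 0) - 1 / 3 * c| ≤ ε := by
  have key := tayA (φ := fun t => t ^ 2 * φ'' t - 2 * (t * φ' t) + 2 * φ t - c * t ^ 3 / 3)
    (φ' := fun t => t ^ 2 * (φ''' t - c)) (c := 0) (ε := ε)
    (by
      intro t ht
      have h1 := (((((hasDerivAt_id t).pow 2).mul (h'' t ht)).sub
        (((hasDerivAt_id t).mul (h' t ht)).const_mul 2)).add ((h t ht).const_mul 2)).sub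
        ((((hasDerivAt_id t).pow 3).const_mul c).div_const 3)
      refine h1.congr_deriv ?_
      simp only [id, Pi.pow_apply]
      ring)
    (by
      intro t ht
      rw [sub_zero, abs_mul, abs_of_nonneg (sq_nonneg t)]
      have h0 := (abs_nonneg _).trans (hb t ht)
      have h2 : t ^ 2 ≤ 1 := pow_le_one₀ ht.1 ht.2
      calc t ^ 2 * |φ''' t - c| ≤ 1 * ε := mul_le_mul h2 (hb t ht) (abs_nonneg _) zero_le_one
        _ = ε := one_mul _)
  convert key using 2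
  ring

/-- `φ(1) - φ(0) = φ'(0) + O(M)` -/
lemma tayD {φ φ' φ'' : ℝ → ℝ} {M : ℝ} (h : ∀ t ∈ Icc (0 : ℝ) 1, HasDerivAt φ (φ' t) t)
    (h' : ∀ t ∈ Icc (0 : ℝ) 1, HasDerivAt φ' (φ'' t) t)
    (hb : ∀ t ∈ Icc (0 : ℝ) 1, |φ'' t| ≤ M) : |φ 1 - φ 0 - φ' 0| ≤ M := by
  have hM : 0 ≤ M := (abs_nonneg _).trans (hb 0 (left_mem_Icc.2 zero_le_one))
  refine tayA h fun t ht => ?_
  have h1 : ∀ u ∈ Icc (0 : ℝ) 1, HasDerivWithinAt φ' (φ'' u) (Icc 0 1) u := fun u hu => (h' u hu).hasDerivWithinAt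
  have h2 := (convex_Icc (0 : ℝ) 1).norm_image_sub_le_of_norm_hasDerivWithin_le h1
    (fun u hu => by rw [Real.norm_eq_abs]; exact hb u hu) (left_mem_Icc.2 zero_le_one) ht
  rw [Real.norm_eq_abs, Real.norm_eq_abs, sub_zero, abs_of_nonneg ht.1] at h2
  refine h2.trans ?_
  calc M * t ≤ M * 1 := mul_le_mul_of_nonneg_left ht.2 hM
    _ = M := mul_one M

/-- `2 (φ(1) - φ(0)) - φ'(1) = φ'(0) + O(M)`, `M` a bound for the third derivative -/
lemma tayE {φ φ' φ'' φ''' : ℝ → ℝ} {M : ℝ} (h : ∀ t ∈ Icc (0 : ℝ) 1, HasDerivAt φ (φ' t) t)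
    (h' : ∀ t ∈ Icc (0 : ℝ) 1, HasDerivAt φ' (φ'' t) t)
    (h'' : ∀ t ∈ Icc (0 : ℝ) 1, HasDerivAt φ'' (φ''' t) t)
    (hb : ∀ t ∈ Icc (0 : ℝ) 1, |φ''' t| ≤ M) : |2 * (φ 1 - φ 0) - φ' 1 - φ' 0| ≤ M := by
  have hM : 0 ≤ M := (abs_nonneg _).trans (hb 0 (left_mem_Icc.2 zero_le_one))
  -- χ(t) = φ'(t) - φ'(0) - t φ''(t)
  have hχ : ∀ t ∈ Icc (0 : ℝ) 1, |φ' t - φ' 0 - t * φ'' t| ≤ M := by
    intro t ht
    have h1 : ∀ u ∈ Icc (0 : ℝ) 1, HasDerivWithinAt (fun u => φ' u - φ' 0 - u * φ'' u) (-(u * φ''' u)) (Icc 0 1) u := by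
      intro u hu
      have h3 := (((h' u hu).sub_const (φ' 0)).sub ((hasDerivAt_id u).mul (h'' u hu)))
      refine (h3.congr_deriv ?_).hasDerivWithinAt
      simp only [id]
      ring
    have h2 := (convex_Icc (0 : ℝ) 1).norm_image_sub_le_of_norm_hasDerivWithin_le (C := M) h1
      (fun u hu => by
        rw [Real.norm_eq_abs, abs_neg, abs_mul, abs_of_nonneg hu.1]
        calc u * |φ''' u| ≤ 1 * M := mul_le_mul hu.2 (hb u hu) (abs_nonneg _) zero_le_one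
          _ = M := one_mul M) (left_mem_Icc.2 zero_le_one) ht
    rw [Real.norm_eq_abs, Real.norm_eq_abs, sub_zero, abs_of_nonneg ht.1] at h2
    simp only [sub_self, zero_mul, sub_zero] at h2
    refine h2.trans ?_
    calc M * t ≤ M * 1 := mul_le_mul_of_nonneg_left ht.2 hM
      _ = M := mul_one M
  have key := tayA (φ := fun t => 2 * φ t - t * φ' t - t * φ' 0) (φ' := fun t => φ' t - φ' 0 - t * φ'' t) (c := 0) (ε := M)
    (by
      intro t ht
      have h1 := (((h t ht).const_mul 2).sub ((hasDerivAt_id t).mul (h' t ht))).sub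
        ((hasDerivAt_id t).mul_const (φ' 0))
      refine h1.congr_deriv ?_
      simp only [id]
      ring)
    (by
      intro t ht
      rw [sub_zero]
      exact hχ t ht)
  convert key using 2
  ring

/-! ### multilinearity -/

variable (g : Geo)

lemma f1_lin (p k w : ℝ × ℝ) (c : ℝ) : g.f1 p (k + c • w) = g.f1 p k + c * g.f1 p w := by
  simp only [Geo.f1, Geo.TT, Geo.tt, Fin.sum_univ_three, Prod.fst_add, Prod.snd_add, Prod.smul_fst, Prod.smul_snd,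
    smul_eq_mul]
  ring

lemma f1_smul (p k : ℝ × ℝ) (c : ℝ) : g.f1 p (c • k) = c * g.f1 p k := by
  simp only [Geo.f1, Geo.TT, Geo.tt, Fin.sum_univ_three, Prod.smul_fst, Prod.smul_snd, smul_eq_mul]
  ring

lemma f2_lin (p k w z : ℝ × ℝ) (c : ℝ) : g.f2 p k (w + c • z) = g.f2 p k w + c * g.f2 p k z := by
  simp only [Geo.f2, Geo.TT, Geo.tt, Fin.sum_univ_three, Prod.fst_add, Prod.snd_add, Prod.smul_fst, Prod.smul_snd,
    smul_eq_mul]
  ring

lemma f2_smul (p k w : ℝ × ℝ) (c : ℝ) : g.f2 p k (c • w) = c * g.f2 p k w := by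
  simp only [Geo.f2, Geo.TT, Geo.tt, Fin.sum_univ_three, Prod.smul_fst, Prod.smul_snd, smul_eq_mul]
  ring

lemma f2_comm (p k w : ℝ × ℝ) : g.f2 p k w = g.f2 p w k := by
  simp only [Geo.f2, Geo.TT, Geo.tt, Fin.sum_univ_three]
  ring

lemma f3_smul (p k w z : ℝ × ℝ) (c : ℝ) : g.f3 p k w (c • z) = c * g.f3 p k w z := by
  simp only [Geo.f3, Geo.TT, Geo.tt, Fin.sum_univ_three, Prod.smul_fst, Prod.smul_snd, smul_eq_mul]
  ring

lemma f3_swap (p k w z : ℝ × ℝ) : g.f3 p k w z = g.f3 p w k z := by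
  simp only [Geo.f3, Geo.TT, Geo.tt, Fin.sum_univ_three]
  ring

lemma f3_swap' (p k w z : ℝ × ℝ) : g.f3 p k w z = g.f3 p k z w := by
  simp only [Geo.f3, Geo.TT, Geo.tt, Fin.sum_univ_three]
  ring

lemma algEv (A B C D E F G K S : ℝ) (hS : S ≠ 0) :
    (2 * (A + D * B - C) * S - 2 * (F - G) * D) / S ^ 2 - (E + D * K) =
      (A - C) / S - S * ((E / S - (A - C) / S ^ 2) + D * (K / S - 2 * B / S ^ 2 + 2 * (F - G) / S ^ 3)) := by
  field_simp
  ring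

/-- moving the base point of a directional derivative -/
lemma shift {F : ℝ × ℝ → ℝ} {G : ℝ × ℝ → ℝ × ℝ → ℝ} {P z : ℝ × ℝ} {t : ℝ}
    (h : HasDerivAt (fun u : ℝ => F ((P + t • z) + u • z)) (G (P + t • z) z) 0) :
    HasDerivAt (fun u : ℝ => F (P + u • z)) (G (P + t • z) z) t := by
  have h1 : HasDerivAt (fun u : ℝ => F ((P + t • z) + (u - t) • z)) (G (P + t • z) z) t := by
    have h2 := HasDerivAt.comp_sub_const (f := fun u : ℝ => F ((P + t • z) + u • z)) t t (by rw [sub_self]; exact h)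
    exact h2
  refine h1.congr_of_eventuallyEq (Filter.Eventually.of_forall fun u => ?_)
  simp only
  congr 1
  rw [sub_smul]
  abel

end Pool.Agent.Helper19.BD.ETaylorAux

namespace Pool.Agent.Helper19.BD

open Set ETaylorAux

theorem taylor (g : Geo) (ps : ℝ × ℝ) (hps : ps ∈ g.U) : ∃ d C : ℝ, 0 < d ∧ 0 < C ∧
    (∀ p, ‖p - ps‖ ≤ d → p ∈ g.U) ∧
    (∀ (k w p p' q : ℝ × ℝ) (s s' R : ℝ), 0 < s → 0 < s' → ‖p - ps‖ ≤ d → ‖p' - ps‖ ≤ d → ‖q - ps‖ ≤ d →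
      s * ‖k‖ ≤ R → s' * ‖k‖ ≤ R → ‖p - q‖ ≤ R → ‖p' - q‖ ≤ R → R ≤ d →
      |g.Hp k s' p' w - g.Hp k s p w - g.f3 q k (p' - p) w - 1 / 2 * (s' - s) * g.f3 q k k w|
        ≤ C * R * ‖w‖ * ‖k‖ * (‖p' - p‖ + ‖k‖ * |s' - s|)) ∧
    (∀ (k p p' q : ℝ × ℝ) (s s' R : ℝ), 0 < s → 0 < s' → ‖p - ps‖ ≤ d → ‖p' - ps‖ ≤ d → ‖q - ps‖ ≤ d →
      s * ‖k‖ ≤ R → s' * ‖k‖ ≤ R → ‖p - q‖ ≤ R → ‖p' - q‖ ≤ R → R ≤ d →
      |g.Ev k s' p' - g.Ev k s p - 1 / 2 * (g.Hp k s p (p' - p) + g.Hp k s' p' (p' - p))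
          + (s + s') / 2 * (1 / 3 * (s' - s) * g.f3 q k k k + 1 / 2 * g.f3 q k k (p' - p))|
        ≤ C * R * ‖k‖ * (‖p' - p‖ + ‖k‖ * |s' - s|) * (‖p' - p‖ + (s + s') * ‖k‖)) ∧
    (∀ (k p q : ℝ × ℝ) (s : ℝ), 0 < s → ‖p - ps‖ ≤ d → ‖q - ps‖ ≤ d → s * ‖k‖ ≤ d →
      |g.Ev k s p + g.Hp k s p (q - p) - g.f1 q k| ≤ C * ‖k‖ * (‖q - p‖ + s * ‖k‖) ^ 2) := by
  obtain ⟨d₀, C₀, hd₀, hC₀, hU, hj0, hj1, hj2, -, hb2, hb3, hl3, -⟩ := jet g ps hps
  -- derivatives along lines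
  have D0 : ∀ (P z : ℝ × ℝ) (t : ℝ), ‖P + t • z - ps‖ ≤ d₀ →
      HasDerivAt (fun u : ℝ => g.f0 (P + u • z)) (g.f1 (P + t • z) z) t := fun P z t h =>
    shift (G := fun P z => g.f1 P z) (hj0 _ z h)
  have D1 : ∀ (P z k : ℝ × ℝ) (t : ℝ), ‖P + t • z - ps‖ ≤ d₀ →
      HasDerivAt (fun u : ℝ => g.f1 (P + u • z) k) (g.f2 (P + t • z) k z) t := fun P z k t h =>
    shift (F := fun P => g.f1 P k) (G := fun P z => g.f2 P k z) (hj1 _ z k h)
  have D2 : ∀ (P z k w : ℝ × ℝ) (t : ℝ), ‖P + t • z - ps‖ ≤ d₀ →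
      HasDerivAt (fun u : ℝ => g.f2 (P + u • z) k w) (g.f3 (P + t • z) k w z) t := fun P z k w t h =>
    shift (F := fun P => g.f2 P k w) (G := fun P z => g.f3 P k w z) (hj2 _ z k w h)
  -- points on the segment p + θ s k
  have seg_ps : ∀ (k p : ℝ × ℝ) (s R θ : ℝ), 0 < s → ‖p - ps‖ ≤ d₀ / 2 → s * ‖k‖ ≤ d₀ / 2 → θ ∈ Icc (0 : ℝ) 1 →
      ‖p + θ • (s • k) - ps‖ ≤ d₀ := by
    intro k p s R θ hs hp hk hθ
    have h1 : ‖θ • (s • k)‖ ≤ s * ‖k‖ := by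
      rw [norm_smul, norm_smul, Real.norm_of_nonneg hθ.1, Real.norm_of_nonneg hs.le]
      calc θ * (s * ‖k‖) ≤ 1 * (s * ‖k‖) := mul_le_mul_of_nonneg_right hθ.2 (by positivity)
        _ = s * ‖k‖ := one_mul _
    calc ‖p + θ • (s • k) - ps‖ = ‖(p - ps) + θ • (s • k)‖ := by congr 1; abel
      _ ≤ ‖p - ps‖ + ‖θ • (s • k)‖ := norm_add_le _ _
      _ ≤ d₀ := by linarith
  have seg_q : ∀ (k p q : ℝ × ℝ) (s R θ : ℝ), 0 < s → ‖p - q‖ ≤ R → s * ‖k‖ ≤ R → θ ∈ Icc (0 : ℝ) 1 →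
      ‖p + θ • (s • k) - q‖ ≤ 2 * R := by
    intro k p q s R θ hs hp hk hθ
    have h1 : ‖θ • (s • k)‖ ≤ s * ‖k‖ := by
      rw [norm_smul, norm_smul, Real.norm_of_nonneg hθ.1, Real.norm_of_nonneg hs.le]
      calc θ * (s * ‖k‖) ≤ 1 * (s * ‖k‖) := mul_le_mul_of_nonneg_right hθ.2 (by positivity)
        _ = s * ‖k‖ := one_mul _
    calc ‖p + θ • (s • k) - q‖ = ‖(p - q) + θ • (s • k)‖ := by congr 1; abel
      _ ≤ ‖p - q‖ + ‖θ • (s • k)‖ := norm_add_le _ _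
      _ ≤ 2 * R := by linarith
  -- third derivative against its value at q
  have f3near : ∀ (P q a b c : ℝ × ℝ) (R : ℝ), ‖P - ps‖ ≤ d₀ → ‖q - ps‖ ≤ d₀ → ‖P - q‖ ≤ 2 * R →
      |g.f3 P a b c - g.f3 q a b c| ≤ 2 * C₀ * R * ‖a‖ * ‖b‖ * ‖c‖ := by
    intro P q a b c R hP hq hPq
    refine (hl3 P q a b c hP hq).trans ?_
    have h1 : C₀ * ‖P - q‖ ≤ 2 * C₀ * R := by nlinarith
    have := norm_nonneg a; have := norm_nonneg b; have := norm_nonneg c
    gcongr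
  -- (a)
  have hA : ∀ (k w dl p q : ℝ × ℝ) (s R : ℝ), 0 < s → ‖p - ps‖ ≤ d₀ / 2 → ‖q - ps‖ ≤ d₀ → s * ‖k‖ ≤ R → s * ‖k‖ ≤ d₀ / 2 →
      ‖p - q‖ ≤ R →
      |(g.f2 (p + s • k) w dl - g.f2 p w dl) / s - g.f3 q k dl w| ≤ 2 * C₀ * R * ‖w‖ * ‖dl‖ * ‖k‖ := by
    intro k w dl p q s R hs hp hq hkR hkd hpq
    have h1 := tayA (φ := fun θ => g.f2 (p + θ • (s • k)) w dl) (φ' := fun θ => g.f3 (p + θ • (s • k)) w dl (s • k))
      (c := s * g.f3 q w dl k) (ε := s * (2 * C₀ * R * ‖w‖ * ‖dl‖ * ‖k‖))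
      (fun θ hθ => D2 p (s • k) w dl θ (seg_ps k p s R θ hs hp hkd hθ))
      (fun θ hθ => by
        rw [f3_smul, ← mul_sub, abs_mul, abs_of_pos hs]
        exact mul_le_mul_of_nonneg_left (f3near _ q w dl k R (seg_ps k p s R θ hs hp hkd hθ) hq
          (seg_q k p q s R θ hs hpq hkR hθ)) hs.le)
    simp only [one_smul, zero_smul, add_zero] at h1
    have h2 : g.f3 q k dl w = g.f3 q w dl k := by
      rw [f3_swap g q k dl w, f3_swap' g q dl k w, f3_swap g q dl w k]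
    rw [h2]
    have h3 : (g.f2 (p + s • k) w dl - g.f2 p w dl) / s - g.f3 q w dl k =
        (g.f2 (p + s • k) w dl - g.f2 p w dl - s * g.f3 q w dl k) / s := by
      field_simp
    rw [h3, abs_div, abs_of_pos hs, div_le_iff₀ hs]
    linarith
  -- (b)
  have hB : ∀ (k w p q : ℝ × ℝ) (s R : ℝ), 0 < s → ‖p - ps‖ ≤ d₀ / 2 → ‖q - ps‖ ≤ d₀ → s * ‖k‖ ≤ R → s * ‖k‖ ≤ d₀ / 2 →
      ‖p - q‖ ≤ R →
      |g.f2 (p + s • k) w k / s - (g.f1 (p + s • k) w - g.f1 p w) / s ^ 2 - 1 / 2 * g.f3 q k k w| ≤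
        2 * C₀ * R * ‖w‖ * ‖k‖ * ‖k‖ := by
    intro k w p q s R hs hp hq hkR hkd hpq
    have h1 := tayB (φ := fun θ => g.f1 (p + θ • (s • k)) w) (φ' := fun θ => s * g.f2 (p + θ • (s • k)) w k)
      (φ'' := fun θ => s * (s * g.f3 (p + θ • (s • k)) w k k))
      (c := s * (s * g.f3 q w k k)) (ε := s * (s * (2 * C₀ * R * ‖w‖ * ‖k‖ * ‖k‖)))
      (fun θ hθ => (D1 p (s • k) w θ (seg_ps k p s R θ hs hp hkd hθ)).congr_deriv (f2_smul _ _ _ _ _))
      (fun θ hθ => ((D2 p (s • k) w k θ (seg_ps k p s R θ hs hp hkd hθ)).const_mul s).congr_deriv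
        (by rw [f3_smul]))
      (fun θ hθ => by
        rw [← mul_sub, ← mul_sub, abs_mul, abs_mul, abs_of_pos hs]
        exact mul_le_mul_of_nonneg_left (mul_le_mul_of_nonneg_left (f3near _ q w k k R
          (seg_ps k p s R θ hs hp hkd hθ) hq (seg_q k p q s R θ hs hpq hkR hθ)) hs.le) hs.le)
    simp only [one_smul, zero_smul, add_zero] at h1
    have h2 : g.f3 q k k w = g.f3 q w k k := by
      rw [f3_swap' g q k k w, f3_swap g q k w k]
    rw [h2]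
    have h3 : g.f2 (p + s • k) w k / s - (g.f1 (p + s • k) w - g.f1 p w) / s ^ 2 - 1 / 2 * g.f3 q w k k =
        (s * g.f2 (p + s • k) w k - (g.f1 (p + s • k) w - g.f1 p w) - 1 / 2 * (s * (s * g.f3 q w k k))) / s ^ 2 := by
      field_simp
    rw [h3, abs_div, abs_of_pos (pow_pos hs 2), div_le_iff₀ (pow_pos hs 2)]
    refine h1.trans (le_of_eq ?_)
    ring
  -- (c)
  have hC : ∀ (k p q : ℝ × ℝ) (s R : ℝ), 0 < s → ‖p - ps‖ ≤ d₀ / 2 → ‖q - ps‖ ≤ d₀ → s * ‖k‖ ≤ R → s * ‖k‖ ≤ d₀ / 2 →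
      ‖p - q‖ ≤ R →
      |g.f2 (p + s • k) k k / s - 2 * g.f1 (p + s • k) k / s ^ 2 + 2 * (g.f0 (p + s • k) - g.f0 p) / s ^ 3
        - 1 / 3 * g.f3 q k k k| ≤ 2 * C₀ * R * ‖k‖ * ‖k‖ * ‖k‖ := by
    intro k p q s R hs hp hq hkR hkd hpq
    have h1 := tayC (φ := fun θ => g.f0 (p + θ • (s • k))) (φ' := fun θ => s * g.f1 (p + θ • (s • k)) k)
      (φ'' := fun θ => s * (s * g.f2 (p + θ • (s • k)) k k))
      (φ''' := fun θ => s * (s * (s * g.f3 (p + θ • (s • k)) k k k)))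
      (c := s * (s * (s * g.f3 q k k k))) (ε := s * (s * (s * (2 * C₀ * R * ‖k‖ * ‖k‖ * ‖k‖))))
      (fun θ hθ => (D0 p (s • k) θ (seg_ps k p s R θ hs hp hkd hθ)).congr_deriv (f1_smul _ _ _ _))
      (fun θ hθ => ((D1 p (s • k) k θ (seg_ps k p s R θ hs hp hkd hθ)).const_mul s).congr_deriv
        (by rw [f2_smul]))
      (fun θ hθ => (((D2 p (s • k) k k θ (seg_ps k p s R θ hs hp hkd hθ)).const_mul s).const_mul s).congr_deriv
        (by rw [f3_smul]))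
      (fun θ hθ => by
        rw [← mul_sub, ← mul_sub, ← mul_sub, abs_mul, abs_mul, abs_mul, abs_of_pos hs]
        exact mul_le_mul_of_nonneg_left (mul_le_mul_of_nonneg_left (mul_le_mul_of_nonneg_left (f3near _ q k k k R
          (seg_ps k p s R θ hs hp hkd hθ) hq (seg_q k p q s R θ hs hpq hkR hθ)) hs.le) hs.le) hs.le)
    simp only [one_smul, zero_smul, add_zero] at h1
    have h3 : g.f2 (p + s • k) k k / s - 2 * g.f1 (p + s • k) k / s ^ 2 + 2 * (g.f0 (p + s • k) - g.f0 p) / s ^ 3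
        - 1 / 3 * g.f3 q k k k =
        (s * (s * g.f2 (p + s • k) k k) - 2 * (s * g.f1 (p + s • k) k) + 2 * (g.f0 (p + s • k) - g.f0 p)
          - 1 / 3 * (s * (s * (s * g.f3 q k k k)))) / s ^ 3 := by
      field_simp
    rw [h3, abs_div, abs_of_pos (pow_pos hs 3), div_le_iff₀ (pow_pos hs 3)]
    refine h1.trans (le_of_eq ?_)
    ring
  -- interpolation between two states
  have interp_s : ∀ (s s' t : ℝ), 0 < s → 0 < s' → t ∈ Icc (0 : ℝ) 1 → 0 < s + t * (s' - s) := by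
    intro s s' t hs hs' ht
    rcases eq_or_lt_of_le ht.1 with h0 | h0
    · rw [← h0]; simpa using hs
    · have h2 := ht.2
      nlinarith [mul_pos h0 hs', mul_nonneg (sub_nonneg.2 h2) hs.le]
  have interp_sR : ∀ (s s' t x R : ℝ), 0 ≤ x → s * x ≤ R → s' * x ≤ R → t ∈ Icc (0 : ℝ) 1 →
      (s + t * (s' - s)) * x ≤ R := by
    intro s s' t x R hx h1 h2 ht
    have h3 := ht.1; have h4 := ht.2
    nlinarith [mul_nonneg h3 (sub_nonneg.2 h2), mul_nonneg (sub_nonneg.2 h4) (sub_nonneg.2 h1)]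
  have interp_p : ∀ (p p' q : ℝ × ℝ) (t R : ℝ), ‖p - q‖ ≤ R → ‖p' - q‖ ≤ R → t ∈ Icc (0 : ℝ) 1 →
      ‖p + t • (p' - p) - q‖ ≤ R := by
    intro p p' q t R h1 h2 ht
    have h3 : p + t • (p' - p) - q = (1 - t) • (p - q) + t • (p' - q) := by
      simp only [smul_sub, sub_smul, one_smul]
      abel
    rw [h3]
    calc ‖(1 - t) • (p - q) + t • (p' - q)‖ ≤ ‖(1 - t) • (p - q)‖ + ‖t • (p' - q)‖ := norm_add_le _ _
      _ = (1 - t) * ‖p - q‖ + t * ‖p' - q‖ := by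
          rw [norm_smul, norm_smul, Real.norm_of_nonneg (sub_nonneg.2 ht.2), Real.norm_of_nonneg ht.1]
      _ ≤ (1 - t) * R + t * R :=
          add_le_add (mul_le_mul_of_nonneg_left h1 (sub_nonneg.2 ht.2)) (mul_le_mul_of_nonneg_left h2 ht.1)
      _ = R := by ring
  -- derivative of Hp along the path
  have dHp : ∀ (k w p dl : ℝ × ℝ) (s D t : ℝ), 0 < s + t * D → ‖p + t • dl - ps‖ ≤ d₀ →
      ‖p + t • dl + (s + t * D) • k - ps‖ ≤ d₀ →
      HasDerivAt (fun u : ℝ => g.Hp k (s + u * D) (p + u • dl) w)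
        ((g.f2 (p + t • dl + (s + t * D) • k) w dl - g.f2 (p + t • dl) w dl) / (s + t * D)
          + D * (g.f2 (p + t • dl + (s + t * D) • k) w k / (s + t * D) -
            (g.f1 (p + t • dl + (s + t * D) • k) w - g.f1 (p + t • dl) w) / (s + t * D) ^ 2)) t := by
    intro k w p dl s D t hs h0 h1
    have e1 : ∀ u : ℝ, p + u • dl + (s + u * D) • k = (p + s • k) + u • (dl + D • k) := by
      intro u
      simp only [add_smul, smul_add, mul_smul]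
      abel
    have d1 := D1 (p + s • k) (dl + D • k) w t (by rw [← e1]; exact h1)
    have d0 := D1 p dl w t h0
    have ds : HasDerivAt (fun u : ℝ => s + u * D) D t := by
      simpa using ((hasDerivAt_id t).mul_const D).const_add s
    have hq := ((d1.sub d0).div ds hs.ne')
    unfold Geo.Hp
    simp only [e1] at hq ⊢
    refine hq.congr_deriv ?_
    rw [f2_lin]
    simp only [Pi.sub_apply]
    field_simp
    ring
  have dEv : ∀ (k p dl : ℝ × ℝ) (s D t : ℝ), 0 < s + t * D → ‖p + t • dl - ps‖ ≤ d₀ →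
      ‖p + t • dl + (s + t * D) • k - ps‖ ≤ d₀ →
      HasDerivAt (fun u : ℝ => g.Ev k (s + u * D) (p + u • dl))
        (g.Hp k (s + t * D) (p + t • dl) dl - (s + t * D) *
          ((g.f2 (p + t • dl + (s + t * D) • k) dl k / (s + t * D) -
            (g.f1 (p + t • dl + (s + t * D) • k) dl - g.f1 (p + t • dl) dl) / (s + t * D) ^ 2) +
          D * (g.f2 (p + t • dl + (s + t * D) • k) k k / (s + t * D)
            - 2 * g.f1 (p + t • dl + (s + t * D) • k) k / (s + t * D) ^ 2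
            + 2 * (g.f0 (p + t • dl + (s + t * D) • k) - g.f0 (p + t • dl)) / (s + t * D) ^ 3))) t := by
    intro k p dl s D t hs h0 h1
    have e1 : ∀ u : ℝ, p + u • dl + (s + u * D) • k = (p + s • k) + u • (dl + D • k) := by
      intro u
      simp only [add_smul, smul_add, mul_smul]
      abel
    have d1 := D0 (p + s • k) (dl + D • k) t (by rw [← e1]; exact h1)
    have d0 := D0 p dl t h0
    have d2 := D1 (p + s • k) (dl + D • k) k t (by rw [← e1]; exact h1)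
    have ds : HasDerivAt (fun u : ℝ => s + u * D) D t := by
      simpa using ((hasDerivAt_id t).mul_const D).const_add s
    have hq := (((d1.sub d0).const_mul 2).div ds hs.ne').sub d2
    unfold Geo.Ev Geo.Hp
    simp only [e1] at hq ⊢
    refine hq.congr_deriv ?_
    rw [f2_lin, f1_lin, f2_comm g _ k dl]
    simp only [Pi.sub_apply]
    exact algEv _ _ _ _ _ _ _ _ _ hs.ne'
  -- T1 in differential form
  have T1' : ∀ (k w p p' q : ℝ × ℝ) (s s' R t : ℝ), 0 < s → 0 < s' → ‖p - ps‖ ≤ d₀ / 2 → ‖p' - ps‖ ≤ d₀ / 2 →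
      ‖q - ps‖ ≤ d₀ / 2 →
      s * ‖k‖ ≤ R → s' * ‖k‖ ≤ R → ‖p - q‖ ≤ R → ‖p' - q‖ ≤ R → R ≤ d₀ / 2 → t ∈ Icc (0 : ℝ) 1 →
      |((g.f2 (p + t • (p' - p) + (s + t * (s' - s)) • k) w (p' - p) - g.f2 (p + t • (p' - p)) w (p' - p)) / (s + t * (s' - s))
          + (s' - s) * (g.f2 (p + t • (p' - p) + (s + t * (s' - s)) • k) w k / (s + t * (s' - s)) -
            (g.f1 (p + t • (p' - p) + (s + t * (s' - s)) • k) w - g.f1 (p + t • (p' - p)) w) / (s + t * (s' - s)) ^ 2))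
        - (g.f3 q k (p' - p) w + 1 / 2 * (s' - s) * g.f3 q k k w)| ≤
          2 * C₀ * R * ‖w‖ * ‖k‖ * (‖p' - p‖ + ‖k‖ * |s' - s|) := by
    intro k w p p' q s s' R t hs hs' hp hp' hq hk hk' hpq hpq' hR ht
    have a0 := interp_s s s' t hs hs' ht
    have a1 := interp_sR s s' t ‖k‖ R (norm_nonneg k) hk hk' ht
    have a2 := interp_p p p' q t R hpq hpq' ht
    have a3 := interp_p p p' ps t (d₀ / 2) hp hp' ht
    have hq' : ‖q - ps‖ ≤ d₀ := by linarith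
    have b1 := hA k w (p' - p) (p + t • (p' - p)) q (s + t * (s' - s)) R a0 a3 hq' a1 (a1.trans hR) a2
    have b2 := hB k w (p + t • (p' - p)) q (s + t * (s' - s)) R a0 a3 hq' a1 (a1.trans hR) a2
    set A := (g.f2 (p + t • (p' - p) + (s + t * (s' - s)) • k) w (p' - p) - g.f2 (p + t • (p' - p)) w (p' - p)) / (s + t * (s' - s))
    set B := g.f2 (p + t • (p' - p) + (s + t * (s' - s)) • k) w k / (s + t * (s' - s)) -
            (g.f1 (p + t • (p' - p) + (s + t * (s' - s)) • k) w - g.f1 (p + t • (p' - p)) w) / (s + t * (s' - s)) ^ 2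
    calc |A + (s' - s) * B - (g.f3 q k (p' - p) w + 1 / 2 * (s' - s) * g.f3 q k k w)|
        = |(A - g.f3 q k (p' - p) w) + (s' - s) * (B - 1 / 2 * g.f3 q k k w)| := by congr 1; ring
      _ ≤ |A - g.f3 q k (p' - p) w| + |(s' - s) * (B - 1 / 2 * g.f3 q k k w)| := abs_add_le _ _
      _ ≤ 2 * C₀ * R * ‖w‖ * ‖p' - p‖ * ‖k‖ + |s' - s| * (2 * C₀ * R * ‖w‖ * ‖k‖ * ‖k‖) := by
          rw [abs_mul]
          gcongr
      _ = _ := by ring
  have T1 : ∀ (k w p p' q : ℝ × ℝ) (s s' R t : ℝ), 0 < s → 0 < s' → ‖p - ps‖ ≤ d₀ / 2 → ‖p' - ps‖ ≤ d₀ / 2 →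
      ‖q - ps‖ ≤ d₀ / 2 →
      s * ‖k‖ ≤ R → s' * ‖k‖ ≤ R → ‖p - q‖ ≤ R → ‖p' - q‖ ≤ R → R ≤ d₀ / 2 → t ∈ Icc (0 : ℝ) 1 →
      |g.Hp k (s + t * (s' - s)) (p + t • (p' - p)) w - g.Hp k s p w
        - t * (g.f3 q k (p' - p) w + 1 / 2 * (s' - s) * g.f3 q k k w)| ≤
          2 * C₀ * R * ‖w‖ * ‖k‖ * (‖p' - p‖ + ‖k‖ * |s' - s|) := by
    intro k w p p' q s s' R t hs hs' hp hp' hq hk hk' hpq hpq' hR ht
    have hR0 : 0 ≤ R := (norm_nonneg _).trans hpq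
    have hder : ∀ u ∈ Icc (0 : ℝ) 1, HasDerivAt (fun u : ℝ => g.Hp k (s + u * (s' - s)) (p + u • (p' - p)) w) _ u :=
      fun u hu => dHp k w p (p' - p) s (s' - s) u (interp_s s s' u hs hs' hu)
        ((interp_p p p' ps u (d₀ / 2) hp hp' hu).trans (by linarith))
        (by
          have h1 := interp_p p p' ps u (d₀ / 2) hp hp' hu
          have h2 := (interp_sR s s' u ‖k‖ R (norm_nonneg k) hk hk' hu).trans hR
          have h3 := seg_ps k (p + u • (p' - p)) (s + u * (s' - s)) R 1 (interp_s s s' u hs hs' hu) h1 h2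
            (right_mem_Icc.2 zero_le_one)
          rwa [one_smul] at h3)
    set cc := g.f3 q k (p' - p) w + 1 / 2 * (s' - s) * g.f3 q k k w with hcc
    set ee := 2 * C₀ * R * ‖w‖ * ‖k‖ * (‖p' - p‖ + ‖k‖ * |s' - s|) with hee
    have hee0 : 0 ≤ ee := by rw [hee]; positivity
    have h1 : ∀ u ∈ Icc (0 : ℝ) 1, HasDerivWithinAt
        (fun u : ℝ => g.Hp k (s + u * (s' - s)) (p + u • (p' - p)) w - u * cc) _ (Icc 0 1) u :=
      fun u hu => ((hder u hu).sub ((hasDerivAt_id u).mul_const cc)).hasDerivWithinAt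
    have h2 := (convex_Icc (0 : ℝ) 1).norm_image_sub_le_of_norm_hasDerivWithin_le (C := ee) h1
      (fun u hu => by
        rw [Real.norm_eq_abs, one_mul]
        exact T1' k w p p' q s s' R u hs hs' hp hp' hq hk hk' hpq hpq' hR hu)
      (left_mem_Icc.2 zero_le_one) ht
    rw [Real.norm_eq_abs, Real.norm_eq_abs, sub_zero, abs_of_nonneg ht.1] at h2
    simp only [zero_mul, zero_smul, add_zero, sub_zero] at h2
    have h3 : ee * t ≤ ee := by
      calc ee * t ≤ ee * 1 := mul_le_mul_of_nonneg_left ht.2 hee0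
        _ = ee := mul_one _
    refine (le_of_eq ?_).trans (h2.trans h3)
    congr 1
    ring
  refine ⟨d₀ / 2, 8 * C₀, by positivity, by positivity, fun p hp => hU p (by linarith), ?_, ?_, ?_⟩
  · intro k w p p' q s s' R hs hs' hp hp' hq hk hk' hpq hpq' hR
    have hR0 : 0 ≤ R := (norm_nonneg _).trans hpq
    have h1 := T1 k w p p' q s s' R 1 hs hs' hp hp' hq hk hk' hpq hpq' hR (right_mem_Icc.2 zero_le_one)
    simp only [one_mul, one_smul, add_sub_cancel] at h1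
    have h2 : 0 ≤ C₀ * R * ‖w‖ * ‖k‖ * (‖p' - p‖ + ‖k‖ * |s' - s|) := by positivity
    calc |g.Hp k s' p' w - g.Hp k s p w - g.f3 q k (p' - p) w - 1 / 2 * (s' - s) * g.f3 q k k w|
        = |g.Hp k s' p' w - g.Hp k s p w - (g.f3 q k (p' - p) w + 1 / 2 * (s' - s) * g.f3 q k k w)| := by
          congr 1; ring
      _ ≤ _ := h1
      _ ≤ 8 * C₀ * R * ‖w‖ * ‖k‖ * (‖p' - p‖ + ‖k‖ * |s' - s|) := by nlinarith
  · intro k p p' q s s' R hs hs' hp hp' hq hk hk' hpq hpq' hR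
    have hR0 : 0 ≤ R := (norm_nonneg _).trans hpq
    have hq' : ‖q - ps‖ ≤ d₀ := by linarith
    set c₁ := g.f3 q k (p' - p) (p' - p) + 1 / 2 * (s' - s) * g.f3 q k k (p' - p) with hc₁
    set c₂ := 1 / 3 * (s' - s) * g.f3 q k k k + 1 / 2 * g.f3 q k k (p' - p) with hc₂
    set e₁ := 2 * C₀ * R * ‖p' - p‖ * ‖k‖ * (‖p' - p‖ + ‖k‖ * |s' - s|) with he₁
    set e₂ := 2 * C₀ * R * ‖k‖ * (‖p' - p‖ + ‖k‖ * |s' - s|) * ((s + s') * ‖k‖) with he₂
    have hT1 : ∀ t ∈ Icc (0 : ℝ) 1, |g.Hp k (s + t * (s' - s)) (p + t • (p' - p)) (p' - p) - g.Hp k s p (p' - p)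
        - t * c₁| ≤ e₁ := fun t ht => T1 k (p' - p) p p' q s s' R t hs hs' hp hp' hq hk hk' hpq hpq' hR ht
    have hder : ∀ u ∈ Icc (0 : ℝ) 1, HasDerivAt (fun u : ℝ => g.Ev k (s + u * (s' - s)) (p + u • (p' - p))) _ u :=
      fun u hu => dEv k p (p' - p) s (s' - s) u (interp_s s s' u hs hs' hu)
        ((interp_p p p' ps u (d₀ / 2) hp hp' hu).trans (by linarith))
        (by
          have h1 := interp_p p p' ps u (d₀ / 2) hp hp' hu
          have h2 := (interp_sR s s' u ‖k‖ R (norm_nonneg k) hk hk' hu).trans hR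
          have h3 := seg_ps k (p + u • (p' - p)) (s + u * (s' - s)) R 1 (interp_s s s' u hs hs' hu) h1 h2
            (right_mem_Icc.2 zero_le_one)
          rwa [one_smul] at h3)
    have hpoly : ∀ u : ℝ, HasDerivAt (fun u : ℝ => u * g.Hp k s p (p' - p) + u ^ 2 / 2 * c₁ -
        (s * u + (s' - s) * u ^ 2 / 2) * c₂)
        (g.Hp k s p (p' - p) + u * c₁ - (s + u * (s' - s)) * c₂) u := by
      intro u
      have h1 := (((hasDerivAt_id u).mul_const (g.Hp k s p (p' - p))).add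
        ((((hasDerivAt_id u).pow 2).div_const 2).mul_const c₁)).sub
        ((((hasDerivAt_id u).const_mul s).add ((((hasDerivAt_id u).pow 2).const_mul (s' - s)).div_const 2)).mul_const c₂)
      refine h1.congr_deriv ?_
      simp only [id]
      ring
    have key := tayA (φ := fun u : ℝ => g.Ev k (s + u * (s' - s)) (p + u • (p' - p)) -
        (u * g.Hp k s p (p' - p) + u ^ 2 / 2 * c₁ - (s * u + (s' - s) * u ^ 2 / 2) * c₂)) (c := 0) (ε := e₁ + e₂)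
      (fun u hu => (hder u hu).sub (hpoly u))
      (fun u hu => by
        have a0 := interp_s s s' u hs hs' hu
        have a1 := interp_sR s s' u ‖k‖ R (norm_nonneg k) hk hk' hu
        have a2 := interp_p p p' q u R hpq hpq' hu
        have a3 := interp_p p p' ps u (d₀ / 2) hp hp' hu
        have b1 := hT1 u hu
        have b2 := hB k (p' - p) (p + u • (p' - p)) q (s + u * (s' - s)) R a0 a3 hq' a1 (a1.trans hR) a2
        have b3 := hC k (p + u • (p' - p)) q (s + u * (s' - s)) R a0 a3 hq' a1 (a1.trans hR) a2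
        have a4 : s + u * (s' - s) ≤ s + s' := by
          have := hu.1; have := hu.2
          nlinarith
        set Hu := g.Hp k (s + u * (s' - s)) (p + u • (p' - p)) (p' - p)
        set B := g.f2 (p + u • (p' - p) + (s + u * (s' - s)) • k) (p' - p) k / (s + u * (s' - s)) -
            (g.f1 (p + u • (p' - p) + (s + u * (s' - s)) • k) (p' - p) - g.f1 (p + u • (p' - p)) (p' - p)) /
              (s + u * (s' - s)) ^ 2
        set Cc := g.f2 (p + u • (p' - p) + (s + u * (s' - s)) • k) k k / (s + u * (s' - s))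
            - 2 * g.f1 (p + u • (p' - p) + (s + u * (s' - s)) • k) k / (s + u * (s' - s)) ^ 2
            + 2 * (g.f0 (p + u • (p' - p) + (s + u * (s' - s)) • k) - g.f0 (p + u • (p' - p))) /
              (s + u * (s' - s)) ^ 3
        set su := s + u * (s' - s)
        calc |(Hu - su * (B + (s' - s) * Cc)) - (g.Hp k s p (p' - p) + u * c₁ - su * c₂) - 0|
            = |(Hu - g.Hp k s p (p' - p) - u * c₁) - su * ((B - 1 / 2 * g.f3 q k k (p' - p)) +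
                (s' - s) * (Cc - 1 / 3 * g.f3 q k k k))| := by
              congr 1
              rw [hc₂]
              ring
          _ ≤ |Hu - g.Hp k s p (p' - p) - u * c₁| + |su * ((B - 1 / 2 * g.f3 q k k (p' - p)) +
                (s' - s) * (Cc - 1 / 3 * g.f3 q k k k))| := abs_sub _ _
          _ ≤ e₁ + (s + s') * (2 * C₀ * R * ‖p' - p‖ * ‖k‖ * ‖k‖ + |s' - s| * (2 * C₀ * R * ‖k‖ * ‖k‖ * ‖k‖)) := by
              refine add_le_add b1 ?_
              rw [abs_mul, abs_of_pos a0]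
              refine mul_le_mul a4 ?_ (abs_nonneg _) (by linarith)
              refine (abs_add_le _ _).trans ?_
              rw [abs_mul]
              gcongr
          _ = e₁ + e₂ := by rw [he₂]; ring)
    simp only [one_mul, one_smul, zero_mul, zero_smul, add_zero, add_sub_cancel, mul_zero] at key
    have h1 := hT1 1 (right_mem_Icc.2 zero_le_one)
    simp only [one_mul, one_smul, add_sub_cancel] at h1
    have he₁0 : 0 ≤ e₁ := by rw [he₁]; positivity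
    have he₂0 : 0 ≤ e₂ := by rw [he₂]; positivity
    have hfin : |g.Ev k s' p' - g.Ev k s p - 1 / 2 * (g.Hp k s p (p' - p) + g.Hp k s' p' (p' - p)) + (s + s') / 2 * c₂|
        ≤ (e₁ + e₂) + 1 / 2 * e₁ := by
      have h2 : g.Ev k s' p' - g.Ev k s p - 1 / 2 * (g.Hp k s p (p' - p) + g.Hp k s' p' (p' - p)) + (s + s') / 2 * c₂ =
          (g.Ev k s' p' - g.Ev k s p - (g.Hp k s p (p' - p) + 1 / 2 * c₁ - (s + s') / 2 * c₂)) -
          1 / 2 * (g.Hp k s' p' (p' - p) - g.Hp k s p (p' - p) - c₁) := by ring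
      rw [h2]
      refine (abs_sub _ _).trans (add_le_add ?_ ?_)
      · refine (le_of_eq ?_).trans key
        congr 1
        ring
      · rw [abs_mul, abs_of_pos (by norm_num : (0 : ℝ) < 1 / 2)]
        gcongr
    refine hfin.trans ?_
    have h3 : e₁ + e₂ = 2 * C₀ * R * ‖k‖ * (‖p' - p‖ + ‖k‖ * |s' - s|) * (‖p' - p‖ + (s + s') * ‖k‖) := by
      rw [he₁, he₂]; ring
    calc (e₁ + e₂) + 1 / 2 * e₁ ≤ 2 * (e₁ + e₂) := by linarith
      _ = 4 * C₀ * R * ‖k‖ * (‖p' - p‖ + ‖k‖ * |s' - s|) * (‖p' - p‖ + (s + s') * ‖k‖) := by rw [h3]; ring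
      _ ≤ 8 * C₀ * R * ‖k‖ * (‖p' - p‖ + ‖k‖ * |s' - s|) * (‖p' - p‖ + (s + s') * ‖k‖) := by
          have h4 : 0 ≤ C₀ * R * ‖k‖ * (‖p' - p‖ + ‖k‖ * |s' - s|) * (‖p' - p‖ + (s + s') * ‖k‖) := by
            have : 0 ≤ s + s' := by linarith
            positivity
          nlinarith
  · intro k p q s hs hp hq hk
    have segpq : ∀ t ∈ Icc (0 : ℝ) 1, ‖p + t • (q - p) - ps‖ ≤ d₀ := fun t ht =>
      (interp_p p q ps t (d₀ / 2) hp hq ht).trans (by linarith)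
    have segk : ∀ t ∈ Icc (0 : ℝ) 1, ‖p + t • (s • k) - ps‖ ≤ d₀ := fun t ht => seg_ps k p s 0 t hs hp hk ht
    -- f1(q;k) = f1(p;k) + f2(p;k,q-p) + O
    have h1 := tayD (φ := fun t => g.f1 (p + t • (q - p)) k) (φ' := fun t => g.f2 (p + t • (q - p)) k (q - p))
      (φ'' := fun t => g.f3 (p + t • (q - p)) k (q - p) (q - p)) (M := C₀ * ‖k‖ * ‖q - p‖ * ‖q - p‖)
      (fun t ht => D1 p (q - p) k t (segpq t ht)) (fun t ht => D2 p (q - p) k (q - p) t (segpq t ht))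
      (fun t ht => hb3 _ k (q - p) (q - p) (segpq t ht))
    simp only [one_smul, zero_smul, add_zero, add_sub_cancel] at h1
    -- Ev = f1(p;k) + O
    have h2 := tayE (φ := fun θ => g.f0 (p + θ • (s • k))) (φ' := fun θ => s * g.f1 (p + θ • (s • k)) k)
      (φ'' := fun θ => s * (s * g.f2 (p + θ • (s • k)) k k))
      (φ''' := fun θ => s * (s * (s * g.f3 (p + θ • (s • k)) k k k))) (M := s * (s * (s * (C₀ * ‖k‖ * ‖k‖ * ‖k‖))))
      (fun θ hθ => (D0 p (s • k) θ (segk θ hθ)).congr_deriv (f1_smul _ _ _ _))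
      (fun θ hθ => ((D1 p (s • k) k θ (segk θ hθ)).const_mul s).congr_deriv (by rw [f2_smul]))
      (fun θ hθ => (((D2 p (s • k) k k θ (segk θ hθ)).const_mul s).const_mul s).congr_deriv (by rw [f3_smul]))
      (fun θ hθ => by
        rw [abs_mul, abs_mul, abs_mul, abs_of_pos hs]
        exact mul_le_mul_of_nonneg_left (mul_le_mul_of_nonneg_left (mul_le_mul_of_nonneg_left
          (hb3 _ k k k (segk θ hθ)) hs.le) hs.le) hs.le)
    simp only [one_smul, zero_smul, add_zero] at h2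
    -- Hp = f2(p; q-p, k) + O
    have h3 := tayD (φ := fun θ => g.f1 (p + θ • (s • k)) (q - p)) (φ' := fun θ => s * g.f2 (p + θ • (s • k)) (q - p) k)
      (φ'' := fun θ => s * (s * g.f3 (p + θ • (s • k)) (q - p) k k)) (M := s * (s * (C₀ * ‖q - p‖ * ‖k‖ * ‖k‖)))
      (fun θ hθ => (D1 p (s • k) (q - p) θ (segk θ hθ)).congr_deriv (f2_smul _ _ _ _ _))
      (fun θ hθ => ((D2 p (s • k) (q - p) k θ (segk θ hθ)).const_mul s).congr_deriv (by rw [f3_smul]))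
      (fun θ hθ => by
        rw [abs_mul, abs_mul, abs_of_pos hs]
        exact mul_le_mul_of_nonneg_left (mul_le_mul_of_nonneg_left (hb3 _ (q - p) k k (segk θ hθ)) hs.le) hs.le)
    simp only [one_smul, zero_smul, add_zero] at h3
    have e2 : g.Ev k s p - g.f1 p k = (2 * (g.f0 (p + s • k) - g.f0 p) - s * g.f1 (p + s • k) k - s * g.f1 p k) / s := by
      unfold Geo.Ev
      field_simp
    have e3 : g.Hp k s p (q - p) - g.f2 p k (q - p) =
        (g.f1 (p + s • k) (q - p) - g.f1 p (q - p) - s * g.f2 p (q - p) k) / s := by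
      unfold Geo.Hp
      rw [f2_comm g p k (q - p)]
      field_simp
    have h2' : |g.Ev k s p - g.f1 p k| ≤ C₀ * s ^ 2 * ‖k‖ ^ 3 := by
      rw [e2, abs_div, abs_of_pos hs, div_le_iff₀ hs]
      refine h2.trans (le_of_eq ?_)
      ring
    have h3' : |g.Hp k s p (q - p) - g.f2 p k (q - p)| ≤ C₀ * s * ‖k‖ ^ 2 * ‖q - p‖ := by
      rw [e3, abs_div, abs_of_pos hs, div_le_iff₀ hs]
      refine h3.trans (le_of_eq ?_)
      ring
    have hfin : g.Ev k s p + g.Hp k s p (q - p) - g.f1 q k = (g.Ev k s p - g.f1 p k) +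
        (g.Hp k s p (q - p) - g.f2 p k (q - p)) - (g.f1 q k - g.f1 p k - g.f2 p k (q - p)) := by ring
    rw [hfin]
    have hk0 := norm_nonneg k
    have hd0 := norm_nonneg (q - p)
    calc |(g.Ev k s p - g.f1 p k) + (g.Hp k s p (q - p) - g.f2 p k (q - p)) - (g.f1 q k - g.f1 p k - g.f2 p k (q - p))|
        ≤ |(g.Ev k s p - g.f1 p k) + (g.Hp k s p (q - p) - g.f2 p k (q - p))| +
            |g.f1 q k - g.f1 p k - g.f2 p k (q - p)| := abs_sub _ _
      _ ≤ (C₀ * s ^ 2 * ‖k‖ ^ 3 + C₀ * s * ‖k‖ ^ 2 * ‖q - p‖) + C₀ * ‖k‖ * ‖q - p‖ * ‖q - p‖ :=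
          add_le_add ((abs_add_le _ _).trans (add_le_add h2' h3')) h1
      _ ≤ 8 * C₀ * ‖k‖ * (‖q - p‖ + s * ‖k‖) ^ 2 := by
          have : 8 * C₀ * ‖k‖ * (‖q - p‖ + s * ‖k‖) ^ 2 -
              ((C₀ * s ^ 2 * ‖k‖ ^ 3 + C₀ * s * ‖k‖ ^ 2 * ‖q - p‖) + C₀ * ‖k‖ * ‖q - p‖ * ‖q - p‖) =
              C₀ * ‖k‖ * (7 * ‖q - p‖ ^ 2 + 15 * (s * ‖k‖ * ‖q - p‖) + 7 * (s * ‖k‖) ^ 2) := by ring
          have h5 : 0 ≤ C₀ * ‖k‖ * (7 * ‖q - p‖ ^ 2 + 15 * (s * ‖k‖ * ‖q - p‖) + 7 * (s * ‖k‖) ^ 2) := by positivity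
          linarith

end Pool.Agent.Helper19.BD
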