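import Pool.Agent.Helper19.BD.EBoxBd
import Pool.Agent.Helper19.BD.EFt
import Pool.Agent.Helper19.BD.EPoisson
import Pool.Agent.Helper71.BDA.PoisA

/-!
MP_bd232a_nt, part E, block E15 (one box). `r = i L_r`, `p = pj j`; `y = xb v`: `y₀/L_r - i = v₀`, `y_l/(y₀ τ) - j_l = v_l X/y₀` (`L_t = X τ`).
The summand of `Tij` at `y` is `Bx(v) · e(linear)`: `κ(φ(y+k)-φ(y)) = const + κL_rEv v₀ + κL_t Hp·v' + Rem(v)` and `L_r v₀ = y₀ - r`, `L_t v_l = y_l - y₀p_l`, so the phase is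
`const + ξ·y`, `ξ₀ = κ(Ev - p₁Hp₁ - p₂Hp₂)`, `ξ_l = κ Hp_l`. `poisson3` (a smooth compactly supported function is a Schwartz function:
`HasCompactSupport.toSchwartzMap` or similar) and the linear change of variables `y = xb v` (determinant `L_r L_t²`):
`|Tij| ≤ L_rL_t² Σ_n |B̂x(ζ_n)|`, `ζ_n = (L_r(n₀+n'·p - κEv), L_t(n₁-κHp₁), L_t(n₂-κHp₂))`, and `1+Σ|ζ_i| = Wt`. Use `boxBd`, `ftDecay` with `N = 10`. Also show that `n ↦ 1/Wt^10` is summable
(it is `≤ C/(1+|n|)^{10}` for fixed data) so that the `tsum` is meaningful. (helper71)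
-/

open scoped ContDiff
open MeasureTheory

namespace Pool.Agent.Helper19.BD

namespace TijAux

open Pool.Agent.Helper71

theorem ee_eq (t : ℝ) : BDA.ee t = ex t := rfl

theorem ex_add (s t : ℝ) : ex (s + t) = ex s * ex t := by
  unfold ex
  rw [← Complex.exp_add]
  congr 1
  push_cast
  ring

theorem norm_ex (t : ℝ) : ‖ex t‖ = 1 := by
  unfold ex
  rw [show (2 * (Real.pi : ℂ) * Complex.I * (t : ℂ)) = ((2 * Real.pi * t : ℝ) : ℂ) * Complex.I by push_cast; ring]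
  exact Complex.norm_exp_ofReal_mul_I _

theorem conj_ex (t : ℝ) : (starRingEnd ℂ) (ex t) = ex (-t) := by
  unfold ex
  rw [← Complex.exp_conj]
  congr 1
  have h2 : (starRingEnd ℂ) 2 = 2 := Complex.conj_ofNat 2
  simp [Complex.conj_ofReal, h2]

theorem continuous_ex : Continuous ex := by
  unfold ex
  fun_prop

/-- the matrix of the inverse box map -/
noncomputable def AA (a b : ℝ) (p : ℝ × ℝ) : Matrix (Fin 3) (Fin 3) ℝ :=
  !![1 / a, 0, 0; -p.1 / b, 1 / b, 0; -p.2 / b, 0, 1 / b]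

noncomputable def LL (a b : ℝ) (p : ℝ × ℝ) : Matrix (Fin 3) (Fin 3) ℝ :=
  !![a, 0, 0; a * p.1, b, 0; a * p.2, 0, b]

/-- the inverse box map -/
noncomputable def vv (a b r : ℝ) (p : ℝ × ℝ) (y : Fin 3 → ℝ) : Fin 3 → ℝ :=
  ![y 0 / a - r / a, (y 1 - y 0 * p.1) / b, (y 2 - y 0 * p.2) / b]

theorem AA_det {a b : ℝ} (p : ℝ × ℝ) : (AA a b p).det = 1 / (a * b ^ 2) := by
  simp [AA, Matrix.det_fin_three]
  ring

theorem AA_inv {a b : ℝ} (ha : a ≠ 0) (hb : b ≠ 0) (p : ℝ × ℝ) : (AA a b p)⁻¹ = LL a b p := by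
  apply Matrix.inv_eq_right_inv
  ext i j
  fin_cases i <;> fin_cases j <;>
    simp [AA, LL, Matrix.mul_apply, Fin.sum_univ_three, ha, hb] <;> field_simp <;> ring

theorem vv_eq (a b r : ℝ) (p : ℝ × ℝ) (y : Fin 3 → ℤ) :
    (AA a b p).mulVec (BDA.cst y) + ![-(r / a), 0, 0] = vv a b r p (BDA.cst y) := by
  ext i
  fin_cases i <;> simp [AA, vv, Matrix.mulVec, dotProduct, Fin.sum_univ_three] <;> ring

theorem dual_eq {a b : ℝ} (ha : a ≠ 0) (hb : b ≠ 0) (p : ℝ × ℝ) (n : Fin 3 → ℤ) :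
    BDA.dual (AA a b p) n = ![a * (n 0 + n 1 * p.1 + n 2 * p.2), b * n 1, b * n 2] := by
  unfold BDA.dual
  rw [AA_inv ha hb]
  ext i
  fin_cases i <;> simp [LL, BDA.cst, Matrix.mulVec, dotProduct, Fin.sum_univ_three] <;> ring

theorem box_poisson {a b : ℝ} (ha : 0 < a) (hb : 0 < b) (p : ℝ × ℝ) (r : ℝ) (B : (Fin 3 → ℝ) → ℂ) (hB : Continuous B)
    {V Cb C' : ℝ} (hV : ∀ v, B v ≠ 0 → ∀ i, |v i| ≤ V) (hCb : ∀ v, ‖B v‖ ≤ Cb)
    (hFT : ∀ ζ : Fin 3 → ℝ, ‖∫ v : Fin 3 → ℝ, B v * ex (-∑ i, ζ i * v i)‖ ≤ C' / (1 + ∑ i, |ζ i|) ^ 10)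
    (al : Fin 3 → ℝ) (c : ℝ) :
    ‖∑' y : Fin 3 → ℤ, ex c * (B (vv a b r p (BDA.cst y)) * ex (∑ i, al i * vv a b r p (BDA.cst y) i))‖ ≤
      C' * (a * b ^ 2) * ∑' n : Fin 3 → ℤ,
        1 / (1 + |a * (n 0 + n 1 * p.1 + n 2 * p.2) - al 0| + |b * n 1 - al 1| + |b * n 2 - al 2|) ^ 10 := by
  classical
  -- the test function
  set gg : (Fin 3 → ℝ) → ℂ := fun v => ex c * (B v * ex (∑ i, al i * v i)) with hgg
  have hggc : Continuous gg := by
    have h1 : Continuous fun v : Fin 3 → ℝ => ex (∑ i, al i * v i) := by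
      refine continuous_ex.comp ?_
      fun_prop
    exact continuous_const.mul (hB.mul h1)
  have hggn : ∀ v, ‖gg v‖ = ‖B v‖ := by
    intro v
    simp only [hgg, norm_mul, norm_ex, one_mul, mul_one]
  have hC' : 0 ≤ C' := by
    have h := (norm_nonneg _).trans (hFT 0)
    simpa using h
  have hCb0 : 0 ≤ Cb := (norm_nonneg _).trans (hCb 0)
  -- Fourier transform of the test function
  have hft : ∀ ξ : Fin 3 → ℝ, ‖BDA.FT gg ξ‖ ≤ C' / (1 + ∑ i, |ξ i - al i|) ^ 10 := by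
    intro ξ
    have h1 : BDA.FT gg ξ = ex c * ∫ v : Fin 3 → ℝ, B v * ex (-∑ i, (ξ i - al i) * v i) := by
      unfold BDA.FT
      rw [← integral_const_mul]
      refine integral_congr_ae (Filter.Eventually.of_forall fun v => ?_)
      simp only [ee_eq, hgg]
      have h2 : (-∑ i, (ξ i - al i) * v i) = (-∑ j, v j * ξ j) + ∑ i, al i * v i := by
        simp only [Fin.sum_univ_three]
        ring
      rw [h2, ex_add]
      ring
    rw [h1, norm_mul, norm_ex, one_mul]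
    exact hFT (fun i => ξ i - al i)
  -- comparison of the two weights
  have hcmp : ∀ ξ : Fin 3 → ℝ, (1 + ‖ξ‖) ≤ (1 + ∑ i, |al i|) * (1 + ∑ i, |ξ i - al i|) := by
    intro ξ
    have h1 : ‖ξ‖ ≤ ∑ i, |ξ i| := by
      rw [pi_norm_le_iff_of_nonneg (Finset.sum_nonneg fun i _ => abs_nonneg _)]
      intro i
      exact Finset.single_le_sum (f := fun i => |ξ i|) (fun i _ => abs_nonneg _) (Finset.mem_univ i)
    have h2 : ∑ i, |ξ i| ≤ ∑ i, |ξ i - al i| + ∑ i, |al i| := by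
      rw [← Finset.sum_add_distrib]
      refine Finset.sum_le_sum fun i _ => ?_
      have := abs_add_le (ξ i - al i) (al i)
      simpa using this
    have h3 : 0 ≤ ∑ i, |ξ i - al i| := Finset.sum_nonneg fun i _ => abs_nonneg _
    have h4 : 0 ≤ ∑ i, |al i| := Finset.sum_nonneg fun i _ => abs_nonneg _
    nlinarith [mul_nonneg h3 h4]
  have hA0 : 0 ≤ ∑ i, |al i| := Finset.sum_nonneg fun i _ => abs_nonneg _
  have hrp : ∀ x : ℝ, 0 < x → x ^ (-(10 : ℝ)) = 1 / x ^ 10 := by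
    intro x hx
    rw [Real.rpow_neg hx.le, one_div]
    norm_cast
  have hft2 : ∀ ξ : Fin 3 → ℝ, ‖BDA.FT gg ξ‖ ≤ (C' * (1 + ∑ i, |al i|) ^ 10) * (1 + ‖ξ‖) ^ (-(10 : ℝ)) := by
    intro ξ
    refine (hft ξ).trans ?_
    have h1 := hcmp ξ
    have h3 : 0 ≤ ∑ i, |ξ i - al i| := Finset.sum_nonneg fun i _ => abs_nonneg _
    have h5 : 0 < 1 + ‖ξ‖ := by positivity
    rw [hrp _ h5, mul_one_div, div_le_div_iff₀ (by positivity) (by positivity)]
    have h6 : (1 + ‖ξ‖) ^ 10 ≤ ((1 + ∑ i, |al i|) * (1 + ∑ i, |ξ i - al i|)) ^ 10 :=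
      pow_le_pow_left₀ h5.le h1 10
    calc C' * (1 + ‖ξ‖) ^ 10 ≤ C' * ((1 + ∑ i, |al i|) * (1 + ∑ i, |ξ i - al i|)) ^ 10 :=
          mul_le_mul_of_nonneg_left h6 hC'
      _ = _ := by rw [mul_pow, mul_assoc]
  have hdec : ∀ v, ‖gg v‖ ≤ (Cb * (1 + |V|) ^ 10) * (1 + ‖v‖) ^ (-(10 : ℝ)) := by
    intro v
    have h5 : 0 < 1 + ‖v‖ := by positivity
    rw [hggn, hrp _ h5, mul_one_div]
    by_cases hv : B v = 0
    · rw [hv, norm_zero]; positivity
    · have h1 : ‖v‖ ≤ |V| := by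
        rw [pi_norm_le_iff_of_nonneg (abs_nonneg _)]
        intro i
        exact ((hV v hv i).trans (le_abs_self V))
      rw [le_div_iff₀ (by positivity)]
      have h6 : (1 + ‖v‖) ^ 10 ≤ (1 + |V|) ^ 10 := pow_le_pow_left₀ h5.le (by linarith) 10
      exact mul_le_mul (hCb v) h6 (by positivity) hCb0
  -- Poisson
  have hdet : (AA a b p).det ≠ 0 := by
    rw [AA_det]
    positivity
  have hboth : ∀ C₁ C₂ : ℝ, 0 ≤ C₁ → 0 ≤ C₂ → ∀ x : ℝ, 0 ≤ x → C₁ * x ≤ (C₁ + C₂) * x ∧ C₂ * x ≤ (C₁ + C₂) * x := by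
    intro C₁ C₂ h1 h2 x hx
    constructor <;> nlinarith [mul_nonneg h1 hx, mul_nonneg h2 hx]
  have hq1 : 0 ≤ Cb * (1 + |V|) ^ 10 := by positivity
  have hq2 : 0 ≤ C' * (1 + ∑ i, |al i|) ^ 10 := by positivity
  obtain ⟨-, hsum, heq⟩ := BDA.poissonA (AA a b p) hdet gg hggc
    (C := Cb * (1 + |V|) ^ 10 + C' * (1 + ∑ i, |al i|) ^ 10) (p := 10) (by norm_num)
    (fun v => (hdec v).trans (hboth _ _ hq1 hq2 _ (by positivity)).1)
    (fun ξ => (hft2 ξ).trans (hboth _ _ hq1 hq2 _ (by positivity)).2)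
    ![-(r / a), 0, 0]
  have hleft : (∑' y : Fin 3 → ℤ, ex c * (B (vv a b r p (BDA.cst y)) * ex (∑ i, al i * vv a b r p (BDA.cst y) i))) =
      ∑' m : Fin 3 → ℤ, gg ((AA a b p).mulVec (BDA.cst m) + ![-(r / a), 0, 0]) := by
    refine tsum_congr fun y => ?_
    rw [vv_eq]
  have hW : ∀ n : Fin 3 → ℤ, ∑ i, |BDA.dual (AA a b p) n i - al i| =
      |a * (n 0 + n 1 * p.1 + n 2 * p.2) - al 0| + |b * n 1 - al 1| + |b * n 2 - al 2| := by
    intro n
    rw [dual_eq ha.ne' hb.ne', Fin.sum_univ_three]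
    simp
  -- summability of the right hand side
  have hsum2 : Summable fun n : Fin 3 → ℤ =>
      1 / (1 + |a * (n 0 + n 1 * p.1 + n 2 * p.2) - al 0| + |b * n 1 - al 1| + |b * n 2 - al 2|) ^ 10 := by
    have hdetT : ((AA a b p)⁻¹).transpose.det ≠ 0 := by
      rw [Matrix.det_transpose]
      have h1 : (AA a b p)⁻¹.det * (AA a b p).det = 1 :=
        Matrix.det_nonsing_inv_mul_det _ (isUnit_iff_ne_zero.2 hdet)
      intro h0
      rw [h0, zero_mul] at h1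
      exact zero_ne_one h1
    obtain ⟨cl, hcl, hlow⟩ := BDA.mulVec_lower _ hdetT
    have hs := (BDA.summable_int3 (p := 10) (by norm_num)).mul_left (((1 + ∑ i, |al i|) * (1 + 1 / cl)) ^ 10)
    refine Summable.of_nonneg_of_le (fun n => by positivity) (fun n => ?_) hs
    have h1 := hcmp (BDA.dual (AA a b p) n)
    rw [hW n] at h1
    have h2 : cl * ‖BDA.cst n‖ ≤ ‖BDA.dual (AA a b p) n‖ := hlow (BDA.cst n)
    have h3 : 1 + ‖BDA.cst n‖ ≤ (1 + 1 / cl) * (1 + ‖BDA.dual (AA a b p) n‖) := by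
      have h4 : ‖BDA.cst n‖ ≤ 1 / cl * ‖BDA.dual (AA a b p) n‖ := by
        rw [one_div, ← div_eq_inv_mul, le_div_iff₀ hcl]
        linarith
      have h5 : 0 ≤ ‖BDA.dual (AA a b p) n‖ := norm_nonneg _
      have h6 : 0 < 1 / cl := by positivity
      nlinarith
    set W : ℝ := |a * (n 0 + n 1 * p.1 + n 2 * p.2) - al 0| + |b * n 1 - al 1| + |b * n 2 - al 2| with hWdef
    have hW0 : 0 ≤ W := by positivity
    have h7 : 1 + ‖BDA.cst n‖ ≤ ((1 + ∑ i, |al i|) * (1 + 1 / cl)) * (1 + W) := by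
      calc 1 + ‖BDA.cst n‖ ≤ (1 + 1 / cl) * (1 + ‖BDA.dual (AA a b p) n‖) := h3
        _ ≤ (1 + 1 / cl) * ((1 + ∑ i, |al i|) * (1 + W)) := by
            refine mul_le_mul_of_nonneg_left h1 (by positivity)
        _ = _ := by ring
    have h8 : (1 + |a * (n 0 + n 1 * p.1 + n 2 * p.2) - al 0| + |b * n 1 - al 1| + |b * n 2 - al 2|) = 1 + W := by
      rw [hWdef]; ring
    have h9 : 0 < 1 + ‖BDA.cst n‖ := by positivity
    rw [h8, hrp _ h9, mul_one_div, div_le_div_iff₀ (by positivity) (by positivity), one_mul]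
    calc (1 + ‖BDA.cst n‖) ^ 10 ≤ (((1 + ∑ i, |al i|) * (1 + 1 / cl)) * (1 + W)) ^ 10 :=
          pow_le_pow_left₀ h9.le h7 10
      _ = _ := by rw [mul_pow]
  rw [hleft, heq, norm_mul]
  have hdetn : ‖((|(AA a b p).det| : ℝ) : ℂ)⁻¹‖ = a * b ^ 2 := by
    rw [norm_inv, Complex.norm_real, AA_det, Real.norm_eq_abs, abs_abs, abs_of_pos (by positivity)]
    field_simp
  rw [hdetn]
  have hT : ‖∑' n : Fin 3 → ℤ, BDA.FT gg (BDA.dual (AA a b p) n) *
      BDA.ee (∑ j, (![-(r / a), 0, 0] : Fin 3 → ℝ) j * BDA.dual (AA a b p) n j)‖ ≤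
      C' * ∑' n : Fin 3 → ℤ,
        1 / (1 + |a * (n 0 + n 1 * p.1 + n 2 * p.2) - al 0| + |b * n 1 - al 1| + |b * n 2 - al 2|) ^ 10 := by
    rw [← tsum_mul_left]
    refine tsum_of_norm_bounded (hsum2.mul_left C').hasSum fun n => ?_
    rw [norm_mul, ee_eq, norm_ex, mul_one]
    refine (hft _).trans ?_
    rw [hW n, mul_one_div, ← add_assoc, ← add_assoc]
  calc a * b ^ 2 * _ ≤ a * b ^ 2 * _ := mul_le_mul_of_nonneg_left hT (by positivity)
    _ = _ := by ring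

end TijAux

open TijAux Pool.Agent.Helper71 in
theorem tijBound (g : Geo) (ps : ℝ × ℝ) (hps : ps ∈ g.U) : ∃ d : ℝ, 0 < d ∧
    ∀ (κ₁ κ₂ : ℝ) (Ψ : (Fin 3 → ℝ) → ℂ) (η : ℝ → ℝ), 0 < κ₁ → κ₁ ≤ κ₂ → ContDiff ℝ ∞ Ψ → HasCompactSupport Ψ →
    tsupport Ψ ⊆ cone ps d → IsPU η → ∀ c₁ c₂ : ℝ, 0 < c₁ → c₁ ≤ c₂ → ∃ cs : ℝ, 0 < cs ∧ ∀ c₀, 0 < c₀ → c₀ ≤ cs →
    ∃ C X₀ : ℝ, 0 < C ∧ ∀ X h κ : ℝ, Reg X₀ X h → κ₁ ≤ κ → κ ≤ κ₂ → ∀ k ∈ KK h, ∀ i ∈ II c₀ c₁ c₂ X h, ∀ j ∈ JJ ps (2 * d) X h,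
      ‖Tij g Ψ η κ c₀ X h k i j‖ ≤ C * (Lr c₀ X h * Lt X h ^ 2) *
        ∑' n : Fin 3 → ℤ, 1 / (Wt g κ c₀ X h (cst k) (i * Lr c₀ X h) (pj X h j) n) ^ 10 := by
  obtain ⟨d, hd, H⟩ := boxBd g ps hps
  refine ⟨d, hd, ?_⟩
  intro κ₁ κ₂ Ψ η hκ hκ' hΨ hc hs hη c₁ c₂ hc1 hc12
  obtain ⟨cs, hcs, H2⟩ := H κ₁ κ₂ Ψ η 10 hκ hκ' hΨ hc hs hη c₁ c₂ hc1 hc12
  refine ⟨cs, hcs, ?_⟩
  intro c₀ hc0 hc0s
  obtain ⟨C, V, X₀, H3⟩ := H2 c₀ hc0 hc0s
  obtain ⟨C', hC'⟩ := ftDecay 10 V C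
  refine ⟨|C'| + 1, X₀, by positivity, ?_⟩
  intro X h κ hReg hκ1 hκ2 k hk i hi j hj
  obtain ⟨hX1, -, hh1, -⟩ := id hReg
  have hX : 0 < X := by linarith
  have hh : 0 < h := by linarith
  have hLr : 0 < Lr c₀ X h := by
    unfold Lr
    have : 0 < X / h := by positivity
    positivity
  have hLt : 0 < Lt X h := by
    unfold Lt
    exact Real.sqrt_pos.2 (by positivity)
  have hta : 0 < ta X h := by
    unfold ta
    have : 0 < √(h * X) := Real.sqrt_pos.2 (by positivity)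
    positivity
  have hLta : X / Lt X h = 1 / ta X h := by
    unfold Lt ta
    rw [one_div_one_div, div_eq_iff (Real.sqrt_pos.2 (by positivity)).ne', ← Real.sqrt_mul (by positivity)]
    rw [show h * X * (X / h) = X ^ 2 by field_simp, Real.sqrt_sq hX.le]
  have hk2 : ‖cst k‖ ≤ 2 * h := by
    unfold KK at hk
    exact (Finset.mem_filter.1 hk).2.2
  have hr1 : c₁ * X ≤ (i : ℝ) * Lr c₀ X h := by
    unfold II at hi
    have h1 := Int.ceil_le.1 (Finset.mem_Icc.1 hi).1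
    rwa [div_le_iff₀ hLr] at h1
  have hr2 : (i : ℝ) * Lr c₀ X h ≤ c₂ * X := by
    unfold II at hi
    have h1 := Int.le_floor.1 (Finset.mem_Icc.1 hi).2
    rwa [le_div_iff₀ hLr] at h1
  have hp : ‖pj X h j - ps‖ ≤ 2 * d := by
    unfold JJ at hj
    obtain ⟨h1, h2⟩ := Finset.mem_product.1 hj
    have h3 := Int.ceil_le.1 (Finset.mem_Icc.1 h1).1
    have h4 := Int.le_floor.1 (Finset.mem_Icc.1 h1).2
    have h5 := Int.ceil_le.1 (Finset.mem_Icc.1 h2).1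
    have h6 := Int.le_floor.1 (Finset.mem_Icc.1 h2).2
    rw [div_le_iff₀ hta] at h3 h5
    rw [le_div_iff₀ hta] at h4 h6
    rw [Prod.norm_def]
    refine max_le ?_ ?_
    · rw [Real.norm_eq_abs, abs_le]
      simp only [pj, Prod.fst_sub]
      constructor <;> linarith
    · rw [Real.norm_eq_abs, abs_le]
      simp only [pj, Prod.snd_sub]
      constructor <;> linarith
  obtain ⟨hsm, hsupp, hder⟩ := H3 X h κ hReg hκ1 hκ2 (cst k) hk2 _ hr1 hr2 (pj X h j) hp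
  set p := pj X h j with hpdef
  set a := Lr c₀ X h with ha
  set b := Lt X h with hb
  set r : ℝ := (i : ℝ) * a with hr
  set B := Bx g Ψ η κ c₀ X h (cst k) r p with hBdef
  have hCb : ∀ v, ‖B v‖ ≤ C := by
    intro v
    have h1 := hder v 0 0 (by norm_num)
    simpa only [iteratedDeriv_zero, Function.update_eq_self] using h1
  have hFT := hC' B hsm hsupp hder
  set al : Fin 3 → ℝ := ![κ * (a * g.Ev (cst k) (1 / r) p), κ * (b * g.Hp (cst k) (1 / r) p (1, 0)),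
    κ * (b * g.Hp (cst k) (1 / r) p (0, 1))] with hal
  set c : ℝ := κ * (g.phi (xb c₀ X h r p 0 + shr (cst k)) - g.phi (xb c₀ X h r p 0)) with hcdef
  have hmain := box_poisson hLr hLt p r B hsm.continuous hsupp hCb hFT al c
  have hxb : ∀ y : Fin 3 → ℤ, xb c₀ X h r p (vv a b r p (BDA.cst y)) = fun l => (y l : ℝ) := by
    intro y
    have h0 : r + a * ((y 0 : ℝ) / a - r / a) = y 0 := by field_simp; ring
    funext l
    fin_cases l
    · simpa [xb, vv, BDA.cst, ← ha, ← hb] using h0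
    · simp only [xb, vv, BDA.cst, ← ha, ← hb]
      simp only [Fin.isValue, Matrix.cons_val_zero, Matrix.cons_val_one, Fin.mk_one, h0]
      field_simp
      ring
    · simp only [xb, vv, BDA.cst, ← ha, ← hb]
      simp only [Fin.isValue, Matrix.cons_val_zero, Matrix.cons_val, Fin.reduceFinMk, h0]
      field_simp
      ring
  have hsh : ∀ y : Fin 3 → ℤ, (fun l => ((y + shz k) l : ℝ)) = (fun l => (y l : ℝ)) + shr (cst k) := by
    intro y
    funext l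
    fin_cases l <;> simp [shz, shr, cst]
  have hterm : ∀ y : Fin 3 → ℤ,
      (Ψ (fun l => ((y + shz k) l : ℝ) / X) * ex (κ * g.phi (fun l => ((y + shz k) l : ℝ)))) *
        (starRingEnd ℂ) (Ψ (fun l => (y l : ℝ) / X) * ex (κ * g.phi (fun l => (y l : ℝ)))) *
        ((η (y 0 / a - i) * η (y 1 / (y 0 * ta X h) - j.1) * η (y 2 / (y 0 * ta X h) - j.2) : ℝ) : ℂ) =
      ex c * (B (vv a b r p (BDA.cst y)) * ex (∑ i, al i * vv a b r p (BDA.cst y) i)) := by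
    intro y
    by_cases h0 : Ψ (fun l => (y l : ℝ) / X) = 0
    · have h1 : B (vv a b r p (BDA.cst y)) = 0 := by
        rw [hBdef]
        unfold Bx
        rw [hxb y, h0]
        simp
      rw [h1, h0]
      simp
    · have hy0 : 0 < (y 0 : ℝ) := by
        have h1 : (fun l => (y l : ℝ) / X) ∈ cone ps d := hs (subset_tsupport _ h0)
        have h2 : 0 < (y 0 : ℝ) / X := h1.1
        exact (div_pos_iff_of_pos_right hX).1 h2
      have hv0 : vv a b r p (BDA.cst y) 0 = y 0 / a - i := by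
        simp only [vv, BDA.cst, hr]
        simp [hLr.ne']
      have hx0 : xb c₀ X h r p (vv a b r p (BDA.cst y)) 0 = y 0 := by rw [hxb y]
      have hv1 : vv a b r p (BDA.cst y) 1 * X / y 0 = y 1 / (y 0 * ta X h) - j.1 := by
        have h1 : vv a b r p (BDA.cst y) 1 * X / y 0 = (y 1 - y 0 * p.1) * (X / b) / y 0 := by
          simp only [vv, BDA.cst]
          simp
          ring
        rw [h1, hLta, hpdef]
        simp only [pj]
        field_simp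
      have hv2 : vv a b r p (BDA.cst y) 2 * X / y 0 = y 2 / (y 0 * ta X h) - j.2 := by
        have h1 : vv a b r p (BDA.cst y) 2 * X / y 0 = (y 2 - y 0 * p.2) * (X / b) / y 0 := by
          simp only [vv, BDA.cst]
          simp
          ring
        rw [h1, hLta, hpdef]
        simp only [pj]
        field_simp
      have hB1 : B (vv a b r p (BDA.cst y)) =
          Ψ (fun l => ((fun l => (y l : ℝ)) + shr (cst k)) l / X) * (starRingEnd ℂ) (Ψ (fun l => (y l : ℝ) / X)) *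
          ((η (y 0 / a - i) * η (y 1 / (y 0 * ta X h) - j.1) * η (y 2 / (y 0 * ta X h) - j.2) : ℝ) : ℂ) *
          ex (Rem g κ c₀ X h (cst k) r p (vv a b r p (BDA.cst y))) := by
        rw [hBdef]
        unfold Bx
        rw [hx0, hv0, hv1, hv2, hxb y]
      have hR : ex c * (ex (Rem g κ c₀ X h (cst k) r p (vv a b r p (BDA.cst y))) *
          ex (∑ i, al i * vv a b r p (BDA.cst y) i)) =
          ex (κ * g.phi ((fun l => (y l : ℝ)) + shr (cst k))) * ex (-(κ * g.phi (fun l => (y l : ℝ)))) := by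
        rw [← ex_add, ← ex_add, ← ex_add]
        congr 1
        unfold Rem
        rw [hxb y, hcdef, Fin.sum_univ_three, hal]
        simp only [Fin.isValue, Matrix.cons_val_zero, Matrix.cons_val_one, Matrix.cons_val]
        rw [← ha, ← hb]
        ring
      rw [hB1, hsh y, map_mul, conj_ex]
      have h3 : (fun l => ((y + shz k) l : ℝ) / X) = fun l => ((fun l => (y l : ℝ)) + shr (cst k)) l / X := by
        rw [← hsh y]
      rw [h3]
      calc _ = Ψ (fun l => ((fun l => (y l : ℝ)) + shr (cst k)) l / X) * (starRingEnd ℂ) (Ψ (fun l => (y l : ℝ) / X)) *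
          ((η (y 0 / a - i) * η (y 1 / (y 0 * ta X h) - j.1) * η (y 2 / (y 0 * ta X h) - j.2) : ℝ) : ℂ) *
          (ex (κ * g.phi ((fun l => (y l : ℝ)) + shr (cst k))) * ex (-(κ * g.phi (fun l => (y l : ℝ))))) := by ring
        _ = _ := by rw [← hR]; ring
  have hT : Tij g Ψ η κ c₀ X h k i j =
      ∑' y : Fin 3 → ℤ, ex c * (B (vv a b r p (BDA.cst y)) * ex (∑ i, al i * vv a b r p (BDA.cst y) i)) := by
    unfold Tij
    exact tsum_congr hterm
  rw [hT]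
  refine hmain.trans ?_
  have hW : ∀ n : Fin 3 → ℤ, 1 / (1 + |a * (n 0 + n 1 * p.1 + n 2 * p.2) - al 0| + |b * n 1 - al 1| + |b * n 2 - al 2|) ^ 10 =
      1 / (Wt g κ c₀ X h (cst k) r p n) ^ 10 := by
    intro n
    have e1 : |a * (n 0 + n 1 * p.1 + n 2 * p.2) - al 0| =
        a * |κ * g.Ev (cst k) (1 / r) p - (n 0 + n 1 * p.1 + n 2 * p.2)| := by
      rw [← abs_of_pos hLr, ← abs_mul, abs_of_pos hLr, abs_sub_comm, hal]
      congr 1
      simp only [Matrix.cons_val_zero]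
      ring
    have e2 : |b * n 1 - al 1| = b * |κ * g.Hp (cst k) (1 / r) p (1, 0) - n 1| := by
      rw [← abs_of_pos hLt, ← abs_mul, abs_of_pos hLt, abs_sub_comm, hal]
      congr 1
      simp only [Matrix.cons_val_one, Matrix.cons_val_zero]
      ring
    have e3 : |b * n 2 - al 2| = b * |κ * g.Hp (cst k) (1 / r) p (0, 1) - n 2| := by
      rw [← abs_of_pos hLt, ← abs_mul, abs_of_pos hLt, abs_sub_comm, hal]
      congr 1
      simp only [Matrix.cons_val]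
      ring
    rw [e1, e2, e3]
    rfl
  have hS : (∑' n : Fin 3 → ℤ,
      1 / (1 + |a * (n 0 + n 1 * p.1 + n 2 * p.2) - al 0| + |b * n 1 - al 1| + |b * n 2 - al 2|) ^ 10) =
      ∑' n : Fin 3 → ℤ, 1 / (Wt g κ c₀ X h (cst k) r p n) ^ 10 := tsum_congr hW
  rw [hS]
  have hW0 : 0 ≤ ∑' n : Fin 3 → ℤ, 1 / (Wt g κ c₀ X h (cst k) r p n) ^ 10 := by
    refine tsum_nonneg fun n => ?_
    rw [← hW n]
    positivity
  refine mul_le_mul_of_nonneg_right ?_ hW0
  refine mul_le_mul_of_nonneg_right ?_ (by positivity)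
  linarith [le_abs_self C']

end Pool.Agent.Helper19.BD
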