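import Pool.Agent.Helper19.BD.Defs

/-!
MP_bd232a_nt: interface between part A (Hecke theory of F_nu, helper88) and parts C, E, F.
Part A has to construct one term of the structure `HeckeF`; parts B, C, E, F prove `HeckeF → Final`.
-/

open Complex
open scoped ContDiff

namespace Pool.Agent.Helper19.BD

/-- The data of the functional equation of `F_ν` for `K = ℚ(ζ₇)⁺`: `Q = 7 π^{-3/2}`, `λ_j = 1/2`, `μ_j = -i ν_j / 2`. -/
noncomputable def feNu (nu : Fin 3 → ℝ) (om : ℂ) (hom : ‖om‖ = 1) : FE where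
  Q := 7 * Real.pi ^ (-(3 / 2) : ℝ)
  k := 3
  lam := fun _ => 1 / 2
  mu := fun j => -(I * nu j) / 2
  om := om
  hQ := by positivity
  hlam := fun _ => by norm_num
  hmu := fun j => by simp
  hom := hom

/-- Everything the other parts use about `F_ν`. -/
structure HeckeF where
  nu : Fin 3 → ℝ
  F : ℂ → ℂ
  a : ℕ → ℂ
  om : ℂ
  hom : ‖om‖ = 1
  nu_ne : ∀ j, nu j ≠ 0
  nu_sum : ∑ j, nu j = 0
  /-- `F` is entire -/
  diff : Differentiable ℂ F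
  /-- `F` is in the Selberg class with the explicit functional equation -/
  selberg : IsSelbergWith F a (feNu nu om hom)
  a_zero : a 0 = 0
  a_one : a 1 = 1
  /-- functional equation in terms of `Γ_ℝ` -/
  fe : ∀ s : ℂ, 0 < s.re → s.re < 1 →
    (7 : ℂ) ^ s * (∏ j, Gammaℝ (s - I * nu j)) * F s =
      om * ((7 : ℂ) ^ (1 - s) * (∏ j, Gammaℝ (1 - s + I * nu j)) *
        (starRingEnd ℂ) (F (1 - (starRingEnd ℂ) s)))
  /-- polynomial growth in vertical strips -/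
  growth : ∀ σ₁ σ₂ : ℝ, ∃ A C : ℝ, ∀ s : ℂ, σ₁ ≤ s.re → s.re ≤ σ₂ → ‖F s‖ ≤ C * (1 + |s.im|) ^ A
  /-- zeros in `Re s < 0` are trivial -/
  zeros_left : ∀ s : ℂ, s.re < 0 → F s = 0 → ∃ (j : Fin 3) (m : ℕ), 1 ≤ m ∧ s = I * nu j - 2 * m
  /-- no zeros on `Re s = 0` except `i ν_j` -/
  zeros_zero : ∀ t : ℝ, (∀ j, t ≠ nu j) → F (t * I) ≠ 0
  /-- primes `p ≢ 0, ±1 mod 7` are inert: an ideal with norm divisible by `p` is `p J`, and `χ(pJ) = χ(J)` -/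
  inert : ∀ p : ℕ, p.Prime → p % 7 ≠ 0 → p % 7 ≠ 1 → p % 7 ≠ 6 → ∀ n : ℕ, 1 ≤ n →
    a (p * n) = if p ^ 2 ∣ n then a (n / p ^ 2) else 0
  /-- the twists by even Dirichlet characters are entire -/
  twist : ∀ (m : ℕ) [NeZero m] (ψ : DirichletCharacter ℂ m), ψ.Even → ∃ G : ℂ → ℂ, Differentiable ℂ G ∧
    ∀ s : ℂ, 1 < s.re → G s = LSeries (fun n => ψ n * a n) s
  /-- lattice representation of the coefficients: `A` = a basis of `O` in `ℝ³`, `w = Ψ₀ · ∏ |x_j|^{i ν_j}`, homogeneous of degree 0,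
  smooth, supported in a cone where all coordinates are comparable. -/
  A : Matrix (Fin 3) (Fin 3) ℝ
  hA : A.det ≠ 0
  w : (Fin 3 → ℝ) → ℂ
  w_smooth : ContDiffOn ℝ ∞ w {x | ∀ j, x j ≠ 0}
  w_hom : ∀ (t : ℝ) (x : Fin 3 → ℝ), 0 < t → w (t • x) = w x
  w_supp : ∃ K : ℝ, 1 < K ∧ ∀ x, w x ≠ 0 → ∀ i j, |x i| ≤ K * |x j|
  w_zero : w 0 = 0
  coeff : ∀ n : ℕ, 1 ≤ n → a n = (1 / 2) * ∑' y : Fin 3 → ℤ,
    if |∏ j, A.mulVec (fun i => (y i : ℝ)) j| = n then w (A.mulVec (fun i => (y i : ℝ))) else 0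
  /-- norms of lattice points are integers -/
  norm_int : ∀ y : Fin 3 → ℤ, ∃ n : ℕ, |∏ j, A.mulVec (fun i => (y i : ℝ)) j| = n

end Pool.Agent.Helper19.BD
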